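import Pool.Agent.Lib.MP_5591bc_ag.Hy.Set

/-! Laurent series. -/

namespace Pool.Agent.Lib.MP_5591bc_ag.Hy

open MvPolynomial Matrix

noncomputable section

variable {Λ Λ' : Type*} [CommRing Λ] [CommRing Λ'] {κ : Λ →+* Λ'} {D : Λ →+ Λ} {D' : Λ' →+ Λ'}
  {W : Subring Λ} {x y : HahnSeries ℤ Λ} {M M' : ℤ}

theorem coeff_dh (E : Λ →+ Λ') (x : HahnSeries ℤ Λ) (k : ℤ) : (dh E x).coeff k = E (x.coeff k) := by
  rfl

theorem coeff_hm (κ : Λ →+* Λ') (x : HahnSeries ℤ Λ) (k : ℤ) : (hm κ x).coeff k = κ (x.coeff k) := by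
  rfl

theorem od_ex (x : HahnSeries ℤ Λ) : ∃ M, Od M x := by
  exact ⟨x.order, fun _ hk => HahnSeries.coeff_eq_zero_of_lt_order hk⟩

theorem Od.coeff_mul (h : Od M x) (h' : Od M' y) (k : ℤ) :
    (x * y).coeff k = ∑ i ∈ Finset.Icc M (k - M'), x.coeff i * y.coeff (k - i) := by
  rw [HahnSeries.coeff_mul]
  symm
  refine Finset.sum_bij_ne_zero (fun i _ _ => (i, k - i)) ?_ ?_ ?_ ?_
  · intro i _ h0
    rw [Finset.mem_antidiagonal]
    exact ⟨left_ne_zero_of_mul h0, right_ne_zero_of_mul h0, by simp⟩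
  · intro i _ _ j _ _ e
    exact congrArg Prod.fst e
  · rintro ⟨i, j⟩ hm h0
    rw [Finset.mem_antidiagonal] at hm
    obtain ⟨h1, h2, rfl⟩ := hm
    have a1 : M ≤ i := not_lt.mp fun c => h1 (h i c)
    have a2 : M' ≤ j := not_lt.mp fun c => h2 (h' j c)
    refine ⟨i, Finset.mem_Icc.mpr ⟨a1, by dsimp only; omega⟩, by simpa using h0, by simp⟩
  · intro i _ _
    rfl

theorem IsD.dh (h : IsD D) : IsD (dh D) := by
  intro a b
  obtain ⟨M, hM⟩ := od_ex a
  obtain ⟨M', hM'⟩ := od_ex b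
  have h1 : Od M (Hy.dh D a) := fun k hk => by rw [coeff_dh, hM k hk, map_zero]
  have h2 : Od M' (Hy.dh D b) := fun k hk => by rw [coeff_dh, hM' k hk, map_zero]
  ext k
  rw [coeff_dh, HahnSeries.coeff_add, hM.coeff_mul hM', hM.coeff_mul h2, h1.coeff_mul hM', map_sum,
    ← Finset.sum_add_distrib]
  exact Finset.sum_congr rfl fun i _ => by rw [h, coeff_dh, coeff_dh]

theorem dh_single (E : Λ →+ Λ') (k : ℤ) (a : Λ) :
    dh E (HahnSeries.single k a) = HahnSeries.single k (E a) := by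
  ext i
  rw [coeff_dh, HahnSeries.coeff_single, HahnSeries.coeff_single]
  split_ifs
  exacts [rfl, map_zero E]

theorem dh_C (E : Λ →+ Λ') (a : Λ) : dh E (HahnSeries.C a) = HahnSeries.C (E a) := by
  exact dh_single E 0 a

theorem IsD.dh_si (h : IsD D) : Hy.dh D (si Λ) = 0 := by
  have h1 : D 1 = 0 := by
    have := h 1 1
    rw [mul_one, one_mul, mul_one] at this
    exact left_eq_add.mp this
  rw [si, dh_single, h1, map_zero]

theorem hm_single (κ : Λ →+* Λ') (k : ℤ) (a : Λ) :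
    hm κ (HahnSeries.single k a) = HahnSeries.single k (κ a) := by
  ext i
  rw [coeff_hm, HahnSeries.coeff_single, HahnSeries.coeff_single]
  split_ifs
  exacts [rfl, map_zero κ]

theorem hm_C (κ : Λ →+* Λ') (a : Λ) : hm κ (HahnSeries.C a) = HahnSeries.C (κ a) := by
  exact hm_single κ 0 a

theorem hm_si (κ : Λ →+* Λ') : hm κ (si Λ) = si Λ' := by
  rw [si, hm_single, map_one, si]

theorem ku_C (a : Λ) : ku Λ (Polynomial.C a) = HahnSeries.C a := by
  exact Polynomial.eval₂_C _ _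

theorem ku_X : ku Λ Polynomial.X = si Λ := by
  exact Polynomial.eval₂_X _ _

theorem hm_ku (κ : Λ →+* Λ') (ρ : Polynomial Λ) : hm κ (ku Λ ρ) = ku Λ' (ρ.map κ) := by
  induction ρ using Polynomial.induction_on' with
  | add p q hp hq => rw [map_add, map_add, hp, hq, Polynomial.map_add, map_add]
  | monomial n a =>
    rw [← Polynomial.C_mul_X_pow_eq_monomial, Polynomial.map_mul, Polynomial.map_pow,
      Polynomial.map_C, Polynomial.map_X, map_mul, map_mul, map_mul, map_pow, map_pow, map_pow,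
      ku_C, ku_C, ku_X, ku_X, hm_C, hm_si]

theorem dh_hm (h : ∀ a, D' (κ a) = κ (D a)) (x : HahnSeries ℤ Λ) :
    dh D' (hm κ x) = hm κ (dh D x) := by
  ext k
  rw [coeff_dh, coeff_hm, coeff_hm, coeff_dh, h]

theorem hs_ku_monomial (n : ℕ) (a : Λ) :
    ku Λ (Polynomial.monomial n a) = HahnSeries.single (-(n : ℤ)) a := by
  rw [← Polynomial.C_mul_X_pow_eq_monomial, map_mul, map_pow, ku_C, ku_X, si,
    HahnSeries.single_pow, HahnSeries.C_apply, HahnSeries.single_mul_single]
  simp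

theorem coeff_ku (ρ : Polynomial Λ) (k : ℤ) :
    (ku Λ ρ).coeff k = if k ≤ 0 then ρ.coeff (-k).toNat else 0 := by
  induction ρ using Polynomial.induction_on' with
  | add p q hp hq =>
    rw [map_add, HahnSeries.coeff_add, hp, hq, Polynomial.coeff_add]
    split_ifs
    exacts [rfl, add_zero _]
  | monomial n a =>
    rw [hs_ku_monomial, HahnSeries.coeff_single, Polynomial.coeff_monomial]
    split_ifs <;> first | rfl | omega

theorem ku_inj : Function.Injective (ku Λ) := by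
  intro p q h
  ext n
  have := congrArg (fun z => z.coeff (-(n : ℤ))) h
  simpa only [coeff_ku, neg_neg, Int.toNat_natCast, Left.neg_nonpos_iff, Int.natCast_nonneg,
    if_true] using this

theorem ku_mem {ρ : Polynomial Λ} (h : ∀ k, ρ.coeff k ∈ W) : ku Λ ρ ∈ hS W := by
  intro k
  rw [coeff_ku]
  split_ifs
  exacts [h _, W.zero_mem]

theorem hs_single (k : ℤ) {a : Λ} (h : a ∈ W) : HahnSeries.single k a ∈ hS W := by
  intro i
  rw [HahnSeries.coeff_single]
  split_ifs
  exacts [h, W.zero_mem]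

theorem hS_C {a : Λ} (h : a ∈ W) : HahnSeries.C a ∈ hS W := by
  exact hs_single 0 h

theorem hS_si : si Λ ∈ hS W := by
  exact hs_single _ W.one_mem

theorem Od.mono (h : Od M x) (k : M' ≤ M) : Od M' x := by
  exact fun i hi => h i (hi.trans_le k)

theorem Od.add (h : Od M x) (h' : Od M y) : Od M (x + y) := by
  intro k hk
  rw [HahnSeries.coeff_add, h k hk, h' k hk, add_zero]

theorem Od.mul (h : Od M x) (h' : Od M' y) : Od (M + M') (x * y) := by
  intro k hk
  rw [h.coeff_mul h', Finset.Icc_eq_empty (by omega), Finset.sum_empty]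

theorem Od.sum {α : Type*} {s : Finset α} {z : α → HahnSeries ℤ Λ} (h : ∀ i ∈ s, Od M (z i)) :
    Od M (∑ i ∈ s, z i) := by
  intro k hk
  rw [HahnSeries.coeff_sum]
  exact Finset.sum_eq_zero fun i hi => h i hi k hk

theorem hS_inv {F : Type*} [Field F] {W : Subring F} {x : HahnSeries ℤ F} (h : x ∈ hS W)
    (h0 : x.leadingCoeff⁻¹ ∈ W) : x⁻¹ ∈ hS W := by
  by_cases hx : x = 0
  · rw [hx, _root_.inv_zero]
    exact (hS W).zero_mem
  have hl : x.leadingCoeff ≠ 0 := HahnSeries.leadingCoeff_ne_zero.mpr hx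
  have ho : Od x.order x := fun _ hk => HahnSeries.coeff_eq_zero_of_lt_order hk
  obtain ⟨M, hM⟩ := od_ex x⁻¹
  have key : ∀ n : ℕ, ∀ k < M + n, (x⁻¹).coeff k ∈ W := by
    intro n
    induction n with
    | zero => intro k hk; rw [hM k (by simpa using hk)]; exact W.zero_mem
    | succ n ih =>
      intro k hk
      by_cases hk' : k < M + n
      · exact ih k hk'
      have e := hM.coeff_mul ho (k + x.order)
      rw [inv_mul_cancel₀ hx, add_sub_cancel_right,
        ← Finset.add_sum_erase _ _ (Finset.mem_Icc.mpr ⟨(by omega : M ≤ k), le_rfl⟩),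
        add_sub_cancel_left, ← HahnSeries.leadingCoeff_eq] at e
      have e2 : (x⁻¹).coeff k = ((1 : HahnSeries ℤ F).coeff (k + x.order) -
          ∑ i ∈ (Finset.Icc M k).erase k, (x⁻¹).coeff i * x.coeff (k + x.order - i)) *
          x.leadingCoeff⁻¹ := by
        rw [e, add_sub_cancel_right, mul_inv_cancel_right₀ hl]
      rw [e2]
      refine W.mul_mem (W.sub_mem ((hS W).one_mem _) (sum_mem fun i hi => W.mul_mem (ih i ?_) (h _))) h0
      rw [Finset.mem_erase, Finset.mem_Icc] at hi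
      push_cast at hk
      omega
  intro k
  exact key (k - M + 1).toNat k (by omega)

end

end Pool.Agent.Lib.MP_5591bc_ag.Hy
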