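import Pool.Agent.Lib.MP_5591bc_ag.Hy.Phi
import Pool.Agent.Lib.MP_5591bc_ag.Hy.Hs

/-! The deformation from the singular point. -/

namespace Pool.Agent.Lib.MP_5591bc_ag.Hy

open MvPolynomial Matrix

noncomputable section

variable {ι Λ Λ' : Type*} [CommRing Λ] [CommRing Λ'] [Algebra ℚ Λ] [Algebra ℚ Λ'] [Fintype ι]
  [DecidableEq ι] {n δ : ℕ} {κ : Λ →+* Λ'} {p : (ι →₀ ℕ) → Λ'} {D : Λ →+ Λ} {D' : Λ' →+ Λ'}
  {G A : MvPolynomial ι Λ}

omit [DecidableEq ι] in
theorem fer_der (i : ι) : pderiv i (fer Λ n) = X i ^ (n + 1) := by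
  have h1 : (C (algebraMap ℚ Λ ((n + 2 : ℕ) : ℚ)⁻¹) : MvPolynomial ι Λ) * ((n + 2 : ℕ) : _) = 1 := by
    rw [← map_natCast (C : Λ →+* MvPolynomial ι Λ), ← map_mul, ← map_natCast (algebraMap ℚ Λ),
      ← map_mul, inv_mul_cancel₀ (by positivity), map_one, map_one]
  rw [fer, map_sum, Finset.sum_eq_single i]
  · rw [pderiv_C_mul, Derivation.leibniz_pow, pderiv_X_self, nsmul_eq_mul, smul_eq_mul, mul_one,
      ← mul_assoc, h1, one_mul]
    rfl
  · intro j _ hj
    rw [pderiv_C_mul, Derivation.leibniz_pow, pderiv_X_of_ne hj, smul_zero, smul_zero, mul_zero]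
  · intro h
    exact absurd (Finset.mem_univ i) h

omit [Algebra ℚ Λ'] in
theorem lau_neg (f : PowerSeries Λ') {k : ℤ} (hk : k < 0) :
    (HahnSeries.ofPowerSeries ℤ Λ' f).coeff k = 0 := by
  rw [HahnSeries.ofPowerSeries_apply]
  apply HahnSeries.embDomain_of_notMem_range
  rintro ⟨m, hm⟩
  have : (m : ℤ) = k := hm
  omega

omit [DecidableEq ι] in
theorem lv_od (v : ι →₀ ℕ) : Od 0 (lv n κ p v) := by
  have h1 : Od 0 (HahnSeries.single (wJ n v : ℤ) (1 : Λ')) := fun k hk =>
    HahnSeries.coeff_single_of_ne (by omega)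
  have h2 : Od 0 (HahnSeries.ofPowerSeries ℤ Λ' (phv κ p (fer Λ n) v)) := fun k hk => lau_neg _ hk
  simpa only [add_zero, lv] using h1.mul h2

omit [Algebra ℚ Λ] [Algebra ℚ Λ'] in
theorem lau_kpC (a : Λ) : kp κ (Polynomial.C a) = PowerSeries.C (κ a) := by
  simp [kp]

omit [Algebra ℚ Λ] [Algebra ℚ Λ'] in
theorem lau_kpX : kp κ Polynomial.X = PowerSeries.X := by
  simp [kp]

omit [DecidableEq ι] in
theorem lv_homA (hA : A.IsHomogeneous δ) : sx (hm κ) (lv n κ p) (A.map HahnSeries.C) =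
    HahnSeries.single ((δ / (n + 2) : ℕ) : ℤ) 1 * HahnSeries.ofPowerSeries ℤ Λ'
      (sx (kp κ) (phv κ p (fer Λ n)) (A.map Polynomial.C)) := by
  rw [sx_map, sx_map, sx, sx, map_sum, Finset.mul_sum]
  refine Finset.sum_congr rfl fun v hv => ?_
  have hd : v.degree = δ := by
    rw [Finsupp.degree_eq_weight_one]
    exact hA (mem_support_iff.mp hv)
  rw [RingHom.comp_apply, RingHom.comp_apply, hm_C, lau_kpC, map_mul, HahnSeries.ofPowerSeries_C,
    lv, wJ, hd]
  ring

omit [DecidableEq ι] in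
theorem lv_hom (hA : A.IsHomogeneous δ) :
    (sx (hm κ) (lv n κ p) (A.map HahnSeries.C)).coeff ((δ / (n + 2) : ℕ) : ℤ) = sx κ p A := by
  rw [lv_homA hA]
  have h1 := HahnSeries.coeff_single_mul_add (r := (1 : Λ')) (b := ((δ / (n + 2) : ℕ) : ℤ))
    (a := ((0 : ℕ) : ℤ)) (x := HahnSeries.ofPowerSeries ℤ Λ'
      (sx (kp κ) (phv κ p (fer Λ n)) (A.map Polynomial.C)))
  rw [HahnSeries.ofPowerSeries_apply_coeff, one_mul, Nat.cast_zero, zero_add] at h1
  rw [h1, PowerSeries.coeff_zero_eq_constantCoeff_apply, phi_zero, MvPolynomial.map_map]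
  have : (Polynomial.evalRingHom (0 : Λ)).comp Polynomial.C = RingHom.id Λ := by
    ext a
    simp
  rw [this, MvPolynomial.map_id]

omit [DecidableEq ι] in
theorem lv_kil (hG : G.IsHomogeneous (n + 2)) (h : Kil κ p fun i => pderiv i G) :
    Kil (hm κ) (lv n κ p) (gL n G) := by
  intro i w
  have hw : (monomial w (1 : Λ)).IsHomogeneous w.degree := isHomogeneous_monomial _ rfl
  have h1 : (pderiv i (monomial w (1 : Λ))).IsHomogeneous (w.degree - 1) := hw.pderiv
  have h2 : (monomial w (1 : Λ) * X i ^ (n + 1)).IsHomogeneous (w.degree + (n + 1)) :=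
    hw.mul (isHomogeneous_X_pow i (n + 1))
  have h3 : (monomial w (1 : Λ) * pderiv i G).IsHomogeneous (w.degree + (n + 1)) :=
    hw.mul (hG.pderiv (i := i))
  have e1 : pderiv i (monomial w 1) + monomial w 1 * gL n G i =
      (pderiv i (monomial w (1 : Λ))).map HahnSeries.C +
        (monomial w (1 : Λ) * X i ^ (n + 1)).map HahnSeries.C +
          C (si Λ) * (monomial w (1 : Λ) * pderiv i G).map HahnSeries.C := by
    simp only [gF, ← pderiv_map, map_mul, map_pow, map_X, map_monomial, map_one]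
    ring
  have e2 := phi_kil (G := fer Λ n) h i w
  have e3 : pderiv i (monomial w 1) + monomial w 1 * ((pderiv i G).map Polynomial.C +
      C Polynomial.X * pderiv i ((fer Λ n).map Polynomial.C)) =
      (pderiv i (monomial w (1 : Λ))).map Polynomial.C +
        C Polynomial.X * (monomial w (1 : Λ) * X i ^ (n + 1)).map Polynomial.C +
          (monomial w (1 : Λ) * pderiv i G).map Polynomial.C := by
    rw [pderiv_map (f := fer Λ n), fer_der]
    simp only [← pderiv_map, map_mul, map_pow, map_X, map_monomial, map_one]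
    ring
  rw [e3, sx_add, sx_add, sx_C_mul, lau_kpX] at e2
  have e4 := congrArg (HahnSeries.ofPowerSeries ℤ Λ') e2
  rw [map_add, map_add, map_mul, HahnSeries.ofPowerSeries_X, map_zero] at e4
  have e5 : sx (hm κ) (lv n κ p) ((pderiv i (monomial w (1 : Λ))).map HahnSeries.C) =
      HahnSeries.single ((((w.degree + (n + 1)) / (n + 2) : ℕ) : ℤ) - 1) 1 *
        HahnSeries.ofPowerSeries ℤ Λ' (sx (kp κ) (phv κ p (fer Λ n))
          ((pderiv i (monomial w (1 : Λ))).map Polynomial.C)) := by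
    rcases Nat.eq_zero_or_pos w.degree with h0 | h0
    · have : w = 0 := (Finsupp.degree_eq_zero_iff w).mp h0
      subst this
      have : pderiv i (monomial (0 : ι →₀ ℕ) (1 : Λ)) = 0 := by simp
      simp only [this, map_zero, sx_zero, mul_zero]
    · rw [lv_homA h1]
      have : (w.degree + (n + 1)) / (n + 2) = (w.degree - 1) / (n + 2) + 1 := by
        rw [← Nat.add_div_right _ (by omega : 0 < n + 2)]
        congr 1
        omega
      rw [this, Nat.cast_add, Nat.cast_one, add_sub_cancel_right]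
  rw [e1, sx_add, sx_add, sx_C_mul, hm_si, e5, lv_homA h2, lv_homA h3]
  generalize (((w.degree + (n + 1)) / (n + 2) : ℕ) : ℤ) = J
  have s1 : (HahnSeries.single J (1 : Λ')) =
      HahnSeries.single (J - 1) 1 * HahnSeries.single 1 1 := by
    rw [HahnSeries.single_mul_single, sub_add_cancel, one_mul]
  have s2 : si Λ' * HahnSeries.single J (1 : Λ') = HahnSeries.single (J - 1) 1 := by
    rw [si, HahnSeries.single_mul_single, one_mul, neg_add_eq_sub]
  rw [← mul_assoc, s2, s1]
  rw [← mul_zero (HahnSeries.single (J - 1) (1 : Λ')), ← e4]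
  ring

omit [DecidableEq ι] in
theorem lau_dm (hD : IsD D) (v : ι →₀ ℕ) (j : ℕ) :
    dm D (monomial v 1 * fer Λ n ^ j) = 0 := by
  have h0 : dm D (fer Λ n : MvPolynomial ι Λ) = 0 := by
    rw [fer, map_sum]
    refine Finset.sum_eq_zero fun i _ => ?_
    rw [hD.dm, dm_C, hD.rat, hD.dm.pow, hD.dm_X, mul_zero, mul_zero, map_zero, zero_mul,
      add_zero]
  have h1 : dm D (fer Λ n ^ j : MvPolynomial ι Λ) = 0 := by
    cases j with
    | zero => rw [pow_zero, hD.dm.one]
    | succ j => rw [hD.dm.pow, h0, mul_zero]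
  rw [hD.dm, h1, dm_monomial, hD.one, mul_zero, map_zero, zero_mul, add_zero]

omit [DecidableEq ι] in
theorem lv_der (hG : G.IsHomogeneous (n + 2)) (hD : IsD D) (hD' : IsD D')
    (h : ∀ a, D' (κ a) = κ (D a)) (hp : ∀ v, D' (p v) = sx κ p (monomial v 1 * dm D G))
    (B : MvPolynomial ι (HahnSeries ℤ Λ)) :
    dh D' (sx (hm κ) (lv n κ p) B) = sx (hm κ) (lv n κ p) (nb D G B) := by
  refine sx_der hD'.dh (dh_hm h) (fun v => ?_) B
  have hv : (monomial v (1 : Λ) * dm D G).IsHomogeneous (v.degree + (n + 2)) :=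
    (isHomogeneous_monomial _ rfl).mul (dm_hom D hG)
  have e1 : monomial v 1 * (C (si Λ) * (dm D G).map HahnSeries.C) =
      C (si Λ) * (monomial v (1 : Λ) * dm D G).map HahnSeries.C := by
    simp only [map_mul, map_monomial, map_one]
    ring
  have e2 : dh D' (HahnSeries.ofPowerSeries ℤ Λ' (phv κ p (fer Λ n) v)) =
      HahnSeries.ofPowerSeries ℤ Λ' (sx (kp κ) (phv κ p (fer Λ n))
        ((monomial v (1 : Λ) * dm D G).map Polynomial.C)) := by
    ext k
    rw [coeff_dh]
    rcases lt_or_ge k 0 with hk | hk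
    · rw [lau_neg _ hk, lau_neg _ hk, map_zero]
    · obtain ⟨j, rfl⟩ := Int.eq_ofNat_of_zero_le hk
      rw [HahnSeries.ofPowerSeries_apply_coeff, HahnSeries.ofPowerSeries_apply_coeff, phi_map, phv,
        PowerSeries.coeff_mk, PowerSeries.coeff_mk, hD', hD'.rat, zero_mul, add_zero,
        sx_der hD' h hp, lau_dm hD, zero_add, mul_right_comm]
  rw [e1, sx_C_mul, hm_si, lv_homA hv, Nat.add_div_right _ (by omega : 0 < n + 2), lv, hD'.dh, e2,
    dh_single, hD'.one, map_zero, zero_mul, add_zero, ← mul_assoc, si,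
    HahnSeries.single_mul_single, one_mul, wJ, Nat.cast_add, Nat.cast_one,
    neg_add_cancel_comm_assoc]

end

end Pool.Agent.Lib.MP_5591bc_ag.Hy
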