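import Pool.Agent.Lib.MP_5591bc_ag.Hy.Tay
import Pool.Agent.Lib.MP_5591bc_ag.Hy.Lau

/-! The Taylor coefficients of the periods. -/

namespace Pool.Agent.Lib.MP_5591bc_ag.Hy

open MvPolynomial Matrix Cu Cv

noncomputable section

variable {ι σ ν F : Type} [Field F] [Fintype ι] [DecidableEq ι] [Fintype σ] [DecidableEq σ]
  [Fintype ν] [DecidableEq ν] {n δ : ℕ} {G A : MvPolynomial ι F} {R : Subring ℂ}
  {D : σ → F →+ F} {j : F →+* MvPowerSeries σ ℂ} {p : (ι →₀ ℕ) → MvPowerSeries σ ℂ}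
  {c : (ι →₀ ℕ) → (ι → Fin (n + 1)) → HahnSeries ℤ F}

/-- the derivative of power series as an additive map -/
def alg2_d (l : σ) : MvPowerSeries σ ℂ →+ MvPowerSeries σ ℂ :=
  (MvPowerSeries.pderiv ℂ l).toLinearMap.toAddMonoidHom

omit [Fintype σ] [DecidableEq σ] in
theorem alg2_d_apply (l : σ) (g : MvPowerSeries σ ℂ) :
    alg2_d l g = MvPowerSeries.pderiv ℂ l g := rfl

omit [Fintype σ] [DecidableEq σ] in
theorem alg2_isD (l : σ) : IsD (alg2_d l) := fun a b => by
  simp only [alg2_d_apply, Derivation.leibniz, smul_eq_mul]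
  ring

theorem alg_id (h : DF R D j) (hG : G.IsHomogeneous (n + 2)) (hA : A.IsHomogeneous δ)
    (hC : Cl n G c) (hp : PV D j G p) : ∃ z : (ι → Fin (n + 1)) → ℤ → ℂ, ∀ (M : ℤ) (w : List σ),
      (∀ a, Od M (cl c (nw D G w (A.map HahnSeries.C)) a)) →
      wf w * MvPowerSeries.coeff (wk w) (sx j p A) =
        ∑ a, ∑ k ∈ Finset.Icc M ((δ / (n + 2) : ℕ) : ℤ),
          ep j ((cl c (nw D G w (A.map HahnSeries.C)) a).coeff k) * z a k := by
  have _ : CharZero F := (ep j).charZero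
  refine ⟨fun a k => MvPowerSeries.constantCoeff
    ((lv n j p (ee a)).coeff (((δ / (n + 2) : ℕ) : ℤ) - k)), fun M w hM => ?_⟩
  have h1 : ∀ (w : List σ) (B : MvPolynomial ι (HahnSeries ℤ F)) (k : ℤ),
      (sx (hm j) (lv n j p) (nw D G w B)).coeff k =
        w.foldr (fun l g => MvPowerSeries.pderiv ℂ l g) ((sx (hm j) (lv n j p) B).coeff k) := by
    intro w B k
    induction w with
    | nil => rfl
    | cons l w ih =>
      have e := lv_der (n := n) (κ := j) (p := p) (D' := alg2_d l) hG (h.isD l) (alg2_isD l)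
        (fun a => (h.der l a).symm) (hp.der l) (nw D G w B)
      rw [List.foldr_cons, ← ih, ← alg2_d_apply, ← coeff_dh, e]
      rfl
  have h2 := h1 w (A.map HahnSeries.C) ((δ / (n + 2) : ℕ) : ℤ)
  rw [lv_hom hA, hC.univ (lv_kil hG hp.kil), HahnSeries.coeff_sum] at h2
  rw [← dw_coeff, ← h2, map_sum]
  refine Finset.sum_congr rfl fun a _ => ?_
  have h3 : Od M (hm j (cl c (nw D G w (A.map HahnSeries.C)) a)) := fun k hk => by
    rw [coeff_hm, hM a k hk, map_zero]
  rw [h3.coeff_mul (lv_od _), sub_zero, map_sum]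
  refine Finset.sum_congr rfl fun k _ => ?_
  rw [map_mul, coeff_hm]
  rfl

theorem alg_beta (h : DF R D j) {P : Matrix ν ν (MvPowerSeries σ ℂ)} {B : σ → Matrix ν ν F}
    (hB : ∀ l i k, MvPowerSeries.pderiv ℂ l (P i k) = ∑ a, j (B l i a) * P a k) (κ : σ →₀ ℕ)
    (i : ν) : ∃ β : ν → ℂ, (∀ a, IsAlgebraic R (β a)) ∧ ∀ k, MvPowerSeries.coeff κ (P i k) =
      ∑ a, β a * MvPowerSeries.constantCoeff (P a k) := by
  obtain ⟨w, rfl⟩ := wk_surj κ
  have h1 : ∃ b : ν → F, ∀ k, w.foldr (fun l g => MvPowerSeries.pderiv ℂ l g) (P i k) =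
      ∑ a, j (b a) * P a k := by
    induction w with
    | nil =>
      refine ⟨fun a => if a = i then 1 else 0, fun k => ?_⟩
      simp [apply_ite j]
    | cons l w ih =>
      obtain ⟨b, hb⟩ := ih
      refine ⟨fun a => D l (b a) + ∑ a', b a' * B l a' a, fun k => ?_⟩
      rw [List.foldr_cons, hb, map_sum]
      simp only [Derivation.leibniz, smul_eq_mul, hB, map_add, map_sum, map_mul, h.der, add_mul,
        Finset.sum_add_distrib, Finset.mul_sum, Finset.sum_mul]
      rw [add_comm, Finset.sum_comm]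
      congr 1
      · exact Finset.sum_congr rfl fun _ _ => mul_comm _ _
      · exact Finset.sum_congr rfl fun _ _ => Finset.sum_congr rfl fun _ _ => by ring
  obtain ⟨b, hb⟩ := h1
  have h0 : (wf w : ℂ) ≠ 0 := Nat.cast_ne_zero.2 (wf_pos w).ne'
  refine ⟨fun a => (wf w : ℂ)⁻¹ * ep j (b a), fun a => ?_, fun k => ?_⟩
  · exact (isAlgebraic_algebraMap (⟨_, natCast_mem R (wf w)⟩ : R)).inv.mul (h.alg _)
  · have h2 := dw_coeff w (P i k)
    rw [hb, map_sum] at h2
    simp only [mul_assoc]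
    rw [← Finset.mul_sum, eq_inv_mul_iff_mul_eq₀ h0, ← h2]
    exact Finset.sum_congr rfl fun a _ => map_mul _ _ _

end

end Pool.Agent.Lib.MP_5591bc_ag.Hy
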