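import Pool.Agent.Lib.MP_5591bc_ag.Hy.Alg1
import Pool.Agent.Lib.MP_5591bc_ag.Hy.Alg2

/-! The condition of Galochkin, algebraic form. -/

namespace Pool.Agent.Lib.MP_5591bc_ag.Hy

open MvPolynomial Matrix Cu Cv

noncomputable section

variable {ι σ ν F : Type} [Field F] [Fintype ι] [DecidableEq ι] [Fintype σ] [DecidableEq σ]
  [Fintype ν] [DecidableEq ν] {n δ : ℕ} {G A : MvPolynomial ι F} {R : Subring ℂ}
  {D : σ → F →+ F} {j : F →+* MvPowerSeries σ ℂ} {p : (ι →₀ ℕ) → MvPowerSeries σ ℂ}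
  {c : (ι →₀ ℕ) → (ι → Fin (n + 1)) → HahnSeries ℤ F}

theorem alg (h : DF R D j) (hR : HP R) (hG : G.IsHomogeneous (n + 2))
    (hI : ∀ v, IsIntegral R (ep j (coeff v G))) {A : ν → MvPolynomial ι F}
    (hA : ∀ i, (A i).IsHomogeneous δ) {p : ν → (ι →₀ ℕ) → MvPowerSeries σ ℂ}
    (hp : ∀ k, PV D j G (p k)) {B : σ → Matrix ν ν F}
    (hB : ∀ l i k, MvPowerSeries.pderiv ℂ l (sx j (p k) (A i)) = ∑ a, j (B l i a) * sx j (p k) (A a))
    {P : Matrix ν ν ℂ} (e0 : ∀ i k, P i k = MvPowerSeries.constantCoeff (sx j (p k) (A i)))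
    (d0 : P.det ≠ 0) (i i' : ν) : GP R (∑ k, sx j (p k) (A i) * MvPowerSeries.C (P⁻¹ k i')) := by
  obtain ⟨c, hC, h1⟩ := alg1 h hR hG hI
  obtain ⟨M, hM, h2⟩ := h1 δ (A i) (hA i)
  obtain ⟨b, bR, b0, e, h3⟩ := h2 ((δ / (n + 2) : ℕ) : ℤ)
  choose z hz using fun k => alg_id h hG (hA i) hC (hp k)
  obtain ⟨b', bR', b0', h4⟩ := spz (R := R)
    (fun (x : (ι → Fin (n + 1)) × Finset.Icc M ((δ / (n + 2) : ℕ) : ℤ)) k => z k x.1 x.2) d0
  refine ⟨b * b', R.mul_mem bR bR', mul_ne_zero b0 b0', e, fun κ => ?_⟩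
  obtain ⟨w, rfl⟩ := wk_surj κ
  obtain ⟨β, ha, hβ⟩ := alg_beta h (P := Matrix.of fun i k => sx j (p k) (A i)) hB (wk w) i
  simp only [Matrix.of_apply, ← e0] at hβ
  choose y hy1 hy2 using fun x : (ι → Fin (n + 1)) × Finset.Icc M ((δ / (n + 2) : ℕ) : ℤ) =>
    h3 w x.1 x.2 (Finset.mem_Icc.1 x.2.2).2
  set L : ℂ := (Nat.lcmUpto (e * (w.length + 1)) : ℂ) ^ e * b ^ (w.length + 1) with hL
  have LR : L ∈ R := R.mul_mem (R.pow_mem (natCast_mem R _) _) (R.pow_mem bR _)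
  have w0 : (wf w : ℂ) ≠ 0 := Nat.cast_ne_zero.2 (wf_pos w).ne'
  have h5 := h4 y (fun a => L * β a) hy1
    (fun a => (isAlgebraic_algebraMap (⟨L, LR⟩ : R)).mul (ha a)) (by
      funext k
      have e1 : ((fun a => L * β a) ᵥ* P) k =
          L * MvPowerSeries.coeff (wk w) (sx j (p k) (A i)) := by
        rw [hβ k, Finset.mul_sum]
        simp only [vecMul, dotProduct, mul_assoc]
      rw [e1, Finset.sum_apply]
      apply mul_left_cancel₀ w0
      rw [mul_left_comm, hz k M w (hM w), Finset.mul_sum, Finset.mul_sum, Fintype.sum_prod_type]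
      refine Finset.sum_congr rfl fun a _ => ?_
      rw [Finset.mul_sum, ← Finset.sum_coe_sort (Finset.Icc M _)]
      refine Finset.sum_congr rfl fun x _ => ?_
      rw [Pi.smul_apply, smul_eq_mul, ← mul_assoc, ← hy2 (a, x), mul_assoc]) i'
  have e2 : MvPowerSeries.coeff (wk w) (∑ k, sx j (p k) (A i) * MvPowerSeries.C (P⁻¹ k i')) =
      β i' := by
    have e3 : ((β ᵥ* P) ᵥ* P⁻¹) i' = β i' := by
      rw [vecMul_vecMul, mul_nonsing_inv P (isUnit_iff_ne_zero.2 d0), vecMul_one]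
    rw [map_sum, ← e3]
    simp only [MvPowerSeries.coeff_mul_C, hβ, vecMul, dotProduct]
  rw [e2, wk_degree]
  have e4 : (Nat.lcmUpto (e * (w.length + 1)) : ℂ) ^ e * (b * b') ^ (w.length + 1) * β i' =
      b' ^ w.length * (b' * (L * β i')) := by
    rw [hL]
    ring
  rw [e4]
  exact ((isIntegral_algebraMap (x := (⟨b', bR'⟩ : R))).pow _).mul h5

end

end Pool.Agent.Lib.MP_5591bc_ag.Hy
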