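import Pool.Agent.Lib.MP_5591bc_ag.Hy.Hs

/-! From one derivation to all. -/

namespace Pool.Agent.Lib.MP_5591bc_ag.Hy

open MvPolynomial Matrix

noncomputable section

variable {μ σ F : Type} [Field F] [Fintype μ] [Fintype σ] [DecidableEq σ]

theorem bnd_od (p : PowerSeries F) : Od 0 (HahnSeries.ofPowerSeries ℤ F p) := fun k hk => by
  rw [PowerSeries.coeff_coe, if_pos hk]

theorem bnd_ex {M : ℤ} {x : HahnSeries ℤ F} (h : Od M x) :
    ∃ p : PowerSeries F, x = HahnSeries.ofPowerSeries ℤ F p * HahnSeries.single M 1 := by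
  refine ⟨PowerSeries.mk fun n => x.coeff (M + n), ?_⟩
  ext k
  obtain ⟨j, rfl⟩ : ∃ j, k = j + M := ⟨k - M, by ring⟩
  rw [HahnSeries.coeff_mul_single_add, mul_one, PowerSeries.coeff_coe]
  split_ifs with hj
  · exact h _ (by omega)
  · rw [PowerSeries.coeff_mk]
    congr 1
    omega

omit [Fintype μ] in
theorem bnd_sm (p : PowerSeries F) (v : μ → HahnSeries ℤ F) :
    p • v = HahnSeries.ofPowerSeries ℤ F p • v := by
  funext i
  exact Algebra.smul_def p (v i)

/-- the vectors of order at least `M` -/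
def bndS (μ F : Type) [Field F] (M : ℤ) : Submodule (PowerSeries F) (μ → HahnSeries ℤ F) where
  carrier := {v | ∀ i, Od M (v i)}
  zero_mem' := fun _ _ _ => rfl
  add_mem' := fun ha hb i => (ha i).add (hb i)
  smul_mem' := fun p v hv i => by
    have := (bnd_od p).mul (hv i)
    rw [zero_add] at this
    rw [bnd_sm]
    exact this

theorem bnd_fg (M : ℤ) : (bndS μ F M).FG := by
  classical
  refine Submodule.FG.of_le (T := Submodule.span (PowerSeries F)
    (Set.range fun i : μ => (Pi.single i (HahnSeries.single M 1) : μ → HahnSeries ℤ F)))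
    (Submodule.fg_span (Set.finite_range _)) fun v hv => ?_
  rw [← Finset.univ_sum_single v]
  refine sum_mem fun i _ => ?_
  obtain ⟨p, hp⟩ := bnd_ex (hv i)
  have : (Pi.single i (v i) : μ → HahnSeries ℤ F) =
      p • (Pi.single i (HahnSeries.single M 1) : μ → HahnSeries ℤ F) := by
    rw [bnd_sm, ← Pi.single_smul, hp, smul_eq_mul]
  rw [this]
  exact Submodule.smul_mem _ _ (Submodule.subset_span ⟨i, rfl⟩)

omit [Fintype μ] in
theorem bnd_st {D : F →+ F} {N : (μ → HahnSeries ℤ F) →+ (μ → HahnSeries ℤ F)} (hN : IsN D N)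
    {Y : Set (μ → HahnSeries ℤ F)} (hY : ∀ v ∈ Y, N v ∈ Y) {v : μ → HahnSeries ℤ F}
    (hv : v ∈ Submodule.span (PowerSeries F) Y) : N v ∈ Submodule.span (PowerSeries F) Y := by
  induction hv using Submodule.span_induction with
  | mem x hx => exact Submodule.subset_span (hY x hx)
  | zero => rw [map_zero]; exact zero_mem _
  | add x z _ _ hx hz => rw [map_add]; exact add_mem hx hz
  | smul p x hx h =>
    have o : Od 0 (dh D (HahnSeries.ofPowerSeries ℤ F p)) := fun k hk => by
      rw [coeff_dh, bnd_od p k hk, map_zero]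
    obtain ⟨q, hq⟩ := bnd_ex o
    rw [HahnSeries.single_zero_one, mul_one] at hq
    rw [bnd_sm, hN, hq, ← bnd_sm, ← bnd_sm]
    exact add_mem (Submodule.smul_mem _ _ hx) (Submodule.smul_mem _ _ h)

theorem bnd_min {α : Type} {s : Set α} (hs : s.Finite) {P : α → ℤ → Prop}
    (hm : ∀ a M M', P a M → M' ≤ M → P a M') (h : ∀ a ∈ s, ∃ M, P a M) : ∃ M, ∀ a ∈ s, P a M := by
  choose! M hM using h
  obtain ⟨m, k⟩ := (hs.image M).bddBelow
  exact ⟨m, fun a ha => hm a _ _ (hM a ha) (k ⟨a, ha, rfl⟩)⟩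

theorem bnd {D : σ → F →+ F} {N : σ → (μ → HahnSeries ℤ F) →+ (μ → HahnSeries ℤ F)}
    (hN : ∀ l, IsN (D l) (N l)) {y : List σ → μ → HahnSeries ℤ F}
    (hp : ∀ w w', w.Perm w' → y w = y w') (hy : ∀ l w, y (l :: w) = N l (y w))
    (hk : ∀ l w, ∃ M, ∀ m i, Od M (y (List.replicate m l ++ w) i)) : ∃ M, ∀ w i, Od M (y w i) := by
  have key : ∀ L : List σ, ∃ M, ∀ w : List σ, (∀ x ∈ w, x ∈ L) → ∀ i, Od M (y w i) := fun L => by
    induction L with
    | nil =>
      obtain ⟨M, hM⟩ := bnd_min (Set.toFinite (Set.univ : Set μ)) (P := fun i M => Od M (y [] i))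
        (fun _ _ _ h k => h.mono k) fun _ _ => od_ex _
      refine ⟨M, fun w hw i => ?_⟩
      rw [List.eq_nil_iff_forall_not_mem.2 fun x hx => List.not_mem_nil (hw x hx)]
      exact hM i trivial
    | cons l L ih =>
      obtain ⟨M, hM⟩ := ih
      have fg : (Submodule.span (PowerSeries F) (y '' {w | ∀ x ∈ w, x ∈ L})).FG :=
        (bnd_fg M).of_le (Submodule.span_le.2 (by rintro _ ⟨w, hw, rfl⟩; exact hM w hw))
      obtain ⟨T, hT, e⟩ := (Submodule.fg_span_iff_fg_span_finset_subset _).1 fg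
      obtain ⟨W, -, hW, hTW⟩ := Set.Finite.exists_subset_finite_image_eq T.finite_toSet hT
      obtain ⟨M', hM'⟩ := bnd_min hW (P := fun w M => ∀ m i, Od M (y (List.replicate m l ++ w) i))
        (fun _ _ _ h k m i => (h m i).mono k) fun w _ => hk l w
      let Y := {v | ∃ m, ∃ w ∈ W, v = y (List.replicate m l ++ w)}
      have hY : ∀ v ∈ Y, N l v ∈ Y := by
        rintro _ ⟨m, w, hw, rfl⟩
        exact ⟨m + 1, w, hw, by rw [List.replicate_succ, List.cons_append, hy]⟩
      have le : Submodule.span (PowerSeries F) Y ≤ bndS μ F M' :=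
        Submodule.span_le.2 (by rintro _ ⟨m, w, hw, rfl⟩; exact hM' w hw m)
      have all : ∀ w : List σ, (∀ x ∈ w, x ∈ L) → ∀ m,
          y (List.replicate m l ++ w) ∈ Submodule.span (PowerSeries F) Y := fun w hw m => by
        induction m with
        | zero =>
          have : y w ∈ Submodule.span (PowerSeries F) (T : Set (μ → HahnSeries ℤ F)) :=
            e ▸ Submodule.subset_span ⟨w, hw, rfl⟩
          refine Submodule.span_mono ?_ this
          rw [← hTW]
          rintro _ ⟨u, hu, rfl⟩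
          exact ⟨0, u, hu, rfl⟩
        | succ m ih2 =>
          rw [List.replicate_succ, List.cons_append, hy]
          exact bnd_st (hN l) hY ih2
      refine ⟨M', fun w hw => ?_⟩
      have pm := List.filter_append_perm (· == l) w
      rw [List.filter_beq] at pm
      rw [← hp _ _ pm]
      refine le (all _ (fun x hx => ?_) _)
      obtain ⟨h1, h2⟩ := List.mem_filter.1 hx
      exact (List.mem_cons.1 (hw x h1)).resolve_left (by simpa using h2)
  obtain ⟨M, hM⟩ := key Finset.univ.toList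
  exact ⟨M, fun w => hM w fun x _ => by simp⟩

end

end Pool.Agent.Lib.MP_5591bc_ag.Hy
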