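import Pool.Agent.Lib.MP_5591bc_ag.Hy.TayI

/-! Denominators of the classes of the derivatives of a form. -/

namespace Pool.Agent.Lib.MP_5591bc_ag.Hy

open MvPolynomial Matrix Cu Cv

noncomputable section

variable {ι σ ν F : Type} [Field F] [Fintype ι] [DecidableEq ι] [Fintype σ] [DecidableEq σ]
  [Fintype ν] [DecidableEq ν] {n δ : ℕ} {G A : MvPolynomial ι F} {R : Subring ℂ}
  {D : σ → F →+ F} {j : F →+* MvPowerSeries σ ℂ} {p : (ι →₀ ℕ) → MvPowerSeries σ ℂ}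
  {c : (ι →₀ ℕ) → (ι → Fin (n + 1)) → HahnSeries ℤ F}

theorem gb_den {n c0 J0 i L : ℕ} (hi : i ≤ L) : den n c0 (J0 + i) ∣
    Nat.lcmUpto ((c0 * (J0 + 1) + J0 + c0 + 1) * (L + 1)) ^ (c0 * (J0 + 1) + J0 + c0 + 1) *
      ((n + 2) ^ (c0 * (J0 + 1))) ^ (L + 1) := by
  have h1 : c0 * (J0 + i + 1) ≤ c0 * (J0 + 1) * (L + 1) := by
    rw [mul_assoc]
    exact Nat.mul_le_mul_left _ (by nlinarith)
  have h2 : c0 * (J0 + 1) * (L + 1) ≤ (c0 * (J0 + 1) + J0 + c0 + 1) * (L + 1) :=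
    Nat.mul_le_mul_right _ (by omega)
  refine mul_dvd_mul ?_ ?_
  · exact (pow_dvd_pow_of_dvd (Finset.lcm_mono (Finset.Icc_subset_Icc_right (h1.trans h2))) _).trans
      (pow_dvd_pow _ (by omega))
  · rw [← pow_mul]
    exact pow_dvd_pow _ h1

theorem gb_num {R : Subring ℂ} {t y x r b1 : ℂ} {J i d q W : ℕ} (hd : d ≠ 0) (hW : W ≠ 0)
    (ht : IsIntegral R (b1 * t)) (hy : IsIntegral R y) (hx : (i.factorial : ℂ) * x = W * t)
    (hr : (d : ℂ) * r = (J + i).factorial * y) :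
    IsIntegral R (((d * q : ℕ) : ℂ) * b1 / W * x * r) := by
  obtain ⟨u, hu⟩ : i.factorial ∣ (J + i).factorial := Nat.factorial_dvd_factorial (by omega)
  have i0 : (i.factorial : ℂ) ≠ 0 := by exact_mod_cast i.factorial_ne_zero
  have d0 : (d : ℂ) ≠ 0 := by exact_mod_cast hd
  have W0 : (W : ℂ) ≠ 0 := by exact_mod_cast hW
  have e : ((d * q : ℕ) : ℂ) * b1 / W * x * r = ((q * u : ℕ) : ℂ) * (b1 * t * y) := by
    have e1 : x = W * t / i.factorial := by rw [← hx]; field_simp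
    have e2 : r = (J + i).factorial * y / d := by rw [← hr]; field_simp
    rw [e1, e2, hu]
    push_cast
    field_simp
  rw [e]
  exact (isIntegral_natCast _).mul (ht.mul hy)

theorem gb (h : DF R D j) (hG : G.IsHomogeneous (n + 2)) (hA : A.IsHomogeneous δ)
    {τ : Polynomial F} {c0 : ℕ} (hτ : ∀ k, IsIntegral R (ep j (τ.coeff k)))
    (hc : ∀ v a, ∃ ρ : Polynomial F, ku F τ ^ (wJ n v + c0) * c v a = ku F ρ ∧ ∀ k, ∃ y,
      IsIntegral R (ep j y) ∧ (den n c0 (wJ n v) : F) * ρ.coeff k = (wJ n v).factorial * y) :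
    ∃ b ∈ R, b ≠ 0 ∧ ∃ e : ℕ, ∀ (w : List σ) a, ∃ z ∈ hS (Rb R),
      HahnSeries.C ((Nat.lcmUpto (e * (w.length + 1)) : ℂ) ^ e * b ^ (w.length + 1)) *
        (hm (ep j) (ku F τ) ^ (e * (w.length + 1)) *
          hm (ep j) (cl c (nw D G w (A.map HahnSeries.C)) a)) = HahnSeries.C (wf w : ℂ) * z := by
  obtain ⟨b1, hb1, b0, hb⟩ := tay_int h A G
  set J0 := δ / (n + 2) with hJ0
  have n0 : ((n + 2 : ℕ) : ℂ) ≠ 0 := by exact_mod_cast (by omega : n + 2 ≠ 0)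
  refine ⟨((n + 2 : ℕ) : ℂ) ^ (c0 * (J0 + 1)) * b1, mul_mem (pow_mem (natCast_mem R _) _) hb1,
    mul_ne_zero (pow_ne_zero _ n0) b0, c0 * (J0 + 1) + J0 + c0 + 1, fun w a => ?_⟩
  set e := c0 * (J0 + 1) + J0 + c0 + 1 with he
  set M : ℂ := (Nat.lcmUpto (e * (w.length + 1)) : ℂ) ^ e *
    (((n + 2 : ℕ) : ℂ) ^ (c0 * (J0 + 1)) * b1) ^ (w.length + 1) with hM
  have W0 : wf w ≠ 0 := (wf_pos w).ne'
  have W1 : (wf w : ℂ) ≠ 0 := by exact_mod_cast W0
  refine ⟨HahnSeries.C (M / wf w) * (hm (ep j) (ku F τ) ^ (e * (w.length + 1)) *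
    hm (ep j) (cl c (nw D G w (A.map HahnSeries.C)) a)), ?_, ?_⟩
  swap
  · rw [← mul_assoc (HahnSeries.C (wf w : ℂ)), ← map_mul, mul_div_cancel₀ _ W1]
  obtain ⟨B, h1, h2, h3⟩ := tay_ex h hG w hA
  have hT : hm (ep j) (ku F τ) ∈ hS (Rb R) := by
    rw [hm_ku]
    exact ku_mem fun k => by rw [Polynomial.coeff_map]; exact hτ k
  unfold cl
  rw [h2, sx_sum, map_sum, Finset.mul_sum, Finset.mul_sum]
  refine sum_mem fun i hi => ?_
  have hi' : i ≤ w.length := Nat.lt_succ_iff.1 (Finset.mem_range.1 hi)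
  rw [sx_C_mul, sx_map]
  unfold sx
  rw [Finset.mul_sum, map_sum, Finset.mul_sum, Finset.mul_sum]
  refine sum_mem fun v hv => ?_
  have hJ : wJ n v = J0 + i := by
    have : v.degree = δ + (n + 2) * i := by
      rw [Finsupp.degree_eq_weight_one]
      exact h1 i (mem_support_iff.1 hv)
    unfold wJ
    rw [this, hJ0, Nat.add_mul_div_left _ _ (by omega)]
  obtain ⟨ρ, r1, r2⟩ := hc v a
  rw [hJ] at r1 r2
  obtain ⟨E, hE⟩ : ∃ E, e * (w.length + 1) = E + (J0 + i + c0) := by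
    refine ⟨_, (Nat.sub_add_cancel ?_).symm⟩
    have l0 : J0 + c0 + 1 ≤ e := by
      rw [he]
      linarith [Nat.zero_le (c0 * (J0 + 1))]
    have l1 : w.length ≤ e * w.length := Nat.le_mul_of_pos_left _ ((Nat.succ_pos _).trans_le l0)
    rw [mul_add_one]
    clear_value e J0
    omega
  have r3 := congrArg (hm (ep j)) r1
  rw [map_mul, map_pow, hm_ku _ ρ] at r3
  have key : HahnSeries.C (M / wf w) * (hm (ep j) (ku F τ) ^ (e * (w.length + 1)) *
      hm (ep j) ((RingHom.id _) (si F ^ i) *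
        (((RingHom.id _).comp HahnSeries.C) (coeff v (B i)) * c v a))) =
      hm (ep j) (ku F τ) ^ E * si ℂ ^ i *
        ku ℂ (Polynomial.C (M / wf w * ep j (coeff v (B i))) * ρ.map (ep j)) := by
    rw [map_mul (ku ℂ), ku_C, ← r3, hE, pow_add, map_mul, map_mul, RingHom.id_apply, map_pow, hm_si,
      RingHom.comp_apply, RingHom.id_apply, hm_C, map_mul]
    ring
  rw [key]
  refine mul_mem (mul_mem (pow_mem hT _) (pow_mem hS_si _)) (ku_mem fun k => ?_)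
  obtain ⟨y, y1, y2⟩ := r2 k
  obtain ⟨q, hq⟩ := gb_den (n := n) (c0 := c0) (J0 := J0) hi'
  have y3 := congrArg (ep j) y2
  rw [map_mul, map_mul, map_natCast, map_natCast] at y3
  have t1 := hb i v (wk w)
  rw [wk_degree] at t1
  have d0 : den n c0 (J0 + i) ≠ 0 :=
    mul_ne_zero (pow_ne_zero _ (Nat.lcmUpto_ne_zero _)) (pow_ne_zero _ (by omega))
  have := gb_num (q := q) d0 W0 t1 y1 (h3 i v) y3
  rw [← hq] at this
  rw [Polynomial.coeff_C_mul, Polynomial.coeff_map]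
  refine (congrArg (IsIntegral R) ?_).mp this
  rw [hM]
  push_cast
  ring

end

end Pool.Agent.Lib.MP_5591bc_ag.Hy
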