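import Pool.Agent.Lib.MP_5591bc_ag.Hy.Hs
import Pool.Agent.Lib.MP_5591bc_ag.Rg.Linv

/-! A cyclic vector. -/

namespace Pool.Agent.Lib.MP_5591bc_ag.Hy

open MvPolynomial Matrix

noncomputable section

variable {μ F : Type} [Field F] [Fintype μ] [DecidableEq μ] {R : Subring ℂ} {ε : F →+* ℂ}
  {D : F →+ F} {N : (μ → HahnSeries ℤ F) →+ (μ → HahnSeries ℤ F)} {y : ℕ → μ → HahnSeries ℤ F}
  {r : ℕ} {a : ℕ → HahnSeries ℤ F}

omit [DecidableEq μ] in
theorem kz_cyc {L : Type} [Field L] (𝕂 : Subfield L) {y : ℕ → μ → L} (h : ∀ m i, y m i ∈ 𝕂) :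
    ∃ (r : ℕ) (a : ℕ → L) (W : μ → ℕ → L), (∀ k, a k ∈ 𝕂) ∧ (∀ i k, W i k ∈ 𝕂) ∧
      y r = ∑ k ∈ Finset.range r, a k • y k ∧
      ∀ m < r, ∀ k < r, ∑ i, y m i * W i k = if m = k then 1 else 0 := by
  let z : ℕ → μ → 𝕂 := fun m i => ⟨y m i, h m i⟩
  have ex : ∃ r, ¬ LinearIndependent 𝕂 fun k : Fin (r + 1) => z k := by
    refine ⟨Module.finrank 𝕂 (μ → 𝕂), fun k => ?_⟩
    have := k.fintype_card_le_finrank
    rw [Fintype.card_fin] at this
    omega
  classical
  obtain ⟨r, h1, h2⟩ : ∃ r, (LinearIndependent 𝕂 fun k : Fin r => z k) ∧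
      ¬ LinearIndependent 𝕂 fun k : Fin (r + 1) => z k := by
    refine ⟨Nat.find ex, ?_, Nat.find_spec ex⟩
    rcases e : Nat.find ex with _ | s
    · exact linearIndependent_empty_type
    · exact not_not.1 (Nat.find_min ex (by omega))
  have h3 : z r ∈ Submodule.span 𝕂 (Set.range fun k : Fin r => z k) := by
    by_contra hn
    exact h2 (linearIndependent_finSucc'.2 ⟨h1, hn⟩)
  obtain ⟨c, hc⟩ := (Submodule.mem_span_range_iff_exists_fun 𝕂).1 h3
  choose ρ hρ using Rg.lv_field h1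
  refine ⟨r, fun k => if hk : k < r then (c ⟨k, hk⟩ : L) else 0,
    fun i k => if hk : k < r then (ρ ⟨k, hk⟩ i : L) else 0, fun k => ?_, fun i k => ?_, ?_,
    fun m hm k hk => ?_⟩
  · beta_reduce
    split_ifs
    exacts [(c _).2, 𝕂.zero_mem]
  · beta_reduce
    split_ifs
    exacts [(ρ _ _).2, 𝕂.zero_mem]
  · funext i
    have := congrArg Subtype.val (congrFun hc i)
    rw [Finset.sum_apply, AddSubmonoidClass.coe_finsetSum] at this
    rw [Finset.sum_apply, Finset.sum_range]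
    refine this.symm.trans (Finset.sum_congr rfl fun k _ => ?_)
    simp only [dif_pos k.2]
    rfl
  · have := congrArg Subtype.val (hρ ⟨k, hk⟩ ⟨m, hm⟩)
    rw [Finsupp.sum_fintype _ _ (fun _ => zero_mul _), AddSubmonoidClass.coe_finsetSum] at this
    simp only [dif_pos hk]
    refine (Finset.sum_congr rfl fun i _ => mul_comm _ _).trans (this.trans ?_)
    by_cases e : m = k
    · rw [if_pos e, if_pos (Fin.ext e)]
      rfl
    · rw [if_neg e, if_neg fun e' => e (congrArg Fin.val e')]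
      rfl

omit [Fintype μ] [DecidableEq μ] in
theorem kz_rec (hN : IsN D N) (hy : ∀ m, y (m + 1) = N (y m)) (r0 : 0 < r)
    (h : y r = ∑ k ∈ Finset.range r, a k • y k) (m : ℕ) :
    y m = ∑ k ∈ Finset.range r, cq D r a m k • y k := by
  obtain ⟨s, rfl⟩ : ∃ s, r = s + 1 := ⟨r - 1, by omega⟩
  induction m with
  | zero =>
    rw [Finset.sum_range_succ']
    simp [cq]
  | succ m ih =>
    have e1 : ∑ k ∈ Finset.range (s + 1), (if k = 0 then 0 else cq D (s + 1) a m (k - 1)) • y k =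
        ∑ k ∈ Finset.range s, cq D (s + 1) a m k • y (k + 1) := by
      rw [Finset.sum_range_succ']
      simp
    rw [hy, ih, map_sum]
    simp only [hN _ _, ← hy, cq, add_smul, Finset.sum_add_distrib, e1, mul_smul,
      ← Finset.smul_sum, ← h, Nat.add_sub_cancel]
    rw [Finset.sum_range_succ (fun k => cq D (s + 1) a m k • y (k + 1)), add_assoc]

end

end Pool.Agent.Lib.MP_5591bc_ag.Hy
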