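import Pool.Agent.Lib.MP_5591bc_ag.Hy.Hs
import Pool.Agent.Lib.MP_5591bc_ag.Rg.Rec

/-! The leading terms. -/

namespace Pool.Agent.Lib.MP_5591bc_ag.Hy

open MvPolynomial Matrix

noncomputable section

variable {μ F : Type} [Field F] [Fintype μ] [DecidableEq μ] {R : Subring ℂ} {ε : F →+* ℂ}
  {D : F →+ F} {N : (μ → HahnSeries ℤ F) →+ (μ → HahnSeries ℤ F)} {y : ℕ → μ → HahnSeries ℤ F}
  {r : ℕ} {a : ℕ → HahnSeries ℤ F}

/-- the coefficient at a rational index -/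
def kz2_L (x : HahnSeries ℤ F) (t : ℚ) : F := if ((⌈t⌉ : ℤ) : ℚ) = t then x.coeff ⌈t⌉ else 0

theorem kz2_or (x : HahnSeries ℤ F) (t : ℚ) : kz2_L x t = 0 ∨ ∃ e, kz2_L x t = x.coeff e := by
  unfold kz2_L
  split_ifs
  · exact Or.inr ⟨_, rfl⟩
  · exact Or.inl rfl

theorem kz2_add (x z : HahnSeries ℤ F) (t : ℚ) : kz2_L (x + z) t = kz2_L x t + kz2_L z t := by
  unfold kz2_L
  split_ifs
  · exact HahnSeries.coeff_add
  · exact (add_zero _).symm

theorem kz2_zero (t : ℚ) : kz2_L (0 : HahnSeries ℤ F) t = 0 := by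
  unfold kz2_L
  split_ifs <;> rfl

theorem kz2_int (x : HahnSeries ℤ F) (e : ℤ) : kz2_L x e = x.coeff e := by
  unfold kz2_L
  rw [Int.ceil_intCast, if_pos rfl]

theorem kz2_lt {x : HahnSeries ℤ F} {s t : ℚ} (h : Od ⌈t⌉ x) (hs : s < t) : kz2_L x s = 0 := by
  unfold kz2_L
  split_ifs with h1
  · exact h _ (Int.lt_ceil.2 (by rwa [h1]))
  · rfl

theorem kz2_omul {x z : HahnSeries ℤ F} {s t : ℚ} (h : Od ⌈s⌉ x) (h' : Od ⌈t⌉ z) :
    Od ⌈s + t⌉ (x * z) :=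
  (h.mul h').mono (Int.ceil_add_le s t)

theorem kz2_mul {x z : HahnSeries ℤ F} {s t : ℚ} (h : Od ⌈s⌉ x) (h' : Od ⌈t⌉ z) :
    kz2_L (x * z) (s + t) = kz2_L x s * kz2_L z t := by
  have b1 := Int.le_ceil s
  have b2 := Int.le_ceil t
  by_cases c : ((⌈s⌉ : ℤ) : ℚ) = s ∧ ((⌈t⌉ : ℤ) : ℚ) = t
  · have e1 : s + t = ((⌈s⌉ + ⌈t⌉ : ℤ) : ℚ) := by rw [Int.cast_add, c.1, c.2]
    rw [e1, kz2_int, h.coeff_mul h', add_sub_cancel_right, Finset.Icc_self, Finset.sum_singleton,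
      add_sub_cancel_left, kz2_L, kz2_L, if_pos c.1, if_pos c.2]
  · have e2 : kz2_L x s * kz2_L z t = 0 := by
      unfold kz2_L
      rcases not_and_or.1 c with c | c
      · rw [if_neg c, zero_mul]
      · rw [if_neg c, mul_zero]
    have e3 : s + t < ((⌈s⌉ + ⌈t⌉ : ℤ) : ℚ) := by
      rw [Int.cast_add]
      rcases not_and_or.1 c with c | c
      · exact add_lt_add_of_lt_of_le (lt_of_le_of_ne b1 (Ne.symm c)) b2
      · exact add_lt_add_of_le_of_lt b1 (lt_of_le_of_ne b2 (Ne.symm c))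
    rw [e2]
    refine kz2_lt ?_ e3
    rw [Int.ceil_intCast]
    exact h.mul h'

theorem kz2_odh (D : F →+ F) {x : HahnSeries ℤ F} {M : ℤ} (h : Od M x) : Od M (dh D x) :=
  fun k hk => by rw [coeff_dh, h k hk, map_zero]

theorem kz2_o0 (M : ℤ) : Od M (0 : HahnSeries ℤ F) := fun _ _ => rfl

theorem kz2_o1 : Od 0 (1 : HahnSeries ℤ F) := fun k hk => by
  rw [HahnSeries.coeff_one, if_neg hk.ne]

theorem kz2_nu (h : ¬ ∀ i < r, Od 0 (a i)) :
    ∃ ν : ℚ, 0 < ν ∧ (∀ i < r, Od ⌈-(ν * (r - i : ℚ))⌉ (a i)) ∧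
      ∃ i < r, kz2_L (a i) (-(ν * (r - i : ℚ))) ≠ 0 := by
  classical
  have pos : ∀ i < r, (0 : ℚ) < r - i := fun i hi => sub_pos.2 (by exact_mod_cast hi)
  simp only [Od, not_forall] at h
  obtain ⟨i1, hi1, k1, hk1, c1⟩ := h
  have n1 : a i1 ≠ 0 := fun z => c1 (by rw [z]; rfl)
  let S : Finset ℕ := (Finset.range r).filter fun i => a i ≠ 0
  have mem : ∀ i, i < r → a i ≠ 0 → i ∈ S := fun i hi hk => by
    simp only [S, Finset.mem_filter, Finset.mem_range]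
    exact ⟨hi, hk⟩
  obtain ⟨i0, h0, hm⟩ := S.exists_max_image
    (fun i => -((a i).order : ℚ) / (r - i : ℚ)) ⟨_, mem i1 hi1 n1⟩
  simp only [S, Finset.mem_filter, Finset.mem_range] at h0
  refine ⟨-((a i0).order : ℚ) / (r - i0 : ℚ), ?_, fun i hi k hk => ?_, i0, h0.1, ?_⟩
  · refine lt_of_lt_of_le ?_ (hm _ (mem i1 hi1 n1))
    have o1 : (a i1).order < 0 := (HahnSeries.order_le_of_coeff_ne_zero c1).trans_lt hk1
    have o2 : ((a i1).order : ℚ) < 0 := by exact_mod_cast o1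
    exact div_pos (by linarith) (pos i1 hi1)
  · by_contra hc
    have := hm _ (mem i hi fun z => hc (by rw [z]; rfl))
    rw [div_le_iff₀ (pos i hi)] at this
    have o1 : ((a i).order : ℚ) ≤ k := by
      exact_mod_cast HahnSeries.order_le_of_coeff_ne_zero hc
    have o2 := Int.lt_ceil.1 hk
    linarith
  · rw [div_mul_cancel₀ _ (pos i0 h0.1).ne', neg_neg, kz2_int]
    exact fun z => h0.2 (HahnSeries.coeff_order_eq_zero.1 z)

theorem kz2_rec (D : F →+ F) (r0 : 0 < r) {ν : ℚ}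
    (ha : ∀ i < r, Od ⌈-(ν * (r - i : ℚ))⌉ (a i)) (hν : 0 < ν) (m : ℕ) :
    ∀ i < r, Od ⌈-(ν * (m - i : ℚ))⌉ (cq D r a m i) ∧
      kz2_L (cq D r a m i) (-(ν * (m - i : ℚ))) =
        Rg.cs r 1 (fun i => kz2_L (a i) (-(ν * (r - i : ℚ)))) m i := by
  induction m with
  | zero =>
    intro i _
    by_cases hi : i = 0
    · subst hi
      have e0 : -(ν * (((0 : ℕ) : ℚ) - ((0 : ℕ) : ℚ))) = ((0 : ℤ) : ℚ) := by simp
      simp only [cq, Rg.cs, if_true]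
      rw [e0, kz2_int, Int.ceil_intCast]
      exact ⟨kz2_o1, by simp⟩
    · simp only [cq, Rg.cs, if_neg hi]
      exact ⟨kz2_o0 _, kz2_zero _⟩
  | succ m ih =>
    intro i hi
    have hn : r - 1 < r := by omega
    have cn : ((r - 1 : ℕ) : ℚ) = r - 1 := by rw [Nat.cast_sub r0, Nat.cast_one]
    set x : ℚ := -(ν * (((m + 1 : ℕ) : ℚ) - i)) with hx
    have o1 := kz2_odh D (ih i hi).1
    have l1 : x < -(ν * (m - i : ℚ)) := by rw [hx]; push_cast; linarith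
    have x4 : x = -(ν * (m - (r - 1 : ℕ) : ℚ)) + -(ν * (r - i : ℚ)) := by
      rw [hx, cn]; push_cast; ring
    have o4 := kz2_omul (ih _ hn).1 (ha i hi)
    have c4 := kz2_mul (ih _ hn).1 (ha i hi)
    rw [← x4] at o4 c4
    have o3 : Od ⌈x⌉ (if i = 0 then 0 else cq D r a m (i - 1)) ∧
        kz2_L (if i = 0 then 0 else cq D r a m (i - 1)) x = if i = 0 then 0 else 1 *
          Rg.cs r 1 (fun i => kz2_L (a i) (-(ν * (r - i : ℚ)))) m (i - 1) := by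
      by_cases i0 : i = 0
      · simp only [if_pos i0]
        exact ⟨kz2_o0 _, kz2_zero _⟩
      · have h1 : i - 1 < r := by omega
        have x3 : x = -(ν * (m - (i - 1 : ℕ) : ℚ)) := by
          rw [hx, Nat.cast_sub (by omega : 1 ≤ i)]; push_cast; ring
        simp only [if_neg i0]
        rw [x3, one_mul]
        exact ih _ h1
    simp only [cq, Rg.cs]
    refine ⟨((o1.mono (Int.ceil_le_ceil l1.le)).add o3.1).add o4, ?_⟩
    rw [kz2_add, kz2_add, kz2_lt o1 l1, o3.2, c4, (ih _ hn).2, zero_add]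

theorem kz_lead (D : F →+ F) (r0 : 0 < r) (a : ℕ → HahnSeries ℤ F) :
    (∀ m, ∀ k < r, Od 0 (cq D r a m k)) ∨ ∃ β : ℕ → F, (∃ k < r, β k ≠ 0) ∧
      (∀ k < r, β k = 0 ∨ ∃ e, β k = (a k).coeff e) ∧
      ∀ m, ∀ k < r, Rg.cs r 1 β m k = 0 ∨ ∃ e, Rg.cs r 1 β m k = (cq D r a m k).coeff e := by
  by_cases h : ∀ i < r, Od 0 (a i)
  · refine Or.inl fun m => ?_
    induction m with
    | zero =>
      intro k _
      simp only [cq]
      split_ifs
      exacts [kz2_o1, kz2_o0 _]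
    | succ m ih =>
      intro k hk
      simp only [cq]
      refine ((kz2_odh D (ih k hk)).add ?_).add ?_
      · split_ifs
        exacts [kz2_o0 _, ih _ (by omega)]
      · simpa using (ih (r - 1) (by omega)).mul (h k hk)
  · obtain ⟨ν, hν, h1, h2⟩ := kz2_nu h
    refine Or.inr ⟨fun i => kz2_L (a i) (-(ν * (r - i : ℚ))), h2, fun k _ => kz2_or _ _,
      fun m k hk => ?_⟩
    rw [← (kz2_rec D r0 h1 hν m k hk).2]
    exact kz2_or _ _

end

end Pool.Agent.Lib.MP_5591bc_ag.Hy
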