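import Pool.Agent.Lib.MP_5591bc_ag.Hy.Set

/-! A factorial beats the common multiples. -/

namespace Pool.Agent.Lib.MP_5591bc_ag.Hy

open MvPolynomial Matrix

noncomputable section

theorem kz3_fac {p : ℕ} (hp : 0 < p) (k : ℕ) : p ^ k ∣ (p * k).factorial := by
  induction k with
  | zero => simp
  | succ k ih =>
    obtain ⟨q, rfl⟩ : ∃ q, p = q + 1 := ⟨p - 1, by omega⟩
    have e : (q + 1) * (k + 1) = ((q + 1) * k + q) + 1 := by ring
    rw [e, Nat.factorial_succ, ← e, pow_succ, mul_comm ((q + 1) ^ k)]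
    exact Nat.mul_dvd_mul (Dvd.intro _ rfl) (ih.trans (Nat.factorial_dvd_factorial (by omega)))

theorem kz3_log {p : ℕ} (hp : p.Prime) (c : ℕ) :
    c * p.log (c * (p * p ^ (6 * c) + 1)) + 1 ≤ p ^ (6 * c) := by
  have h2 := hp.two_le
  have h1 : ∀ t : ℕ, t + 1 ≤ p ^ t := fun t =>
    (Nat.lt_two_pow_self : t < 2 ^ t).trans_le (Nat.pow_le_pow_left h2 t)
  have h3 : p.log (c * (p * p ^ (6 * c) + 1)) ≤ 8 * c := by
    apply Nat.le_of_lt_succ
    apply Nat.log_lt_of_lt_pow' (by omega)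
    have e : p ^ (8 * c).succ = p ^ (2 * c) * (p * p ^ (6 * c)) := by
      rw [Nat.succ_eq_add_one]
      ring
    have h4 : 1 ≤ p * p ^ (6 * c) := Nat.mul_pos hp.pos (pow_pos hp.pos _)
    have h5 := h1 (2 * c)
    rw [e]
    nlinarith
  have h6 := h1 (3 * c)
  have e : p ^ (6 * c) = p ^ (3 * c) * p ^ (3 * c) := by ring
  have h7 := Nat.mul_le_mul_left c h3
  have h8 := Nat.mul_le_mul h6 h6
  rw [← e] at h8
  nlinarith

theorem kz_num {p : ℕ} (hp : p.Prime) (c : ℕ) : ∃ m u v : ℕ, ¬ p ∣ u ∧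
    m.factorial * u = p * Nat.lcmUpto (c * (m + 1)) ^ c * v := by
  have h0 : Nat.lcmUpto (c * (p * p ^ (6 * c) + 1)) ^ c ≠ 0 :=
    pow_ne_zero _ (Nat.lcmUpto_ne_zero _)
  have h1 := Nat.ordProj_mul_ordCompl_eq_self (Nat.lcmUpto (c * (p * p ^ (6 * c) + 1)) ^ c) p
  have h2 := Nat.not_dvd_ordCompl hp h0
  have h3 : (Nat.lcmUpto (c * (p * p ^ (6 * c) + 1)) ^ c).factorization p =
      c * p.log (c * (p * p ^ (6 * c) + 1)) := by
    rw [Nat.factorization_pow, Finsupp.smul_apply, Nat.factorization_lcmUpto _ hp, smul_eq_mul]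
  obtain ⟨v, hv⟩ := (pow_dvd_pow p (kz3_log hp c)).trans (kz3_fac hp.pos _)
  refine ⟨p * p ^ (6 * c), _, v, h2, ?_⟩
  rw [hv, ← h3]
  conv_rhs => rw [← h1]
  ring

theorem kz_val {p : ℕ} (hp : p.Prime) {W : ValuationSubring ℂ} (hW : (p : ℂ) ∈ W.nonunits)
    (c : ℕ) : ∃ m : ℕ, ∀ x z : ℂ, z ∈ W →
      (Nat.lcmUpto (c * (m + 1)) : ℂ) ^ c * x = m.factorial * z → x ∈ W.nonunits := by
  obtain ⟨m, u, v, hu, h⟩ := kz_num hp c
  refine ⟨m, fun x z hz hx => ?_⟩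
  have h0 : (Nat.lcmUpto (c * (m + 1)) : ℂ) ^ c ≠ 0 :=
    pow_ne_zero _ (Nat.cast_ne_zero.2 (Nat.lcmUpto_ne_zero _))
  have h1 : (m.factorial : ℂ) * u = p * (Nat.lcmUpto (c * (m + 1)) : ℂ) ^ c * v := by
    exact_mod_cast h
  have h2 : (u : ℂ) * x = p * (v * z) := by
    apply mul_left_cancel₀ h0
    linear_combination (u : ℂ) * hx + z * h1
  rw [ValuationSubring.mem_nonunits_iff] at hW ⊢
  have hi : ∀ a : ℤ, W.valuation (a : ℂ) ≤ 1 := fun a =>
    (W.valuation_le_one_iff _).2 (intCast_mem W a)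
  have h3 : W.valuation (u : ℂ) = 1 := by
    by_contra hc
    have h4 : W.valuation (u : ℂ) < 1 := lt_of_le_of_ne (by simp) hc
    obtain ⟨a, b, hab⟩ := Nat.isCoprime_iff_coprime.2 ((Nat.Prime.coprime_iff_not_dvd hp).2 hu)
    have h5 : (a : ℂ) * p + b * u = 1 := by exact_mod_cast hab
    have h6 : W.valuation ((a : ℂ) * p + b * u) < 1 := by
      apply W.valuation.map_add_lt
      · rw [map_mul]
        exact (mul_le_of_le_one_left' (hi a)).trans_lt hW
      · rw [map_mul]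
        exact (mul_le_of_le_one_left' (hi b)).trans_lt h4
    rw [h5, map_one] at h6
    exact lt_irrefl _ h6
  have h7 := congrArg W.valuation h2
  rw [map_mul, h3, one_mul, map_mul] at h7
  rw [h7]
  exact (mul_le_of_le_one_right' ((W.valuation_le_one_iff _).2
    (mul_mem (natCast_mem W v) hz))).trans_lt hW

end

end Pool.Agent.Lib.MP_5591bc_ag.Hy
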