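import Pool.Agent.Lib.MP_5591bc_ag.Hy.EisL
import Pool.Agent.Lib.MP_5591bc_ag.Hy.Kz1
import Pool.Agent.Lib.MP_5591bc_ag.Hy.Kz2
import Pool.Agent.Lib.MP_5591bc_ag.Hy.Kz3

/-! The theorem of Katz for a derivation tangent to the divisor. -/

namespace Pool.Agent.Lib.MP_5591bc_ag.Hy

open MvPolynomial Matrix

noncomputable section

variable {μ F : Type} [Field F] [Fintype μ] [DecidableEq μ] {R : Subring ℂ} {ε : F →+* ℂ}
  {D : F →+ F} {N : (μ → HahnSeries ℤ F) →+ (μ → HahnSeries ℤ F)} {y : ℕ → μ → HahnSeries ℤ F}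
  {r : ℕ} {a : ℕ → HahnSeries ℤ F}

omit [DecidableEq μ] in
theorem katz_cq {L : Type} [CommRing L] {y : ℕ → μ → L} {V : μ → ℕ → L} {q : ℕ → L} {m : ℕ}
    (h : y m = ∑ k ∈ Finset.range r, q k • y k)
    (hV : ∀ m < r, ∀ k < r, ∑ i, y m i * V i k = if m = k then 1 else 0) {k : ℕ} (hk : k < r) :
    q k = ∑ i, y m i * V i k := by
  have e : ∀ i, y m i * V i k = ∑ l ∈ Finset.range r, q l * (y l i * V i k) := fun i => by
    rw [h, Finset.sum_apply, Finset.sum_mul]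
    exact Finset.sum_congr rfl fun l _ => by rw [Pi.smul_apply, smul_eq_mul, mul_assoc]
  rw [Finset.sum_congr rfl fun i _ => e i, Finset.sum_comm,
    Finset.sum_eq_single_of_mem k (Finset.mem_range.2 hk)]
  · rw [← Finset.mul_sum, hV k hk k hk, if_pos rfl, mul_one]
  · intro l hl lk
    rw [← Finset.mul_sum, hV l (Finset.mem_range.1 hl) k hk, if_neg lk, mul_zero]

theorem katz_res {W : ValuationSubring ℂ} (r0 : 0 < r) {β : ℕ → ℂ} (hβ : ∀ k < r, β k ∈ W)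
    (hu : ∃ k < r, β k ≠ 0 ∧ (β k)⁻¹ ∈ W) (m : ℕ) : ∃ k < r, Rg.cs r 1 β m k ∉ W.nonunits := by
  classical
  let β' : ℕ → W := fun k => if h : k < r then ⟨β k, hβ k h⟩ else 0
  have e : ∀ k < r, (β' k : ℂ) = β k := fun k h => by simp only [β', dif_pos h]
  obtain ⟨k, hk, k0, ki⟩ := hu
  have hk' : IsLocalRing.residue W (β' k) ≠ 0 := by
    intro h
    rw [IsLocalRing.residue_eq_zero_iff, ← ValuationSubring.coe_mem_nonunits_iff, e k hk,
      ValuationSubring.mem_nonunits_iff_or] at h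
    exact h.elim k0 fun h => h ki
  obtain ⟨i, hi, c0⟩ := Rg.cs_ne (n := r) (α := (1 : IsLocalRing.ResidueField W))
    (β := fun k => IsLocalRing.residue W (β' k)) one_ne_zero ⟨k, hk, hk'⟩ m
  refine ⟨i, hi, fun h => c0 ?_⟩
  have e1 := Rg.cs_map (IsLocalRing.residue W) r 1 β' m i
  have e2 := Rg.cs_map W.subtype r 1 β' m i
  rw [map_one] at e1 e2
  rw [← e1, IsLocalRing.residue_eq_zero_iff, ← ValuationSubring.coe_mem_nonunits_iff]
  have e3 : ((Rg.cs r 1 β' m i : W) : ℂ) = Rg.cs r 1 β m i :=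
    e2.trans (Rg.cs_congr r0 1 e m i hi)
  rwa [e3]

omit [DecidableEq μ] in
theorem katz_od (y : ℕ → μ → HahnSeries ℤ F) (r : ℕ) : ∃ M, ∀ k < r, ∀ i, Od M (y k i) := by
  choose M hM using fun x : Fin r × μ => od_ex (y x.1 x.2)
  obtain ⟨M0, h0⟩ := (Set.finite_range M).bddBelow
  exact ⟨M0, fun k hk i => (hM (⟨k, hk⟩, i)).mono (h0 ⟨_, rfl⟩)⟩

theorem katz (hR : HP R) (ha : ∀ x, IsAlgebraic R (ε x)) (hN : IsN D N)
    (hy : ∀ m, y (m + 1) = N (y m)) (he : ∀ m i, Eis R (hm ε (y m i)))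
    (hb : ∃ b ∈ R, b ≠ 0 ∧ ∃ c : ℕ, ∀ W, Pl R b W → ∀ m i, ∃ z ∈ hS W.toSubring,
      HahnSeries.C ((Nat.lcmUpto (c * (m + 1)) : ℂ) ^ c) * hm ε (y m i) =
        HahnSeries.C (m.factorial : ℂ) * z) : ∃ M, ∀ m i, Od M (y m i) := by
  obtain ⟨𝕂, hK, -⟩ := eis_ex ha
  obtain ⟨r, a, V, -, hV, hr, hI⟩ := kz_cyc 𝕂 fun m i => (hK _).2 (he m i)
  rcases Nat.eq_zero_or_pos r with rfl | r0
  · have z : ∀ m, y m = 0 := fun m => by
      induction m with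
      | zero => simpa using hr
      | succ m ih => rw [hy, ih, map_zero]
    exact ⟨0, fun m i k _ => by rw [z m]; rfl⟩
  have hrec := kz_rec hN hy r0 hr
  rcases kz_lead D r0 a with h | ⟨β, ⟨k0, hk0, β0⟩, -, h⟩
  · obtain ⟨M, hM⟩ := katz_od y r
    refine ⟨M, fun m i => ?_⟩
    rw [hrec m, Finset.sum_apply]
    refine Od.sum fun k hk => ?_
    have := (h m k (Finset.mem_range.1 hk)).mul (hM k (Finset.mem_range.1 hk) i)
    rwa [zero_add] at this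
  exfalso
  obtain ⟨b1, m1, z1, h1⟩ := pl_fin (R := R) (Finset.univ ×ˢ Finset.range r)
    (Q := fun x W => hm ε (V x.1 x.2) ∈ hS W.toSubring) fun x _ => (hK _).1 (hV x.1 x.2)
  obtain ⟨b2, m2, z2, h2⟩ := pl_fin (R := R) (Finset.range r)
    (Q := fun k W => ε (β k) ∈ W ∧ (ε (β k))⁻¹ ∈ W) fun k _ => pl_alg (ha _)
  obtain ⟨b3, m3, z3, c, h3⟩ := hb
  obtain ⟨p, hp, W, hW, pW⟩ := hR (b1 * (b2 * b3)) (R.mul_mem m1 (R.mul_mem m2 m3))
    (mul_ne_zero z1 (mul_ne_zero z2 z3))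
  obtain ⟨w1, w23⟩ := Pl.mul m1 (R.mul_mem m2 m3) z1 (mul_ne_zero z2 z3) hW
  obtain ⟨w2, w3⟩ := Pl.mul m2 m3 z2 z3 w23
  obtain ⟨m, hv⟩ := kz_val hp pW c
  obtain ⟨k, hk, hn⟩ := katz_res (W := W) r0 (β := fun k => ε (β k))
    (fun k hk => (h2 W w2 k (Finset.mem_range.2 hk)).1)
    ⟨k0, hk0, (map_ne_zero ε).2 β0, (h2 W w2 k0 (Finset.mem_range.2 hk0)).2⟩ m
  apply hn
  have e1 := Rg.cs_map ε r 1 β m k
  rw [map_one] at e1
  rw [← e1]
  rcases h m k hk with h0 | ⟨e, h0⟩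
  · rw [h0, map_zero]
    exact W.nonunits.zero_mem
  choose z hz ez using h3 W w3 m
  have hZ : ∑ i, z i * hm ε (V i k) ∈ hS W.toSubring := sum_mem fun i _ =>
    mul_mem (hz i) (h1 W w1 (i, k) (Finset.mem_product.2 ⟨Finset.mem_univ _, Finset.mem_range.2 hk⟩))
  have e2 : HahnSeries.C ((Nat.lcmUpto (c * (m + 1)) : ℂ) ^ c) * hm ε (cq D r a m k) =
      HahnSeries.C (m.factorial : ℂ) * ∑ i, z i * hm ε (V i k) := by
    rw [katz_cq (hrec m) hI hk, map_sum, Finset.mul_sum, Finset.mul_sum]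
    exact Finset.sum_congr rfl fun i _ => by rw [map_mul, ← mul_assoc, ez i, mul_assoc]
  refine hv _ _ (hZ e) ?_
  have e3 := congrArg (fun x => HahnSeries.coeff x e) e2
  simp only [HahnSeries.C_mul_eq_smul, HahnSeries.coeff_smul, smul_eq_mul, coeff_hm] at e3
  rw [h0]
  exact e3

end

end Pool.Agent.Lib.MP_5591bc_ag.Hy
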