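import Pool.Agent.Lib.MP_5591bc_ag.Hy.Hs

/-! Truncation and projection. -/

namespace Pool.Agent.Lib.MP_5591bc_ag.Hy

open MvPolynomial Matrix

noncomputable section

variable {R : Subring ℂ}

/-- the numbers which are algebraic over `R` -/
def spzK (R : Subring ℂ) : Subfield ℂ where
  toSubring := (Subalgebra.algebraicClosure R ℂ).toSubring
  inv_mem' := fun _ h => IsAlgebraic.inv_iff.2 h

theorem spz_mem {x : ℂ} : x ∈ spzK R ↔ IsAlgebraic R x := Iff.rfl

theorem spz_den {α : Type*} (s : Finset α) (f : α → ℂ) (h : ∀ x ∈ s, IsAlgebraic R (f x)) :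
    ∃ b ∈ R, b ≠ 0 ∧ ∀ x ∈ s, IsIntegral R (b * f x) := by
  classical
  induction s using Finset.induction_on with
  | empty => exact ⟨1, R.one_mem, one_ne_zero, fun _ k => absurd k (Finset.notMem_empty _)⟩
  | insert a s _ ih =>
    obtain ⟨b, hb, b0, k⟩ := ih fun x hx => h x (Finset.mem_insert_of_mem hx)
    obtain ⟨c, c0, kc⟩ := (h a (Finset.mem_insert_self _ _)).exists_integral_multiple
    have ib : IsIntegral R b := isIntegral_algebraMap (R := R) (x := ⟨b, hb⟩)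
    have ic : IsIntegral R (c : ℂ) := isIntegral_algebraMap (R := R) (x := c)
    refine ⟨b * c, R.mul_mem hb c.2, mul_ne_zero b0 fun e => c0 (Subtype.ext e), fun x hx => ?_⟩
    rcases Finset.mem_insert.1 hx with rfl | hx
    · rw [mul_assoc]
      exact ib.mul kc
    · rw [mul_comm b, mul_assoc]
      exact ic.mul (k x hx)

theorem spz_od (x : HahnSeries ℤ ℂ) : Od x.order x :=
  fun _ hk => HahnSeries.coeff_eq_zero_of_lt_order hk

theorem trc {τ : HahnSeries ℤ ℂ} (τ0 : τ ≠ 0) (ha : ∀ k, IsAlgebraic R (τ.coeff k)) (M K : ℤ) :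
    ∃ b ∈ R, b ≠ 0 ∧ ∀ (e : ℕ) (Y : HahnSeries ℤ ℂ), Od M Y → τ ^ e * Y ∈ hS (Rb R) →
      ∀ k ≤ K, IsIntegral R (b ^ e * Y.coeff k) := by
  have h1 : τ⁻¹ ∈ hS (spzK R).toSubring := by
    refine hS_inv ha ((spzK R).inv_mem ?_)
    rw [HahnSeries.leadingCoeff_eq]
    exact ha _
  have h2 : τ⁻¹.order = -τ.order := by
    have := HahnSeries.order_mul τ0 (inv_ne_zero τ0)
    rw [mul_inv_cancel₀ τ0, HahnSeries.order_one] at this
    omega
  have h3 : Od (-τ.order) τ⁻¹ := h2 ▸ spz_od τ⁻¹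
  obtain ⟨b, hb, b0, k0⟩ := spz_den (R := R) (Finset.Icc (-τ.order) (K - M - τ.order))
    τ⁻¹.coeff fun i _ => h1 i
  have key : ∀ (e : ℕ) (j : ℤ) (Y : HahnSeries ℤ ℂ), Od (M + j) Y → τ ^ e * Y ∈ hS (Rb R) →
      ∀ k ≤ K + j, IsIntegral R (b ^ e * Y.coeff k) := by
    intro e
    induction e with
    | zero =>
      intro j Y _ hY k _
      rw [pow_zero, one_mul] at hY ⊢
      exact hY k
    | succ e ih =>
      intro j Y hO hY k hk
      have o1 : Od (M + (j + τ.order)) (τ * Y) := ((spz_od τ).mul hO).mono (by omega)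
      have i1 := ih (j + τ.order) (τ * Y) o1 (by rwa [← mul_assoc, ← pow_succ])
      have e1 : Y = τ⁻¹ * (τ * Y) := by rw [← mul_assoc, inv_mul_cancel₀ τ0, one_mul]
      rw [e1, h3.coeff_mul o1, Finset.mul_sum]
      refine IsIntegral.sum _ fun i hi => ?_
      rw [Finset.mem_Icc] at hi
      rw [pow_succ', mul_mul_mul_comm]
      exact (k0 i (Finset.mem_Icc.2 ⟨hi.1, by omega⟩)).mul (i1 _ (by omega))
  exact ⟨b, hb, b0, fun e Y hO hY k hk => key e 0 Y (by rwa [add_zero]) hY k (by rwa [add_zero])⟩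

theorem spz {α ν : Type} [Fintype α] [Fintype ν] [DecidableEq ν] (z : α → ν → ℂ)
    {P : Matrix ν ν ℂ} (h : P.det ≠ 0) : ∃ b ∈ R, b ≠ 0 ∧ ∀ (g : α → ℂ) (β : ν → ℂ),
      (∀ x, IsIntegral R (g x)) → (∀ i, IsAlgebraic R (β i)) → ∑ x, g x • z x = β ᵥ* P →
        ∀ i, IsIntegral R (b * β i) := by
  obtain ⟨π, hπ⟩ := (Algebra.linearMap (spzK R) ℂ).exists_leftInverse_of_injective
    (LinearMap.ker_eq_bot.2 Subtype.val_injective)
  have π1 : ∀ (a : ℂ) (ha : a ∈ spzK R) (y : ℂ), (π (a * y) : ℂ) = a * π y := fun a ha y => by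
    have := π.map_smul ⟨a, ha⟩ y
    exact congrArg Subtype.val this
  have π2 : (π 1 : ℂ) = 1 := by
    have := LinearMap.congr_fun hπ 1
    simp only [LinearMap.comp_apply, Algebra.linearMap_apply, map_one, LinearMap.id_apply] at this
    rw [this]
    rfl
  obtain ⟨b, hb, b0, k0⟩ := spz_den (R := R) (Finset.univ : Finset (α × ν))
    (fun y => (π ((z y.1 ᵥ* P⁻¹) y.2) : ℂ)) fun y _ => (π _).2
  refine ⟨b, hb, b0, fun g β hg hβ e i => ?_⟩
  have e1 : β i = ∑ x, g x * (z x ᵥ* P⁻¹) i := by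
    have : β = (∑ x, g x • z x) ᵥ* P⁻¹ := by
      rw [e, vecMul_vecMul, mul_nonsing_inv _ (Ne.isUnit h), vecMul_one]
    rw [this, Matrix.sum_vecMul, Finset.sum_apply]
    exact Finset.sum_congr rfl fun x _ => by rw [smul_vecMul, Pi.smul_apply, smul_eq_mul]
  have e2 : β i = ∑ x, g x * (π ((z x ᵥ* P⁻¹) i) : ℂ) := by
    have := π1 (β i) (hβ i) 1
    rw [mul_one, π2, mul_one] at this
    rw [← this, e1, map_sum, AddSubmonoidClass.coe_finsetSum]
    exact Finset.sum_congr rfl fun x _ => π1 _ (hg x).isAlgebraic _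
  rw [e2, Finset.mul_sum]
  refine IsIntegral.sum _ fun x _ => ?_
  rw [mul_left_comm]
  exact (hg x).mul (k0 (x, i) (Finset.mem_univ _))

end

end Pool.Agent.Lib.MP_5591bc_ag.Hy
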