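import Pool.Agent.Lib.MP_5591bc_ag.Hy.Cls
import Pool.Agent.Lib.MP_5591bc_ag.Hy.Gb
import Pool.Agent.Lib.MP_5591bc_ag.Hy.Katz
import Pool.Agent.Lib.MP_5591bc_ag.Hy.Bnd
import Pool.Agent.Lib.MP_5591bc_ag.Hy.Spz

/-! Bounded poles and denominators. -/

namespace Pool.Agent.Lib.MP_5591bc_ag.Hy

open MvPolynomial Matrix Cu Cv

noncomputable section

variable {ι σ ν F : Type} [Field F] [Fintype ι] [DecidableEq ι] [Fintype σ] [DecidableEq σ]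
  [Fintype ν] [DecidableEq ν] {n δ : ℕ} {G A : MvPolynomial ι F} {R : Subring ℂ}
  {D : σ → F →+ F} {j : F →+* MvPowerSeries σ ℂ} {p : (ι →₀ ℕ) → MvPowerSeries σ ℂ}
  {c : (ι →₀ ℕ) → (ι → Fin (n + 1)) → HahnSeries ℤ F}

theorem alg1_lcm {e k m : ℕ} : Nat.lcmUpto (e * (m + k + 1)) ^ e ∣
    Nat.lcmUpto (e * (k + 1) * (m + 1)) ^ (e * (k + 1)) := by
  have h1 : e * (m + k + 1) ≤ e * (k + 1) * (m + 1) := by
    rw [mul_assoc]
    exact Nat.mul_le_mul_left _ (by nlinarith [Nat.zero_le (k * m)])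
  have h2 : Nat.lcmUpto (e * (m + k + 1)) ∣ Nat.lcmUpto (e * (k + 1) * (m + 1)) :=
    Finset.lcm_mono (Finset.Icc_subset_Icc_right h1)
  exact (pow_dvd_pow_of_dvd h2 e).trans (pow_dvd_pow _ (Nat.le_mul_of_pos_right _ k.succ_pos))

theorem alg1_T {ε : F →+* ℂ} {τ : Polynomial F} (τ0 : τ ≠ 0) : hm ε (ku F τ) ≠ 0 :=
  (map_ne_zero _).2 fun e => τ0 (ku_inj (e.trans (map_zero _).symm))

theorem alg1_pl {ε : F →+* ℂ} (ha : ∀ x, IsAlgebraic R (ε x)) {τ : Polynomial F} (τ0 : τ ≠ 0)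
    {b : ℂ} (bR : b ∈ R) (b0 : b ≠ 0) : ∃ b' ∈ R, b' ≠ 0 ∧ ∀ W, Pl R b' W →
      ∀ (L u : ℂ) (k m : ℕ) (Y : HahnSeries ℤ ℂ), (∃ z ∈ hS (Rb R),
        HahnSeries.C (L * b ^ k) * (hm ε (ku F τ) ^ m * Y) = HahnSeries.C u * z) →
        ∃ z ∈ hS W.toSubring, HahnSeries.C L * Y = HahnSeries.C u * z := by
  obtain ⟨𝕂, h1, h2⟩ := eis_ex (R := R) ha
  obtain ⟨b1, b1R, b10, H⟩ := (h1 _).1 (𝕂.inv_mem (h2 τ))
  refine ⟨b * b1, R.mul_mem bR b1R, mul_ne_zero b0 b10, fun W hW L u k m Y ⟨z, hz, e⟩ => ?_⟩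
  obtain ⟨p1, p2⟩ := hW.mul bR b1R b0 b10
  have hT := H W p2
  rw [map_inv₀] at hT
  have z1 : z ∈ hS W.toSubring := fun i => p1.int (hz i)
  have hb : (HahnSeries.C b⁻¹ : HahnSeries ℤ ℂ) ∈ hS W.toSubring := hS_C p1.2
  refine ⟨HahnSeries.C b⁻¹ ^ k * (hm ε (ku F τ))⁻¹ ^ m * z,
    mul_mem (mul_mem (pow_mem hb _) (pow_mem hT _)) z1, ?_⟩
  have e1 : (HahnSeries.C b⁻¹ : HahnSeries ℤ ℂ) ^ k * HahnSeries.C b ^ k = 1 := by
    rw [← mul_pow, ← map_mul, inv_mul_cancel₀ b0, map_one, one_pow]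
  have e2 : (hm ε (ku F τ))⁻¹ ^ m * hm ε (ku F τ) ^ m = 1 := by
    rw [← mul_pow, inv_mul_cancel₀ (alg1_T τ0), one_pow]
  rw [map_mul, map_pow] at e
  generalize (HahnSeries.C b⁻¹ : HahnSeries ℤ ℂ) ^ k = B' at e1 ⊢
  generalize (hm ε (ku F τ))⁻¹ ^ m = T' at e2 ⊢
  generalize hm ε (ku F τ) ^ m = T at e e2
  generalize (HahnSeries.C b : HahnSeries ℤ ℂ) ^ k = B at e e1
  linear_combination (B' * T') * e - HahnSeries.C L * Y * (T' * T) * e1 - HahnSeries.C L * Y * e2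

theorem alg_od (h : DF R D j) (hR : HP R) (hC : Cl n G c) {τ : Polynomial F} (τ0 : τ ≠ 0)
    (hb : ∃ b ∈ R, b ≠ 0 ∧ ∃ e : ℕ, ∀ (w : List σ) a, ∃ z ∈ hS (Rb R),
      HahnSeries.C ((Nat.lcmUpto (e * (w.length + 1)) : ℂ) ^ e * b ^ (w.length + 1)) *
        (hm (ep j) (ku F τ) ^ (e * (w.length + 1)) *
          hm (ep j) (cl c (nw D G w (A.map HahnSeries.C)) a)) = HahnSeries.C (wf w : ℂ) * z) :
    ∃ M, ∀ w a, Od M (cl c (nw D G w (A.map HahnSeries.C)) a) := by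
  obtain ⟨b, bR, b0, e, H⟩ := hb
  obtain ⟨b', bR', b0', H'⟩ := alg1_pl h.alg τ0 bR b0
  choose N hN hN' using fun l => hC.con (h.isD l)
  obtain ⟨y, hy⟩ : ∃ y : List σ → (ι → Fin (n + 1)) → HahnSeries ℤ F,
    ∀ w, cl c (nw D G w (A.map HahnSeries.C)) = y w := ⟨_, fun _ => rfl⟩
  have y1 : ∀ l w, y (l :: w) = N l (y w) := fun l w => by
    rw [← hy, ← hy, ← hN']
    rfl
  have y2 : ∀ w w', w.Perm w' → y w = y w' := fun w w' hw => by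
    rw [← hy, ← hy, nw_perm h.isD h.comm hw]
  simp only [hy] at H ⊢
  refine bnd hN y2 y1 fun l w => ?_
  have key : ∀ W, Pl R b' W → ∀ m i, ∃ z ∈ hS W.toSubring,
      HahnSeries.C ((Nat.lcmUpto (e * (m + w.length + 1)) : ℂ) ^ e) *
        hm (ep j) (y (List.replicate m l ++ w) i) =
      HahnSeries.C (wf (List.replicate m l ++ w) : ℂ) * z := fun W hW m i => by
    have := H' W hW _ _ _ _ _ (H (List.replicate m l ++ w) i)
    rwa [List.length_append, List.length_replicate] at this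
  refine katz hR h.alg (hN l) (y := fun m => y (List.replicate m l ++ w))
    (fun m => by rw [List.replicate_succ, List.cons_append, y1]) (fun m i => ?_)
    ⟨b', bR', b0', e * (w.length + 1), fun W hW m i => ?_⟩
  · have LR : (Nat.lcmUpto (e * (m + w.length + 1)) : ℂ) ^ e ∈ R := pow_mem (natCast_mem R _) _
    have L0 : (Nat.lcmUpto (e * (m + w.length + 1)) : ℂ) ^ e ≠ 0 :=
      pow_ne_zero _ (Nat.cast_ne_zero.2 (Nat.lcmUpto_ne_zero _))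
    refine ⟨_, R.mul_mem bR' LR, mul_ne_zero b0' L0, fun W hW => ?_⟩
    obtain ⟨p1, p2⟩ := hW.mul bR' LR b0' L0
    obtain ⟨z, hz, q⟩ := key W p1 m i
    have q' := congrArg (HahnSeries.C ((Nat.lcmUpto (e * (m + w.length + 1)) : ℂ) ^ e)⁻¹ * ·) q
    simp only [← mul_assoc, ← map_mul, inv_mul_cancel₀ L0, map_one, one_mul] at q'
    rw [q']
    exact mul_mem (hS_C (mul_mem p2.2 (natCast_mem W.toSubring _))) hz
  · obtain ⟨z, hz, q⟩ := key W hW m i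
    obtain ⟨u, hu⟩ := alg1_lcm (e := e) (k := w.length) (m := m)
    obtain ⟨v, hv⟩ := wf_dvd m l w
    refine ⟨HahnSeries.C (u * v : ℂ) * z, mul_mem (hS_C (mul_mem (natCast_mem W.toSubring _)
      (natCast_mem W.toSubring _))) hz, ?_⟩
    rw [← Nat.cast_pow, hu, Nat.cast_mul, Nat.cast_pow, map_mul, map_mul]
    rw [hv, Nat.cast_mul, map_mul] at q
    linear_combination HahnSeries.C (u : ℂ) * q

theorem alg1 (h : DF R D j) (hR : HP R) (hG : G.IsHomogeneous (n + 2))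
    (hI : ∀ v, IsIntegral R (ep j (coeff v G))) :
    ∃ c : (ι →₀ ℕ) → (ι → Fin (n + 1)) → HahnSeries ℤ F, Cl n G c ∧
      ∀ (δ : ℕ) (A : MvPolynomial ι F), A.IsHomogeneous δ → ∃ M : ℤ,
        (∀ w a, Od M (cl c (nw D G w (A.map HahnSeries.C)) a)) ∧
        ∀ K : ℤ, ∃ b ∈ R, b ≠ 0 ∧ ∃ e : ℕ, ∀ (w : List σ) a, ∀ k ≤ K, ∃ y, IsIntegral R y ∧
          (Nat.lcmUpto (e * (w.length + 1)) : ℂ) ^ e * b ^ (w.length + 1) *
            ep j ((cl c (nw D G w (A.map HahnSeries.C)) a).coeff k) = wf w * y := by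
  have : CharZero F := (ep j).charZero
  obtain ⟨c, τ, c0, hC, τ0, hτ, hc⟩ := cl_ex (O := (Rb R).comap (ep j)) hG hI
  refine ⟨c, hC, fun δ A hA => ?_⟩
  have hb := gb (c := c) h hG hA hτ hc
  obtain ⟨M, hM⟩ := alg_od h hR hC τ0 hb
  refine ⟨M, hM, fun K => ?_⟩
  obtain ⟨b, bR, b0, e, H⟩ := hb
  obtain ⟨b', bR', b0', H'⟩ := trc (R := R) (alg1_T (ε := ep j) τ0)
    (fun k => by rw [coeff_hm]; exact h.alg _) M K
  refine ⟨b * b' ^ e, R.mul_mem bR (pow_mem bR' _), mul_ne_zero b0 (pow_ne_zero _ b0'), e,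
    fun w a k hk => ?_⟩
  obtain ⟨z, hz, q⟩ := H w a
  have w0 : (wf w : ℂ) ≠ 0 := Nat.cast_ne_zero.2 (wf_pos w).ne'
  have hc' : ∀ (x : ℂ) (i : ℤ), (HahnSeries.C x *
      hm (ep j) (cl c (nw D G w (A.map HahnSeries.C)) a)).coeff i =
      x * ep j ((cl c (nw D G w (A.map HahnSeries.C)) a).coeff i) := fun x i => by
    rw [HahnSeries.C_mul_eq_smul, HahnSeries.coeff_smul, coeff_hm, smul_eq_mul]
  refine ⟨_, H' (e * (w.length + 1)) (HahnSeries.C ((wf w : ℂ)⁻¹ *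
    ((Nat.lcmUpto (e * (w.length + 1)) : ℂ) ^ e * b ^ (w.length + 1))) *
      hm (ep j) (cl c (nw D G w (A.map HahnSeries.C)) a)) (fun i hi => ?_) ?_ k hk, ?_⟩
  · rw [hc', hM w a i hi, map_zero, mul_zero]
  · rw [mul_left_comm, map_mul, mul_assoc, q, ← mul_assoc, ← map_mul, inv_mul_cancel₀ w0, map_one,
      one_mul]
    exact hz
  · rw [hc', mul_pow, ← pow_mul]
    field_simp

end

end Pool.Agent.Lib.MP_5591bc_ag.Hy
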