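import Pool.Agent.Lib.MP_5591bc_ag.Hy.Set
import Pool.Agent.Lib.MP_5591bc_ag.Cv.Fund
import Pool.Agent.Lib.MP_5591bc_ag.Cu.Vhs

/-! All branches at a point. -/

namespace Pool.Agent.Lib.MP_5591bc_ag.Hy

open Polynomial Set Filter Topology Matrix G M A B E Z Cu Cv

noncomputable section

variable {σ K ν : Type} [Field K] [NumberField K] [Algebra K ℂ] [Fintype σ] [DecidableEq σ]
  [Fintype ν] [DecidableEq ν] {T : MvPolynomial σ K} {q : (MvPolynomial σ K)[X]} {r n m N : ℕ}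
  {B : σ → Matrix ν ν (MvPolynomial σ K)[X]} {U U' V V' : Set (σ → ℂ)}
  {P P' : (σ → ℂ) → Matrix (Option ν) (Option ν) ℂ} {s t : σ → ℂ} {w : ν → ℕ}
  {J : Matrix ν ν ℝ} {j : ℕ} {f : MvPolynomial (Fin (N + 1)) (MvPolynomial σ K)[X]}
  {A : ν → MvPolynomial (Fin (N + 1)) (MvPolynomial σ K)[X]} {a : ℂ}
  {Bh : σ → Matrix (Ix ν r) (Ix ν r) (MvPolynomial σ K)}

theorem PerH.mono (h : PerH T q B f m A a U P) (hV : V ⊆ U) : PerH T q B f m A a V P := by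
  exact ⟨fun x hx => h.1 x (hV hx), fun x hx => h.2 x (hV hx)⟩

theorem PerH.lh (h : PerH T q B f m A a V P) (ht : V ∈ 𝓝 t) :
    LH (fun x => evz x (P x none none)) f m A a (fun x => bl (P x)) t := by
  exact ⟨fun p => evz_an ((h.1 t (mem_of_mem_nhds ht)).1 none none) p,
    fun i j => (h.1 t (mem_of_mem_nhds ht)).1 (some i) (some j),
    mem_of_superset ht fun z hz => h.2 z hz⟩

theorem allh_loc {W : Fin r → Set (σ → ℂ)}
    {R : Fin r → (σ → ℂ) → Matrix (Option ν) (Option ν) ℂ} (hW : ∀ b, W b ∈ 𝓝 t)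
    (hR : ∀ b, PerH T q B f m A a (W b) (R b))
    (hi : Function.Injective fun b => R b t none none) :
    ∃ V : Set (σ → ℂ), t ∈ V ∧ (∀ b, V ⊆ W b) ∧ All T q B V R ∧
      ∀ b, PerH T q B f m A a V (R b) := by
  have c : ∀ b, ContinuousAt (fun x => R b x none none) t := fun b =>
    (((hR b).1 t (mem_of_mem_nhds (hW b))).1 none none).continuousAt
  have e1 : ∀ᶠ x in 𝓝 t, ∀ b, x ∈ W b := eventually_all.2 hW
  have e2 : ∀ᶠ x in 𝓝 t, ∀ b b', b ≠ b' → R b x none none - R b' x none none ≠ 0 :=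
    eventually_all.2 fun b => eventually_all.2 fun b' => by
      by_cases e : b = b'
      · exact Eventually.of_forall fun _ k => absurd e k
      · exact (((c b).sub (c b')).eventually_ne (sub_ne_zero.2 fun k => e (hi k))).mono
          fun _ k _ => k
  obtain ⟨ε, ε0, hε⟩ := Metric.mem_nhds_iff.1 (e1.and e2)
  have s1 : ∀ b, Metric.ball t ε ⊆ W b := fun b x hx => (hε hx).1 b
  have p : ∀ b, PerH T q B f m A a (Metric.ball t ε) (R b) := fun b => (hR b).mono (s1 b)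
  refine ⟨_, Metric.mem_ball_self ε0, s1, ⟨Metric.isOpen_ball,
    (convex_ball t ε).isPreconnected, ⟨t, Metric.mem_ball_self ε0⟩, fun b => (p b).1,
    fun b x hx => ((p b).2 x hx).1, fun x hx b b' e => ?_⟩, p⟩
  by_contra k
  exact (hε hx).2 b b' k (sub_eq_zero.2 e)

theorem FamH.all (h : FamH T q r B f m A a) (hT : MvPolynomial.aeval t T ≠ 0) :
    ∃ (V : Set (σ → ℂ)) (R : Fin r → (σ → ℂ) → Matrix (Option ν) (Option ν) ℂ),
      t ∈ V ∧ All T q B V R ∧ ∀ b, PerH T q B f m A a V (R b) := by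
  obtain ⟨ξ, hξ, hz⟩ := h.cv.roots hT
  choose W hW R e hR using fun b => h.cov t (ξ b) hT ((hz _).2 ⟨b, rfl⟩)
  obtain ⟨V, h1, -, h2, h3⟩ := allh_loc hW hR (by simpa only [e] using hξ)
  exact ⟨V, R, h1, h2, h3⟩

theorem FamH.all0 [NeZero r] (h : FamH T q r B f m A a) (hP : PerH T q B f m A a U P)
    (hU : U ∈ 𝓝 t) (hT : MvPolynomial.aeval t T ≠ 0) :
    ∃ (V : Set (σ → ℂ)) (R : Fin r → (σ → ℂ) → Matrix (Option ν) (Option ν) ℂ),
      V ⊆ U ∧ All T q B V R ∧ R 0 = P := by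
  obtain ⟨ξ, hξ, hz⟩ := h.cv.roots hT
  obtain ⟨b0, hb⟩ := (hz _).1 (hP.1 t (mem_of_mem_nhds hU)).2.2.1
  have k : ∀ b : Fin r, ∃ W ∈ 𝓝 t, ∃ Q, Q t none none = ξ (Equiv.swap 0 b0 b) ∧
      PerH T q B f m A a W Q ∧ (b = 0 → W = U ∧ Q = P) := fun b => by
    by_cases e : b = 0
    · exact ⟨U, hU, P, by rw [e, Equiv.swap_apply_left, hb], hP, fun _ => ⟨rfl, rfl⟩⟩
    · obtain ⟨W, hW, Q, h1, h2⟩ := h.cov t _ hT ((hz _).2 ⟨Equiv.swap 0 b0 b, rfl⟩)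
      exact ⟨W, hW, Q, h1, h2, fun k => absurd k e⟩
  choose W hW R e hR h0 using k
  obtain ⟨V, -, h1, h2, -⟩ := allh_loc hW hR (by
    simp only [e]
    exact hξ.comp (Equiv.swap 0 b0).injective)
  exact ⟨V, R, (h0 0 rfl).1 ▸ h1 0, h2, (h0 0 rfl).2⟩

theorem lat_mulH {f : MvPolynomial (Fin (N + 1)) ℂ} {A : ν → MvPolynomial (Fin (N + 1)) ℂ}
    {M C : Matrix ν ν ℂ} (h : Lat f m A a M) : Lat f m A a (M * C) ↔ Uni C := by
  have e : ∀ v, M⁻¹ *ᵥ M *ᵥ v = v := fun v => by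
    rw [mulVec_mulVec, nonsing_inv_mul _ h.1.isUnit, one_mulVec]
  refine and_congr (by simp [det_mul, h.1]) ⟨fun H v => ?_, fun H v => ?_⟩
  · have := (h.2 (M *ᵥ v)).symm.trans (H _)
    simp only [← mulVec_mulVec] at this
    exact ⟨fun ⟨k, hk⟩ => (this.1 ⟨k, by rw [hk]⟩).imp fun k hk => by rw [← e v, hk, e],
      fun ⟨k, hk⟩ => (this.2 ⟨k, by rw [hk]⟩).imp fun k hk => by rw [← e v, hk, e]⟩
  · refine (h.2 v).trans ⟨fun ⟨k, hk⟩ => ((H _).1 ⟨k, rfl⟩).imp fun k' hk' => ?_,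
      fun ⟨k, hk⟩ => ((H _).2 ⟨k, rfl⟩).imp fun k' hk' => ?_⟩
    · rw [hk, hk', mulVec_mulVec]
    · rw [hk, ← hk', mulVec_mulVec]

theorem lat_two {f : MvPolynomial (Fin (N + 1)) ℂ} {A : ν → MvPolynomial (Fin (N + 1)) ℂ}
    {M M' : Matrix ν ν ℂ} (h : Lat f m A a M) (h' : Lat f m A a M') :
    ∃ γ : Matrix ν ν ℤ, γ.det ^ 2 = 1 ∧ M' = M * γ.map Int.cast := by
  have e : M * (M⁻¹ * M') = M' := mul_nonsing_inv_cancel_left _ _ h.1.isUnit
  have e' : M' * (M'⁻¹ * M) = M := mul_nonsing_inv_cancel_left _ _ h'.1.isUnit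
  obtain ⟨γ, hγ⟩ := ((lat_mulH h).1 (e.symm ▸ h')).int
  obtain ⟨δ, hδ⟩ := ((lat_mulH h').1 (e'.symm ▸ h)).int
  rw [hγ] at e
  rw [hδ] at e'
  refine ⟨γ, ?_, e.symm⟩
  have k1 := congrArg det e
  have k2 := congrArg det e'
  have c : ∀ η : Matrix ν ν ℤ, (η.map Int.cast : Matrix ν ν ℂ).det = (η.det : ℂ) := fun η =>
    ((Int.castRingHom ℂ).map_det η).symm
  rw [det_mul, c] at k1 k2
  have k3 : γ.det * δ.det = 1 := by
    have : M.det * ((γ.det : ℂ) * δ.det) = M.det * 1 := by rw [← mul_assoc, k1, k2, mul_one]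
    exact_mod_cast mul_left_cancel₀ h.1 this
  rcases Int.eq_one_or_neg_one_of_mul_eq_one k3 with k | k <;> rw [k] <;> rfl

end

end Pool.Agent.Lib.MP_5591bc_ag.Hy
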