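import Pool.Agent.Lib.MP_5591bc_ag.Hy.Per

/-! The periods over a fixed cycle are analytic in the parameters. -/

namespace Pool.Agent.Lib.MP_5591bc_ag.Hy

open MvPolynomial Set Filter Topology Matrix M Cu Cv

noncomputable section

variable {σ 𝓡 ι ν F : Type} [Fintype σ] [DecidableEq σ] [CommRing 𝓡] [Fintype ν] [DecidableEq ν]
  [Field F] {N n m : ℕ} {φ : (σ → ℂ) → 𝓡 →+* ℂ} {s : σ → ℂ} {c : Ch N}
  {o : (Fin (N + 1) → ℂ) → ι → ℂ} {f : MvPolynomial (Fin (N + 1)) 𝓡}
  {A : ν → MvPolynomial (Fin (N + 1)) 𝓡} {a : ℂ} {Q : (σ → ℂ) → Matrix ν ν ℂ} {R : Subring ℂ}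
  {D : σ → F →+ F} {j : F →+* MvPowerSeries σ ℂ} {ψ : 𝓡 →+* F} {G : MvPolynomial ι 𝓡}

/-- a monomial as a continuous function on `K` -/
def anaM (ho : ∀ i, Continuous fun x => o x i) (K : Set (Fin (N + 1) → ℂ)) (u : ι →₀ ℕ) :
    C(K, ℂ) :=
  ⟨fun x => eval (o x) (monomial u 1), by
    simp only [eval_monomial, one_mul, Finsupp.prod]
    exact continuous_finsetProd _ fun i _ => ((ho i).comp continuous_subtype_val).pow _⟩

/-- a specialised polynomial as a continuous function on `K` -/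
def anaE (ho : ∀ i, Continuous fun x => o x i) (K : Set (Fin (N + 1) → ℂ))
    (P : MvPolynomial ι 𝓡) (κ : 𝓡 →+* ℂ) : C(K, ℂ) :=
  ∑ u ∈ P.support, κ (coeff u P) • anaM ho K u

theorem anaM_ap (ho : ∀ i, Continuous fun x => o x i) (K : Set (Fin (N + 1) → ℂ)) (u : ι →₀ ℕ)
    (x : K) : anaM ho K u x = eval (o x) (monomial u 1) := rfl

theorem anaM_add (ho : ∀ i, Continuous fun x => o x i) (K : Set (Fin (N + 1) → ℂ))
    (u v : ι →₀ ℕ) : anaM ho K (u + v) = anaM ho K u * anaM ho K v := by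
  ext x
  rw [ContinuousMap.mul_apply, anaM_ap, anaM_ap, anaM_ap, ← map_mul, monomial_mul, one_mul]

theorem anaE_ap (ho : ∀ i, Continuous fun x => o x i) (K : Set (Fin (N + 1) → ℂ))
    (P : MvPolynomial ι 𝓡) (κ : 𝓡 →+* ℂ) (x : K) :
    anaE ho K P κ x = eval (o x) (P.map κ) := by
  conv_rhs => rw [P.as_sum]
  rw [anaE, map_sum, map_sum, ContinuousMap.sum_apply]
  refine Finset.sum_congr rfl fun u _ => ?_
  rw [ContinuousMap.smul_apply, anaM_ap, map_monomial, eval_monomial, eval_monomial, one_mul,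
    smul_eq_mul]

theorem ana_inv {K : Type*} [TopologicalSpace K] {E : C(K, ℂ)} (h : IsUnit E) (x : K) :
    Ring.inverse E x = (E x)⁻¹ := by
  have := congrArg (fun g : C(K, ℂ) => g x) (Ring.mul_inverse_cancel E h)
  simp only [ContinuousMap.mul_apply, ContinuousMap.one_apply] at this
  exact (eq_inv_of_mul_eq_one_right this)

omit [DecidableEq σ] in
theorem anaE_an (ho : ∀ i, Continuous fun x => o x i) (K : Set (Fin (N + 1) → ℂ))
    [CompactSpace K] (hφ : ∀ r, AnalyticAt ℂ (fun t => φ t r) s) (P : MvPolynomial ι 𝓡) :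
    AnalyticAt ℂ (fun t => anaE ho K P (φ t)) s :=
  Finset.analyticAt_fun_sum _ fun _ _ => (hφ _).smul analyticAt_const

omit [DecidableEq σ] in
theorem anaE_unit (ho : ∀ i, Continuous fun x => o x i) (K : Set (Fin (N + 1) → ℂ))
    [CompactSpace K] (hφ : ∀ r, AnalyticAt ℂ (fun t => φ t r) s)
    (hK : K ⊆ {x | eval (o x) (G.map (φ s)) ≠ 0}) :
    ∀ᶠ t in 𝓝 s, IsUnit (anaE ho K G (φ t)) := by
  have h0 : IsUnit (anaE ho K G (φ s)) := by
    rw [ContinuousMap.isUnit_iff_forall_ne_zero]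
    intro x
    rw [anaE_ap]
    exact hK x.2
  exact (anaE_an ho K hφ G).continuousAt.eventually (Units.isOpen.mem_nhds h0)

omit [DecidableEq σ] in
theorem ana_ev (ho : ∀ i, Continuous fun x => o x i)
    (hφ : ∀ r, AnalyticAt ℂ (fun t => φ t r) s) (h : Cyc {x | eval (o x) (G.map (φ s)) ≠ 0} c) :
    ∀ᶠ t in 𝓝 s, Cyc {x | eval (o x) (G.map (φ t)) ≠ 0} c := by
  obtain ⟨K, _, hK, hc, -⟩ := per_clm h
  filter_upwards [anaE_unit ho K hφ hK] with t ht
  refine hc.mono fun x hx => ?_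
  have := (ContinuousMap.isUnit_iff_forall_ne_zero _).1 ht ⟨x, hx⟩
  rwa [anaE_ap] at this

omit [DecidableEq σ] in
theorem ana_an (ho : ∀ i, Continuous fun x => o x i)
    (hφ : ∀ r, AnalyticAt ℂ (fun t => φ t r) s) (h : Cyc {x | eval (o x) (G.map (φ s)) ≠ 0} c)
    (P : MvPolynomial ι 𝓡) (m : ℕ) : AnalyticAt ℂ (fun t =>
      per (fun x => eval (o x) (P.map (φ t)) / eval (o x) (G.map (φ t)) ^ m) c) s := by
  obtain ⟨K, _, hK, -, l, hl⟩ := per_clm h
  have hu := anaE_unit ho K hφ hK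
  obtain ⟨z, hz⟩ := hu.self_of_nhds
  have h1 : AnalyticAt ℂ (fun t => Ring.inverse (anaE ho K G (φ t))) s :=
    (analyticAt_inverse (𝕜 := ℂ) z).fun_comp_of_eq (anaE_an ho K hφ G) hz.symm
  have h2 : AnalyticAt ℂ (fun t => l (anaE ho K P (φ t) *
      Ring.inverse (anaE ho K G (φ t)) ^ m)) s :=
    (l.analyticAt _).fun_comp ((anaE_an ho K hφ P).mul (h1.pow m))
  refine h2.congr ?_
  filter_upwards [hu] with t ht
  refine (hl _ _ fun x => ?_).symm
  rw [ContinuousMap.mul_apply, ContinuousMap.pow_apply, ana_inv ht, anaE_ap, anaE_ap, inv_pow,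
    div_eq_mul_inv]

theorem ana_der (ho : ∀ i, Continuous fun x => o x i)
    (hφ : ∀ r, AnalyticAt ℂ (fun t => φ t r) s) (h : Cyc {x | eval (o x) (G.map (φ s)) ≠ 0} c)
    (v : ι →₀ ℕ) (m : ℕ) (l : σ) : ∀ᶠ t in 𝓝 s, pd l (fun t =>
      per (fun x => eval (o x) (monomial v 1) / eval (o x) (G.map (φ t)) ^ m) c) t =
      -m * ∑ u ∈ G.support, pd l (fun t => φ t (coeff u G)) t * per (fun x =>
        eval (o x) (monomial (v + u) 1) / eval (o x) (G.map (φ t)) ^ (m + 1)) c := by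
  obtain ⟨K, _, hK, -, L, hL⟩ := per_clm h
  have hu := anaE_unit ho K hφ hK
  have key : ∀ t, IsUnit (anaE ho K G (φ t)) → ∀ (w : ι →₀ ℕ) (k : ℕ),
      per (fun x => eval (o x) (monomial w 1) / eval (o x) (G.map (φ t)) ^ k) c =
        L (anaM ho K w * Ring.inverse (anaE ho K G (φ t)) ^ k) := fun t ht w k =>
    hL _ _ fun x => by
      rw [ContinuousMap.mul_apply, ContinuousMap.pow_apply, ana_inv ht, anaE_ap, anaM_ap, inv_pow,
        div_eq_mul_inv]
  have ha : ∀ᶠ t in 𝓝 s, ∀ u ∈ G.support, AnalyticAt ℂ (fun t => φ t (coeff u G)) t :=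
    (Filter.eventually_all_finset _).2 fun u _ => (hφ _).eventually_analyticAt
  filter_upwards [hu.eventually_nhds, ha] with t ht hat
  obtain ⟨z, hz⟩ := ht.self_of_nhds
  have e1 : (fun t => per (fun x => eval (o x) (monomial v 1) /
      eval (o x) (G.map (φ t)) ^ m) c) =ᶠ[𝓝 t]
      fun t => L (anaM ho K v * Ring.inverse (anaE ho K G (φ t)) ^ m) := by
    filter_upwards [ht] with t' ht' using key t' ht' v m
  have d1 : HasFDerivAt (fun t => anaE ho K G (φ t)) (∑ u ∈ G.support,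
      (fderiv ℂ (fun t => φ t (coeff u G)) t).smulRight (anaM ho K u)) t :=
    HasFDerivAt.fun_sum fun u hu' =>
      (hat u hu').differentiableAt.hasFDerivAt.smul_const (anaM ho K u)
  have d0 : HasFDerivAt Ring.inverse
      (-ContinuousLinearMap.mulLeftRight ℂ C(K, ℂ) (↑z⁻¹ : C(K, ℂ)) ↑z⁻¹) (anaE ho K G (φ t)) :=
    hz ▸ hasFDerivAt_ringInverse (𝕜 := ℂ) z
  have d2 := d0.comp t d1
  have d3 := L.hasFDerivAt.comp t ((d2.pow m).const_mul (anaM ho K v))
  have e2 := (d3.congr_of_eventuallyEq e1).fderiv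
  unfold pd
  rw [e2]
  simp only [key t ht.self_of_nhds, ← smul_eq_mul, ← map_smul, ← map_sum]
  rw [ContinuousLinearMap.comp_apply]
  congr 1
  have hz' : Ring.inverse (anaE ho K G (φ t)) = ↑z⁻¹ := by rw [← hz, Ring.inverse_unit]
  simp only [_root_.smul_apply, ContinuousLinearMap.comp_apply,
    _root_.neg_apply, ContinuousLinearMap.mulLeftRight_apply,
    _root_.sum_apply, ContinuousLinearMap.smulRight_apply, Function.comp_apply, hz',
    anaM_add]
  ext x
  simp only [smul_eq_mul, ContinuousMap.smul_apply, ContinuousMap.mul_apply,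
    ContinuousMap.neg_apply, ContinuousMap.sum_apply, ContinuousMap.pow_apply, nsmul_eq_mul,
    ContinuousMap.natCast_apply, Finset.mul_sum, Finset.sum_mul, ← Finset.sum_neg_distrib]
  refine Finset.sum_congr rfl fun u _ => ?_
  cases m with
  | zero => simp
  | succ m => simp only [Nat.add_sub_cancel]; ring

end

end Pool.Agent.Lib.MP_5591bc_ag.Hy
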