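import Pool.Agent.Lib.MP_5591bc_ag.Hy.Set

/-! The identities of Jacobi and Piola. -/

namespace Pool.Agent.Lib.MP_5591bc_ag.Hy

open MvPolynomial Matrix

noncomputable section

variable {ι R R' : Type*} [CommRing R] [CommRing R'] [Fintype ι] [DecidableEq ι]

theorem Pio_one (π : R →+* R') (D : R →+ R') (hD : ∀ x y, D (x * y) = π x * D y + D x * π y) :
    D 1 = 0 := by
  have h := hD 1 1
  rw [mul_one, map_one π, one_mul, mul_one] at h
  exact left_eq_add.mp h

omit [Fintype ι] in
theorem Pio_prod (π : R →+* R') (D : R →+ R') (hD : ∀ x y, D (x * y) = π x * D y + D x * π y)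
    (f : ι → R) (s : Finset ι) :
    D (∏ i ∈ s, f i) = ∑ i ∈ s, (∏ j ∈ s.erase i, π (f j)) * D (f i) := by
  induction s using Finset.induction_on with
  | empty => simpa using Pio_one π D hD
  | insert a s ha ih =>
    rw [Finset.prod_insert ha, hD, ih, Finset.sum_insert ha, Finset.erase_insert ha, map_prod,
      Finset.mul_sum, add_comm, mul_comm (D (f a))]
    congr 1
    refine Finset.sum_congr rfl fun i hi => ?_
    have hne : a ≠ i := fun h => ha (h ▸ hi)
    rw [Finset.erase_insert_of_ne hne,
      Finset.prod_insert fun h => ha (Finset.mem_of_mem_erase h), mul_assoc]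

theorem Pio_col (π : R →+* R') (D : R →+ R') (hD : ∀ x y, D (x * y) = π x * D y + D x * π y)
    (M : Matrix ι ι R) :
    D M.det = ∑ b, ((M.map π).updateCol b fun a => D (M a b)).det := by
  simp only [det_apply, map_sum, Units.smul_def, map_zsmul]
  rw [Finset.sum_comm]
  refine Finset.sum_congr rfl fun σ _ => ?_
  rw [← Finset.smul_sum, Pio_prod π D hD]
  congr 1
  refine Finset.sum_congr rfl fun b _ => ?_
  rw [← Finset.prod_erase_mul _ _ (Finset.mem_univ b), updateCol_self]
  congr 1
  refine Finset.prod_congr rfl fun j hj => ?_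
  rw [updateCol_ne (Finset.ne_of_mem_erase hj), map_apply]

theorem Pio_row (π : R →+* R') (D : R →+ R') (hD : ∀ x y, D (x * y) = π x * D y + D x * π y)
    (M : Matrix ι ι R) :
    D M.det = ∑ a, ((M.map π).updateRow a fun b => D (M a b)).det := by
  rw [← det_transpose, Pio_col π D hD]
  refine Finset.sum_congr rfl fun a _ => ?_
  rw [← det_transpose, transpose_map, updateCol_transpose, transpose_transpose]
  rfl

theorem der_det (π : R →+* R') (D : R →+ R') (hD : ∀ x y, D (x * y) = π x * D y + D x * π y)
    (M : Matrix ι ι R) : D M.det = ∑ a, ∑ b, π (M.adjugate b a) * D (M a b) := by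
  rw [Pio_col π D hD, Finset.sum_comm]
  refine Finset.sum_congr rfl fun b _ => ?_
  rw [← cramer_apply, cramer_eq_adjugate_mulVec, ← RingHom.mapMatrix_apply,
    ← RingHom.map_adjugate]
  rfl

theorem Pio_swap (N : Matrix ι ι R') (e r : ι → R') {a a' : ι} (h : a ≠ a') :
    ((N.updateRow a e).updateRow a' r).det + ((N.updateRow a' e).updateRow a r).det = 0 := by
  have h1 : (N.updateRow a' e).updateRow a r
      = ((N.updateRow a e).updateRow a' r).submatrix (Equiv.swap a a') id := by
    ext i j
    rw [submatrix_apply, id]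
    by_cases hi : i = a
    · rw [hi, Equiv.swap_apply_left, updateRow_self, updateRow_self]
    by_cases hi' : i = a'
    · rw [hi', Equiv.swap_apply_right, updateRow_ne h.symm, updateRow_self, updateRow_ne h,
        updateRow_self]
    rw [Equiv.swap_apply_of_ne_of_ne hi hi', updateRow_ne hi, updateRow_ne hi', updateRow_ne hi',
      updateRow_ne hi]
  rw [h1, det_permute, Equiv.Perm.sign_swap h]
  simp

theorem piola (π : R →+* R') (D : ι → R →+ R')
    (hD : ∀ a x y, D a (x * y) = π x * D a y + D a x * π y) (M : Matrix ι ι R)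
    (hM : ∀ a a' b, D a (M a' b) = D a' (M a b)) (b : ι) : ∑ a, D a (M.adjugate b a) = 0 := by
  let T : ι × ι → R' := fun p => if p.1 = p.2 then 0 else
    (((M.map π).updateRow p.1 fun c => π ((Pi.single b 1 : ι → R) c)).updateRow p.2
      fun c => D p.1 (M p.2 c)).det
  have h1 : ∀ a, D a (M.adjugate b a) = ∑ a', T (a, a') := by
    intro a
    rw [adjugate_apply, Pio_row π (D a) (hD a)]
    refine Finset.sum_congr rfl fun a' _ => ?_
    by_cases h : a = a'
    · subst h
      simp only [T, if_true]
      refine det_eq_zero_of_row_eq_zero a fun c => ?_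
      rw [updateRow_self, updateRow_self]
      by_cases hc : c = b
      · rw [hc, Pi.single_eq_same, Pio_one π (D a) (hD a)]
      · rw [Pi.single_eq_of_ne hc, map_zero]
    · simp only [T, if_neg h]
      rw [map_updateRow, updateRow_ne (Ne.symm h)]
      rfl
  rw [Finset.sum_congr rfl fun a _ => h1 a, ← Fintype.sum_prod_type]
  refine Finset.sum_ninvolution Prod.swap (fun p => ?_) (fun p hp h => ?_)
    (fun _ => Finset.mem_univ _) Prod.swap_swap
  · by_cases h : p.1 = p.2
    · simp only [T, Prod.fst_swap, Prod.snd_swap, if_pos h, if_pos h.symm, add_zero]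
    · simp only [T, Prod.fst_swap, Prod.snd_swap, if_neg h, if_neg (Ne.symm h)]
      rw [show (fun c => D p.2 (M p.1 c)) = fun c => D p.1 (M p.2 c) from
        funext fun c => hM _ _ c]
      exact Pio_swap _ _ _ h
  · have h' : p.1 = p.2 := (congrArg Prod.fst h).symm
    exact hp (if_pos h')

end

end Pool.Agent.Lib.MP_5591bc_ag.Hy
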