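import Pool.Agent.Lib.MP_5591bc_ag.Hy.Sx
import Pool.Agent.Lib.MP_5591bc_ag.Hy.Pio

/-! The class of the diagonal is horizontal. -/

namespace Pool.Agent.Lib.MP_5591bc_ag.Hy

open MvPolynomial Matrix

noncomputable section

variable {ι Λ : Type*} [CommRing Λ] [Fintype ι] [DecidableEq ι] {n : ℕ} {G : MvPolynomial ι Λ}

theorem bez (G : MvPolynomial ι Λ) : ∃ h : ι → MvPolynomial (ι ⊕ ι) Λ,
    rename Sum.inl G + rename Sum.inr (-G) = ∑ i, (X (Sum.inl i) - X (Sum.inr i)) * h i := by
  induction G using MvPolynomial.induction_on with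
  | C a => exact ⟨0, by simp⟩
  | add P Q hP hQ =>
    obtain ⟨h, e⟩ := hP
    obtain ⟨h', e'⟩ := hQ
    refine ⟨h + h', ?_⟩
    simp only [Pi.add_apply, mul_add, Finset.sum_add_distrib, ← e, ← e', map_add, map_neg]
    ring
  | mul_X P i hP =>
    obtain ⟨h, e⟩ := hP
    refine ⟨fun j => h j * X (Sum.inr i) + if j = i then rename Sum.inl P else 0, ?_⟩
    simp only [mul_add, Finset.sum_add_distrib, ← mul_assoc, ← Finset.sum_mul, ← e, mul_ite,
      mul_zero, Finset.sum_ite_eq', Finset.mem_univ, if_true, map_neg, map_mul, rename_X]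
    ring

/-- the derivative along the diagonal -/
def bezE (Λ : Type*) [CommRing Λ] (i : ι) :
    Derivation Λ (MvPolynomial (ι ⊕ ι) Λ) (MvPolynomial (ι ⊕ ι) Λ) :=
  pderiv (Sum.inl i) + pderiv (Sum.inr i)

omit [Fintype ι] [DecidableEq ι] in
theorem bezE_ap (i : ι) (P : MvPolynomial (ι ⊕ ι) Λ) :
    bezE Λ i P = pderiv (Sum.inl i) P + pderiv (Sum.inr i) P := rfl

omit [Fintype ι] in
theorem bezE_l (i j : ι) : bezE Λ i (X (Sum.inl j)) = if i = j then 1 else 0 := by
  rw [bezE_ap, pderiv_X, pderiv_X]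
  simp [Pi.single_apply, eq_comm]

omit [Fintype ι] in
theorem bezE_r (i j : ι) : bezE Λ i (X (Sum.inr j)) = if i = j then 1 else 0 := by
  rw [bezE_ap, pderiv_X, pderiv_X]
  simp [Pi.single_apply, eq_comm]

omit [Fintype ι] [DecidableEq ι] in
theorem bezE_mul (i : ι) (P Q : MvPolynomial (ι ⊕ ι) Λ) :
    bezE Λ i (P * Q) = P * bezE Λ i Q + bezE Λ i P * Q := by
  rw [Derivation.leibniz, smul_eq_mul, smul_eq_mul, mul_comm Q]

omit [Fintype ι] [DecidableEq ι] in
theorem bezE_C (i : ι) (a : Λ) : bezE Λ i (C a) = 0 := derivation_C _ a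

omit [Fintype ι] in
theorem bezE_comm (i j : ι) (P : MvPolynomial (ι ⊕ ι) Λ) :
    bezE Λ i (bezE Λ j P) = bezE Λ j (bezE Λ i P) := by
  have k : ∀ (i j : ι) (o : ι ⊕ ι), bezE Λ i (bezE Λ j (X o)) = 0 := fun i j o => by
    rcases o with o | o
    · rw [bezE_l]
      split_ifs <;> simp
    · rw [bezE_r]
      split_ifs <;> simp
  induction P using MvPolynomial.induction_on with
  | C a => rw [bezE_C, bezE_C, map_zero, map_zero]
  | add P Q hP hQ => simp only [map_add, hP, hQ]
  | mul_X P o hP =>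
    simp only [bezE_mul, map_add, k, hP]
    ring

/-- the divided difference of a power -/
def bezS (Λ : Type*) [CommRing Λ] (n : ℕ) (i : ι) : MvPolynomial (ι ⊕ ι) Λ :=
  ∑ a ∈ Finset.range (n + 1), X (Sum.inl i) ^ a * X (Sum.inr i) ^ (n - a)

omit [Fintype ι] in
theorem bezE_S {i j : ι} (h : i ≠ j) : bezE Λ i (bezS Λ n j) = 0 := by
  rw [bezS, map_sum]
  refine Finset.sum_eq_zero fun a _ => ?_
  rw [bezE_mul, Derivation.leibniz_pow, Derivation.leibniz_pow, bezE_l, bezE_r, if_neg h]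
  simp

omit [Fintype ι] [DecidableEq ι] in
theorem bezS_map {Λ' : Type*} [CommRing Λ'] (κ : Λ →+* Λ') (i : ι) :
    (bezS Λ n i).map κ = bezS Λ' n i := by
  simp [bezS]

omit [Fintype ι] [DecidableEq ι] in
theorem bezS_mul (i : ι) : bezS Λ n i * (X (Sum.inl i) - X (Sum.inr i)) =
    X (Sum.inl i) ^ (n + 1) - X (Sum.inr i) ^ (n + 1) := by
  rw [← (Commute.all _ _).geom_sum₂_mul, bezS]
  rfl

theorem bez_main (u : Λ) (h : ι → MvPolynomial (ι ⊕ ι) Λ) (g : ι ⊕ ι → MvPolynomial (ι ⊕ ι) Λ)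
    (M : Matrix ι ι (MvPolynomial (ι ⊕ ι) Λ))
    (hM : ∀ i j, M i j = (if i = j then bezS Λ n i else 0) + C u * bezE Λ i (h j))
    (hg : ∀ i, g (Sum.inl i) + g (Sum.inr i) = ∑ j, M i j * (X (Sum.inl j) - X (Sum.inr j))) :
    ∑ a, ∑ b, M.adjugate b a * bezE Λ a (h b) +
      M.det * ∑ i, (X (Sum.inl i) - X (Sum.inr i)) * h i ∈ Ex g := by
  have p := piola (RingHom.id _) (fun a => (bezE Λ a).toLinearMap.toAddMonoidHom)
    (fun a x y => bezE_mul a x y) M fun a a' b => by
      change bezE Λ a _ = bezE Λ a' _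
      by_cases e : a = a'
      · rw [e]
      · rw [hM, hM, map_add, map_add, bezE_mul, bezE_mul, bezE_C, bezE_C, bezE_comm, zero_mul,
          zero_mul, apply_ite (bezE Λ a), apply_ite (bezE Λ a'), bezE_S e, bezE_S (Ne.symm e),
          map_zero, map_zero, ite_self, ite_self]
  have p' : ∀ b, ∑ a, bezE Λ a (M.adjugate b a) = 0 := p
  have m : ∑ a, ((pderiv (Sum.inl a) (∑ b, M.adjugate b a * h b) +
      (∑ b, M.adjugate b a * h b) * g (Sum.inl a)) + (pderiv (Sum.inr a) (∑ b, M.adjugate b a * h b) +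
      (∑ b, M.adjugate b a * h b) * g (Sum.inr a))) ∈ Ex g :=
    sum_mem fun a _ => add_mem (ex_gen _ _) (ex_gen _ _)
  have k : ∀ a, (pderiv (Sum.inl a) (∑ b, M.adjugate b a * h b) +
      (∑ b, M.adjugate b a * h b) * g (Sum.inl a)) + (pderiv (Sum.inr a) (∑ b, M.adjugate b a * h b) +
      (∑ b, M.adjugate b a * h b) * g (Sum.inr a)) = (∑ b, M.adjugate b a * bezE Λ a (h b) +
        ∑ b, bezE Λ a (M.adjugate b a) * h b) + (∑ b, h b * M.adjugate b a) *
          ∑ j, M a j * (X (Sum.inl j) - X (Sum.inr j)) := fun a => by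
    rw [add_add_add_comm, ← mul_add, hg, ← bezE_ap, map_sum, ← Finset.sum_add_distrib]
    simp only [bezE_mul, mul_comm (h _)]
  have e := congrArg (fun A : Matrix ι ι (MvPolynomial (ι ⊕ ι) Λ) =>
    h ⬝ᵥ (A *ᵥ fun j => X (Sum.inl j) - X (Sum.inr j))) (adjugate_mul M)
  simp only [← mulVec_mulVec, smul_mulVec, one_mulVec, dotProduct_smul, smul_eq_mul] at e
  rw [dotProduct_mulVec] at e
  simp only [dotProduct, vecMul, mulVec] at e
  rw [Finset.sum_congr rfl fun a _ => k a, Finset.sum_add_distrib, Finset.sum_add_distrib, e,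
    Finset.sum_comm (f := fun a b => bezE Λ a (M.adjugate b a) * h b)] at m
  simp only [← Finset.sum_mul, p', zero_mul, Finset.sum_const_zero, add_zero] at m
  rw [Finset.sum_congr rfl fun i _ => mul_comm (X (Sum.inl i) - X (Sum.inr i)) (h i)]
  exact m

theorem dual0 (n : ℕ) (G : MvPolynomial ι Λ) : ∃ Jb : MvPolynomial (ι ⊕ ι) (Polynomial Λ),
    Jb.map (Polynomial.evalRingHom 0) =
      ∏ i : ι, ∑ a ∈ Finset.range (n + 1), X (Sum.inl i) ^ a * X (Sum.inr i) ^ (n - a) ∧
    dm (Polynomial.derivative (R := Λ)).toAddMonoidHom Jb +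
        Jb * (rename Sum.inl G + rename Sum.inr (-G)).map Polynomial.C ∈
      Ex fun o => (gS Λ n (Sum.elim (fun _ => 1) fun _ => -1) o).map Polynomial.C +
        C Polynomial.X * pderiv o ((rename Sum.inl G + rename Sum.inr (-G)).map Polynomial.C) := by
  obtain ⟨h0, e0⟩ := bez G
  rw [e0]
  let h : ι → MvPolynomial (ι ⊕ ι) (Polynomial Λ) := fun i => (h0 i).map Polynomial.C
  have e : (∑ i, (X (Sum.inl i) - X (Sum.inr i)) * h0 i).map Polynomial.C =
      ∑ i, (X (Sum.inl i) - X (Sum.inr i)) * h i := by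
    simp only [map_sum, map_mul, map_sub, map_X, h]
  rw [e]
  let M : Matrix ι ι (MvPolynomial (ι ⊕ ι) (Polynomial Λ)) := Matrix.of fun i j =>
    (if i = j then bezS _ n i else 0) + C Polynomial.X * bezE _ i (h j)
  have hM : ∀ i j, M i j = (if i = j then bezS _ n i else 0) + C Polynomial.X * bezE _ i (h j) :=
    fun _ _ => rfl
  refine ⟨M.det, ?_, ?_⟩
  · rw [RingHom.map_det, ← det_diagonal]
    congr 1
    ext1 i j
    rw [RingHom.mapMatrix_apply, map_apply, hM, map_add, map_mul, map_C, diagonal_apply,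
      apply_ite (MvPolynomial.map _), bezS_map, map_zero]
    simp [bezS]
  · have hD : IsD (Polynomial.derivative (R := Λ)).toAddMonoidHom := fun a b => by
      change Polynomial.derivative (a * b) = a * Polynomial.derivative b + Polynomial.derivative a * b
      rw [Polynomial.derivative_mul, add_comm]
    have z : ∀ P : MvPolynomial (ι ⊕ ι) Λ,
        dm (Polynomial.derivative (R := Λ)).toAddMonoidHom (P.map Polynomial.C) = 0 := fun P => by
      ext1 v
      rw [coeff_dm, coeff_map]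
      exact Polynomial.derivative_C
    have d : ∀ a b, dm (Polynomial.derivative (R := Λ)).toAddMonoidHom (M a b) =
        bezE _ a (h b) := fun a b => by
      have e1 : bezE _ a (h b) = (bezE _ a (h0 b)).map Polynomial.C := by
        rw [bezE_ap, bezE_ap, map_add, pderiv_map, pderiv_map]
      rw [hM, map_add, hD.dm, dm_C, apply_ite (dm _), ← bezS_map Polynomial.C, z, map_zero,
        ite_self, zero_add, e1, z, mul_zero, zero_add]
      change C (Polynomial.derivative Polynomial.X) * _ = _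
      rw [Polynomial.derivative_X, C_1, one_mul]
    rw [der_det (RingHom.id _) _ hD.dm]
    simp only [d, RingHom.id_apply]
    refine bez_main (n := n) Polynomial.X h _ M hM fun i => ?_
    have g1 : (gS Λ n (Sum.elim (fun _ => 1) fun _ => -1) (Sum.inl i : ι ⊕ ι)).map Polynomial.C +
        (gS Λ n (Sum.elim (fun _ => 1) fun _ => -1) (Sum.inr i : ι ⊕ ι)).map Polynomial.C =
        X (Sum.inl i) ^ (n + 1) - X (Sum.inr i) ^ (n + 1) := by
      simp [gS, sub_eq_add_neg]
    have g2 : ∀ j, bezE _ i ((X (Sum.inl j) - X (Sum.inr j)) * h j) =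
        bezE _ i (h j) * (X (Sum.inl j) - X (Sum.inr j)) := fun j => by
      rw [bezE_mul, map_sub, bezE_l, bezE_r, sub_self, zero_mul, add_zero, mul_comm]
    rw [add_add_add_comm, ← mul_add, ← bezE_ap, g1, map_sum, Finset.sum_congr rfl fun j _ => g2 j,
      ← bezS_mul, Finset.mul_sum]
    simp only [hM, add_mul, Finset.sum_add_distrib, ite_mul, zero_mul, Finset.sum_ite_eq,
      Finset.mem_univ, if_true, mul_assoc]

end

end Pool.Agent.Lib.MP_5591bc_ag.Hy
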