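import Pool.Agent.Lib.MP_5591bc_ag.Hy.Uni
import Pool.Agent.Lib.MP_5591bc_ag.Hy.Hs

/-! The classes of the monomials over the field of Laurent series. -/

namespace Pool.Agent.Lib.MP_5591bc_ag.Hy

open MvPolynomial Matrix

noncomputable section

variable {ι σ F Λ' : Type*} [Field F] [CommRing Λ'] [Fintype ι] [DecidableEq ι] {n : ℕ}
  {G : MvPolynomial ι F} {c : (ι →₀ ℕ) → (ι → Fin (n + 1)) → HahnSeries ℤ F}
  {A : MvPolynomial ι (HahnSeries ℤ F)}

omit [Fintype ι] [DecidableEq ι] in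
theorem cls_g (n : ℕ) (G : MvPolynomial ι F) :
    (fun i => (gU n G i).map (ku F)) = gL n G := by
  funext i
  have h : (ku F).comp Polynomial.C = HahnSeries.C := RingHom.ext fun a => ku_C a
  rw [gF_map, ku_X, MvPolynomial.map_map, h]

theorem cls_poly {τ : Polynomial F} {e : (ι →₀ ℕ) → ℕ}
    {ρ : (ι →₀ ℕ) → (ι → Fin (n + 1)) → Polynomial F}
    (h : ∀ v, C (τ ^ e v) * monomial v 1 - ∑ a, C (ρ v a) * xe _ a ∈ Ex (gU n G))
    (hc : ∀ v a, ku F τ ^ e v * c v a = ku F (ρ v a)) (P : MvPolynomial ι (Polynomial F)) :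
    ∃ (M : ℕ) (r : (ι → Fin (n + 1)) → Polynomial F),
      C (τ ^ M) * P - ∑ a, C (r a) * xe _ a ∈ Ex (gU n G) ∧
        ∀ a, ku F τ ^ M * sx (ku F) (c · a) P = ku F (r a) := by
  induction P using MvPolynomial.induction_on' with
  | monomial v x =>
    refine ⟨e v, fun a => x * ρ v a, ?_, fun a => ?_⟩
    · have h2 : (monomial v x : MvPolynomial ι (Polynomial F)) = C x * monomial v 1 := by
        rw [C_mul_monomial, mul_one]
      have h3 : ∑ a, C (x * ρ v a) * xe (Polynomial F) a =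
          C x * ∑ a, C (ρ v a) * xe (Polynomial F) a := by
        rw [Finset.mul_sum]
        exact Finset.sum_congr rfl fun a _ => by rw [C_mul, mul_assoc]
      rw [h2, h3, mul_left_comm, ← mul_sub]
      exact ex_C_mul x (h v)
    · rw [sx_monomial, map_mul, ← hc]
      ring
  | add P Q hP hQ =>
    obtain ⟨M, r, h1, h2⟩ := hP
    obtain ⟨M', r', h1', h2'⟩ := hQ
    refine ⟨M + M', fun a => τ ^ M' * r a + τ ^ M * r' a, ?_, fun a => ?_⟩
    · have h3 := (Ex (gU n G)).add_mem (ex_C_mul (τ ^ M') h1) (ex_C_mul (τ ^ M) h1')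
      have h4 : ∑ a, C (τ ^ M' * r a + τ ^ M * r' a) * xe (Polynomial F) a =
          C (τ ^ M') * ∑ a, C (r a) * xe (Polynomial F) a +
            C (τ ^ M) * ∑ a, C (r' a) * xe (Polynomial F) a := by
        rw [Finset.mul_sum, Finset.mul_sum, ← Finset.sum_add_distrib]
        exact Finset.sum_congr rfl fun a _ => by
          rw [C_add, C_mul, C_mul, add_mul, mul_assoc, mul_assoc]
      have h5 : ∀ x y p q s t : MvPolynomial ι (Polynomial F), x * y * (p + q) - (y * s + x * t) =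
          y * (x * p - s) + x * (y * q - t) := fun x y p q s t => by ring
      rw [h4, pow_add, C_mul, h5]
      exact h3
    · rw [sx_add, map_add, map_mul, map_mul, map_pow, map_pow, ← h2, ← h2']
      ring

theorem cl_ex [CharZero F] {O : Subring F} (hG : G.IsHomogeneous (n + 2))
    (hO : ∀ v, coeff v G ∈ O) : ∃ (c : (ι →₀ ℕ) → (ι → Fin (n + 1)) → HahnSeries ℤ F)
      (τ : Polynomial F) (c0 : ℕ), Cl n G c ∧ τ ≠ 0 ∧ (∀ k, τ.coeff k ∈ O) ∧ ∀ v a,
        ∃ ρ : Polynomial F, ku F τ ^ (wJ n v + c0) * c v a = ku F ρ ∧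
          ∀ k, ∃ y ∈ O, (den n c0 (wJ n v) : F) * ρ.coeff k = (wJ n v).factorial * y := by
  obtain ⟨τ, c0, h0, hτ, h⟩ := uni hG hO
  choose ρ h1 h2 using h
  have hτ0 : τ ≠ 0 := fun h => by simp [h] at h0
  have ht : ku F τ ≠ 0 := fun h => hτ0 (ku_inj (h.trans (map_zero _).symm))
  have hc : ∀ v a, ku F τ ^ (wJ n v + c0) * ((ku F τ ^ (wJ n v + c0))⁻¹ * ku F (ρ v a)) =
      ku F (ρ v a) := fun v a => mul_inv_cancel_left₀ (pow_ne_zero _ ht) _
  refine ⟨fun v a => (ku F τ ^ (wJ n v + c0))⁻¹ * ku F (ρ v a), τ, c0, ⟨?_, ?_, ?_⟩, hτ0, hτ,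
    fun v a => ⟨ρ v a, hc v a, h2 v a⟩⟩
  · intro a i w
    obtain ⟨M, r, h3, h4⟩ := cls_poly (e := fun v => wJ n v + c0)
      (c := fun v a => (ku F τ ^ (wJ n v + c0))⁻¹ * ku F (ρ v a)) h1 hc
      (pderiv i (monomial w 1) + monomial w 1 * gU n G i)
    have h5 := (Ex (gU n G)).sub_mem (ex_C_mul (τ ^ M) (ex_gen (g := gU n G) i (monomial w 1))) h3
    rw [sub_sub_cancel] at h5
    have h6 := h4 a
    rw [ind h5, Pi.zero_apply, map_zero] at h6
    have h7 := (mul_eq_zero.1 h6).resolve_left (pow_ne_zero _ ht)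
    have h8 : (pderiv i (monomial w 1) + monomial w 1 * gL n G i :
        MvPolynomial ι (HahnSeries ℤ F)) =
        (pderiv i (monomial w 1) + monomial w 1 * gU n G i).map (ku F) := by
      rw [← cls_g, map_add, map_mul, ← pderiv_map, map_monomial, (ku F).map_one]
    rw [h8, sx_map, RingHom.id_comp]
    exact h7
  · intro a b
    have h3 : ∑ b, C ((if a = b then τ ^ (wJ n (ee a) + c0) else 0) - ρ (ee a) b) *
        xe (Polynomial F) b ∈ Ex (gU n G) := by
      have h4 : ∑ b, C (if a = b then τ ^ (wJ n (ee a) + c0) else 0) * xe (Polynomial F) b =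
          C (τ ^ (wJ n (ee a) + c0)) * monomial (ee a) 1 := by
        rw [Finset.sum_eq_single a (fun b _ hb => by rw [if_neg hb.symm, C_0, zero_mul])
          (fun h => absurd (Finset.mem_univ a) h), if_pos rfl]
      simp only [C_sub, sub_mul, Finset.sum_sub_distrib]
      rw [h4]
      exact h1 (ee a)
    have h4 := sub_eq_zero.1 (congrFun (ind h3) b)
    rw [← h4]
    split_ifs
    · rw [map_pow, inv_mul_cancel₀ (pow_ne_zero _ ht)]
    · rw [map_zero, mul_zero]
  · intro v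
    have h3 := ex_C_mul (ku F τ ^ (wJ n v + c0))⁻¹ (ex_map (ku F) (h1 v))
    rw [cls_g, map_sub, map_mul, map_sum, map_C, map_monomial, (ku F).map_one, mul_sub,
      ← mul_assoc, ← C_mul, map_pow, inv_mul_cancel₀ (pow_ne_zero _ ht), C_1, one_mul,
      Finset.mul_sum] at h3
    have h4 : ∀ a, C (ku F τ ^ (wJ n v + c0))⁻¹ *
        MvPolynomial.map (ku F) (C (ρ v a) * xe (Polynomial F) a) =
        C ((ku F τ ^ (wJ n v + c0))⁻¹ * ku F (ρ v a)) * xe (HahnSeries ℤ F) a := fun a => by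
      rw [map_mul, map_C, map_monomial, (ku F).map_one, C_mul, mul_assoc]
    simp only [h4] at h3
    exact h3

end

end Pool.Agent.Lib.MP_5591bc_ag.Hy
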