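import Pool.Agent.Lib.MP_5591bc_ag.Hy.Ana

/-! The columns are periods over fixed cycles; homogeneous coordinates. -/

namespace Pool.Agent.Lib.MP_5591bc_ag.Hy

open MvPolynomial Set Filter Topology Matrix M Cu Cv

noncomputable section

variable {σ 𝓡 ι ν F : Type} [Fintype σ] [DecidableEq σ] [CommRing 𝓡] [Fintype ν] [DecidableEq ν]
  [Field F] {N n m : ℕ} {φ : (σ → ℂ) → 𝓡 →+* ℂ} {s : σ → ℂ} {c : Ch N}
  {o : (Fin (N + 1) → ℂ) → ι → ℂ} {f : MvPolynomial (Fin (N + 1)) 𝓡}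
  {A : ν → MvPolynomial (Fin (N + 1)) 𝓡} {a : ℂ} {Q : (σ → ℂ) → Matrix ν ν ℂ} {R : Subring ℂ}
  {D : σ → F →+ F} {j : F →+* MvPowerSeries σ ℂ} {ψ : 𝓡 →+* F}

omit [Fintype σ] [DecidableEq σ] in
theorem col_int {v : (σ → ℂ) → ν → ℂ} (hQ : ContinuousAt Q s) (hv : ContinuousAt v s)
    (hd : ∀ᶠ t in 𝓝 s, (Q t).det ≠ 0)
    (hk : ∀ᶠ t in 𝓝 s, ∃ k : ν → ℤ, v t = Q t *ᵥ fun j => (k j : ℂ)) (k0 : ν → ℤ)
    (h0 : v s = Q s *ᵥ fun j => (k0 j : ℂ)) :
    ∀ᶠ t in 𝓝 s, v t = Q t *ᵥ fun j => (k0 j : ℂ) := by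
  have hu : ∀ t (k : ν → ℂ), (Q t).det ≠ 0 → v t = Q t *ᵥ k → (Q t)⁻¹ *ᵥ v t = k := by
    intro t k h1 h2
    rw [h2, mulVec_mulVec, nonsing_inv_mul _ (Ne.isUnit h1), one_mulVec]
  have hi : ContinuousAt (fun t => (Q t)⁻¹) s := by
    refine (continuousAt_matrix_inv (Q s) ?_).comp hQ
    rw [Ring.inverse_eq_inv']
    exact continuousAt_inv₀ hd.self_of_nhds
  have hc : ContinuousAt (fun t => (Q t)⁻¹ *ᵥ v t) s := by
    refine continuousAt_pi.2 fun i => ?_
    exact tendsto_finsetSum _ fun j _ =>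
      (continuousAt_pi.1 (continuousAt_pi.1 hi i) j).mul (continuousAt_pi.1 hv j)
  filter_upwards [hd, hk, Metric.tendsto_nhds.1 hc 1 one_pos] with t h1 ⟨k, h2⟩ h3
  rw [hu t _ h1 h2, hu s _ hd.self_of_nhds h0] at h3
  rw [h2]
  congr 1
  funext j
  have h4 := (dist_le_pi_dist (fun j => (k j : ℂ)) (fun j => (k0 j : ℂ)) j).trans_lt h3
  rw [Complex.dist_eq, ← Int.cast_sub, Complex.norm_intCast, ← Int.cast_abs] at h4
  have h5 : |k j - k0 j| < 1 := by exact_mod_cast h4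
  rw [sub_eq_zero.1 (Int.abs_lt_one_iff.1 h5)]

theorem LH.col (h : LH φ f m A a Q s) : ∃ c : ν → Ch N,
    (∀ k, Cyc {x | eval x (f.map (φ s)) ≠ 0} (c k)) ∧ ∀ᶠ t in 𝓝 s, ∀ i k, Q t i k =
      a * per (fun x => eval x ((A i).map (φ t)) / eval x (f.map (φ t)) ^ m) (c k) := by
  have key : ∀ (M : Matrix ν ν ℂ) (k : ν),
      (M *ᵥ fun j => ((Pi.single k 1 : ν → ℤ) j : ℂ)) = fun i => M i k := by
    intro M k
    funext i
    simp [mulVec, dotProduct, Pi.single_apply]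
  choose c hc hv using fun k : ν => (h.ev.self_of_nhds.2 _).2 ⟨Pi.single k 1, rfl⟩
  refine ⟨c, hc, ?_⟩
  have hQ : ContinuousAt Q s :=
    continuousAt_pi.2 fun i => continuousAt_pi.2 fun k => (h.anQ i k).continuousAt
  have ho : ∀ i : Fin (N + 1), Continuous fun x : Fin (N + 1) → ℂ => id x i :=
    fun i => continuous_apply i
  have main : ∀ k, ∀ᶠ t in 𝓝 s, (fun i => a * per
      (fun x => eval x ((A i).map (φ t)) / eval x (f.map (φ t)) ^ m) (c k)) =
      Q t *ᵥ fun j => ((Pi.single k 1 : ν → ℤ) j : ℂ) := by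
    intro k
    refine col_int hQ ?_ (h.ev.mono fun t ht => ht.1) ?_ _ (hv k).symm
    · exact continuousAt_pi.2 fun i =>
        continuousAt_const.mul (ana_an ho h.an (hc k) (A i) m).continuousAt
    · filter_upwards [h.ev, ana_ev ho h.an (hc k)] with t h1 h2
      exact (h1.2 _).1 ⟨c k, h2, rfl⟩
  filter_upwards [eventually_all.2 main] with t ht i k
  have := congrFun (ht k) i
  rw [key] at this
  exact this.symm

omit [DecidableEq σ] in
theorem LH.scale (h : LH φ f m A a Q s) {β : 𝓡} (hβ : φ s β ≠ 0) :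
    LH φ (C β * f) m (fun i => C (β ^ m) * A i) a Q s := by
  refine ⟨h.an, h.anQ, ?_⟩
  filter_upwards [h.ev, (h.an β).continuousAt.eventually_ne hβ] with t h1 h2
  have e1 : {x | eval x ((C β * f).map (φ t)) ≠ 0} = {x | eval x (f.map (φ t)) ≠ 0} := by
    ext x
    simp [h2]
  have e2 : ∀ i, (fun x => eval x ((C (β ^ m) * A i).map (φ t)) /
      eval x ((C β * f).map (φ t)) ^ m) =
      fun x => eval x ((A i).map (φ t)) / eval x (f.map (φ t)) ^ m := by
    intro i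
    funext x
    simp only [map_mul, map_C, eval_C, map_pow, mul_pow]
    exact mul_div_mul_left _ _ (pow_ne_zero _ h2)
  refine ⟨h1.1, fun v => ?_⟩
  rw [← h1.2 v, e1]
  simp only [e2]

theorem hom_ex (P : MvPolynomial ι 𝓡) {e : ℕ} (h : P.totalDegree ≤ e) :
    ∃ P' : MvPolynomial (Option ι) 𝓡, P'.IsHomogeneous e ∧
      (∀ (χ : 𝓡 →+* ℂ) x, eval (o1 x) (P'.map χ) = eval x (P.map χ)) ∧
      ∀ v, coeff v P' = 0 ∨ ∃ u, coeff v P' = coeff u P := by
  classical
  refine ⟨∑ v ∈ P.support, monomial (v.mapDomain some + Finsupp.single none (e - v.degree))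
    (coeff v P), ?_, ?_, ?_⟩
  · refine IsHomogeneous.sum _ _ _ fun v hv => isHomogeneous_monomial _ ?_
    have h1 : v.degree ≤ e := (le_totalDegree hv).trans h
    rw [map_add, Finsupp.degree_mapDomain, Finsupp.degree_single]
    omega
  · intro χ x
    conv_rhs => rw [P.as_sum]
    rw [map_sum, map_sum, map_sum, map_sum]
    refine Finset.sum_congr rfl fun v _ => ?_
    rw [monomial_add_single, ← rename_monomial, map_mul, map_mul, map_rename, eval_rename]
    have : o1 x ∘ some = x := rfl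
    simp [this, o1]
  · intro w
    rw [coeff_sum]
    by_cases hw : ∃ v, Finsupp.mapDomain some v + Finsupp.single none (e - v.degree) = w
    · obtain ⟨v, rfl⟩ := hw
      refine Or.inr ⟨v, ?_⟩
      rw [Finset.sum_eq_single v]
      · simp
      · intro u _ hu
        rw [coeff_monomial, if_neg]
        intro e'
        apply hu
        ext i
        have := DFunLike.congr_fun e' (some i)
        simpa [Finsupp.mapDomain_apply (Option.some_injective _)] using this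
      · intro hv
        simp [notMem_support_iff.1 hv]
    · refine Or.inl (Finset.sum_eq_zero fun v _ => ?_)
      rw [coeff_monomial, if_neg]
      exact fun e' => hw ⟨v, e'⟩

omit [DecidableEq ν] in
theorem hom_fam (f : MvPolynomial (Fin (N + 1)) 𝓡) (m : ℕ)
    (A : ν → MvPolynomial (Fin (N + 1)) 𝓡) : ∃ (n δ m' : ℕ)
      (G : MvPolynomial (Option (Fin (N + 1))) 𝓡) (A' : ν → MvPolynomial (Option (Fin (N + 1))) 𝓡),
      G.IsHomogeneous (n + 2) ∧ (∀ i, (A' i).IsHomogeneous δ) ∧ δ + (N + 2) = (n + 2) * m' ∧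
      (∀ v, coeff v G = 0 ∨ ∃ u, coeff v G = coeff u f) ∧
      (∀ (χ : 𝓡 →+* ℂ) x, eval (o1 x) (G.map χ) = eval x (f.map χ)) ∧
      ∀ (χ : 𝓡 →+* ℂ) x i, eval x (f.map χ) ≠ 0 →
        eval (o1 x) ((A' i).map χ) / eval x (f.map χ) ^ m' =
          eval x ((A i).map χ) / eval x (f.map χ) ^ m := by
  obtain ⟨G, hG, eG, cG⟩ := hom_ex f (e := f.totalDegree + 2) (by omega)
  obtain ⟨b, hb⟩ : ∃ b, ∀ i, (A i).totalDegree ≤ b :=
    ⟨Finset.univ.sup fun i => (A i).totalDegree,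
      fun i => Finset.le_sup (f := fun i => (A i).totalDegree) (Finset.mem_univ i)⟩
  have hA : ∀ i, (A i * f ^ (b + N + 2)).totalDegree ≤
      (f.totalDegree + 2) * m + f.totalDegree * (b + N + 2) + 2 * b + N + 2 := by
    intro i
    have h1 := totalDegree_mul (A i) (f ^ (b + N + 2))
    have h2 := totalDegree_pow f (b + N + 2)
    have h3 := hb i
    rw [mul_comm] at h2
    omega
  choose A' hA' eA _ using fun i => hom_ex _ (hA i)
  refine ⟨f.totalDegree, _, m + (b + N + 2), G, A', hG, hA', by ring, cG, eG, ?_⟩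
  intro χ x i hx
  rw [eA, map_mul, map_pow, map_mul, map_pow, pow_add _ m]
  exact mul_div_mul_right _ _ (pow_ne_zero _ hx)

end

end Pool.Agent.Lib.MP_5591bc_ag.Hy
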