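import Pool.Agent.Lib.MP_5591bc_ag.Cv.Defs
import Pool.Agent.Lib.MP_5591bc_ag.B.Defs

/-! Periods of rational forms of top degree on complements of affine hypersurfaces. -/

namespace Pool.Agent.Lib.MP_5591bc_ag.Hy

open MvPolynomial Set Matrix M B Cv

noncomputable section

variable {n : ℕ}

/-- the face `u j = ε` of a cube -/
def fc {Y : Type*} (j : Fin (n + 1)) (ε : ℝ) (γ : (Fin (n + 1) → ℝ) → Y) (u : Fin n → ℝ) : Y :=
  γ (j.insertNth ε u)

/-- `c` is a cycle in `S`: an integral combination, with boundary zero, of twice continuously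
differentiable maps which send the unit cube to `S` -/
def Cyc (S : Set (Fin (n + 1) → ℂ)) (c : ((Fin (n + 1) → ℝ) → Fin (n + 1) → ℂ) →₀ ℤ) : Prop :=
  (∀ γ ∈ c.support, ContDiff ℝ 2 γ ∧ MapsTo γ (Icc 0 1) S) ∧
    ∑ j : Fin (n + 1), (-1 : ℤ) ^ (j : ℕ) • (c.mapDomain (fc j 1) - c.mapDomain (fc j 0)) = 0

/-- the integral of the form `a dx_0 ... dx_n` over the chain `c` -/
def per (a : (Fin (n + 1) → ℂ) → ℂ) (c : ((Fin (n + 1) → ℝ) → Fin (n + 1) → ℂ) →₀ ℤ) : ℂ :=
  c.sum fun γ k => k * ∫ u in Icc (0 : Fin (n + 1) → ℝ) 1,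
    a (γ u) * (of fun i j => fderiv ℝ γ u (Pi.single i 1) j).det

/-- the columns of `M` are a basis of the lattice of the periods, multiplied by `a`, of the forms
`A i dx / f ^ m` on the complement of `f = 0` -/
def Lat {ν : Type*} [Fintype ν] [DecidableEq ν] (f : MvPolynomial (Fin (n + 1)) ℂ) (m : ℕ)
    (A : ν → MvPolynomial (Fin (n + 1)) ℂ) (a : ℂ) (M : Matrix ν ν ℂ) : Prop :=
  M.det ≠ 0 ∧ ∀ v, (∃ c, Cyc {x | eval x f ≠ 0} c ∧
    v = fun i => a * per (fun x => eval x (A i) / eval x f ^ m) c) ↔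
      ∃ k : ν → ℤ, v = M *ᵥ fun j => (k j : ℂ)

variable {K σ ν : Type*} [Field K] [Algebra K ℂ] [Fintype σ] [DecidableEq σ] [Fintype ν]
  [DecidableEq ν]

/-- `P` is a solution of the system whose block `Q t` is a period matrix of the forms
`A i dx / f ^ m` on the complement of the hypersurface `f(t, ζ t, x) = 0` -/
def PerH (T : MvPolynomial σ K) (q : Polynomial (MvPolynomial σ K))
    (B : σ → Matrix ν ν (Polynomial (MvPolynomial σ K)))
    (f : MvPolynomial (Fin (n + 1)) (Polynomial (MvPolynomial σ K))) (m : ℕ)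
    (A : ν → MvPolynomial (Fin (n + 1)) (Polynomial (MvPolynomial σ K))) (a : ℂ)
    (U : Set (σ → ℂ)) (P : (σ → ℂ) → Matrix (Option ν) (Option ν) ℂ) : Prop :=
  FundS T q B U P ∧ ∀ t ∈ U, Lat (f.map (evz t (P t none none))) m
    (fun i => (A i).map (evz t (P t none none))) a ((P t).submatrix some some)

/-- Off `T = 0` the rows of weight at least `p` of every branch form a Hodge filtration of weight
`j`, polarised by `J`, with Griffiths transversality, and `Q J Qᵀ` only depends on the point of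
the cover. -/
def Pol (T : MvPolynomial σ K) (U : Set (σ → ℂ)) (P : (σ → ℂ) → Matrix (Option ν) (Option ν) ℂ)
    (J : Matrix ν ν ℝ) (j : ℕ) (w : ν → ℕ) : Prop :=
  ∃ L : (σ → ℂ) → ℂ → Matrix ν ν ℂ, ∀ U' P', ContM U P U' P' → ∀ t ∈ U', aeval t T ≠ 0 →
    HS J j w ((P' t).submatrix some some) ∧
    (∀ l i, (fun k => fderiv ℂ (fun z => P' z (some i) (some k)) t (Pi.single l 1)) ∈
      Fil w ((P' t).submatrix some some) (w i - 1)) ∧
    (P' t).submatrix some some * J.map Complex.ofReal * ((P' t).submatrix some some)ᵀ =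
      L t (P' t none none)

end

end Pool.Agent.Lib.MP_5591bc_ag.Hy
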