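import Pool.Agent.Lib.MP_5591bc_ag.Hy.Set
import Pool.Agent.Lib.MP_5591bc_ag.Rg.Main
import Pool.Agent.Lib.MP_5591bc_ag.Cv.DetP

/-! A determinant with finite monodromy is algebraic. -/

namespace Pool.Agent.Lib.MP_5591bc_ag.Hy

open Polynomial Set Filter Topology Metric Matrix G R W M A B E Z Rg Cu Cv

noncomputable section

variable {σ K ν : Type} [Field K] [NumberField K] [Algebra K ℂ] [Fintype σ] [DecidableEq σ]
  [Fintype ν] [DecidableEq ν] {T : MvPolynomial σ K} {B : σ → Matrix ν ν (MvPolynomial σ K)}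
  {V : Set (σ → ℂ)} {Q : (σ → ℂ) → Matrix ν ν ℂ} {s t : σ → ℂ}

omit [NumberField K] in
theorem lb_det (oV : IsOpen V) (cV : IsPreconnected V) (hQ : FundM T B V Q) (hs : s ∈ V)
    (hT : MvPolynomial.aeval s T ≠ 0)
    (hm : ∀ V' Q', ContM V Q V' Q' → s ∈ V' → (Q' s).det ^ 2 = (Q s).det ^ 2) (v : σ → ℂ) :
    ∃ (Z : Finset ℂ) (ρ : ℝ), 0 < ρ ∧
      LB T B s v Z (ball 0 ρ, fun u => s + u • v, fun u => Q (s + u • v)) {g | g.det ^ 2 = 1} := by
  obtain ⟨y, ey⟩ : ∃ y : ℂ → σ → ℂ, y = fun u => s + u • v := ⟨_, rfl⟩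
  have y0 : y 0 = s := by simp [ey]
  have yu : ∀ u, s + u • v = y u := fun u => by rw [ey]
  have hy' : ∀ u, AnalyticAt ℂ y u := fun u => by
    rw [ey]
    exact analyticAt_const.add (analyticAt_id.smul analyticAt_const)
  have hy := hy' 0
  simp only [yu]
  rw [← y0] at hs hT hm
  obtain ⟨Z, g, p, hA, hon⟩ := alg_arc T hy (fun l => ⟨MvPolynomial.X 1 - MvPolynomial.C (s l) -
    MvPolynomial.C (v l) * MvPolynomial.X 0, fun k => by
      simpa using congrArg (MvPolynomial.eval ![0, s l + 1]) k, .of_forall fun u => by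
        simp [ey, mul_comm]⟩) hT
  have loc : Loc T B := loc_fund oV ⟨_, hs⟩ hQ fun e => hT (by rw [e, map_zero])
  have hTn : ∀ᶠ u in 𝓝 (0 : ℂ), MvPolynomial.aeval (y u) T ≠ 0 :=
    (AnalyticAt.aeval_mvPolynomial (f := y) (fun l => analyticAt_pi_iff.1 hy l)
      T).continuousAt.eventually_ne hT
  obtain ⟨ρ, ρ0, hρ⟩ := Metric.eventually_nhds_iff_ball.1 (hy.eventually_analyticAt.and
    ((hy.continuousAt.eventually (oV.mem_nhds hs)).and hTn))
  obtain ⟨a, ea⟩ : ∃ a : Bc σ ν, a = (ball 0 ρ, y, fun u => Q (y u)) := ⟨_, rfl⟩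
  have a1 : a.2.1 = y := by rw [ea]
  have a2 : ∀ u, a.2.2 u = Q (y u) := fun u => by rw [ea]
  have a0 : (0 : ℂ) ∈ a.1 := by rw [ea]; exact mem_ball_self ρ0
  have ha : IsBr T B a := by
    rw [ea]
    exact ⟨isOpen_ball, (convex_ball _ _).isPreconnected, fun u hu => (hρ u hu).1, fun u hu =>
      ⟨(hρ u hu).2.2, V, Q, oV, cV, hQ, (hρ u hu).2.1, .of_forall fun _ => rfl⟩⟩
  have hb : ∀ b, Rch T B a b → ∀ u ∈ b.1, OnC T g p u (b.2.1 u) := fun b h =>
    rch_on ha a0 (by rw [a1]; exact hon) h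
  have hg : ∀ t, Rch T B a (mulB a t) → t.det ^ 2 = 1 := fun t ht => by
    obtain ⟨-, V', Q', h1, h2, h3⟩ : t.det ≠ 0 ∧ ∃ V' Q', ContM V Q V' Q' ∧ y 0 ∈ V' ∧
        ∀ᶠ x in 𝓝 (y 0), Q' x = Q x * t := by
      simpa only [a1] using
        rch_germ ha a0 .base oV hQ (by rw [a1]; exact hs) (by rw [a1, a2]) ht
    have e := hm _ _ h1 h2
    rw [h3.self_of_nhds, det_mul, mul_pow] at e
    exact mul_left_cancel₀ (pow_ne_zero 2 (hQ _ hs).1) (e.trans (mul_one _).symm)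
  have ln : ∀ b, Rch T B a b → ∀ u ∈ b.1, b.2.1 u = y u := fun b hb u hu =>
    sub_eq_zero.1 (bra_zero (w := fun u x _ => x - y u) ha (fun b' hb' x hx =>
      (((hb'.br ha).2.2.1 x hx).sub (hy' x)).restrictScalars) a0
      (.of_forall fun x => by rw [a1, sub_self]) hb u hu)
  refine ⟨Z, ρ, ρ0, ?_⟩
  rw [← ea]
  refine ⟨ha, fun b hb u hu => (ln b hb u hu).trans (yu u).symm, fun g hg e => by
    simp [e] at hg,
    fun x hx => ?_, ?_⟩
  · obtain ⟨R, R0, hR⟩ := Metric.isOpen_iff.1 Z.finite_toSet.isClosed.isOpen_compl x hx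
    have hR' : ∀ u ∈ ball x R, u ∉ Z := fun u hu => hR hu
    obtain ⟨b₀, h₀, x₀⟩ := br_all loc hA ha ⟨0, a0⟩ (hb a .refl) x hx
    obtain ⟨β, n0, n2, -⟩ := br_disc loc hA (h₀.br ha) (hb b₀ h₀) hR' (mem_ball_self R0) x₀
    have n1 : Rch T B a β := Relation.ReflTransGen.trans h₀ n0
    refine ⟨R, R0, {β}, Set.finite_singleton _, ?_, fun b h u h1 h2 => ?_⟩
    · rintro _ rfl
      exact ⟨n1, n2⟩
    obtain ⟨b', k1, k2, -, k4⟩ := br_disc loc hA (h.br ha) (hb b h) hR' h2 h1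
    have k5 : Rch T B a b' := Relation.ReflTransGen.trans h k1
    have n4 : ∀ v ∈ β.1, β.2.1 v = b'.2.1 v := fun v hv => by
      rw [ln β n1 v hv, ln b' k5 v (k2 ▸ n2 ▸ hv)]
    obtain ⟨t, t0, ht⟩ := br_uniq (n1.br ha) (k5.br ha) (n2.trans k2.symm) n4
    have m3 : Rch T B a (mulB a t) := by
      refine Relation.ReflTransGen.trans k5 (Rch.symm ((n1.mul t0).tail
        ⟨(n1.br ha).mul t0, k5.br ha, u, n2 ▸ h2, k2 ▸ h2, ?_⟩))
      filter_upwards [(n1.br ha).1.mem_nhds (n2 ▸ h2)] with v hv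
      exact ⟨n4 v hv, (ht v hv).symm⟩
    refine ⟨β, rfl, t, hg _ m3, ?_⟩
    obtain ⟨z0, V₁, Q₁, o₁, -, f₁, m₁, e₁⟩ := (h.br ha).2.2.2 u h1
    obtain ⟨-, V₂, Q₂, o₂, -, f₂, m₂, e₂⟩ := (k5.br ha).2.2.2 u (k2 ▸ h2)
    have l1 : b'.2.1 u = b.2.1 u := by rw [ln b h u h1, ln b' k5 u (k2 ▸ h2)]
    rw [l1] at m₂
    have l2 : Q₁ (b.2.1 u) = Q₂ (b.2.1 u) := by
      rw [← e₁.self_of_nhds, ← k4, e₂.self_of_nhds, l1]
    filter_upwards [e₁, e₂, (h.br ha).1.mem_nhds h1, isOpen_ball.mem_nhds h2,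
      ((h.br ha).2.2.1 u h1).continuousAt.eventually (fund_uniq o₁ o₂ f₁ f₂ m₁ m₂ z0)]
      with x x1 x2 x3 x4 x5
    rw [x1, x5, l2, nonsing_inv_mul _ (f₂ _ m₂).1.isUnit, Matrix.mul_one, ln b h x x3,
      ← ln b' k5 x (k2 ▸ x4), ← x2, ht x (n2 ▸ x4)]
  · intro b h u hu p R R0 hs hR
    have e0 : p + (u - p) * Complex.exp 0 = u := by simp
    obtain ⟨y', Y, -, -, h3, h4⟩ := br_ext loc hA (h.br ha) (hb b h)
      (φ := fun ζ => p + (u - p) * Complex.exp ζ) (R := R) (fun ζ _ => by fun_prop)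
      (fun ζ hζ => ⟨by
        rw [(((Complex.hasDerivAt_exp ζ).const_mul (u - p)).const_add p).deriv]
        exact mul_ne_zero (sub_ne_zero.2 hs) (Complex.exp_ne_zero ζ), hR ζ hζ⟩)
      (mem_ball_self R0) (e0.symm ▸ hu)
    refine ⟨Y, by simp only [h3.self_of_nhds.2, e0], fun ζ hζ => ?_⟩
    obtain ⟨b', k1, k2, k3⟩ := h4 ζ hζ
    exact ⟨b', Relation.ReflTransGen.trans h k1, k2, k3.mono fun _ k => k.2⟩

theorem det_fin (hg : GalM T B) (oV : IsOpen V) (cV : IsPreconnected V) (hQ : FundM T B V Q)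
    (hs : s ∈ V) (hT : MvPolynomial.aeval s T ≠ 0)
    (hm : ∀ V' Q', ContM V Q V' Q' → s ∈ V' → (Q' s).det ^ 2 = (Q s).det ^ 2) :
    ∃ n > 0, ∃ a b : MvPolynomial σ ℂ, b ≠ 0 ∧ ∀ U P, IsOpen U → IsPreconnected U →
      FundM T B U P → ∃ c' : ℂ, ∀ t ∈ U,
        MvPolynomial.eval t b * (P t).det ^ n = c' * MvPolynomial.eval t a := by
  have T0 : T ≠ 0 := fun e => hT (by rw [e, map_zero])
  have eF : ∀ Y : Matrix ν ν ℂ, MvPolynomial.eval (fun a => Y a.1 a.2)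
      ((mvPolynomialX ν ν ℂ).det ^ 2) = Y.det ^ 2 := fun Y => by
    rw [map_pow, RingHom.map_det, RingHom.mapMatrix_apply, zc_X]
  have ev : ∀ (t : σ → ℂ) (p : MvPolynomial σ K),
      MvPolynomial.eval t (p.map (algebraMap K ℂ)) = MvPolynomial.aeval t p := fun t p => by
    rw [MvPolynomial.eval_map]; rfl
  have an : ∀ {U P}, FundM T B U P → AnalyticOnNhd ℂ (fun z => (P z).det) U := fun h =>
    Cu.cdet_an fun t ht i j => ((h t ht).2 i j).1
  have od : ∀ {U P}, FundM T B U P → ∀ t ∈ U, ∀ l, MvPolynomial.eval t (T.map (algebraMap K ℂ)) *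
      fderiv ℂ (fun z => (P z).det) t (Pi.single l 1) =
        MvPolynomial.eval t ((B l).trace.map (algebraMap K ℂ)) * (P t).det := fun h t ht l => by
    rw [ev, ev, Cv.fund_det h ht]
  obtain ⟨n, p, ⟨j, hj, p0⟩, hp⟩ := algK ((an hQ s hs).fun_pow 2) fun v => by
    obtain ⟨Z, ρ, ρ0, hL⟩ := lb_det oV cV hQ hs hT hm v
    have t0 : ∀ p : ℂ, ln (s + p • v) v T ≠ 0 := fun p e0 => hT (by
      have := ln_eval (s + p • v) v T (-p)
      rw [e0, Polynomial.eval_zero] at this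
      simpa using this.symm)
    have t1 : ln s v T ≠ 0 := by simpa using t0 0
    obtain ⟨q, q0, hq⟩ := algL (lb_fin hL
      (fun p => gron (.inl rfl) (t0 p) (fuchs hg _ v (t0 p) (.inl rfl)))
      (gron (.inr rfl) t1 (fuchs hg s v t1 (.inr rfl))) ((mvPolynomialX ν ν ℂ).det ^ 2) (by
        intro g g1 Y
        rw [eF, eF, det_mul, mul_pow, show g.det ^ 2 = 1 from g1, mul_one]))
    refine ⟨q, q0, (main_an ρ0 (AnalyticAt.aeval_mvPolynomial
      (f := fun (u : ℂ) (a : ν × ν) => Q (s + u • v) a.1 a.2)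
      (fun a => hL.br.an a.1 a.2 0 (mem_ball_self ρ0)) _) (hq _ ⟨_, .refl, rfl⟩)).mono
        fun u hu => ?_⟩
    rw [← eF]
    exact hu
  obtain ⟨W, w1, w2, w3⟩ := _root_.eventually_nhds_iff.1 (hp.and (oV.mem_nhds hs))
  have hW : FundM T B W Q := fun t ht => hQ t (w1 t ht).2
  have e1 : 0 < 2 := two_pos
  obtain ⟨m, m0, a, b, a0, b0, e⟩ := Cv.dp_min w2 ⟨s, w3⟩
    (fun t ht => (an hW t ht).differentiableAt) (fun t ht => (hW t ht).1) (od hW) (2 * n)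
    (fun k => ∑ j ∈ Finset.range (n + 1), if k = 2 * j then p j else 0)
    ⟨2 * j, Nat.mul_le_mul_left _ hj, by
      rw [Finset.sum_eq_single j
        (fun i _ hi => if_neg fun c => hi (Nat.eq_of_mul_eq_mul_left e1 c).symm)
        (fun hi => (hi (Finset.mem_range.2 (by omega))).elim), if_pos rfl]
      exact p0⟩ fun t ht => by
      simp only [map_sum, Finset.sum_mul]
      rw [Finset.sum_comm, ← (w1 t ht).1]
      refine Finset.sum_congr rfl fun i hi => ?_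
      rw [Finset.sum_eq_single (2 * i) (fun k _ hk => by rw [if_neg hk, map_zero, zero_mul])
        (fun hk => (hk (Finset.mem_range.2 (Nat.lt_succ_of_le (Nat.mul_le_mul_left _
          (Nat.lt_succ_iff.1 (Finset.mem_range.1 hi)))))).elim), if_pos rfl, pow_mul]
  exact ⟨m, m0, a, b, b0, fun U P o hU hP => Cv.dp_const (fun e => T0 (MvPolynomial.map_injective _
    (algebraMap K ℂ).injective (e.trans (map_zero _).symm))) a0 o hU (an hP) (od hP) e⟩

end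

end Pool.Agent.Lib.MP_5591bc_ag.Hy
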