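import Pool.Agent.Lib.MP_5591bc_ag.Hy.Set
import Pool.Agent.Lib.MP_5591bc_ag.Cv.Tame

/-! The field of the algebraic Taylor series at a generic point. -/

namespace Pool.Agent.Lib.MP_5591bc_ag.Hy

open Polynomial Set Filter Topology Matrix G M A B E Z Cu Cv

noncomputable section

variable {σ K ν : Type} [Field K] [NumberField K] [Algebra K ℂ] [Fintype σ] [DecidableEq σ]
  [Fintype ν] [DecidableEq ν] {T : MvPolynomial σ K} {q : (MvPolynomial σ K)[X]} {r n m N : ℕ}
  {B : σ → Matrix ν ν (MvPolynomial σ K)[X]} {U U' V V' : Set (σ → ℂ)}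
  {P P' : (σ → ℂ) → Matrix (Option ν) (Option ν) ℂ} {s t : σ → ℂ} {w : ν → ℕ}
  {J : Matrix ν ν ℝ} {j : ℕ} {f : MvPolynomial (Fin (N + 1)) (MvPolynomial σ K)[X]}
  {A : ν → MvPolynomial (Fin (N + 1)) (MvPolynomial σ K)[X]} {a : ℂ}
  {Bh : σ → Matrix (Ix ν r) (Ix ν r) (MvPolynomial σ K)}

theorem tame_der {R : Subring ℂ} {g : MvPowerSeries σ ℂ} (h : Tame R g) (l : σ) :
    Tame R (MvPowerSeries.pderiv ℂ l g) := by
  obtain ⟨b, hb, b0, hi⟩ := h
  refine ⟨b ^ 2, pow_mem hb 2, pow_ne_zero 2 b0, fun κ => ?_⟩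
  have h1 := hi (κ + Finsupp.single l 1)
  rw [map_add, Finsupp.degree_single] at h1
  have h2 : IsIntegral R b := isIntegral_algebraMap (x := (⟨b, hb⟩ : R))
  have h3 : IsIntegral R ((κ l : ℂ) + 1) :=
    isIntegral_algebraMap (x := ((κ l : R) + 1 : R))
  have h4 := ((h2.pow κ.degree).mul h1).mul h3
  rw [MvPowerSeries.coeff_pderiv, show (b ^ 2) ^ (κ.degree + 1) =
    b ^ κ.degree * b ^ (κ.degree + 1 + 1) by ring, ← mul_assoc, mul_assoc (b ^ κ.degree)]
  exact h4

theorem tame_inv {R : Subring ℂ} {g g' : MvPowerSeries σ ℂ} (h : Tame R g) (e : g * g' = 1) :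
    Tame R g' := by
  obtain ⟨𝓣, hC, hm⟩ := tame_ex σ R
  have e0 : MvPowerSeries.constantCoeff g' * MvPowerSeries.constantCoeff g = 1 := by
    rw [← map_mul, mul_comm, e, map_one]
  have ha : IsAlgebraic R (MvPowerSeries.constantCoeff g') := by
    rw [eq_inv_of_mul_eq_one_left e0]
    exact (tm_alg h).inv
  have hc := (hm _).2 (tm_C (σ := σ) ha)
  set c : MvPowerSeries σ ℂ := MvPowerSeries.C (MvPowerSeries.constantCoeff g') with hcd
  have hu : 1 - c * g ∈ 𝓣 := 𝓣.sub_mem 𝓣.one_mem (𝓣.mul_mem hc ((hm _).2 h))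
  have u0 : MvPowerSeries.constantCoeff (1 - c * g) = 0 := by
    rw [map_sub, map_mul, map_one, hcd, MvPowerSeries.constantCoeff_C, e0, sub_self]
  have hz : g' - c ∈ 𝓣 := by
    refine hC (Polynomial.C (1 - c * g) * Polynomial.X + Polynomial.C (c * (1 - c * g)))
      (fun i => ?_) ?_ ?_ _ ?_ ?_
    · rw [coeff_add, coeff_C_mul_X, coeff_C]
      refine 𝓣.add_mem ?_ ?_ <;> split_ifs
      exacts [hu, 𝓣.zero_mem, 𝓣.mul_mem hc hu, 𝓣.zero_mem]
    · rw [coeff_add, coeff_C_mul_X, coeff_C, if_neg zero_ne_one, if_pos rfl, zero_add, map_mul,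
        u0, mul_zero]
    · rw [coeff_add, coeff_C_mul_X, coeff_C, if_pos rfl, if_neg one_ne_zero, add_zero, u0]
    · rw [map_sub, hcd, MvPowerSeries.constantCoeff_C, sub_self]
    · rw [eval_add, eval_mul, eval_C, eval_C, eval_X]
      linear_combination (-c) * e
  rw [← hm, ← sub_add_cancel g' c]
  exact 𝓣.add_mem hz hc

/-- a derivation which keeps a subring keeps the elements which are algebraic over it -/
theorem fld_alg {S : Type*} [CommRing S] [IsDomain S] [CharZero S] [Algebra ℂ S] (A₀ : Subring S)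
    (D : Derivation ℂ S S) (hD : ∀ a ∈ A₀, D a ∈ A₀) {g : S} (hg : IsAlgebraic A₀ g) :
    IsAlgebraic A₀ (D g) := by
  let Al := Subalgebra.algebraicClosure A₀ S
  have hp : ∀ p : A₀[X], aeval g p ∈ Al := fun p => by
    rw [aeval_eq_sum_range]
    exact sum_mem fun i _ => Al.smul_mem (Al.pow_mem hg i) _
  have key : ∀ p : A₀[X], D (aeval g p) - aeval g (derivative p) * D g ∈ Al := fun p => by
    induction p using Polynomial.induction_on' with
    | add p p' h h' =>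
      convert Al.add_mem h h' using 1
      simp only [map_add]
      ring
    | monomial k a =>
      have h1 : g ^ k * D a ∈ Al :=
        Al.mul_mem (Al.pow_mem hg k) (Al.algebraMap_mem (⟨D a, hD a a.2⟩ : A₀))
      convert h1 using 1
      rw [derivative_monomial, aeval_monomial, aeval_monomial, Derivation.leibniz,
        Derivation.leibniz_pow, map_mul, map_natCast]
      simp only [smul_eq_mul, nsmul_eq_mul]
      change (a : S) * _ + g ^ k * D a - (a : S) * _ * _ * _ = _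
      ring
  have main : ∀ (k : ℕ) (p : A₀[X]), p.natDegree = k → p ≠ 0 → aeval g p = 0 →
      IsAlgebraic A₀ (D g) := fun k => by
    induction k using Nat.strong_induction_on with
    | _ k ih =>
      intro p hk p0 e
      have k0 : p.natDegree ≠ 0 := fun h0 => by
        rw [eq_C_of_natDegree_eq_zero h0, aeval_C] at e
        refine p0 ?_
        rw [eq_C_of_natDegree_eq_zero h0, show p.coeff 0 = 0 from Subtype.ext e, C_0]
      by_cases h1 : aeval g (derivative p) = 0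
      · exact ih _ (hk ▸ natDegree_derivative_lt k0) _ rfl
          (fun h2 => k0 (Polynomial.derivative_eq_zero.1 h2)) h1
      · have h2 := key p
        rw [e, map_zero, zero_sub] at h2
        exact IsAlgebraic.of_mul (mem_nonZeroDivisors_of_ne_zero h1) (hp _) (neg_mem_iff.1 h2)
  obtain ⟨p, p0, e⟩ := hg
  exact main _ p rfl p0 e

theorem fld_ex (ht : Cu.Gen K t) {ρ : MvPolynomial σ K →+* MvPowerSeries σ ℂ}
    (hρ : ∀ c, tayS (fun x => evt x c) t = ρ c) : ∃ (F : Type) (_ : Field F) (D : σ → F →+ F)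
      (j : F →+* MvPowerSeries σ ℂ), DF (Rt t) D j ∧ ∀ g, Tame (Rt t) g →
        (∃ p : (MvPolynomial σ K)[X], p ≠ 0 ∧ p.eval₂ ρ g = 0) → g ∈ j.range := by
  obtain ⟨𝓣, -, hm⟩ := tame_ex σ (Rt t)
  have h0 : ∀ c, MvPowerSeries.constantCoeff (ρ c) = MvPolynomial.aeval t c := fun c => by
    rw [← hρ, constantCoeff_tayS]
    rfl
  have hi : Function.Injective ρ.rangeRestrict := (injective_iff_map_eq_zero _).2 fun c hc =>
    ht c (by rw [← h0, show ρ c = 0 from congrArg Subtype.val hc, map_zero])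
  have ha : ∀ c, ρ c = MvPolynomial.aeval
      (fun m => (MvPowerSeries.X m + MvPowerSeries.C (t m) : MvPowerSeries σ ℂ)) c := fun c => by
    rw [← hρ]
    exact tayS_aeval c
  have hD : ∀ l, ∀ a ∈ ρ.range, MvPowerSeries.pderiv ℂ l a ∈ ρ.range := by
    rintro l _ ⟨c, rfl⟩
    induction c using MvPolynomial.induction_on with
    | C a =>
      rw [ha, MvPolynomial.aeval_C, MvPowerSeries.algebraMap_apply, MvPowerSeries.pderiv_C]
      exact zero_mem _
    | add a b h h' =>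
      rw [map_add, map_add]
      exact add_mem h h'
    | mul_X a m h =>
      rw [map_mul, Derivation.leibniz, smul_eq_mul, smul_eq_mul]
      refine add_mem (mul_mem ⟨a, rfl⟩ ?_) (mul_mem ⟨_, rfl⟩ h)
      rw [ha, MvPolynomial.aeval_X, map_add, MvPowerSeries.pderiv_C, add_zero]
      by_cases hl : m = l
      · rw [hl, MvPowerSeries.pderiv_X_self]
        exact one_mem _
      · rw [MvPowerSeries.pderiv_X_of_ne hl]
        exact zero_mem _
  have : IsDomain (MvPowerSeries σ ℂ) := NoZeroDivisors.to_isDomain _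
  have : CharZero (MvPowerSeries σ ℂ) := algebraRat.charZero _
  let 𝓕 : Subring (MvPowerSeries σ ℂ) :=
    𝓣 ⊓ (Subalgebra.algebraicClosure ρ.range (MvPowerSeries σ ℂ)).toSubring
  have hF : ∀ g, g ∈ 𝓕 ↔ Tame (Rt t) g ∧ IsAlgebraic ρ.range g := fun g =>
    and_congr (hm g) Iff.rfl
  have hf : IsField 𝓕 := by
    refine ⟨exists_pair_ne _, mul_comm, fun {g} g0 => ?_⟩
    obtain ⟨h1, h2⟩ := (hF g).1 g.2
    have nz := mem_nonZeroDivisors_of_ne_zero (fun e => g0 (Subtype.ext e) : g.1 ≠ 0)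
    obtain ⟨⟨_, c, rfl⟩, c0, y, hy⟩ := h2.exists_nonzero_dvd nz
    have h3 : MvPowerSeries.constantCoeff g.1 ≠ 0 := fun e => c0 (by
      have h4 : MvPowerSeries.constantCoeff (ρ c) = 0 := by
        rw [show ρ c = g.1 * y from hy, map_mul, e, zero_mul]
      rw [h0] at h4
      exact Subtype.ext (by rw [ht c h4]; exact map_zero ρ))
    have h5 := MvPowerSeries.mul_inv_cancel g.1 h3
    exact ⟨⟨g.1⁻¹, (hF _).2 ⟨tame_inv h1 h5,
      IsAlgebraic.of_mul nz h2 (h5 ▸ isAlgebraic_one)⟩⟩, Subtype.ext h5⟩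
  let D : σ → 𝓕 →+ 𝓕 := fun l => AddMonoidHom.mk'
    (fun g => ⟨MvPowerSeries.pderiv ℂ l g.1, (hF _).2 ⟨tame_der ((hF _).1 g.2).1 l,
      fld_alg _ _ (hD l) ((hF _).1 g.2).2⟩⟩) fun a b => Subtype.ext (map_add _ a.1 b.1)
  let := hf.toField
  refine ⟨𝓕, hf.toField, D, 𝓕.subtype, ⟨fun _ _ => rfl, fun x => ((hF _).1 x.2).1⟩, ?_⟩
  rintro g hg ⟨p, p0, e⟩
  refine ⟨⟨g, (hF g).2 ⟨hg, p.map ρ.rangeRestrict, (Polynomial.map_ne_zero_iff hi).2 p0, ?_⟩⟩, rfl⟩
  rw [aeval_def, eval₂_map]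
  exact e

theorem fld2 (h : Cov T q r) (ht : Cu.Gen K t) {ζ : (σ → ℂ) → ℂ} (hζ : AnalyticAt ℂ ζ t)
    (e : ∀ᶠ x in 𝓝 t, evz x (ζ x) q = 0) : ∃ (F : Type) (_ : Field F) (D : σ → F →+ F)
      (j : F →+* MvPowerSeries σ ℂ) (ψ : (MvPolynomial σ K)[X] →+* F), DF (Rt t) D j ∧
        ∀ p, j (ψ p) = tayS (fun x => evz x (ζ x) p) t := by
  let ρ : MvPolynomial σ K →+* MvPowerSeries σ ℂ := (MvPolynomial.aeval
    (fun l => (MvPowerSeries.X l + MvPowerSeries.C (t l) : MvPowerSeries σ ℂ)) :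
      MvPolynomial σ K →ₐ[K] MvPowerSeries σ ℂ)
  have hρ : ∀ c, tayS (fun x => evt x c) t = ρ c := fun c => tayS_aeval c
  obtain ⟨F, _, D, j, hj, hm⟩ := fld_ex ht hρ
  have hT : MvPolynomial.aeval t T ≠ 0 := fun e => h.T0 (ht T e)
  have ev : ∀ p, eval₂RingHom ρ (tayS ζ t) p = tayS (fun x => evz x (ζ x) p) t := fun p => by
    rw [tm_ev hρ hζ, coe_eval₂RingHom, eval_map]
  have h1 : ∀ c, ρ c ∈ j.range := fun c => hm _ (hρ c ▸ tame_poly t c)
    ⟨Polynomial.X - Polynomial.C c, X_sub_C_ne_zero c, by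
      rw [eval₂_sub, eval₂_X, eval₂_C, sub_self]⟩
  have h2 : tayS ζ t ∈ j.range := by
    refine hm _ ?_ ⟨q, h.mq.ne_zero, ?_⟩
    · have h3 := tame2 h hT hζ e Polynomial.X
      rwa [← ev, coe_eval₂RingHom, eval₂_X] at h3
    · have h3 := ev q
      rw [tayS_congr e] at h3
      exact h3.trans tayS_zero
  have h4 : ∀ p, eval₂RingHom ρ (tayS ζ t) p ∈ j.range := fun p => by
    rw [coe_eval₂RingHom, eval₂_eq_sum_range]
    exact sum_mem fun i _ => mul_mem (h1 _) (pow_mem h2 i)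
  let E : F ≃+* j.range := RingEquiv.ofBijective j.rangeRestrict
    ⟨fun a b hab => j.injective (congrArg Subtype.val hab), j.rangeRestrict_surjective⟩
  refine ⟨F, inferInstance, D, j,
    E.symm.toRingHom.comp ((eval₂RingHom ρ (tayS ζ t)).codRestrict j.range h4), hj, fun p => ?_⟩
  rw [← ev]
  exact congrArg Subtype.val (E.apply_symm_apply ⟨_, h4 p⟩)

end

end Pool.Agent.Lib.MP_5591bc_ag.Hy
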