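import Pool.Agent.Lib.MP_5591bc_ag.Hy.Set
import Pool.Agent.Lib.MP_5591bc_ag.Cu.Gal
import Pool.Agent.Lib.MP_5591bc_ag.Cu.GalD

/-! The condition of Galochkin from one generic point. -/

namespace Pool.Agent.Lib.MP_5591bc_ag.Hy

open Polynomial Set Filter Topology Matrix G M Cu Cv

noncomputable section

variable {σ K ν : Type} [Field K] [NumberField K] [Algebra K ℂ] [Fintype σ] [DecidableEq σ]
  [Fintype ν] [DecidableEq ν] {T : MvPolynomial σ K} {B : σ → Matrix ν ν (MvPolynomial σ K)}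
  {V : Set (σ → ℂ)} {Q : (σ → ℂ) → Matrix ν ν ℂ} {s t : σ → ℂ}

theorem gp_dvd {n n' c c' : ℕ} (hn : n ≤ n') (hc : c ≤ c') :
    Nat.lcmUpto n ^ c ∣ Nat.lcmUpto n' ^ c' :=
  (pow_dvd_pow_of_dvd (gd_lcm hn) c).trans (pow_dvd_pow _ hc)

theorem gp_cast {n n' c c' : ℕ} (hn : n ≤ n') (hc : c ≤ c') :
    ∃ q : ℕ, (Nat.lcmUpto n' : ℂ) ^ c' = (Nat.lcmUpto n : ℂ) ^ c * q := by
  obtain ⟨q, hq⟩ := gp_dvd hn hc
  exact ⟨q, by exact_mod_cast hq⟩

/-- larger denominators -/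
theorem gp_up {R : Subring ℂ} {b b' x : ℂ} (hb' : b' ∈ R) {n n' c c' k : ℕ} (hn : n ≤ n')
    (hc : c ≤ c') (h : IsIntegral R ((Nat.lcmUpto n : ℂ) ^ c * b ^ k * x)) :
    IsIntegral R ((Nat.lcmUpto n' : ℂ) ^ c' * (b * b') ^ k * x) := by
  obtain ⟨q, hq⟩ := gp_cast hn hc
  have e : (Nat.lcmUpto n' : ℂ) ^ c' * (b * b') ^ k * x =
      ((q : ℂ) * b' ^ k) * ((Nat.lcmUpto n : ℂ) ^ c * b ^ k * x) := by
    rw [hq]; ring
  rw [e]
  exact (gd_mem (mul_mem (natCast_mem R q) (pow_mem hb' _))).mul h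

theorem gp_ex (σ : Type) [Fintype σ] [DecidableEq σ] (R : Subring ℂ) :
    ∃ 𝓖 : AddSubgroup (MvPowerSeries σ ℂ), (∀ S, S ∈ 𝓖 ↔ GP R S) ∧
      (∀ S ∈ 𝓖, ∀ S', Tame R S' → S * S' ∈ 𝓖) ∧ MvPowerSeries.C 1 ∈ 𝓖 := by
  refine ⟨⟨⟨⟨{S | GP R S}, ?_⟩, ?_⟩, ?_⟩, fun _ => Iff.rfl, ?_, ?_⟩
  · rintro S S' ⟨b, hb, b0, c, h⟩ ⟨b', hb', b0', c', h'⟩
    refine ⟨b * b', mul_mem hb hb', mul_ne_zero b0 b0', c + c', fun κ => ?_⟩
    rw [map_add, mul_add]
    refine (gp_up hb' (by nlinarith) (by omega) (h κ)).add ?_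
    rw [mul_comm b]
    exact gp_up hb (by nlinarith) (by omega) (h' κ)
  · exact ⟨1, one_mem _, one_ne_zero, 0, fun κ => by simpa using isIntegral_zero⟩
  · rintro S ⟨b, hb, b0, c, h⟩
    exact ⟨b, hb, b0, c, fun κ => by simpa using (h κ).neg⟩
  · rintro S ⟨b, hb, b0, c, h⟩ S' ⟨b', hb', b0', h'⟩
    refine ⟨b * b', mul_mem hb hb', mul_ne_zero b0 b0', c, fun κ => ?_⟩
    rw [MvPowerSeries.coeff_mul, Finset.mul_sum]
    refine IsIntegral.sum _ fun x hx => ?_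
    have hκ : κ.degree = x.1.degree + x.2.degree := by
      rw [← Finset.HasAntidiagonal.mem_antidiagonal.1 hx, map_add]
    obtain ⟨q, hq⟩ := gp_cast (n := c * (x.1.degree + 1)) (n' := c * (κ.degree + 1))
      (Nat.mul_le_mul_left _ (by omega)) (le_refl c)
    have e : (Nat.lcmUpto (c * (κ.degree + 1)) : ℂ) ^ c * (b * b') ^ (κ.degree + 1) *
        (MvPowerSeries.coeff x.1 S * MvPowerSeries.coeff x.2 S') =
        ((q : ℂ) * b ^ x.2.degree * b' ^ x.1.degree) *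
          (((Nat.lcmUpto (c * (x.1.degree + 1)) : ℂ) ^ c * b ^ (x.1.degree + 1) *
            MvPowerSeries.coeff x.1 S) * (b' ^ (x.2.degree + 1) * MvPowerSeries.coeff x.2 S')) := by
      rw [hq, hκ]; ring
    rw [e]
    exact (gd_mem (mul_mem (mul_mem (natCast_mem R q) (pow_mem hb _)) (pow_mem hb' _))).mul
      ((h _).mul (h' _))
  · refine ⟨1, one_mem _, one_ne_zero, 0, fun κ => ?_⟩
    rw [MvPowerSeries.coeff_C]
    split_ifs
    · simpa using isIntegral_one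
    · simpa using isIntegral_zero

theorem gal_ofP (T0 : T ≠ 0) (ho : IsOpen V) (hQ : FundM T B V Q) (hV : t ∈ V) (ht : Cu.Gen K t)
    (h : ∀ i j, GP (Rt t) (tayS (fun z => (Q z * (Q t)⁻¹) i j) t)) : GalM T B := by
  have hT : MvPolynomial.aeval t T ≠ 0 := fun h0 => T0 (ht T h0)
  choose b hb b0 c hc using h
  obtain ⟨a, ha, a0, hA⟩ := tame_poly t T
  have hA0 : IsIntegral (Rt t) (a * MvPolynomial.aeval t T) := by simpa using hA 0
  have hm : a * ∏ p : ν × ν, b p.1 p.2 ∈ Rt t :=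
    mul_mem ha (prod_mem fun p _ => hb p.1 p.2)
  obtain ⟨β, β0, hβ⟩ := gauss ht hm
    (mul_ne_zero a0 (Finset.prod_ne_zero_iff.2 fun p _ => b0 p.1 p.2))
  obtain ⟨N, hN⟩ : ∃ N, N = ∑ p : ν × ν, c p.1 p.2 := ⟨_, rfl⟩
  have cN : ∀ i j, c i j ≤ N := fun i j => hN ▸ Finset.single_le_sum
    (f := fun p : ν × ν => c p.1 p.2) (fun _ _ => Nat.zero_le _) (Finset.mem_univ (i, j))
  obtain ⟨C, C1, hC⟩ := F.num_lcm N
  refine ⟨β * C ^ N, fun m => ⟨β ^ (m + 1) * Nat.lcmUpto (N * (m + 1)) ^ N,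
    Nat.mul_pos (pow_pos β0 _) (pow_pos (Nat.lcmUpto_pos _) _), ?_, fun w hw i j κ => ?_⟩⟩
  · rw [mul_pow, ← pow_mul, mul_comm N (m + 1), pow_mul, mul_comm (m + 1) N]
    push_cast
    exact mul_le_mul_of_nonneg_left (pow_le_pow_left₀ (by positivity) (hC (m + 1)) N)
      (by positivity)
  obtain ⟨L, hL⟩ : ∃ L, L = Nat.lcmUpto (N * (m + 1)) ^ N := ⟨_, rfl⟩
  rw [← hL]
  have hd : (Multiset.toFinsupp (w : Multiset σ)).degree = w.length := by
    rw [← Multiset.coe_card, ← Multiset.toFinsupp_toMultiset (w : Multiset σ),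
      Finsupp.card_toMultiset, Finsupp.toMultiset_toFinsupp]
    rfl
  have h1 := hc i j (Multiset.toFinsupp (w : Multiset σ))
  rw [hd] at h1
  obtain ⟨e, he⟩ : Nat.lcmUpto (c i j * (w.length + 1)) ^ c i j ∣ L := by
    rw [hL]
    exact gp_dvd (Nat.mul_le_mul (cN i j) (by omega)) (cN i j)
  have h2 := Gal_coeff ho hQ hV hT w i j
  have h3 : IsIntegral (Rt t) ((a * ∏ p : ν × ν, b p.1 p.2) ^ (w.length + 1) *
      MvPolynomial.aeval t (MvPolynomial.C ((L : K) / ∏ l, ((w.count l).factorial : K)) *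
        iterM T B w i j)) := by
    have h4 := (((gd_mem (natCast_mem _ e)).mul (gd_mem ha)).mul ((gd_mem (prod_mem
      (t := Finset.univ.erase (i, j)) fun p _ => hb p.1 p.2)).pow (w.length + 1))).mul
        ((hA0.pow w.length).mul h1)
    refine (congrArg (IsIntegral (Rt t)) ?_).mpr h4
    rw [map_mul, MvPolynomial.aeval_C, map_div₀, map_natCast, map_prod,
      ← Finset.mul_prod_erase _ _ (Finset.mem_univ (i, j)), he]
    simp only [map_natCast]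
    push_cast
    linear_combination (-(a ^ (w.length + 1) * b i j ^ (w.length + 1) *
      (∏ p ∈ Finset.univ.erase (i, j), b p.1 p.2) ^ (w.length + 1) * e *
        (Nat.lcmUpto (c i j * (w.length + 1)) : ℂ) ^ c i j : ℂ)) * h2
  have h5 := (isIntegral_algebraMap (R := ℤ) (A := K) (x := (β : ℤ) ^ (m - w.length))).mul
    (hβ _ _ h3 κ)
  refine (congrArg (IsIntegral ℤ) ?_).mpr h5
  obtain ⟨k, rfl⟩ := Nat.exists_eq_add_of_le hw
  rw [MvPolynomial.coeff_C_mul, Nat.add_sub_cancel_left]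
  simp only [map_pow, map_natCast, Nat.cast_mul, Nat.cast_pow]
  ring

end

end Pool.Agent.Lib.MP_5591bc_ag.Hy
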