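import Pool.Agent.Lib.MP_5591bc_ag.Hy.Set
import Pool.Agent.Lib.MP_5591bc_ag.Cu.Gauss

/-! Places of the ring of a generic point. -/

namespace Pool.Agent.Lib.MP_5591bc_ag.Hy

open Polynomial Set Filter Topology Matrix G M Cu Cv

noncomputable section

variable {σ K ν : Type} [Field K] [NumberField K] [Algebra K ℂ] [Fintype σ] [DecidableEq σ]
  [Fintype ν] [DecidableEq ν] {T : MvPolynomial σ K} {B : σ → Matrix ν ν (MvPolynomial σ K)}
  {V : Set (σ → ℂ)} {Q : (σ → ℂ) → Matrix ν ν ℂ} {s t : σ → ℂ}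

omit [Fintype σ] [DecidableEq σ] in
theorem hp_inj (ht : Cu.Gen K t) :
    Function.Injective (MvPolynomial.eval₂Hom (Int.castRingHom ℂ) t) := by
  refine (injective_iff_map_eq_zero _).2 fun c hc => ?_
  have e : MvPolynomial.aeval t (c.map (Int.castRingHom K)) = 0 := by
    rw [MvPolynomial.aeval_def, MvPolynomial.eval₂_map, ← hc, MvPolynomial.coe_eval₂Hom]
    congr 1
    exact RingHom.ext_int _ _
  exact MvPolynomial.map_injective _ (RingHom.injective_int (Int.castRingHom K))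
    ((ht _ e).trans (map_zero _).symm)

/-- the elements which a power of `b` moves into `R` -/
def hpA (R : Subring ℂ) {b : ℂ} (hb : b ∈ R) : Subring ℂ where
  carrier := {x | ∃ k : ℕ, b ^ k * x ∈ R}
  zero_mem' := ⟨0, by simp⟩
  one_mem' := ⟨0, by simp⟩
  add_mem' := fun {x y} ⟨k, hk⟩ ⟨l, hl⟩ => ⟨k + l, by
    rw [show b ^ (k + l) * (x + y) = b ^ l * (b ^ k * x) + b ^ k * (b ^ l * y) by ring]
    exact add_mem (mul_mem (pow_mem hb _) hk) (mul_mem (pow_mem hb _) hl)⟩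
  neg_mem' := fun {x} ⟨k, hk⟩ => ⟨k, by rw [mul_neg]; exact neg_mem hk⟩
  mul_mem' := fun {x y} ⟨k, hk⟩ ⟨l, hl⟩ => ⟨k + l, by
    rw [pow_add, mul_mul_mul_comm]
    exact mul_mem hk hl⟩

omit [Fintype σ] [DecidableEq σ] in
theorem hp_rt (ht : Cu.Gen K t) : HP (Rt t) := by
  intro b hb b0
  have hb' := hb
  obtain ⟨c, hc⟩ := hb'
  have c0 : c ≠ 0 := fun e => b0 (by rw [← hc, e, map_zero])
  obtain ⟨μ, hμ⟩ := MvPolynomial.ne_zero_iff.1 c0
  obtain ⟨p, hp, pp⟩ := Nat.exists_infinite_primes ((c.coeff μ).natAbs + 1)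
  have : Fact p.Prime := ⟨pp⟩
  have c1 : c.map (Int.castRingHom (ZMod p)) ≠ 0 := fun e => by
    have k := congrArg (MvPolynomial.coeff μ) e
    rw [MvPolynomial.coeff_map, MvPolynomial.coeff_zero, eq_intCast,
      ZMod.intCast_zmod_eq_zero_iff_dvd] at k
    have := Nat.le_of_dvd (Int.natAbs_pos.2 hμ) (Int.natCast_dvd.1 k)
    omega
  have hI : Ideal.span {(p : hpA (Rt t) hb)} ≠ ⊤ := fun e => by
    obtain ⟨⟨x, k, r, hr⟩, hx⟩ := (Ideal.span_singleton_eq_top.1 e).exists_right_inv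
    have hx' : (p : ℂ) * x = 1 := by simpa using congrArg Subtype.val hx
    have e2 : c ^ k = (p : MvPolynomial σ ℤ) * r := hp_inj ht (by
      rw [map_pow, map_mul, map_natCast, hc, hr, mul_left_comm, hx', mul_one])
    have e3 := congrArg (MvPolynomial.map (Int.castRingHom (ZMod p))) e2
    rw [map_pow, map_mul, map_natCast, CharP.cast_eq_zero, zero_mul] at e3
    exact pow_ne_zero _ c1 e3
  obtain ⟨W, hW, hn⟩ := Ideal.image_subset_nonunits_valuationSubring _ hI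
  refine ⟨p, pp, W, ⟨fun x hx => hW ⟨0, by simpa using hx⟩, hW ⟨1, ?_⟩⟩,
    hn ⟨p, Ideal.mem_span_singleton_self _, by simp⟩⟩
  rw [pow_one, mul_inv_cancel₀ b0]
  exact one_mem _

end

end Pool.Agent.Lib.MP_5591bc_ag.Hy
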