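import Pool.Agent.Lib.MP_5591bc_ag.Hy.Galc
import Pool.Agent.Lib.MP_5591bc_ag.Hy.Fld
import Pool.Agent.Lib.MP_5591bc_ag.Hy.Hp
import Pool.Agent.Lib.MP_5591bc_ag.Hy.Gp
import Pool.Agent.Lib.MP_5591bc_ag.Hy.AllH
import Pool.Agent.Lib.MP_5591bc_ag.Cv.Gal2

/-! The condition of Galochkin for the direct image. -/

namespace Pool.Agent.Lib.MP_5591bc_ag.Hy

open Polynomial Set Filter Topology Matrix G M A B E Z Cu Cv

noncomputable section

variable {σ K ν : Type} [Field K] [NumberField K] [Algebra K ℂ] [Fintype σ] [DecidableEq σ]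
  [Fintype ν] [DecidableEq ν] {T : MvPolynomial σ K} {q : (MvPolynomial σ K)[X]} {r n m N : ℕ}
  {B : σ → Matrix ν ν (MvPolynomial σ K)[X]} {U U' V V' : Set (σ → ℂ)}
  {P P' : (σ → ℂ) → Matrix (Option ν) (Option ν) ℂ} {s t : σ → ℂ} {w : ν → ℕ}
  {J : Matrix ν ν ℝ} {j : ℕ} {f : MvPolynomial (Fin (N + 1)) (MvPolynomial σ K)[X]}
  {A : ν → MvPolynomial (Fin (N + 1)) (MvPolynomial σ K)[X]} {a : ℂ}
  {Bh : σ → Matrix (Ix ν r) (Ix ν r) (MvPolynomial σ K)}

theorem FamH.gp (h : FamH T q r B f m A a) (hP : PerH T q B f m A a V P) (hV : V ∈ 𝓝 t)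
    (ht : Cu.Gen K t) (i k : ν) : GP (Rt t) (tayS (fun x => (bl (P x) * (bl (P t))⁻¹) i k) t) := by
  have tV := mem_of_mem_nhds hV
  have an := (hP.1 t tV).1
  have hT : MvPolynomial.aeval t T ≠ 0 := fun e => h.cv.T0 (ht _ e)
  obtain ⟨F, _, D, j, ψ, hF, hψ⟩ := fld2 h.cv ht (an none none)
    (mem_of_superset hV fun x hx => (hP.1 x hx).2.2.1)
  have j0 : j (ψ (C T)) ≠ 0 := fun e => hT (by
    have := congrArg (MvPowerSeries.coeff 0) ((hψ (C T)).symm.trans e)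
    rw [map_zero] at this
    simpa [MvPowerSeries.coeff_apply, tayS, dw, evz_C] using this)
  have p0 : ψ (C T) ≠ 0 := fun e => j0 (by rw [e, map_zero])
  refine (hP.lh hV).galc hF (hp_rt ht) hψ ?_ (B := fun l => of fun i x => ψ (B l i x) / ψ (C T))
    ?_ i k
  · rintro _ ⟨p, rfl⟩
    refine ⟨C (MvPolynomial.map (Int.castRingHom K) p), ?_⟩
    rw [evz_C, MvPolynomial.aeval_def, MvPolynomial.eval₂_map, MvPolynomial.coe_eval₂Hom]
    congr 1
    exact RingHom.ext_int _ _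
  intro l i k
  have a1 : ∀ i k, AnalyticAt ℂ (fun x => bl (P x) i k) t := fun i k => an (some i) (some k)
  have e : (fun x => evz x (P x none none) (C T) * pd l (fun x => bl (P x) i k) x) =ᶠ[𝓝 t]
      fun x => ∑ y, evz x (P x none none) (B l i y) * bl (P x) y k := by
    filter_upwards [hV] with x hx
    rw [evz_C]
    exact (hP.1 x hx).2.2.2 l i k
  have e2 := tayS_congr e
  rw [tayS_mul (evz_an (an none none) _) (pd_ana (a1 i k) l), tayS_pd (a1 i k), ← hψ,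
    tayS_sum _ fun y _ => (evz_an (an none none) _).fun_mul (a1 y k)] at e2
  refine mul_left_cancel₀ j0 (e2.trans ?_)
  rw [Finset.mul_sum]
  refine Finset.sum_congr rfl fun y _ => ?_
  rw [tayS_mul (evz_an (an none none) _) (a1 y k), ← hψ, of_apply, ← mul_assoc, ← map_mul,
    mul_div_cancel₀ _ p0]

theorem galH_core (h : FamH T q r B f m A a) (hS : Sys T q B Bh) :
    ∃ (t : σ → ℂ) (V : Set (σ → ℂ)) (Q : (σ → ℂ) → Matrix (Ix ν r) (Ix ν r) ℂ),
      Cu.Gen K t ∧ IsOpen V ∧ t ∈ V ∧ FundM T Bh V Q ∧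
        ∀ i j, GP (Rt t) (tayS (fun x => (Q x * (Q t)⁻¹) i j) t) := by
  obtain ⟨t, -, ht⟩ := gen_ex (σ := σ) K isOpen_univ univ_nonempty
  have hT : MvPolynomial.aeval t T ≠ 0 := fun e => h.cv.T0 (ht _ e)
  obtain ⟨V, R, tV, hA, hP⟩ := h.all hT
  have hV : V ∈ 𝓝 t := hA.op.mem_nhds tV
  have hF := hA.fund hS
  obtain ⟨𝓖, g1, g2, g3⟩ := gp_ex σ (Rt t)
  have an : ∀ b, AnalyticAt ℂ (fun x => R b x none none) t := fun b => (hA.fs b t tV).1 _ _
  have tm : ∀ b p, Tame (Rt t) (tayS (fun x => evz x (R b x none none) p) t) := fun b =>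
    tame2 h.cv hT (an b) (mem_of_superset hV fun x hx => (hA.fs b x hx).2.2.1)
  have aE : ∀ b i j, AnalyticAt ℂ (fun x => gal2E (bl (R b x) * (bl (R b t))⁻¹) i j) t ∧
      tayS (fun x => gal2E (bl (R b x) * (bl (R b t))⁻¹) i j) t ∈ 𝓖 := by
    rintro b (_ | i) (_ | j)
    · exact ⟨analyticAt_const, (tayS_const (p := t) 1).symm ▸ g3⟩
    · exact ⟨analyticAt_const, (tayS_zero (p := t)).symm ▸ zero_mem _⟩
    · exact ⟨analyticAt_const, (tayS_zero (p := t)).symm ▸ zero_mem _⟩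
    · exact ⟨Finset.analyticAt_fun_sum _ fun k _ =>
        ((hA.fs b t tV).1 _ _).fun_mul analyticAt_const, (g1 _).2 (h.gp (hP b) hV ht i j)⟩
  refine ⟨t, V, _, ht, hA.op, tV, hF, fun i j => (g1 _).1 ?_⟩
  have e : (fun x => (pu (fun b => R b x) * (pu fun b => R b t)⁻¹) i j) =ᶠ[𝓝 t] fun x =>
      ∑ b, gal2E (bl (R b x) * (bl (R b t))⁻¹) i.1 j.1 * R b x none none ^ (i.2 : ℕ) *
        (vandermonde fun b => R b t none none)⁻¹ j.2 b := by
    filter_upwards [hV] with x hx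
    exact gal2_pu (fun b => (hA.fs b x hx).2.1) (fun b => (hA.fs b t tV).2.1)
      (fun b => hA.dt b t tV) (hA.inj t tV) (hF t tV).1 _ _
  rw [tayS_congr e, tayS_sum _ fun b _ =>
    ((aE b _ _).1.fun_mul ((an b).fun_pow _)).fun_mul analyticAt_const]
  refine sum_mem fun b _ => ?_
  rw [tayS_mul ((aE b _ _).1.fun_mul ((an b).fun_pow _)) analyticAt_const, tayS_const,
    tayS_mul (aE b _ _).1 ((an b).fun_pow _)]
  refine g2 _ (g2 _ (aE b _ _).2 _ ?_) _ (tame_C (gal2_inv (fun a c => ?_) _ _))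
  · simpa only [map_pow, evz_X] using tm b (X ^ (i.2 : ℕ))
  · exact (h.cv.alg (hA.fs a t tV).2.2.1).pow _

theorem FamH.gal (h : FamH T q r B f m A a) (hS : Sys T q B Bh) (n : ℕ) :
    GalM T fun l => bd n (Bh l) := by
  obtain ⟨t, V, Q, ht, oV, tV, hF, hG⟩ := galH_core h hS
  refine gal_ofP h.cv.T0 oV (fund_bd hF n) tV ht fun i j => ?_
  simp only [gal2_bd _ (hF t tV).1, blockDiagonal_apply]
  split_ifs
  · exact hG _ _
  · obtain ⟨𝓖, g1, -⟩ := gp_ex σ (Rt t)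
    rw [tayS_zero]
    exact (g1 _).1 (zero_mem _)

theorem FamH.gal1 (h : FamH T q r B f m A a) (hS : Sys T q B Bh) : GalM T Bh := by
  obtain ⟨t, V, Q, ht, oV, tV, hF, hG⟩ := galH_core h hS
  exact gal_ofP h.cv.T0 oV hF tV ht hG

end

end Pool.Agent.Lib.MP_5591bc_ag.Hy
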