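import Pool.Agent.Lib.MP_5591bc_ag.Hy.DetA
import Pool.Agent.Lib.MP_5591bc_ag.Hy.GalH
import Pool.Agent.Lib.MP_5591bc_ag.Cv.DetQ

/-! The determinant of the direct image. -/

namespace Pool.Agent.Lib.MP_5591bc_ag.Hy

open Polynomial Set Filter Topology Matrix G M A B E Z Cu Cv

noncomputable section

variable {σ K ν : Type} [Field K] [NumberField K] [Algebra K ℂ] [Fintype σ] [DecidableEq σ]
  [Fintype ν] [DecidableEq ν] {T : MvPolynomial σ K} {q : (MvPolynomial σ K)[X]} {r n m N : ℕ}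
  {B : σ → Matrix ν ν (MvPolynomial σ K)[X]} {U U' V V' : Set (σ → ℂ)}
  {P P' : (σ → ℂ) → Matrix (Option ν) (Option ν) ℂ} {s t : σ → ℂ} {w : ν → ℕ}
  {J : Matrix ν ν ℝ} {j : ℕ} {f : MvPolynomial (Fin (N + 1)) (MvPolynomial σ K)[X]}
  {A : ν → MvPolynomial (Fin (N + 1)) (MvPolynomial σ K)[X]} {a : ℂ}
  {Bh : σ → Matrix (Ix ν r) (Ix ν r) (MvPolynomial σ K)}

/-- a full family of period matrices over the point `t` -/
structure DetHG (q : (MvPolynomial σ K)[X]) (f : MvPolynomial (Fin (N + 1)) (MvPolynomial σ K)[X])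
    (m : ℕ) (A : ν → MvPolynomial (Fin (N + 1)) (MvPolynomial σ K)[X]) (a : ℂ) (t : σ → ℂ)
    (Q : Fin r → Matrix (Option ν) (Option ν) ℂ) : Prop where
  bk : ∀ b i, Q b (some i) none = 0 ∧ Q b none (some i) = 0
  rt : ∀ b, evz t (Q b none none) q = 0
  inj : Function.Injective fun b => Q b none none
  lat : ∀ b, Lat (f.map (evz t (Q b none none))) m (fun i => (A i).map (evz t (Q b none none))) a
    (bl (Q b))

theorem detH_two (h : Cov T q r) (hT : MvPolynomial.aeval t T ≠ 0)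
    {Q Q' : Fin r → Matrix (Option ν) (Option ν) ℂ} (k : DetHG q f m A a t Q)
    (k' : DetHG q f m A a t Q') : (pu Q').det ^ 2 = (pu Q).det ^ 2 := by
  obtain ⟨ξ, -, hz⟩ := h.roots hT
  choose u hu using fun b => (hz _).1 (k.rt b)
  choose u' hu' using fun b => (hz _).1 (k'.rt b)
  have i : Function.Injective u := fun b c e => k.inj (by simp only [← hu, e])
  have i' : Function.Injective u' := fun b c e => k'.inj (by simp only [← hu', e])
  let π : Equiv.Perm (Fin r) := (Equiv.ofBijective u' (Finite.injective_iff_bijective.1 i')).trans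
    (Equiv.ofBijective u (Finite.injective_iff_bijective.1 i)).symm
  have e : ∀ b, Q' b none none = Q (π b) none none := fun b => by
    rw [← hu, ← hu']
    exact congrArg ξ
      (Equiv.ofBijective_apply_symm_apply u (Finite.injective_iff_bijective.1 i) (u' b)).symm
  have e1 : (vandermonde fun b => Q' b none none).det ^ 2 =
      (vandermonde fun b => Q b none none).det ^ 2 := by
    have : (vandermonde fun b => Q' b none none) =
        (vandermonde fun b => Q b none none).submatrix π id := by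
      ext b c
      simp [e]
    rw [this, det_permute, mul_pow, ← Int.cast_pow, ← Units.val_pow_eq_pow_val, Int.units_sq]
    simp
  have e2 : ∀ b, (bl (Q' b)).det ^ 2 = (bl (Q (π b))).det ^ 2 := fun b => by
    obtain ⟨γ, h1, h2⟩ := lat_two (k.lat (π b)) (e b ▸ k'.lat b)
    have h3 : (γ.map Int.cast : Matrix ν ν ℂ).det = γ.det :=
      ((Int.castRingHom ℂ).map_det γ).symm
    rw [h2, det_mul, mul_pow, h3, ← Int.cast_pow, h1, Int.cast_one, mul_one]
  rw [det_pu k.bk, det_pu k'.bk, mul_pow, mul_pow, pow_right_comm, e1, pow_right_comm,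
    ← Finset.prod_pow, ← Finset.prod_pow, Finset.prod_congr rfl fun b _ => e2 b,
    Equiv.prod_comp π fun b => (bl (Q b)).det ^ 2]

omit [NumberField K] in
theorem detH_good {R : Fin r → (σ → ℂ) → Matrix (Option ν) (Option ν) ℂ} (hA : All T q B V R)
    (hR : ∀ b, PerH T q B f m A a V (R b)) (ht : t ∈ V) : DetHG q f m A a t fun b => R b t :=
  ⟨fun b => (hA.fs b t ht).2.1, fun b => (hA.fs b t ht).2.2.1, hA.inj t ht,
    fun b => (hR b).2 t ht⟩

theorem FamH.mon (h : FamH T q r B f m A a) (hS : Sys T q B Bh)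
    {R : Fin r → (σ → ℂ) → Matrix (Option ν) (Option ν) ℂ} (hA : All T q B V R)
    (hR : ∀ b, PerH T q B f m A a V (R b)) (hs : s ∈ V) (hT : MvPolynomial.aeval s T ≠ 0)
    {Q' : (σ → ℂ) → Matrix (Ix ν r) (Ix ν r) ℂ} (k : ContM V (fun t => pu fun b => R b t) V' Q')
    (hs' : s ∈ V') : (Q' s).det ^ 2 = (pu fun b => R b s).det ^ 2 := by
  refine mono_inv (I := fun t M => ∀ Q : Fin r → Matrix (Option ν) (Option ν) ℂ,
    DetHG q f m A a t Q → M.det ^ 2 = (pu Q).det ^ 2) h.cv.T0 hA.op hA.co (hA.fund hS)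
    (fun t t0 => ?_) hs hT (fun Q hQ => detH_two h.cv hT hQ (detH_good hA hR hs)) k hs' hT _
    (detH_good hA hR hs)
  obtain ⟨W, S, hW, hB, hP⟩ := h.all t0
  refine ⟨W, _, hB.op, hW, hB.fund hS, fun C => ?_⟩
  have key : ∀ z ∈ W, MvPolynomial.aeval z T ≠ 0 →
      ((∀ Q : Fin r → Matrix (Option ν) (Option ν) ℂ, DetHG q f m A a z Q →
        ((pu fun b => S b z) * C).det ^ 2 = (pu Q).det ^ 2) ↔ C.det ^ 2 = 1) := fun z hz z0 => by
    have g := detH_good hB hP hz
    refine ⟨fun H => ?_, fun H Q hQ => ?_⟩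
    · have := H _ g
      rwa [det_mul, mul_pow, mul_eq_left₀ (pow_ne_zero 2 (hB.fund hS z hz).1)] at this
    · rw [det_mul, mul_pow, H, mul_one, detH_two h.cv z0 hQ g]
  filter_upwards [hB.op.mem_nhds hW, (aeval_ana T).continuousAt.eventually_ne t0] with z h1 h2
  exact (key z h1 h2).trans (key t hW t0).symm

theorem FamH.det (h : FamH T q r B f m A a) (hS : Sys T q B Bh) : ∃ n > 0, ∀ U Q, IsOpen U →
    IsPreconnected U → FundM T Bh U Q → ∃ (N : ℕ) (p : MvPolynomial σ ℂ), ∀ t ∈ U,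
      MvPolynomial.aeval t T ^ N * (bd n (Q t)).det = MvPolynomial.eval t p := by
  obtain ⟨s, s0⟩ := (mono_freq h.cv.T0 (0 : σ → ℂ)).exists
  obtain ⟨V, R, hs, hA, hR⟩ := h.all s0
  obtain ⟨n, n0, a, b, b0, H⟩ := det_fin (h.gal1 hS) hA.op hA.co (hA.fund hS) hs s0
    fun V' Q' k hs' => h.mon hS hA hR hs s0 k hs'
  refine ⟨n, n0, fun U Q ho hU hQ => ?_⟩
  obtain ⟨c', hc'⟩ := H U Q ho hU hQ
  refine tpow h.cv.T0 ho hU (fund_bd hQ n) b0 (a := MvPolynomial.C c' * a) fun t ht => ?_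
  rw [det_blockDiagonal, Finset.prod_const, Finset.card_univ, Fintype.card_fin, hc' t ht, map_mul,
    MvPolynomial.eval_C]

end

end Pool.Agent.Lib.MP_5591bc_ag.Hy
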