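import Pool.Agent.Lib.MP_5591bc_ag.Hy.Sx

/-! The reduction for the Fermat polynomial. -/

namespace Pool.Agent.Lib.MP_5591bc_ag.Hy

open MvPolynomial Matrix

noncomputable section

variable {ι Λ : Type*} [CommRing Λ] [Fintype ι] [DecidableEq ι] {n : ℕ} {G : MvPolynomial ι Λ}

theorem fer_step (n : ℕ) (ε : ℤ) (e v : ℕ) :
    r1 n ε e (v + (n + 2)) = -(ε * (v + 1 : ℕ)) * r1 n ε e v := by
  unfold r1
  rw [Nat.add_mod_right, Nat.add_div_right _ (by omega)]
  split_ifs with h
  · have : e + 1 + v / (n + 2) * (n + 2) = v + 1 := by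
      have := Nat.mod_add_div' v (n + 2)
      omega
    rw [Finset.prod_range_succ, this, mul_comm]
  · rw [mul_zero]

theorem fer_lt {n e v : ℕ} (ε : ℤ) (h : v < n + 2) : r1 n ε e v = if v = e then 1 else 0 := by
  unfold r1
  rw [Nat.mod_eq_of_lt h, Nat.div_eq_of_lt h, Finset.prod_range_zero]

theorem fer_kil {n e : ℕ} {ε : ℤ} (h : ε * ε = 1) (he : e < n + 1) (v : ℕ) :
    (v : ℤ) * r1 n ε e (v - 1) + ε * r1 n ε e (v + (n + 1)) = 0 := by
  cases v with
  | zero => rw [zero_add, fer_lt (v := n + 1) ε (by omega), if_neg (by omega)]; simp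
  | succ v =>
    rw [show v + 1 + (n + 1) = v + (n + 2) by omega, fer_step, Nat.add_sub_cancel]
    linear_combination (-((v + 1 : ℕ) : ℤ) * r1 n ε e v) * h

theorem red_kil {ε : ι → ℤ} (h : ∀ i, ε i * ε i = 1) (e : ι → Fin (n + 1)) :
    Kil (RingHom.id Λ) (red Λ ε e) (gS Λ n ε) := by
  intro i w
  have k : ∀ v : ι →₀ ℕ, (∀ j, j ≠ i → v j = w j) → red Λ ε e v =
      ((r1 n (ε i) (e i) (v i) * ∏ j ∈ Finset.univ.erase i, r1 n (ε j) (e j) (w j) : ℤ) : Λ) :=
    fun v hv => by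
    rw [red, ← Finset.mul_prod_erase _ _ (Finset.mem_univ i),
      Finset.prod_congr rfl fun j hj => by rw [hv j (Finset.ne_of_mem_erase hj)]]
  rw [gS, pderiv_monomial, mul_left_comm, X_pow_eq_monomial, monomial_mul, sx_add, sx_C_mul,
    sx_monomial, sx_monomial, k _ fun j hj => by simp [hj.symm], k _ fun j hj => by simp [hj.symm]]
  have := congrArg (fun x : ℤ => ((x * ∏ j ∈ Finset.univ.erase i, r1 n (ε j) (e j) (w j) : ℤ) : Λ))
    (fer_kil (h i) (e i).2 (w i))
  simp only [Finsupp.coe_tsub, Finsupp.coe_add, Pi.sub_apply, Pi.add_apply, Finsupp.single_eq_same,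
    RingHom.id_apply]
  push_cast at this ⊢
  linear_combination this

omit [DecidableEq ι] in
theorem red_ee (ε : ι → ℤ) (a e : ι → Fin (n + 1)) :
    red Λ ε e (ee a) = if a = e then 1 else 0 := by
  have k : ∀ i, r1 n (ε i) (e i) (ee a i) = if a i = e i then 1 else 0 := fun i => by
    rw [show ee a i = (a i : ℕ) from rfl, fer_lt _ (by have := (a i).2; omega)]
    simp only [Fin.ext_iff]
  rw [red, Finset.prod_congr rfl fun i _ => k i, Finset.prod_boole]
  simp [funext_iff]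

omit [DecidableEq ι] in
theorem red_sum {ι' : Type*} [Fintype ι'] (ε : ι → ℤ) (ε' : ι' → ℤ) (e : ι → Fin (n + 1))
    (e' : ι' → Fin (n + 1)) (α : ι →₀ ℕ) (β : ι' →₀ ℕ) :
    red Λ (Sum.elim ε ε') (Sum.elim e e') (α.sumElim β) = red Λ ε e α * red Λ ε' e' β := by
  rw [red, red, red, Fintype.prod_sum_type, Int.cast_mul]
  rfl

omit [DecidableEq ι] in
theorem fer_mon {ι' : Type*} [Fintype ι'] (α : ι → ℕ) (β : ι' → ℕ) :
    (∏ i, X (Sum.inl i) ^ α i) * ∏ i, X (Sum.inr i) ^ β i =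
      (monomial ((Finsupp.equivFunOnFinite.symm α).sumElim (Finsupp.equivFunOnFinite.symm β)) 1 :
        MvPolynomial (ι ⊕ ι') Λ) := by
  rw [monomial_eq, C_1, one_mul, Finsupp.prod_fintype _ _ fun _ => pow_zero _,
    Fintype.prod_sum_type]
  rfl

theorem red_diag (ε ε' : ι → ℤ) (e e' : ι → Fin (n + 1)) :
    sx (RingHom.id Λ) (red Λ (Sum.elim ε ε') (Sum.elim e e'))
      (∏ i : ι, ∑ a ∈ Finset.range (n + 1), X (Sum.inl i) ^ a * X (Sum.inr i) ^ (n - a)) =
      if ∀ i, (e i : ℕ) + e' i = n then 1 else 0 := by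
  have k : ∀ i, ∑ a ∈ Finset.range (n + 1), r1 n (ε i) (e i) a * r1 n (ε' i) (e' i) (n - a) =
      if (e i : ℕ) + e' i = n then 1 else 0 := fun i => by
    have := (e i).2
    rw [Finset.sum_eq_single_of_mem (e i : ℕ) (Finset.mem_range.2 this) fun a ha h => by
        rw [fer_lt (v := a) _ (by have := Finset.mem_range.1 ha; omega), if_neg h, zero_mul],
      fer_lt _ (by omega), fer_lt _ (by omega), if_pos rfl, one_mul]
    exact if_congr (by omega) rfl rfl
  rw [Finset.prod_univ_sum, sx_sum, Finset.sum_congr rfl fun a _ => by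
    rw [Finset.prod_mul_distrib, fer_mon, sx_monomial, map_one, one_mul, red_sum, red, red,
      ← Int.cast_mul, ← Finset.prod_mul_distrib], ← Int.cast_sum]
  have := Finset.prod_univ_sum (fun _ : ι => Finset.range (n + 1))
    fun i a => r1 n (ε i) (e i) a * r1 n (ε' i) (e' i) (n - a)
  simp only [Finsupp.equivFunOnFinite_symm_apply_apply]
  rw [← this, Finset.prod_congr rfl fun i _ => k i, Finset.prod_boole]
  simp

end

end Pool.Agent.Lib.MP_5591bc_ag.Hy
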