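import Pool.Agent.Lib.MP_5591bc_ag.Hy.Sx

/-! The formal deformation of a map which kills the exact forms. -/

namespace Pool.Agent.Lib.MP_5591bc_ag.Hy

open MvPolynomial Matrix

noncomputable section

variable {ι σ Λ Λ' Λ'' : Type*} [CommRing Λ] [CommRing Λ'] [CommRing Λ''] [Algebra ℚ Λ'] {n : ℕ} {κ : Λ →+* Λ'}
  {p p' : (ι →₀ ℕ) → Λ'} {g : ι → MvPolynomial ι Λ} {D : Λ →+ Λ} {D' : Λ' →+ Λ'}
  {G H P A : MvPolynomial ι Λ}

omit [Algebra ℚ Λ'] in
theorem phi_kpC (a : Λ) : kp κ (Polynomial.C a) = PowerSeries.C (κ a) := by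
  simp [kp]

omit [Algebra ℚ Λ'] in
theorem phi_kpX : kp κ (Polynomial.X : Polynomial Λ) = PowerSeries.X := by
  simp [kp]

theorem phi_fac (j : ℕ) : algebraMap ℚ Λ' ((j + 1).factorial : ℚ)⁻¹ * ((j + 1 : ℕ) : Λ') =
    algebraMap ℚ Λ' (j.factorial : ℚ)⁻¹ := by
  rw [← map_natCast (algebraMap ℚ Λ'), ← map_mul]
  congr 1
  have h1 : (j.factorial : ℚ) ≠ 0 := by positivity
  have h2 : ((j + 1 : ℕ) : ℚ) ≠ 0 := by positivity
  rw [Nat.factorial_succ, Nat.cast_mul]
  field_simp

theorem phi_cho (a b : ℕ) :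
    algebraMap ℚ Λ' ((a + b).factorial : ℚ)⁻¹ * (((a + b).choose a : ℕ) : Λ') =
      algebraMap ℚ Λ' (a.factorial : ℚ)⁻¹ * algebraMap ℚ Λ' (b.factorial : ℚ)⁻¹ := by
  rw [← map_natCast (algebraMap ℚ Λ'), ← map_mul, ← map_mul]
  congr 1
  have h1 : (a.factorial : ℚ) ≠ 0 := by positivity
  have h2 : (b.factorial : ℚ) ≠ 0 := by positivity
  have h3 : (((a + b).choose a : ℕ) : ℚ) ≠ 0 :=
    Nat.cast_ne_zero.mpr (Nat.choose_pos (Nat.le_add_right a b)).ne'
  rw [← Nat.choose_mul_factorial_mul_factorial (Nat.le_add_right a b), Nat.add_sub_cancel_left,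
    Nat.cast_mul, Nat.cast_mul]
  field_simp

theorem phi_map (P : MvPolynomial ι Λ) : sx (kp κ) (phv κ p G) (P.map Polynomial.C) =
    PowerSeries.mk fun j => algebraMap ℚ Λ' (j.factorial : ℚ)⁻¹ * sx κ p (P * G ^ j) := by
  induction P using MvPolynomial.induction_on' with
  | monomial v a =>
    have h : (monomial v a : MvPolynomial ι Λ) = C a * monomial v 1 := by
      rw [C_mul_monomial, mul_one]
    rw [map_monomial, sx_monomial, phi_kpC]
    ext j
    rw [PowerSeries.coeff_C_mul, phv, PowerSeries.coeff_mk, PowerSeries.coeff_mk, h, mul_assoc,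
      sx_C_mul]
    ring
  | add P Q hP hQ =>
    rw [map_add, sx_add, hP, hQ]
    ext j
    rw [map_add, PowerSeries.coeff_mk, PowerSeries.coeff_mk, PowerSeries.coeff_mk, add_mul, sx_add,
      mul_add]

theorem phi_kil (h : Kil κ p g) : Kil (kp κ) (phv κ p G) fun i =>
    (g i).map Polynomial.C + C Polynomial.X * pderiv i (G.map Polynomial.C) := by
  intro i w
  have e : (pderiv i (monomial w 1) + monomial w 1 * ((g i).map Polynomial.C +
      C Polynomial.X * pderiv i (G.map Polynomial.C)) : MvPolynomial ι (Polynomial Λ)) =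
      (pderiv i (monomial w 1) + monomial w 1 * g i).map Polynomial.C +
        C Polynomial.X * (monomial w 1 * pderiv i G).map Polynomial.C := by
    rw [map_add, map_mul, map_mul, ← pderiv_map, ← pderiv_map, map_monomial, Polynomial.C_1]
    ring
  rw [e, sx_add, sx_C_mul, phi_map, phi_map, phi_kpX]
  ext j
  cases j with
  | zero =>
    rw [map_add, PowerSeries.coeff_zero_X_mul, PowerSeries.coeff_mk, pow_zero, mul_one, h i w]
    simp
  | succ j =>
    have k := h.ex (ex_gen i (monomial w 1 * G ^ (j + 1)))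
    have e' : pderiv i (monomial w 1 * G ^ (j + 1)) + monomial w 1 * G ^ (j + 1) * g i =
        (pderiv i (monomial w 1) + monomial w 1 * g i) * G ^ (j + 1) +
          C ((j + 1 : ℕ) : Λ) * (monomial w 1 * pderiv i G * G ^ j) := by
      rw [pderiv_mul, pderiv_pow, map_natCast, Nat.add_sub_cancel]
      ring
    rw [e', sx_add, sx_C_mul, map_natCast] at k
    rw [map_add, PowerSeries.coeff_succ_X_mul, PowerSeries.coeff_mk, PowerSeries.coeff_mk,
      ← phi_fac j, mul_assoc, ← mul_add, k, mul_zero, map_zero]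

theorem phi_der (P : MvPolynomial ι (Polynomial Λ)) :
    PowerSeries.derivative Λ' (sx (kp κ) (phv κ p G) P) = sx (kp κ) (phv κ p G)
      (dm (Polynomial.derivative (R := Λ)).toAddMonoidHom P + P * G.map Polynomial.C) := by
  refine sx_der (D' := (PowerSeries.derivative Λ').toLinearMap.toAddMonoidHom) ?_ ?_ ?_ P
  · intro a b
    change PowerSeries.derivative Λ' (a * b) =
      a * PowerSeries.derivative Λ' b + PowerSeries.derivative Λ' a * b
    rw [Derivation.leibniz, smul_eq_mul, smul_eq_mul, mul_comm b]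
  · intro a
    change PowerSeries.derivative Λ' ((a.map κ : Polynomial Λ') : PowerSeries Λ') =
      (((Polynomial.derivative a).map κ : Polynomial Λ') : PowerSeries Λ')
    rw [PowerSeries.derivative_coe, Polynomial.derivative_map]
  · intro v
    have e : (monomial v 1 * G.map Polynomial.C : MvPolynomial ι (Polynomial Λ)) =
        (monomial v 1 * G).map Polynomial.C := by
      rw [map_mul, map_monomial, Polynomial.C_1]
    change PowerSeries.derivative Λ' (phv κ p G v) = _
    rw [e, phi_map]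
    ext j
    rw [PowerSeries.coeff_derivative, phv, PowerSeries.coeff_mk, PowerSeries.coeff_mk, ← phi_fac j,
      pow_succ' G j, mul_assoc (monomial v 1)]
    push_cast
    ring

theorem phi_zero (P : MvPolynomial ι (Polynomial Λ)) :
    PowerSeries.constantCoeff (sx (kp κ) (phv κ p G) P) =
      sx κ p (P.map (Polynomial.evalRingHom 0)) := by
  have e1 : PowerSeries.constantCoeff.comp (kp κ) = κ.comp (Polynomial.evalRingHom 0) := by
    refine Polynomial.ringHom_ext (fun a => ?_) ?_
    · simp [phi_kpC]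
    · simp [phi_kpX]
  have e2 : (fun v => PowerSeries.constantCoeff (phv κ p G v)) = p := by
    funext v
    simp [phv, sx_monomial]
  rw [map_sx, sx_map, e1, e2]

omit [Algebra ℚ Λ'] in
theorem sx_tensor {ι' : Type*} {q : (ι' →₀ ℕ) → Λ'} {r : (ι ⊕ ι' →₀ ℕ) → Λ'}
    (h : ∀ α β, r (α.sumElim β) = p α * q β) (P : MvPolynomial ι Λ) (Q : MvPolynomial ι' Λ) :
    sx κ r (rename Sum.inl P * rename Sum.inr Q) = sx κ p P * sx κ q Q := by
  induction P using MvPolynomial.induction_on' with
  | monomial α a =>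
    induction Q using MvPolynomial.induction_on' with
    | monomial β b =>
      rw [rename_monomial, rename_monomial, monomial_mul, ← Finsupp.sumElim_eq_add, sx_monomial,
        sx_monomial, sx_monomial, h, map_mul]
      ring
    | add Q Q' hQ hQ' => rw [map_add, mul_add, sx_add, hQ, hQ', sx_add, mul_add]
  | add P P' hP hP' => rw [map_add, add_mul, sx_add, hP, hP', sx_add, add_mul]

theorem phi_mul {ι' : Type*} {q : (ι' →₀ ℕ) → Λ'} {r : (ι ⊕ ι' →₀ ℕ) → Λ'}
    (h : ∀ α β, r (α.sumElim β) = p α * q β) (G : MvPolynomial ι Λ) (G' : MvPolynomial ι' Λ)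
    (α : ι →₀ ℕ) (β : ι' →₀ ℕ) :
    phv κ r (rename Sum.inl G + rename Sum.inr G') (α.sumElim β) = phv κ p G α * phv κ q G' β := by
  ext j
  rw [PowerSeries.coeff_mul, phv, PowerSeries.coeff_mk, (Commute.all _ _).add_pow', Finset.mul_sum,
    sx_sum, Finset.mul_sum]
  refine Finset.sum_congr rfl fun m hm => ?_
  obtain ⟨a, b⟩ := m
  obtain rfl : a + b = j := Finset.HasAntidiagonal.mem_antidiagonal.mp hm
  have e : (monomial (α.sumElim β) 1 * ((a + b).choose a •
      (rename Sum.inl G ^ a * rename Sum.inr G' ^ b)) : MvPolynomial (ι ⊕ ι') Λ) =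
      C (((a + b).choose a : ℕ) : Λ) *
        (rename Sum.inl (monomial α 1 * G ^ a) * rename Sum.inr (monomial β 1 * G' ^ b)) := by
    have e0 : (monomial (α.sumElim β) 1 : MvPolynomial (ι ⊕ ι') Λ) =
        rename Sum.inl (monomial α 1) * rename Sum.inr (monomial β 1) := by
      rw [rename_monomial, rename_monomial, monomial_mul, ← Finsupp.sumElim_eq_add, mul_one]
    rw [e0, map_mul, map_mul, map_pow, map_pow, map_natCast, nsmul_eq_mul]
    ring
  rw [e, sx_C_mul, sx_tensor h, map_natCast, ← mul_assoc, phi_cho, phv, phv, PowerSeries.coeff_mk,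
    PowerSeries.coeff_mk]
  ring

end

end Pool.Agent.Lib.MP_5591bc_ag.Hy
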