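import Pool.Agent.Lib.MP_5591bc_ag.Hy.Bez
import Pool.Agent.Lib.MP_5591bc_ag.Hy.Phi
import Pool.Agent.Lib.MP_5591bc_ag.Hy.Fer

/-! Duality. -/

namespace Pool.Agent.Lib.MP_5591bc_ag.Hy

open MvPolynomial Matrix

noncomputable section

variable {ι Λ : Type*} [CommRing Λ] [Fintype ι] [DecidableEq ι] {n : ℕ} {G : MvPolynomial ι Λ}

theorem dual_const [Algebra ℚ Λ] {Φ : PowerSeries Λ} (h : PowerSeries.derivative Λ Φ = 0) :
    Φ = PowerSeries.C (PowerSeries.constantCoeff Φ) := by
  ext k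
  rcases k with _ | k
  · simp
  · have h1 := congrArg (PowerSeries.coeff k) h
    rw [PowerSeries.coeff_derivative, map_zero] at h1
    have hu : IsUnit ((k : Λ) + 1) := by
      have : ((k : Λ) + 1) = algebraMap ℚ Λ ((k : ℚ) + 1) := by simp
      rw [this]
      exact (IsUnit.mk0 _ (by positivity)).map _
    rw [PowerSeries.coeff_C, if_neg (Nat.succ_ne_zero k)]
    exact hu.mul_left_eq_zero.mp h1

omit [Fintype ι] [DecidableEq ι] in
theorem dual_lift {O : Subring Λ} (hO : ∀ v, coeff v G ∈ O) :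
    ∃ G0 : MvPolynomial ι O, G0.map O.subtype = G := by
  refine ⟨∑ v ∈ G.support, monomial v ⟨coeff v G, hO v⟩, ?_⟩
  rw [map_sum]
  conv_rhs => rw [G.as_sum]
  exact Finset.sum_congr rfl fun v _ => by rw [map_monomial]; rfl

theorem dual_sub {O : Subring Λ} (hO : ∀ v, coeff v G ∈ O) (n : ℕ) :
    ∃ Jb : MvPolynomial (ι ⊕ ι) (Polynomial Λ), (∀ v k, (coeff v Jb).coeff k ∈ O) ∧
    Jb.map (Polynomial.evalRingHom 0) =
      ∏ i : ι, ∑ a ∈ Finset.range (n + 1), X (Sum.inl i) ^ a * X (Sum.inr i) ^ (n - a) ∧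
    dm (Polynomial.derivative (R := Λ)).toAddMonoidHom Jb +
        Jb * (rename Sum.inl G + rename Sum.inr (-G)).map Polynomial.C ∈
      Ex fun o => (gS Λ n (Sum.elim (fun _ => 1) fun _ => -1) o).map Polynomial.C +
        C Polynomial.X * pderiv o ((rename Sum.inl G + rename Sum.inr (-G)).map Polynomial.C) := by
  obtain ⟨G0, rfl⟩ := dual_lift hO
  obtain ⟨J, h0, h1⟩ := dual0 n G0
  have hc : (Polynomial.mapRingHom O.subtype).comp Polynomial.C =
      (Polynomial.C : Λ →+* Polynomial Λ).comp O.subtype := by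
    ext a : 1
    simp
  have hG : ((rename Sum.inl G0 + rename Sum.inr (-G0) : MvPolynomial (ι ⊕ ι) O).map
      Polynomial.C).map (Polynomial.mapRingHom O.subtype) =
      (rename Sum.inl (G0.map O.subtype) + rename Sum.inr (-G0.map O.subtype)).map
        Polynomial.C := by
    rw [MvPolynomial.map_map, hc, ← MvPolynomial.map_map, map_add (MvPolynomial.map O.subtype), map_rename, map_rename,
      map_neg (MvPolynomial.map O.subtype)]
  refine ⟨J.map (Polynomial.mapRingHom O.subtype), fun v k => ?_, ?_, ?_⟩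
  · rw [coeff_map, Polynomial.coe_mapRingHom, Polynomial.coeff_map]
    exact Subtype.property _
  · have he : (Polynomial.evalRingHom (0 : Λ)).comp (Polynomial.mapRingHom O.subtype) =
        O.subtype.comp (Polynomial.evalRingHom 0) := by
      ext <;> simp
    rw [MvPolynomial.map_map, he, ← MvPolynomial.map_map, h0]
    simp only [map_prod, map_sum, map_mul, map_pow, map_X]
  · have h2 := ex_map (Polynomial.mapRingHom O.subtype) h1
    rw [map_add (MvPolynomial.map (Polynomial.mapRingHom O.subtype)), map_mul, hG,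
      ← dm_map (D' := (Polynomial.derivative (R := Λ)).toAddMonoidHom)
      (fun a => by simp)] at h2
    convert h2 using 3 with o
    rw [map_add (MvPolynomial.map (Polynomial.mapRingHom O.subtype)), map_mul, ← pderiv_map, hG, map_C,
      MvPolynomial.map_map, hc, ← MvPolynomial.map_map]
    simp [gS]

theorem dual [Algebra ℚ Λ] {O : Subring Λ} (hO : ∀ v, coeff v G ∈ O) (n : ℕ) :
    ∃ (s : Finset ((ι →₀ ℕ) × (ι →₀ ℕ))) (c : (ι →₀ ℕ) × (ι →₀ ℕ) → Polynomial Λ),
      (∀ x k, (c x).coeff k ∈ O) ∧ ∀ e e' : ι → Fin (n + 1),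
        ∑ x ∈ s, (c x : PowerSeries Λ) * (phv (RingHom.id Λ) (red Λ (fun _ => 1) e) G x.1 *
          phv (RingHom.id Λ) (red Λ (fun _ => -1) e') (-G) x.2) =
          if ∀ i, (e i : ℕ) + e' i = n then 1 else 0 := by
  obtain ⟨J, hJ, h0, h1⟩ := dual_sub hO n
  refine ⟨J.support.map Finsupp.sumFinsuppEquivProdFinsupp.toEmbedding,
    fun x => coeff (x.1.sumElim x.2) J, fun x k => hJ _ _, fun e e' => ?_⟩
  have hk : Kil (RingHom.id Λ) (red Λ (Sum.elim (fun _ : ι => (1 : ℤ)) fun _ : ι => -1)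
      (Sum.elim e e')) (gS Λ n (Sum.elim (fun _ => 1) fun _ => -1)) :=
    red_kil (fun o => by rcases o with o | o <;> simp) _
  have hd := (phi_der J).trans ((phi_kil (G := rename Sum.inl G + rename Sum.inr (-G)) hk).ex h1)
  have hc := dual_const hd
  rw [phi_zero, h0, red_diag] at hc
  have hs : ∀ v : ι ⊕ ι →₀ ℕ, (Finsupp.sumFinsuppEquivProdFinsupp v).1.sumElim
      (Finsupp.sumFinsuppEquivProdFinsupp v).2 = v := fun v =>
    Finsupp.sumFinsuppEquivProdFinsupp.symm_apply_apply v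
  rw [Finset.sum_map]
  refine Eq.trans ?_ (hc.trans ?_)
  · refine Finset.sum_congr rfl fun v _ => ?_
    rw [Equiv.coe_toEmbedding, ← phi_mul (red_sum _ _ e e'), hs]
    simp [kp]
  · split_ifs <;> simp

end

end Pool.Agent.Lib.MP_5591bc_ag.Hy
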