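import Pool.Agent.Lib.MP_5591bc_ag.Hy.Hs

/-! Laurent series which are integral at almost all places. -/

namespace Pool.Agent.Lib.MP_5591bc_ag.Hy

open MvPolynomial Matrix

noncomputable section

variable {μ F : Type} [Field F] [Fintype μ] [DecidableEq μ] {R : Subring ℂ} {ε : F →+* ℂ}
  {D : F →+ F} {N : (μ → HahnSeries ℤ F) →+ (μ → HahnSeries ℤ F)} {y : ℕ → μ → HahnSeries ℤ F}
  {r : ℕ} {a : ℕ → HahnSeries ℤ F}

theorem Pl.int {b x : ℂ} {W : ValuationSubring ℂ} (h : Pl R b W) (hx : IsIntegral R x) : x ∈ W := by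
  obtain ⟨p, hm, hp⟩ := hx
  let i : R →+* W := Subring.inclusion h.1
  have hi : IsIntegral W x := by
    refine ⟨p.map i, hm.map i, ?_⟩
    rw [Polynomial.eval₂_map]
    exact hp
  obtain ⟨y, rfl⟩ := IsIntegrallyClosed.isIntegral_iff.1 hi
  exact y.2

theorem Pl.mul {b b' : ℂ} {W : ValuationSubring ℂ} (hb : b ∈ R) (hb' : b' ∈ R) (b0 : b ≠ 0)
    (b0' : b' ≠ 0) (h : Pl R (b * b') W) : Pl R b W ∧ Pl R b' W := by
  refine ⟨⟨h.1, ?_⟩, h.1, ?_⟩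
  · have : b⁻¹ = b' * (b * b')⁻¹ := by field_simp
    rw [this]
    exact W.mul_mem _ _ (h.1 hb') h.2
  · have : b'⁻¹ = b * (b * b')⁻¹ := by field_simp
    rw [this]
    exact W.mul_mem _ _ (h.1 hb) h.2

theorem pl_alg {x : ℂ} (hx : IsAlgebraic R x) : ∃ b ∈ R, b ≠ 0 ∧ ∀ W, Pl R b W → x ∈ W ∧ x⁻¹ ∈ W := by
  have key : ∀ {z : ℂ}, IsAlgebraic R z → ∃ b ∈ R, b ≠ 0 ∧ ∀ W, Pl R b W → z ∈ W := by
    intro z hz
    obtain ⟨c, c0, hc⟩ := hz.exists_integral_multiple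
    have c1 : (c : ℂ) ≠ 0 := fun e => c0 (Subtype.ext e)
    refine ⟨c, c.2, c1, fun W hW => ?_⟩
    have h1 : (c : ℂ) * z ∈ W := hW.int hc
    have : z = (c : ℂ)⁻¹ * (c * z) := by field_simp
    rw [this]
    exact W.mul_mem _ _ hW.2 h1
  obtain ⟨b, hb, b0, h⟩ := key hx
  obtain ⟨b', hb', b0', h'⟩ := key hx.inv
  refine ⟨b * b', R.mul_mem hb hb', mul_ne_zero b0 b0', fun W hW => ?_⟩
  obtain ⟨h1, h2⟩ := Pl.mul hb hb' b0 b0' hW
  exact ⟨h W h1, h' W h2⟩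

theorem pl_fin {α : Type*} (s : Finset α) {Q : α → ValuationSubring ℂ → Prop}
    (h : ∀ i ∈ s, ∃ b ∈ R, b ≠ 0 ∧ ∀ W, Pl R b W → Q i W) :
    ∃ b ∈ R, b ≠ 0 ∧ ∀ W, Pl R b W → ∀ i ∈ s, Q i W := by
  classical
  induction s using Finset.induction_on with
  | empty => exact ⟨1, R.one_mem, one_ne_zero, fun W _ i hi => absurd hi (Finset.notMem_empty i)⟩
  | insert i s _ ih =>
    obtain ⟨b, hb, b0, h1⟩ := h i (Finset.mem_insert_self i s)
    obtain ⟨b', hb', b0', h2⟩ := ih fun k hk => h k (Finset.mem_insert_of_mem hk)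
    refine ⟨b * b', R.mul_mem hb hb', mul_ne_zero b0 b0', fun W hW k hk => ?_⟩
    obtain ⟨h3, h4⟩ := Pl.mul hb hb' b0 b0' hW
    rcases Finset.mem_insert.1 hk with rfl | hk
    exacts [h1 W h3, h2 W h4 k hk]

theorem eis_ex (ha : ∀ x, IsAlgebraic R (ε x)) : ∃ 𝕂 : Subfield (HahnSeries ℤ F),
    (∀ x, x ∈ 𝕂 ↔ Eis R (hm ε x)) ∧ ∀ ρ, ku F ρ ∈ 𝕂 := by
  have two : ∀ {P Q S : ValuationSubring ℂ → Prop}, (∃ b ∈ R, b ≠ 0 ∧ ∀ W, Pl R b W → P W) →
      (∃ b ∈ R, b ≠ 0 ∧ ∀ W, Pl R b W → Q W) → (∀ W, P W → Q W → S W) →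
      ∃ b ∈ R, b ≠ 0 ∧ ∀ W, Pl R b W → S W := by
    rintro P Q S ⟨b, hb, b0, h⟩ ⟨b', hb', b0', h'⟩ hs
    refine ⟨b * b', R.mul_mem hb hb', mul_ne_zero b0 b0', fun W hW => ?_⟩
    obtain ⟨h1, h2⟩ := Pl.mul hb hb' b0 b0' hW
    exact hs W (h W h1) (h' W h2)
  refine ⟨{ carrier := {x | Eis R (hm ε x)}
            mul_mem' := fun {x y} hx hy => two hx hy fun W h1 h2 => ?_
            one_mem' := ⟨1, R.one_mem, one_ne_zero, fun W _ => ?_⟩
            add_mem' := fun {x y} hx hy => two hx hy fun W h1 h2 => ?_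
            zero_mem' := ⟨1, R.one_mem, one_ne_zero, fun W _ => ?_⟩
            neg_mem' := fun {x} hx => two hx hx fun W h1 _ => ?_
            inv_mem' := fun x hx =>
              two hx (pl_alg (ha (x.coeff (hm ε x).order))) fun W h1 h2 => ?_ },
    fun _ => Iff.rfl, fun ρ => ?_⟩
  · rw [map_mul]
    exact mul_mem h1 h2
  · rw [map_one]
    exact one_mem _
  · rw [map_add]
    exact add_mem h1 h2
  · rw [map_zero]
    exact zero_mem _
  · rw [map_neg]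
    exact neg_mem h1
  · rw [map_inv₀]
    refine hS_inv h1 ?_
    rw [HahnSeries.leadingCoeff_eq, coeff_hm]
    exact h2.2
  · obtain ⟨b, hb, b0, h⟩ := pl_fin (R := R) ρ.support (Q := fun k W => ε (ρ.coeff k) ∈ W)
      fun k _ => (pl_alg (ha (ρ.coeff k))).imp fun b hb => ⟨hb.1, hb.2.1, fun W hW => (hb.2.2 W hW).1⟩
    refine ⟨b, hb, b0, fun W hW => ?_⟩
    rw [hm_ku]
    refine ku_mem fun k => ?_
    rw [Polynomial.coeff_map]
    by_cases hk : k ∈ ρ.support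
    · exact h W hW k hk
    · rw [Polynomial.notMem_support_iff.1 hk, map_zero]
      exact zero_mem _

end

end Pool.Agent.Lib.MP_5591bc_ag.Hy
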