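import Pool.Agent.Lib.MP_5591bc_ag.Hy.Sx
import Pool.Agent.Lib.MP_5591bc_ag.F.Num

/-! The gain of a factorial. -/

namespace Pool.Agent.Lib.MP_5591bc_ag.Hy

open MvPolynomial Matrix

noncomputable section

section
open Finset Nat

theorem fac_choose {n k M : ℕ} (hk : k ≤ n) (h : n ≤ M) : n.choose k ∣ lcmUpto M := by
  refine (factorization_prime_le_iff_dvd (choose_pos hk).ne' (lcmUpto_ne_zero M)).1 fun p hp => ?_
  rw [factorization_lcmUpto M hp]
  exact factorization_choose_le_log.trans (log_mono_right h)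

theorem fac_sum {ι : Type*} (s : Finset ι) (q : ι → ℕ) {M : ℕ} (h : ∑ i ∈ s, q i ≤ M) :
    (∑ i ∈ s, q i)! ∣ lcmUpto M ^ #s * ∏ i ∈ s, (q i)! := by
  classical
  induction s using Finset.induction_on with
  | empty => simp
  | insert a s ha ih =>
    rw [sum_insert ha] at h ⊢
    rw [prod_insert ha, card_insert_of_notMem ha, ← add_choose_mul_factorial_mul_factorial,
      pow_succ', mul_assoc, mul_assoc, mul_left_comm (lcmUpto M ^ #s)]
    exact mul_dvd_mul (fac_choose (Nat.le_add_left _ _) h)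
      (mul_dvd_mul_left _ (ih ((Nat.le_add_left _ _).trans h)))

theorem fac_shift {Q M : ℕ} (c : ℕ) : ∀ n, n ≤ Q + c → n ≤ M → n ! ∣ lcmUpto M ^ c * Q ! := by
  induction c with
  | zero => exact fun n h _ => by simpa using factorial_dvd_factorial h
  | succ c ih =>
    intro n h hM
    rcases n with _ | n
    · simp
    · rw [factorial_succ, pow_succ', mul_assoc]
      refine mul_dvd_mul ?_ (ih n (by omega) (by omega))
      simpa using fac_choose (n := n + 1) (k := 1) (by omega) hM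

theorem fac_nat {ι : Type*} [Fintype ι] (d c n M : ℕ) (a q : ι → ℕ) (hn : n ≤ ∑ i, q i + c)
    (hM : n ≤ M) (hq : ∑ i, q i ≤ M) :
    n ! ∣ lcmUpto M ^ (c + Fintype.card ι) * d ^ (∑ i, q i) *
      ∏ i, ∏ j ∈ range (q i), (a i + d * j) := by
  refine (fac_shift c n hn hM).trans ?_
  rw [pow_add, mul_assoc, mul_assoc]
  refine mul_dvd_mul_left _ ((fac_sum univ q hq).trans (mul_dvd_mul_left _ ?_))
  rw [← prod_pow_eq_pow_sum, ← prod_mul_distrib]
  exact prod_dvd_prod_of_dvd _ _ fun i _ => F.num_dvd _ _ _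

end

variable {ι Λ : Type*} [CommRing Λ] [Fintype ι] [DecidableEq ι] {n : ℕ} {G : MvPolynomial ι Λ}

omit [DecidableEq ι] in
theorem fac (ε : ι → ℤ) (e : ι → Fin (n + 1)) (v : ι →₀ ℕ) : ((wJ n v).factorial : ℤ) ∣
    (Nat.lcmUpto (wJ n v + Fintype.card ι) ^ (2 * Fintype.card ι) * (n + 2) ^ wJ n v : ℕ) *
      ∏ i, r1 n (ε i) (e i) (v i) := by
  have hd : v.degree = (n + 2) * ∑ i, v i / (n + 2) + ∑ i, v i % (n + 2) := by
    rw [Finsupp.degree_eq_sum, Finset.mul_sum, ← Finset.sum_add_distrib]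
    exact Finset.sum_congr rfl fun i _ => (Nat.div_add_mod _ _).symm
  have hr : ∑ i, v i % (n + 2) ≤ (n + 2) * Fintype.card ι := by
    rw [mul_comm, ← smul_eq_mul, ← Finset.card_univ]
    exact Finset.sum_le_card_nsmul _ _ _ fun i _ => (Nat.mod_lt _ (by omega)).le
  have h1 : ∑ i, v i / (n + 2) ≤ wJ n v :=
    (Nat.le_div_iff_mul_le (by omega)).2 (by rw [hd, mul_comm]; omega)
  have h2 : wJ n v ≤ ∑ i, v i / (n + 2) + Fintype.card ι :=
    Nat.div_le_of_le_mul (by rw [hd, mul_add]; omega)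
  have h3 := fac_nat (n + 2) (Fintype.card ι) (wJ n v) (wJ n v + Fintype.card ι)
    (fun i => e i + 1) (fun i => v i / (n + 2)) h2 (by omega) (by omega)
  refine (Int.natCast_dvd_natCast.2 h3).trans ?_
  rw [Nat.cast_mul, two_mul]
  refine mul_dvd_mul (Int.natCast_dvd_natCast.2 (mul_dvd_mul_left _ (pow_dvd_pow _ h1))) ?_
  rw [Nat.cast_prod]
  refine Finset.prod_dvd_prod_of_dvd _ _ fun i _ => ?_
  unfold r1
  split_ifs
  · rw [Nat.cast_prod]
    refine Finset.prod_dvd_prod_of_dvd _ _ fun l _ => ?_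
    rw [mul_comm (n + 2) l]
    exact (dvd_mul_left _ _).neg_right
  · exact dvd_zero _

omit [Fintype ι] [DecidableEq ι] in
theorem fac_mem {O : Subring Λ} (hO : ∀ v, coeff v G ∈ O) (v : ι →₀ ℕ) (j : ℕ) (u : ι →₀ ℕ) :
    coeff u (monomial v 1 * G ^ j) ∈ O := by
  classical
  induction j generalizing u with
  | zero =>
    rw [pow_zero, mul_one, coeff_monomial]
    split_ifs
    exacts [O.one_mem, O.zero_mem]
  | succ j ih =>
    rw [pow_succ, ← mul_assoc, coeff_mul]
    exact sum_mem fun x _ => O.mul_mem (ih _) (hO _)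

omit [DecidableEq ι] in
theorem phint [Algebra ℚ Λ] {O : Subring Λ} (hG : G.IsHomogeneous (n + 2))
    (hO : ∀ v, coeff v G ∈ O) (ε : ι → ℤ) (e : ι → Fin (n + 1)) (v : ι →₀ ℕ) (j : ℕ) : ∃ y ∈ O,
      (Nat.lcmUpto (wJ n v + j + Fintype.card ι) ^ (2 * Fintype.card ι) *
        (n + 2) ^ (wJ n v + j) : ℕ) *
        PowerSeries.coeff j (phv (RingHom.id Λ) (red Λ ε e) G v) = (wJ n v).factorial * y := by
  have h1 : ∀ u ∈ (monomial v (1 : Λ) * G ^ j).support, wJ n u = wJ n v + j := by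
    intro u hu
    have h2 := ((isHomogeneous_monomial (1 : Λ) (rfl : v.degree = v.degree)).mul
      (hG.pow j)).degree_eq_sum_deg_support hu
    rw [wJ, wJ, ← Nat.add_mul_div_left _ _ (by omega : 0 < n + 2), h2]
    rfl
  choose z hz using fac ε e
  refine ⟨((wJ n v + j).choose j : ℕ) * ∑ u ∈ (monomial v (1 : Λ) * G ^ j).support,
    coeff u (monomial v 1 * G ^ j) * (z u : Λ), O.mul_mem (natCast_mem O _)
      (sum_mem fun u _ => O.mul_mem (fac_mem hO v j u) (intCast_mem O _)), ?_⟩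
  have h3 : algebraMap ℚ Λ (j.factorial : ℚ)⁻¹ * (j.factorial : Λ) = 1 := by
    rw [← map_natCast (algebraMap ℚ Λ), ← map_mul,
      inv_mul_cancel₀ (Nat.cast_ne_zero.2 j.factorial_ne_zero), map_one]
  have h4 := congrArg (Nat.cast : ℕ → Λ) (Nat.add_choose_mul_factorial_mul_factorial (wJ n v) j)
  rw [phv, PowerSeries.coeff_mk, sx, mul_left_comm, Finset.mul_sum, Finset.mul_sum,
    Finset.mul_sum, Finset.mul_sum]
  refine Finset.sum_congr rfl fun u hu => ?_
  have h5 := congrArg (Int.cast : ℤ → Λ) (hz u)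
  rw [h1 u hu, Int.cast_mul, Int.cast_mul, Int.cast_natCast, Int.cast_natCast, ← h4] at h5
  rw [RingHom.id_apply, red, mul_left_comm _ (coeff u _), h5]
  push_cast
  linear_combination (coeff u (monomial v 1 * G ^ j) * ((wJ n v + j).choose j : Λ) *
    ((wJ n v).factorial : Λ) * (z u : Λ)) * h3

end

end Pool.Agent.Lib.MP_5591bc_ag.Hy
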