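import Pool.Agent.Lib.MP_5591bc_ag.Hy.AllH
import Pool.Agent.Lib.MP_5591bc_ag.Cu.Mono

/-! The lattice is preserved by continuation. -/

namespace Pool.Agent.Lib.MP_5591bc_ag.Hy

open Polynomial Set Filter Topology Matrix G M A B E Z Cu Cv

noncomputable section

variable {σ K ν : Type} [Field K] [NumberField K] [Algebra K ℂ] [Fintype σ] [DecidableEq σ]
  [Fintype ν] [DecidableEq ν] {T : MvPolynomial σ K} {q : (MvPolynomial σ K)[X]} {r n m N : ℕ}
  {B : σ → Matrix ν ν (MvPolynomial σ K)[X]} {U U' V V' : Set (σ → ℂ)}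
  {P P' : (σ → ℂ) → Matrix (Option ν) (Option ν) ℂ} {s t : σ → ℂ} {w : ν → ℕ}
  {J : Matrix ν ν ℝ} {j : ℕ} {f : MvPolynomial (Fin (N + 1)) (MvPolynomial σ K)[X]}
  {A : ν → MvPolynomial (Fin (N + 1)) (MvPolynomial σ K)[X]} {a : ℂ}
  {Bh : σ → Matrix (Ix ν r) (Ix ν r) (MvPolynomial σ K)}

theorem invH_dom (h : FamH T q r B f m A a) (ho : IsOpen U) (hU : IsPreconnected U)
    (hP : FundS T q B U P) (hs : s ∈ U) (ht : t ∈ U) (s0 : MvPolynomial.aeval s T ≠ 0)
    (t0 : MvPolynomial.aeval t T ≠ 0) (hI : Lat (f.map (evz s (P s none none))) m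
      (fun i => (A i).map (evz s (P s none none))) a (bl (P s))) :
    Lat (f.map (evz t (P t none none))) m (fun i => (A i).map (evz t (P t none none))) a
      (bl (P t)) := by
  refine mono_ind (I := fun x => Lat (f.map (evz x (P x none none))) m
    (fun i => (A i).map (evz x (P x none none))) a (bl (P x))) h.cv.T0 ho hU
    (fun x hx x0 => ?_) hs ht s0 t0 hI
  obtain ⟨V, hV, Q, e, hQ⟩ := h.cov x _ x0 (hP x hx).2.2.1
  have u := FundS.uniq h.cv hQ.1 hP hV (ho.mem_nhds hx) x0 e.symm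
    (hQ.2 x (mem_of_mem_nhds hV)).1
  have k : ∀ᶠ y in 𝓝 x, Lat (f.map (evz y (P y none none))) m
      (fun i => (A i).map (evz y (P y none none))) a (bl (P y)) ↔
        Uni ((bl (Q x))⁻¹ * bl (P x)) := by
    filter_upwards [u, hV] with y hy hy'
    rw [hy.1, hy.2]
    exact lat_mulH (hQ.2 y hy')
  exact k.mono fun y hy => hy.trans k.self_of_nhds.symm

theorem FamH.cont (h : FamH T q r B f m A a) (ho : IsOpen U) (hU : IsPreconnected U)
    (hP : PerH T q B f m A a U P) (hne : U.Nonempty) (k : ContM U P U' P') (ht : t ∈ U')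
    (t0 : MvPolynomial.aeval t T ≠ 0) : Lat (f.map (evz t (P' t none none))) m
      (fun i => (A i).map (evz t (P' t none none))) a (bl (P' t)) := by
  induction k generalizing t with
  | base => exact hP.2 t ht
  | step V V' Q Q' x k o c a x1 x2 e ih =>
    obtain ⟨y, y0, y1, y2, y3⟩ := ((mono_freq h.cv.T0 x).and_eventually
      (e.and (Filter.Eventually.and ((hP.1.cont ho hU k).1.mem_nhds x1) (o.mem_nhds x2)))).exists
    exact invH_dom h o c (hP.1.cont ho hU (.step _ _ _ _ _ k o c a x1 x2 e)).2.2 y3 ht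
      y0 t0 (y1 ▸ ih y2 y0)

theorem FamH.int2 (h : FamH T q r B f m A a) (ho : IsOpen U) (hU : IsPreconnected U)
    (hP : PerH T q B f m A a U P) (hne : U.Nonempty) : Int2 T U P := by
  refine ⟨fun U' P' k t ht t0 => (h.cont ho hU hP hne k ht t0).1,
    fun U₁ P₁ U₂ P₂ k₁ k₂ t t1 t2 e => ?_⟩
  obtain ⟨o1, -, f1⟩ := hP.1.cont ho hU k₁
  obtain ⟨o2, -, f2⟩ := hP.1.cont ho hU k₂
  obtain ⟨ρ, ρ0, hρ⟩ := Metric.eventually_nhds_iff_ball.1
    (e.and (Filter.Eventually.and (o1.mem_nhds t1) (o2.mem_nhds t2)))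
  obtain ⟨y, y0, y1⟩ := ((mono_freq h.cv.T0 t).and_eventually (Metric.ball_mem_nhds t ρ0)).exists
  obtain ⟨y2, y3, y4⟩ := hρ y y1
  have i1 := h.cont ho hU hP hne k₁ y3 y0
  obtain ⟨γ, g1, g2⟩ := lat_two i1 (y2 ▸ h.cont ho hU hP hne k₂ y4 y0)
  have d1 := i1.1
  have u := FundS.uniq h.cv f1 f2 (o1.mem_nhds y3) (o2.mem_nhds y4) y0 y2 d1
  rw [g2, nonsing_inv_mul_cancel_left _ _ d1.isUnit] at u
  refine ⟨γ, fun e => by simp [e] at g1,
    mem_of_superset (Metric.ball_mem_nhds t ρ0) fun x hx => Matrix.ext fun i j => ?_⟩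
  refine AnalyticOnNhd.eqOn_of_preconnected_of_eventuallyEq (𝕜 := ℂ)
    (f := fun x => bl (P₂ x) i j)
    (g := fun x => (bl (P₁ x) * γ.map Int.cast : Matrix ν ν ℂ) i j)
    (fun x hx => (f2 x (hρ x hx).2.2).1 _ _) (fun x hx => ?_) (convex_ball _ _).isPreconnected y1
    (u.mono fun x hx => congrFun₂ hx.2 i j) hx
  simp only [mul_apply]
  exact Finset.analyticAt_fun_sum _ fun a _ =>
    ((f1 x (hρ x hx).2.1).1 _ _).fun_mul analyticAt_const

end

end Pool.Agent.Lib.MP_5591bc_ag.Hy
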