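import Pool.Agent.Lib.MP_5591bc_ag.Hy.Set
import Pool.Agent.Lib.MP_5591bc_ag.Cv.Vhs
import Pool.Agent.Lib.MP_5591bc_ag.Cv.Conn
import Pool.Agent.Lib.MP_5591bc_ag.B.Blk

/-! The direct image without a polarisation. -/

namespace Pool.Agent.Lib.MP_5591bc_ag.Hy

open Polynomial Set Filter Topology Matrix G M N J A B E Z Cu Cv

noncomputable section

variable {σ K ν : Type} [Field K] [NumberField K] [Algebra K ℂ] [Fintype σ] [DecidableEq σ]
  [Fintype ν] [DecidableEq ν] {T : MvPolynomial σ K} {q : (MvPolynomial σ K)[X]} {r n m N : ℕ}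
  {B : σ → Matrix ν ν (MvPolynomial σ K)[X]} {U U' V V' : Set (σ → ℂ)}
  {P P' : (σ → ℂ) → Matrix (Option ν) (Option ν) ℂ} {s t : σ → ℂ} {w : ν → ℕ}
  {J : Matrix ν ν ℝ} {j : ℕ} {f : MvPolynomial (Fin (N + 1)) (MvPolynomial σ K)[X]}
  {A : ν → MvPolynomial (Fin (N + 1)) (MvPolynomial σ K)[X]} {a : ℂ}
  {Bh : σ → Matrix (Ix ν r) (Ix ν r) (MvPolynomial σ K)}
  [NeZero r] [NeZero n] {B2 : σ → Matrix (Iy ν r n) (Iy ν r n) (MvPolynomial σ K)}
  {Ph : (σ → ℂ) → Matrix (Iy ν r n) (Iy ν r n) ℂ}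

theorem up_conn (h : Up T q B B2 U P V Ph) (hI : Int2 T U P)
    (hj : Proj T V Ph (c1 ν r n) (pr (ic ν r n)))
    (hd : ∃ (N : ℕ) (p : MvPolynomial σ ℂ), ∀ t ∈ V,
      MvPolynomial.aeval t T ^ N * (Ph t).det = MvPolynomial.eval t p)
    (hC : ConnRM U P fun t => P t * sz ν 1) : ConnD T V Ph (c1 ν r n) (pr (ic ν r n)) := by
  intro U' P' k s hs hT
  obtain ⟨kM, sh⟩ := h.down k
  obtain ⟨Q, hQ⟩ : ∃ Q : (σ → ℂ) → Matrix (Option ν) (Option ν) ℂ, ∀ t, Q t = bk q t (P' t) :=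
    ⟨_, fun _ => rfl⟩
  rw [← funext hQ] at kM
  simp only [← hQ] at sh
  have d0 := hI.dt _ _ kM s hs hT
  obtain ⟨ho, hc, fs⟩ := h.fs.cont h.ho h.hc kM
  have nb := ho.mem_nhds hs
  have aQ := fun t ht => (fs t ht).1
  have aP := (brg_cont h.op h.co (fun t ht i j => ((h.fm t ht).2 i j).1) k).2.2 s hs
  have hC' : ConnTN (SN fun a => tayM (uuN Q (sz ν 1) · a) s)
      (Set.range (evN s fun a : Option ν × Option ν => tayM (Q · a.1 a.2) s)) :=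
    (connRM_iff ho hc aQ (brg_an aQ _) hs).1 (hC.cont h.ho h.hc (fun t ht => (h.fs t ht).1) _ kM)
  obtain ⟨-, N, A, hA⟩ := proj_cont h.op hj k
  obtain ⟨N', p, hp⟩ := hd
  have hp' := det_cont (C1 := c1 ν r n) (A := MvPolynomial.rename Sum.inl p) h.op
    (fun t ht => by rw [hp t ht, MvPolynomial.eval_rename]; rfl) k
  have sh' : ∀ᶠ t in 𝓝 s, Shp (P' t) (Q t) := mem_of_superset nb sh
  have od : ∀ᶠ t in 𝓝 s, ∀ i, Q t (some i) none = 0 ∧ Q t none (some i) = 0 :=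
    mem_of_superset nb fun t ht => (fs t ht).2.1
  rw [cn_eq sh' od (aQ s hs _ _) hQ] at hC'
  obtain ⟨R, hR⟩ : ∃ R, R = SN fun a : Option ν × Option ν => tayM (Q · a.1 a.2) s := ⟨_, rfl⟩
  have mQ : ∀ i j, (fun t => Q t i j) ∈ cnF R s := fun i j =>
    ⟨aQ s hs i j, by rw [hR]; exact brg_mem _ (i, j)⟩
  have co : ∀ l, (fun t => t l) ∈ cnF R s := fun l => by rw [hR]; exact cn_coord _ l
  have mT := cn_aeval co T
  have pw := cn_pw sh' od (mQ none none)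
  have le : (SN fun a => tayM (uuN P' (c1 ν r n) · a) s) ≤ R := by
    rw [hR]
    exact cn_SN fun a => by rw [← hR]; exact (pw a).2
  refine ⟨cnS R, cn_conn (hC'.mono fun f hf => (mem_SN s).1 (by rw [← hR]; exact hf)),
    fun f hf => cn_le (le hf), fun i j => cn_le (cn_col sh' mQ i j).2,
    cn_dj (A := fun t => A.map (MvPolynomial.aeval (Sum.elim t fun a => uuN P' (c1 ν r n) t a)))
      aP (cn_pow mT N) (cn_pow mT N') (pow_ne_zero _ hT) (pow_ne_zero _ hT) ?_ ?_ ?_ ?_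
      (mem_of_superset nb hA)⟩
  · rwa [(sh s hs).sub]
  · refine cn_congr (cn_aeval co p) ?_
    filter_upwards [nb] with t ht
    rw [hp' t ht, MvPolynomial.eval_rename, MvPolynomial.aeval_eq_eval]
    rfl
  · refine fun i j => cn_congr (mQ (some i) (some j)) ?_
    filter_upwards [sh'] with t ht
    rw [ht.sub]
    rfl
  · refine fun i j => cn_aeval (u := fun t => Sum.elim t fun a => uuN P' (c1 ν r n) t a) ?_ _
    rintro (l | c)
    exacts [co l, pw c]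

omit [NumberField K] in
theorem uph_fin {μ ι : Type} [Fintype μ] [DecidableEq μ] [Fintype ι] [DecidableEq ι] {c : μ → ι}
    (hc : Function.Injective c) {γ : Matrix μ μ ℤ} (g1 : γ.det ≠ 0) :
    ∃ g : Matrix ι ι K, g.det ≠ 0 ∧ ∀ Y Y' : Matrix ι ι ℂ,
      Y'.submatrix id c = Y.submatrix id c * γ.map Int.cast →
        Y' * pr c = Y * pr c * g.map (algebraMap K ℂ) := by
  have d0 : (γ.map Int.cast : Matrix μ μ ℂ).det ≠ 0 := by
    have e1 : (γ.map Int.cast : Matrix μ μ ℂ).det = γ.det := ((Int.castRingHom ℂ).map_det γ).symm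
    rwa [e1, Int.cast_ne_zero]
  let b : Matrix ι μ K := (1 : Matrix ι ι K).submatrix id c
  have eb : b.map (algebraMap K ℂ) = bm c := by
    ext x y
    simp [b, bm, one_apply, apply_ite]
  obtain ⟨x, this⟩ : ∃ x : Matrix μ μ K, x.map (algebraMap K ℂ) = γ.map Int.cast :=
    ⟨γ.map Int.cast, by ext x y; simp⟩
  generalize (γ.map Int.cast : Matrix μ μ ℂ) = y at this d0
  have em : (b * x * bᵀ + (1 - b * bᵀ)).map (algebraMap K ℂ) =
      bm c * y * (bm c)ᵀ + (1 - pr c) := by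
    rw [Matrix.map_add _ (map_add _), Matrix.map_sub _ (map_sub _), Matrix.map_mul, Matrix.map_mul,
      Matrix.map_mul, transpose_map, eb, this, Matrix.map_one _ (map_zero _) (map_one _), B.pr]
  have bt : ∀ {α : Type} (Y : Matrix μ α ℂ), (bm c)ᵀ * (bm c * Y) = Y := fun Y => by
    rw [← Matrix.mul_assoc, bm_t hc, Matrix.one_mul]
  refine ⟨b * x * bᵀ + (1 - b * bᵀ), fun e0 => ?_, fun Y Y' z2 => ?_⟩
  · have e1 := (algebraMap K ℂ).map_det (b * x * bᵀ + (1 - b * bᵀ))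
    rw [e0, map_zero, RingHom.mapMatrix_apply, em] at e1
    refine det_ne_zero_of_right_inverse
      (B := bm c * y⁻¹ * (bm c)ᵀ + (1 - pr c)) ?_ e1.symm
    simp only [B.pr, Matrix.mul_add, Matrix.add_mul, Matrix.mul_sub, Matrix.sub_mul,
      Matrix.mul_one, Matrix.one_mul, Matrix.mul_assoc, bt,
      mul_nonsing_inv_cancel_left _ _ d0.isUnit]
    abel
  · replace z2 : Y' * bm c = Y * bm c * y := by rw [mul_bm, mul_bm]; exact z2
    rw [em, B.pr, ← Matrix.mul_assoc, z2]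
    simp only [Matrix.mul_add, Matrix.mul_sub, Matrix.mul_one, Matrix.mul_assoc, bt, sub_self,
      add_zero]

theorem uph_mc (h : Up T q B B2 U P V Ph) {Ph' : (σ → ℂ) → Matrix (Iy ν r n) (Iy ν r n) ℂ}
    (k : ContM V Ph V' Ph') : IsOpen V' ∧ FundS T q B V' (fun x => bk q x (Ph' x)) ∧
      ∀ x ∈ V', Ph' x * c1 ν r n = z1 ν r n (bk q x (Ph' x) none none) := by
  have fs := h.fs.cont h.ho h.hc (h.down k).1
  exact ⟨fs.1, fs.2.2, fun x hx => ((h.down k).2 x hx).mul_c1 (fs.2.2 x hx).2.1⟩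

theorem uph_sh (h : Up T q B B2 U P V Ph) (t : σ → ℂ) (W : Fin (r + 1) → Set (σ → ℂ))
    (Q : Fin (r + 1) → (σ → ℂ) → Matrix (Iy ν r n) (Iy ν r n) ℂ)
    (hQ : ∀ i, ContM V Ph (W i) (Q i) ∧ t ∈ W i) :
    ∃ i i', i ≠ i' ∧ ∀ᶠ z in 𝓝 t, Q i' z * c1 ν r n = Q i z * c1 ν r n := by
  have fs := fun i => uph_mc h (hQ i).1
  have nb := fun i => (fs i).1.mem_nhds (hQ i).2
  obtain ⟨i, i', ne, e⟩ := h.cv.sheets (ξ := fun i x => bk q x (Q i x) none none)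
    (fun i => ((fs i).2.1 t (hQ i).2).1 none none)
    fun i => mem_of_superset (nb i) fun x hx => ((fs i).2.1 x hx).2.2.1
  refine ⟨i, i', ne, ?_⟩
  filter_upwards [e, nb i, nb i'] with x e1 m m'
  rw [(fs i).2.2 x m, (fs i').2.2 x m', e1]

theorem uph_two (h : Up T q B B2 U P V Ph) (hI : Int2 T U P) {U₁ U₂ : Set (σ → ℂ)}
    {P₁ P₂ : (σ → ℂ) → Matrix (Iy ν r n) (Iy ν r n) ℂ} (k₁ : ContM V Ph U₁ P₁)
    (k₂ : ContM V Ph U₂ P₂) (t1 : t ∈ U₁) (t2 : t ∈ U₂)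
    (e : ∀ᶠ z in 𝓝 t, P₂ z * c1 ν r n = P₁ z * c1 ν r n) : ∃ γ : Matrix ν ν ℤ, γ.det ≠ 0 ∧
      ∀ᶠ x in 𝓝 t, (x ∈ U₁ ∧ x ∈ U₂ ∧ bk q x (P₂ x) none none = bk q x (P₁ x) none none ∧
        bl (bk q x (P₂ x)) = bl (bk q x (P₁ x)) * γ.map Int.cast) ∧
        (P₂ x).submatrix id (ic ν r n) = (P₁ x).submatrix id (ic ν r n) * γ.map Int.cast := by
  have f1 := uph_mc h k₁
  have f2 := uph_mc h k₂
  have n1 := f1.1.mem_nhds t1
  have n2 := f2.1.mem_nhds t2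
  have ez : ∀ᶠ x in 𝓝 t, bk q x (P₂ x) none none = bk q x (P₁ x) none none := by
    filter_upwards [e, n1, n2] with x e1 m1 m2
    rw [f1.2.2 x m1, f2.2.2 x m2] at e1
    exact z1_inj h.cv (f2.2.1 x m2).2.2.1 (f1.2.1 x m1).2.2.1 e1
  obtain ⟨γ, g1, g2⟩ := hI.two _ _ _ _ (h.down k₁).1 (h.down k₂).1 t t1 t2 ez
  refine ⟨γ, g1, ?_⟩
  filter_upwards [ez, g2, n1, n2] with x e1 g m1 m2
  exact ⟨⟨m1, m2, e1, g⟩, vhs_col ((h.down k₁).2 x m1) ((h.down k₂).2 x m2)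
    (fun i => ((f1.2.1 x m1).2.1 i).2) (fun i => ((f2.2.1 x m2).2.1 i).2) e1 g⟩

theorem uph_J {Y : Matrix ν ν ℂ} {γ : Matrix ν ν ℤ} (d : Y.det ≠ 0)
    (e : Y * γ.map Int.cast * J.map Complex.ofReal * (Y * γ.map Int.cast)ᵀ =
      Y * J.map Complex.ofReal * Yᵀ) :
    γ.map Int.cast * J * (γ.map Int.cast)ᵀ = J := by
  have u1 : IsUnit Y := (isUnit_iff_isUnit_det _).2 d.isUnit
  have u2 : IsUnit Yᵀ := (isUnit_iff_isUnit_det _).2 (by rw [det_transpose]; exact d.isUnit)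
  have e1 : (γ.map Int.cast : Matrix ν ν ℂ) * J.map Complex.ofReal * (γ.map Int.cast)ᵀ =
      J.map Complex.ofReal := by
    apply u1.mul_left_cancel
    apply u2.mul_right_cancel
    rw [← e, transpose_mul]
    simp only [Matrix.mul_assoc]
  ext a b
  have := congrFun₂ e1 a b
  apply Complex.ofReal_injective
  simpa [mul_apply] using this

theorem up_fin (h : Up T q B B2 U P V Ph) (hI : Int2 T U P) :
    FinMon K V Ph (c1 ν r n) (pr (ic ν r n)) r := by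
  intro t W Q hQ
  obtain ⟨i, i', ne, e⟩ := uph_sh h t W Q hQ
  obtain ⟨γ, g1, g2⟩ := uph_two h hI (hQ i).1 (hQ i').1 (hQ i).2 (hQ i').2 e
  obtain ⟨g, g0, hg⟩ := uph_fin (K := K) (ic_inj (ν := ν) (r := r) (n := n)) g1
  refine ⟨i, i', ne, g, g0, ?_⟩
  filter_upwards [e, g2] with z z1 z2
  exact ⟨z1, hg _ _ z2.2⟩

theorem up_vhs (h : Up T q B B2 U P V Ph) (hI : Int2 T U P) (hJ : Pol T U P J j w)
    (hd : ∃ (N : ℕ) (p : MvPolynomial σ ℂ), ∀ t ∈ V,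
      MvPolynomial.aeval t T ^ N * (Ph t).det = MvPolynomial.eval t p) :
    VHS T V Ph (c1 ν r n) (ic ν r n) J j w r := by
  obtain ⟨L, hL⟩ := hJ
  refine ⟨?_, fun U' P' k t ht t0 => ?_, uph_sh h, fun U₁ P₁ U₂ P₂ k₁ k₂ t t1 t2 e => ?_⟩
  · obtain ⟨N, p, hp⟩ := hd
    exact ⟨N, MvPolynomial.rename Sum.inl p, fun t ht => by
      rw [hp t ht, MvPolynomial.eval_rename]; rfl⟩
  · obtain ⟨h1, h2, -⟩ := hL _ _ (h.down k).1 t ht t0
    exact ⟨h1, h2⟩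
  · obtain ⟨γ, -, g2⟩ := uph_two h hI k₁ k₂ t1 t2 e
    refine ⟨γ, ?_, g2.mono fun x hx => hx.2⟩
    obtain ⟨W, hW, oW, tW⟩ := eventually_nhds_iff.1 g2
    obtain ⟨x, xW, x0⟩ := blk_pt h.cv.T0 oW ⟨t, tW⟩
    obtain ⟨⟨m1, m2, e1, g⟩, -⟩ := hW x xW
    have l1 := (hL _ _ (h.down k₁).1 x m1 x0).2.2
    have l2 := (hL _ _ (h.down k₂).1 x m2 x0).2.2
    refine uph_J (hI.dt _ _ (h.down k₁).1 x m1 x0) ?_
    rw [← g]
    exact l2.trans ((congrArg (L x) e1).trans l1.symm)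

end

end Pool.Agent.Lib.MP_5591bc_ag.Hy
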