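import Pool.Agent.Lib.MP_5591bc_ag.Hy.DetH
import Pool.Agent.Lib.MP_5591bc_ag.Hy.InvH
import Pool.Agent.Lib.MP_5591bc_ag.Hy.UpH
import Pool.Agent.Lib.MP_5591bc_ag.Cv.Fin

/-! The count of the exceptional points for families of hypersurface complements. -/

namespace Pool.Agent.Lib.MP_5591bc_ag.Hy

open Polynomial Set Filter Topology Matrix G R W M N E Z J B K Rg Cu Cv

theorem cntE {σ K ν : Type} [Fintype σ] [DecidableEq σ] [Field K] [NumberField K] [Algebra K ℂ]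
    [Fintype ν] [DecidableEq ν] {T : MvPolynomial σ K} {B : σ → Matrix ν ν (MvPolynomial σ K)}
    (T0 : T ≠ 0) (h : GalM T B) : ∃ C : ℕ, ∀ (δ r j : ℕ) (μ : Type) [Fintype μ] [DecidableEq μ]
      (c : μ → ν) (w : μ → ℕ) (J : Matrix μ μ ℝ) (U : Set (σ → ℂ)) (P : (σ → ℂ) → Matrix ν ν ℂ)
      (C1 : Matrix ν ν ℂ), Function.Injective c →
      IsOpen U → IsPreconnected U → FundM T B U P → ConnD T U P C1 (pr c) →
      Proj T U P C1 (pr c) → FinMon K U P C1 (pr c) r →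
      (Fintype.card σ = 1 ∨ VHS T U P C1 c J j w r) →
      ∀ (d : ℕ) (H : ℝ), 2 ≤ H → ∀ S : Finset ((σ → ℂ) × Matrix ν ν ℂ),
        (∀ s ∈ S, MvPolynomial.aeval s.1 T ≠ 0 ∧
          (∀ j, ∃ q : Polynomial ℤ, q ≠ 0 ∧ (∀ i, |(q.coeff i : ℝ)| ≤ H) ∧
            Polynomial.aeval (s.1 j) q = 0) ∧
          ∃ U' P', ContM U P U' P' ∧ s.1 ∈ U' ∧ P' s.1 * C1 = s.2 ∧
            (Fintype.card σ = 1 ∨ HGen j w (fun t => (P' t).submatrix c c) s.1 ∧
              ∀ s' ∈ S, WS T U P C1 c j w P' s.1 s' → s' = s) ∧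
            ∃ (E : IntermediateField K ℂ) (x : σ → E) (z : Matrix ν ν E),
              (∀ j, (x j : ℂ) = s.1 j) ∧ (∀ i j, (z i j : ℂ) = s.2 i j) ∧
              FiniteDimensional ℚ E ∧ Module.finrank ℚ E ≤ d ∧ ¬ GoodRM U' P' C1 (pr c) δ x z) →
        (S.card : ℝ) ≤ (C * (δ + r + 1) * d * Real.log H) ^
          (C * (δ + 1) ^ (Fintype.card σ * Fintype.card (ν × ν))) := by
  classical
  obtain ⟨C, hC⟩ := cntD0 T0 h
  refine ⟨C + 2, fun δ r j μ _ _ c w J U P C1 hc ho hU hP h1 h2 h4 h3 d H H2 S hS => ?_⟩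
  rcases S.eq_empty_or_nonempty with rfl | ⟨s₀, m₀⟩
  · have := Real.log_nonneg (one_le_two.trans H2)
    rw [Finset.card_empty, Nat.cast_zero]
    positivity
  refine fin_numD ?_ ?_ (Nat.one_le_pow _ _ δ.succ_pos)
    (Finset.card_le_mul_card_image (f := Prod.fst) S r fun t _ => ?_)
    (hC δ r U P C1 _ ho hU hP h1 h2 h4 d H H2 S _ fun t ht => ?_)
  · exact le_trans (by linarith [Real.log_two_gt_d9]) (Real.log_le_log two_pos H2)
  · obtain ⟨-, -, -, -, -, -, -, -, E, -, -, -, -, _, hd, -⟩ := hS s₀ m₀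
    exact le_trans Module.finrank_pos hd
  · by_contra hn
    obtain ⟨S', s1, s2⟩ := Finset.exists_subset_card_eq (Nat.succ_le_of_lt (not_le.1 hn))
    let f := (Finset.equivFinOfCardEq s2).symm
    have m := fun i => Finset.mem_filter.1 (s1 (f i).2)
    choose V Q k1 k2 k3 k4 using fun i => (hS _ (m i).1).2.2
    obtain ⟨i, i', ne, _, -, e⟩ := h4 t V Q fun i => ⟨k1 i, (m i).2 ▸ k2 i⟩
    refine ne (f.injective (Subtype.ext (Prod.ext ((m i).2.trans (m i').2.symm) ?_)))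
    rw [← k3, ← k3, (m i).2, (m i').2, e.self_of_nhds.1]
  · obtain ⟨s, hs, rfl⟩ := Finset.mem_image.1 ht
    obtain ⟨e, b, U', P', k, hx, hz, hM, hb⟩ := hS s hs
    refine ⟨e, b, U', P', k, hx, ⟨hz ▸ hs, ?_⟩, hz ▸ hb⟩
    by_cases h0 : Fintype.card σ = 1
    · exact lone_one h0 T0 ho hU hP h1 k hx e _
    have h3 := h3.resolve_left h0
    have hM := hM.resolve_left h0
    exact lone_ofD T0 ho hU hP h1 hc h2 h3 k hx e (mf_subD h T0 ho hU hP h1 hc h3 k hx e hM.1)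
      fun s' m q => congrArg Prod.fst (hM.2 s' m q)

theorem cntH {σ K ν : Type} [Fintype σ] [DecidableEq σ] [Field K] [NumberField K] [Algebra K ℂ]
    [Fintype ν] [DecidableEq ν] {n m r : ℕ} {T : MvPolynomial σ K} {q : (MvPolynomial σ K)[X]}
    {B : σ → Matrix ν ν (MvPolynomial σ K)[X]} {f : MvPolynomial (Fin (n + 1)) (MvPolynomial σ K)[X]}
    {A : ν → MvPolynomial (Fin (n + 1)) (MvPolynomial σ K)[X]} {a : ℂ}
    (h : FamH T q r B f m A a) : ∃ C N : ℕ, ∀ (δ : ℕ) (U : Set (σ → ℂ))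
      (P : (σ → ℂ) → Matrix (Option ν) (Option ν) ℂ), IsOpen U → IsPreconnected U →
      PerH T q B f m A a U P → (ConnRM U P fun t => P t * single none none 1) →
      ∀ (j : ℕ) (w : ν → ℕ) (J : Matrix ν ν ℝ), (Fintype.card σ = 1 ∨ Pol T U P J j w) →
      ∀ (D : ℕ) (H : ℝ), 2 ≤ H → ∀ S : Finset ((σ → ℂ) × ℂ),
        (∀ s ∈ S, MvPolynomial.aeval s.1 T ≠ 0 ∧
          (∀ l, ∃ p : ℤ[X], p ≠ 0 ∧ (∀ i, |(p.coeff i : ℝ)| ≤ H) ∧ aeval (s.1 l) p = 0) ∧
          ∃ U' P', ContM U P U' P' ∧ s.1 ∈ U' ∧ P' s.1 none none = s.2 ∧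
            (Fintype.card σ = 1 ∨ HGen j w (fun t => (P' t).submatrix some some) s.1 ∧
              ∀ s' ∈ S, WS T U P (single none none 1) some j w P' s.1
                (s'.1, single none none s'.2) → s' = s) ∧
            ∃ (E : IntermediateField K ℂ) (x : σ → E) (z : E), (∀ l, (x l : ℂ) = s.1 l) ∧
              (z : ℂ) = s.2 ∧ FiniteDimensional ℚ E ∧ Module.finrank ℚ E ≤ D ∧
              ¬ GoodRM U' P' (single none none 1) (1 - single none none 1) δ x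
                (single none none z)) →
        (S.card : ℝ) ≤ (C * (δ + 1) * D * Real.log H) ^ (C * (δ + 1) ^ N) := by
  classical
  have emp : ∀ (C δ D e : ℕ) (H : ℝ), 2 ≤ H → (((∅ : Finset ((σ → ℂ) × ℂ)).card : ℕ) : ℝ) ≤
      (C * (δ + 1) * D * Real.log H) ^ e := fun C δ D e H H2 => by
    have := Real.log_nonneg (one_le_two.trans H2)
    rw [Finset.card_empty, Nat.cast_zero]
    positivity
  have rt : ∀ {U P U' P'}, IsOpen U → IsPreconnected U → PerH T q B f m A a U P →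
      ContM U P U' P' → ∀ t ∈ U', evz t (P' t none none) q = 0 :=
    fun ho hU hP k t ht => ((hP.1.cont ho hU k).2.2 t ht).2.2.1
  rcases Nat.eq_zero_or_pos r with rfl | r0
  · refine ⟨0, 0, fun δ U P ho hU hP _ _ _ _ _ D H H2 S hS => ?_⟩
    rcases S.eq_empty_or_nonempty with rfl | ⟨s, hs⟩
    · exact emp _ _ _ _ _ H2
    obtain ⟨-, -, U', P', k, hx, -⟩ := hS s hs
    have := rt ho hU hP k _ hx
    rw [h.cv.mq.natDegree_eq_zero.1 h.cv.dq, map_one] at this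
    exact absurd this one_ne_zero
  obtain ⟨Bh, hB⟩ := sys_ex h.cv B
  obtain ⟨e, e0, hd⟩ := h.det hB
  have : NeZero r := ⟨r0.ne'⟩
  have : NeZero e := ⟨e0.ne'⟩
  obtain ⟨C, hC⟩ := cntE h.cv.T0 (h.gal hB e)
  refine ⟨C * (r + 1) + 2, Fintype.card σ * Fintype.card (Iy ν r e × Iy ν r e),
    fun δ U P ho hU hP hc j w J hJ D H H2 S hS => ?_⟩
  rcases S.eq_empty_or_nonempty with rfl | ⟨s₀, m₀⟩
  · exact emp _ _ _ _ _ H2
  have hne : U.Nonempty := by
    obtain ⟨-, -, _, _, k, hs, -⟩ := hS s₀ m₀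
    exact cont_ne k ⟨_, hs⟩
  have hI := h.int2 ho hU hP hne
  obtain ⟨t, ht, t0⟩ := blk_pt h.cv.T0 ho hne
  obtain ⟨V, R, v1, v2, rfl⟩ := h.all0 hP (ho.mem_nhds ht) t0
  have u := v2.up (n := e) h.cv hB ho hU hP.1 v1
  have hD := hd V _ v2.op v2.co (v2.fund hB)
  have rs : ∀ s ∈ S, evz s.1 s.2 q = 0 := fun s hs => by
    obtain ⟨-, -, U', P', k, hx, e, -⟩ := hS s hs
    exact e ▸ rt ho hU hP k _ hx
  have := hC δ r j ν (ic ν r e) w J V _ (c1 ν r e) ic_inj v2.op v2.co u.fm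
    (up_conn u hI (v2.proj h.cv) hD hc) (v2.proj h.cv) (up_fin u hI)
    (hJ.imp id fun hJ => up_vhs u hI hJ hD) D H H2
    (S.image fun s => (s.1, z1 ν r e s.2)) fun _ hs' => by
      obtain ⟨s, hs, rfl⟩ := Finset.mem_image.1 hs'
      obtain ⟨e, b, U', P', k, hx, hz, hG, E, x, z, x1, x2, x3, x4, x5⟩ := hS s hs
      obtain ⟨V', Ph', m', k', u'⟩ := u.lift k hx e
      refine ⟨e, b, V', Ph', k', m', by
        rw [(u'.sh _ m').mul_c1 (u'.fs _ hx).2.1, hz], hG.imp id fun hG => ⟨?_, fun _ m'' g => ?_⟩,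
        E, x, z1 ν r _ z, x1, fun i j => ?_, x3, x4,
        fun g => x5 (u'.good (by rwa [show pc x = s.1 from funext x1]) g)⟩
      · filter_upwards [hG.1, u'.op.mem_nhds m'] with y h1 h2
        rwa [(u'.sh _ h2).sub, (u'.sh _ m').sub]
      · obtain ⟨s', m3, rfl⟩ := Finset.mem_image.1 m''
        rw [hG.2 s' m3 (u.ws u' m' (rs s' m3) g)]
      · exact (congrFun₂ (z1_map (ν := ν) (r := r) (algebraMap E ℂ) z) i j).trans
          (by rw [← x2]; rfl)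
  rw [Finset.card_image_of_injOn fun s hs s' hs' e => by
    have e1 := (Prod.mk.inj e).1
    exact Prod.ext e1 (z1_inj h.cv (rs s hs) (e1 ▸ rs s' hs') (Prod.mk.inj e).2)] at this
  refine fin_pr (le_trans (by linarith [Real.log_two_gt_d9]) (Real.log_le_log two_pos H2)) ?_ this
  obtain ⟨-, -, -, -, -, -, -, -, E, -, -, -, -, _, hd, -⟩ := hS s₀ m₀
  exact le_trans Module.finrank_pos hd

end Pool.Agent.Lib.MP_5591bc_ag.Hy
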