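import Pool.Agent.Lib.MP_5591bc_ag.Hy.Set

/-! Semilinear maps on polynomials, exact forms, derivations. -/

namespace Pool.Agent.Lib.MP_5591bc_ag.Hy

open MvPolynomial Matrix

noncomputable section

variable {ι σ Λ Λ' Λ'' : Type*} [CommRing Λ] [CommRing Λ'] [CommRing Λ''] {n : ℕ} {κ : Λ →+* Λ'}
  {p p' : (ι →₀ ℕ) → Λ'} {g : ι → MvPolynomial ι Λ} {D : Λ →+ Λ} {D' : Λ' →+ Λ'}
  {G H P A : MvPolynomial ι Λ}

theorem sx_eq (P : MvPolynomial ι Λ) (s : Finset (ι →₀ ℕ)) (h : P.support ⊆ s) :
    sx κ p P = ∑ v ∈ s, κ (coeff v P) * p v :=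
  Finset.sum_subset h fun v _ hv => by rw [notMem_support_iff.1 hv, map_zero, zero_mul]

theorem sx_zero : sx κ p 0 = 0 := by
  simp [sx]

theorem sx_add (P Q : MvPolynomial ι Λ) : sx κ p (P + Q) = sx κ p P + sx κ p Q := by
  classical
  rw [sx_eq (P + Q) (P.support ∪ Q.support) support_add,
    sx_eq P _ Finset.subset_union_left, sx_eq Q _ Finset.subset_union_right,
    ← Finset.sum_add_distrib]
  exact Finset.sum_congr rfl fun v _ => by rw [coeff_add, map_add, add_mul]

theorem sx_neg (P : MvPolynomial ι Λ) : sx κ p (-P) = -sx κ p P := by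
  rw [eq_neg_iff_add_eq_zero, ← sx_add, neg_add_cancel, sx_zero]

theorem sx_sub (P Q : MvPolynomial ι Λ) : sx κ p (P - Q) = sx κ p P - sx κ p Q := by
  rw [sub_eq_add_neg, sx_add, sx_neg, sub_eq_add_neg]

theorem sx_monomial (v : ι →₀ ℕ) (a : Λ) : sx κ p (monomial v a) = κ a * p v := by
  classical
  rw [sx_eq _ {v} support_monomial_subset, Finset.sum_singleton, coeff_monomial, if_pos rfl]

theorem sx_C_mul (a : Λ) (P : MvPolynomial ι Λ) : sx κ p (C a * P) = κ a * sx κ p P := by
  rw [sx_eq (C a * P) P.support, sx, Finset.mul_sum]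
  · exact Finset.sum_congr rfl fun v _ => by rw [coeff_C_mul, map_mul, mul_assoc]
  · intro v hv
    rw [mem_support_iff] at hv ⊢
    exact fun h => hv (by rw [coeff_C_mul, h, mul_zero])

theorem sx_sum {α : Type*} (s : Finset α) (Q : α → MvPolynomial ι Λ) :
    sx κ p (∑ i ∈ s, Q i) = ∑ i ∈ s, sx κ p (Q i) := by
  classical
  induction s using Finset.induction_on with
  | empty => simp [sx_zero]
  | insert a s ha ih => rw [Finset.sum_insert ha, Finset.sum_insert ha, sx_add, ih]

theorem sx_map (ψ : Λ'' →+* Λ) (Q : MvPolynomial ι Λ'') :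
    sx κ p (Q.map ψ) = sx (κ.comp ψ) p Q := by
  rw [sx_eq _ Q.support (support_map_subset _ _), sx]
  exact Finset.sum_congr rfl fun v _ => by rw [coeff_map]; rfl

theorem map_sx (ψ : Λ' →+* Λ'') (P : MvPolynomial ι Λ) :
    ψ (sx κ p P) = sx (ψ.comp κ) (fun v => ψ (p v)) P := by
  simp [sx, map_sum]

theorem sx_mul (b : Λ') (P : MvPolynomial ι Λ) : sx κ (fun v => b * p v) P = b * sx κ p P := by
  rw [sx, sx, Finset.mul_sum]
  exact Finset.sum_congr rfl fun v _ => by ring

theorem sx_congr (h : ∀ v ∈ P.support, p v = p' v) : sx κ p P = sx κ p' P := by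
  exact Finset.sum_congr rfl fun v hv => by rw [h v hv]

theorem ex_gen (i : ι) (Q : MvPolynomial ι Λ) : pderiv i Q + Q * g i ∈ Ex g := by
  induction Q using MvPolynomial.induction_on' with
  | monomial w a =>
    have : pderiv i (monomial w a) + monomial w a * g i =
        a • (pderiv i (monomial w (1 : Λ)) + monomial w 1 * g i) := by
      rw [smul_add, ← Derivation.map_smul, ← smul_mul_assoc, smul_monomial, smul_eq_mul, mul_one]
    rw [this]
    exact Submodule.smul_mem _ _ (Submodule.subset_span ⟨i, w, rfl⟩)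
  | add P Q hP hQ =>
    have : pderiv i (P + Q) + (P + Q) * g i =
        (pderiv i P + P * g i) + (pderiv i Q + Q * g i) := by rw [map_add]; ring
    rw [this]
    exact add_mem hP hQ

theorem ex_C_mul (a : Λ) (h : P ∈ Ex g) : C a * P ∈ Ex g := by
  rw [← smul_eq_C_mul]
  exact Submodule.smul_mem _ _ h

theorem Kil.ex (h : Kil κ p g) (hP : P ∈ Ex g) : sx κ p P = 0 := by
  induction hP using Submodule.span_induction with
  | mem x hx => obtain ⟨i, w, rfl⟩ := hx; exact h i w
  | zero => exact sx_zero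
  | add x y _ _ hx hy => rw [sx_add, hx, hy, add_zero]
  | smul a x _ hx => rw [smul_eq_C_mul, sx_C_mul, hx, mul_zero]

theorem ex_map (κ : Λ →+* Λ') (h : P ∈ Ex g) : P.map κ ∈ Ex fun i => (g i).map κ := by
  induction h using Submodule.span_induction with
  | mem x hx =>
    obtain ⟨i, w, rfl⟩ := hx
    rw [map_add, map_mul, ← pderiv_map]
    exact ex_gen (g := fun i => (g i).map κ) i _
  | zero => rw [map_zero]; exact zero_mem _
  | add x y _ _ hx hy => rw [map_add]; exact add_mem hx hy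
  | smul a x _ hx => rw [smul_eq_C_mul, map_mul, map_C]; exact ex_C_mul _ hx

theorem gF_map (κ : Λ →+* Λ') (u : Λ) (G : MvPolynomial ι Λ) (i : ι) :
    (gF n u G i).map κ = gF n (κ u) (G.map κ) i := by
  simp [gF, pderiv_map]

theorem coeff_dm (E : Λ →+ Λ') (v : ι →₀ ℕ) (P : MvPolynomial ι Λ) :
    coeff v (dm E P) = E (coeff v P) := by
  rfl

theorem dm_monomial (E : Λ →+ Λ') (v : ι →₀ ℕ) (a : Λ) :
    dm E (monomial v a) = monomial v (E a) := by
  classical
  ext u
  rw [coeff_dm, coeff_monomial, coeff_monomial]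
  split_ifs <;> simp

theorem dm_C (E : Λ →+ Λ') (a : Λ) : dm E (C a : MvPolynomial ι Λ) = C (E a) := by
  exact dm_monomial E 0 a

theorem dm_pderiv (E : Λ →+ Λ') (i : ι) (P : MvPolynomial ι Λ) :
    dm E (pderiv i P) = pderiv i (dm E P) := by
  induction P using MvPolynomial.induction_on' with
  | monomial w a =>
    rw [dm_monomial, pderiv_monomial, pderiv_monomial, dm_monomial, ← nsmul_eq_mul',
      ← nsmul_eq_mul', map_nsmul]
  | add P Q hP hQ => simp only [map_add, hP, hQ]

theorem dm_hom (E : Λ →+ Λ') {e : ℕ} (h : P.IsHomogeneous e) : (dm E P).IsHomogeneous e := by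
  intro v hv
  exact h fun h0 => hv (by rw [coeff_dm, h0, map_zero])

theorem dm_map (h : ∀ a, D' (κ a) = κ (D a)) (P : MvPolynomial ι Λ) :
    dm D' (P.map κ) = (dm D P).map κ := by
  ext u
  rw [coeff_dm, coeff_map, coeff_map, coeff_dm, h]

theorem IsD.one (h : IsD D) : D 1 = 0 := by
  have := h 1 1
  rw [mul_one, one_mul, mul_one] at this
  exact left_eq_add.1 this

theorem IsD.nat (h : IsD D) (k : ℕ) : D k = 0 := by
  rw [← nsmul_one, map_nsmul, h.one, nsmul_zero]

theorem IsD.rat [Algebra ℚ Λ] (h : IsD D) (x : ℚ) : D (algebraMap ℚ Λ x) = 0 := by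
  have e : (x.den : Λ) * algebraMap ℚ Λ x = (x.num : Λ) := by
    rw [← map_natCast (algebraMap ℚ Λ), ← map_mul, ← map_intCast (algebraMap ℚ Λ), mul_comm,
      Rat.mul_den_eq_num]
  have h1 : D (x.num : Λ) = 0 := by rw [← zsmul_one, map_zsmul, h.one, zsmul_zero]
  have h2 := h (x.den : Λ) (algebraMap ℚ Λ x)
  rw [e, h1, h.nat, zero_mul, add_zero] at h2
  have u : algebraMap ℚ Λ (x.den : ℚ)⁻¹ * (x.den : Λ) = 1 := by
    rw [← map_natCast (algebraMap ℚ Λ), ← map_mul, inv_mul_cancel₀ (by exact_mod_cast x.den_ne_zero),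
      map_one]
  rw [← one_mul (D _), ← u, mul_assoc, ← h2, mul_zero]

theorem IsD.pow (h : IsD D) (a : Λ) (k : ℕ) : D (a ^ (k + 1)) = (k + 1 : ℕ) * a ^ k * D a := by
  induction k with
  | zero => simp
  | succ k ih => rw [pow_succ, h, ih]; push_cast; ring

theorem IsD.dm (h : IsD D) : IsD (dm D : MvPolynomial ι Λ →+ MvPolynomial ι Λ) := by
  intro P Q
  induction P using MvPolynomial.induction_on' with
  | monomial w a =>
    induction Q using MvPolynomial.induction_on' with
    | monomial u b => simp only [monomial_mul, dm_monomial, h a b, map_add]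
    | add P Q hP hQ => simp only [mul_add, map_add, hP, hQ]; ring
  | add P P' hP hP' => simp only [add_mul, map_add, hP, hP']; ring

theorem IsD.dm_X (h : IsD D) (i : ι) : Hy.dm D (X i : MvPolynomial ι Λ) = 0 := by
  rw [X, dm_monomial, h.one, map_zero]

theorem sx_der (hD' : IsD D') (h : ∀ a, D' (κ a) = κ (D a))
    (hp : ∀ v, D' (p v) = sx κ p (monomial v 1 * H)) (P : MvPolynomial ι Λ) :
    D' (sx κ p P) = sx κ p (dm D P + P * H) := by
  induction P using MvPolynomial.induction_on' with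
  | monomial w a =>
    have e : monomial w a * H = C a * (monomial w 1 * H) := by
      rw [← mul_assoc, C_mul_monomial, mul_one]
    rw [sx_monomial, hD', hp, h, sx_add, dm_monomial, sx_monomial, e, sx_C_mul, add_comm]
  | add P Q hP hQ =>
    rw [sx_add, map_add, hP, hQ, ← sx_add, map_add]
    congr 1
    ring

end

end Pool.Agent.Lib.MP_5591bc_ag.Hy
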