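import Pool.Agent.Lib.MP_5591bc_ag.Hy.Stk
import Pool.Agent.Lib.MP_5591bc_ag.Hy.Sx
import Mathlib.RingTheory.MvPolynomial.EulerIdentity

/-! The periods kill the exact forms. -/

namespace Pool.Agent.Lib.MP_5591bc_ag.Hy

open MvPolynomial Set Filter Topology Matrix M Cu Cv

noncomputable section

variable {N n : ℕ} {S S' : Set (Fin (N + 1) → ℂ)} {c : Ch N} {a a' g : (Fin (N + 1) → ℂ) → ℂ} {G P : MvPolynomial (Option (Fin (N + 1))) ℂ} {e m : ℕ}

/-- the restriction to the affine chart -/
def lamD {ι : Type*} : MvPolynomial (Option ι) ℂ →ₐ[ℂ] MvPolynomial ι ℂ :=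
  aeval fun o => o.elim 1 X

theorem lamD_eval {ι : Type*} (x : ι → ℂ) (Q : MvPolynomial (Option ι) ℂ) :
    eval x (lamD Q) = eval (o1 x) Q := by
  induction Q using MvPolynomial.induction_on with
  | C a => simp [lamD]
  | add p q hp hq => simp only [map_add, hp, hq]
  | mul_X p o hp =>
    rw [map_mul, map_mul, map_mul, hp]
    cases o <;> simp [lamD, o1]

theorem lamD_pderiv {ι : Type*} (l : ι) (Q : MvPolynomial (Option ι) ℂ) :
    pderiv l (lamD Q) = lamD (pderiv (some l) Q) := by
  classical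
  induction Q using MvPolynomial.induction_on with
  | C a => simp [lamD]
  | add p q hp hq => simp only [map_add, hp, hq]
  | mul_X p o hp =>
    rw [map_mul, pderiv_mul, pderiv_mul, hp, map_add, map_mul, map_mul]
    congr 2
    cases o with
    | none => simp [lamD, pderiv_X]
    | some k =>
      by_cases hk : k = l
      · subst hk; simp [lamD, pderiv_X]
      · simp [lamD, pderiv_X, hk, Pi.single_eq_of_ne]

theorem lam_cont (Q : MvPolynomial (Option (Fin (N + 1))) ℂ) (m : ℕ) :
    ContinuousOn (fun x : Fin (N + 1) → ℂ => eval (o1 x) Q / eval (o1 x) G ^ m)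
      {x | eval (o1 x) G ≠ 0} := by
  have k : ∀ Q : MvPolynomial (Option (Fin (N + 1))) ℂ,
      Continuous fun x : Fin (N + 1) → ℂ => eval (o1 x) Q := fun Q => by
    simp only [← lamD_eval]
    exact MvPolynomial.continuous_eval _
  exact (k Q).continuousOn.div ((k G).pow m).continuousOn fun x hx => pow_ne_zero m hx

/-- the period of `Q / G ^ m` as a linear form in `Q` -/
def lamI (h : Cyc {x | eval (o1 x) G ≠ 0} c) (m : ℕ) :
    MvPolynomial (Option (Fin (N + 1))) ℂ →ₗ[ℂ] ℂ where
  toFun Q := per (fun x => eval (o1 x) Q / eval (o1 x) G ^ m) c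
  map_add' Q Q' := by
    rw [← per_add h (lam_cont Q m) (lam_cont Q' m)]
    simp only [map_add, add_div]
  map_smul' z Q := by
    rw [RingHom.id_apply, smul_eq_mul, ← per_mul]
    simp only [smul_eval, mul_div_assoc]

theorem lamI_apply (h : Cyc {x | eval (o1 x) G ≠ 0} c) (m : ℕ)
    (Q : MvPolynomial (Option (Fin (N + 1))) ℂ) :
    lamI h m Q = per (fun x => eval (o1 x) Q / eval (o1 x) G ^ m) c := rfl

theorem lamI_G (h : Cyc {x | eval (o1 x) G ≠ 0} c) (m : ℕ)
    (Q : MvPolynomial (Option (Fin (N + 1))) ℂ) : lamI h (m + 1) (Q * G) = lamI h m Q := by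
  rw [lamI_apply, lamI_apply]
  refine per_congr h fun x hx => ?_
  have hx' : eval (o1 x) G ≠ 0 := hx
  rw [map_mul, pow_succ, mul_div_mul_right _ _ hx']

theorem lamI_X (h : Cyc {x | eval (o1 x) G ≠ 0} c) (m : ℕ)
    (Q : MvPolynomial (Option (Fin (N + 1))) ℂ) : lamI h m (X none * Q) = lamI h m Q := by
  rw [lamI_apply, lamI_apply]
  refine per_congr h fun x _ => ?_
  rw [map_mul, eval_X]
  simp [o1]

theorem lamI_some (h : Cyc {x | eval (o1 x) G ≠ 0} c) (m : ℕ)
    (Q : MvPolynomial (Option (Fin (N + 1))) ℂ) (l : Fin (N + 1)) :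
    lamI h m (pderiv (some l) Q) = m * lamI h (m + 1) (Q * pderiv (some l) G) := by
  have h' : Cyc {x | eval x (lamD G) ≠ 0} c := by simpa only [lamD_eval] using h
  have k := stk_rat h' (lamD Q) m l
  simp only [lamD_pderiv, ← map_mul, lamD_eval] at k
  exact k

theorem lamI_none (hG : G.IsHomogeneous (n + 2)) (h : Cyc {x | eval (o1 x) G ≠ 0} c)
    (hP : P.IsHomogeneous e) (he : e + (N + 1) = (n + 2) * m) :
    lamI h m (pderiv none P) = m * lamI h (m + 1) (P * pderiv none G) := by
  have eP := hP.sum_X_mul_pderiv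
  have eG := hG.sum_X_mul_pderiv
  rw [Fintype.sum_option] at eP eG
  have k1 : ∀ l : Fin (N + 1), lamI h m P + lamI h m (X (some l) * pderiv (some l) P) =
      m * lamI h (m + 1) (P * (X (some l) * pderiv (some l) G)) := fun l => by
    have k := lamI_some h m (X (some l) * P) l
    rw [pderiv_mul, pderiv_X_self, one_mul, map_add] at k
    rw [k]
    congr 2
    ring
  have k2 := Finset.sum_congr rfl fun l (_ : l ∈ Finset.univ) => k1 l
  rw [Finset.sum_add_distrib, Finset.sum_const, ← map_sum, ← Finset.mul_sum, ← map_sum,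
    ← Finset.mul_sum, eq_sub_of_add_eq' eP, eq_sub_of_add_eq' eG, map_sub, mul_sub, map_sub,
    lamI_X, mul_left_comm P, lamI_X, mul_smul_comm, map_nsmul, map_nsmul, lamI_G] at k2
  simp only [Finset.card_univ, Fintype.card_fin, nsmul_eq_mul] at k2
  have he' : (e : ℂ) + ((N + 1 : ℕ) : ℂ) = ((n + 2 : ℕ) : ℂ) * m := by exact_mod_cast he
  linear_combination -k2 + lamI h m P * he'

theorem lamI_all (hG : G.IsHomogeneous (n + 2)) (h : Cyc {x | eval (o1 x) G ≠ 0} c)
    (hP : P.IsHomogeneous e) (he : e + (N + 1) = (n + 2) * m) (i : Option (Fin (N + 1))) :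
    lamI h m (pderiv i P) = m * lamI h (m + 1) (P * pderiv i G) := by
  cases i with
  | none => exact lamI_none hG h hP he
  | some l => exact lamI_some h m P l

theorem lam_deg (hP : P.IsHomogeneous e) {v : Option (Fin (N + 1)) →₀ ℕ} (hv : v ∈ P.support) :
    v.degree = e := by
  by_contra k
  exact (mem_support_iff.1 hv) (hP.coeff_eq_zero k)

theorem pv_hom (h : Cyc {x | eval (o1 x) G ≠ 0} c) (hP : P.IsHomogeneous e)
    (he : e + (N + 2) = (n + 2) * m) : sx (RingHom.id ℂ) (pv n G c) P =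
      (-1) ^ m * (m - 1).factorial * per (fun x => eval (o1 x) P / eval (o1 x) G ^ m) c := by
  rw [← lamI_apply h]
  conv_rhs => rw [P.as_sum, map_sum, Finset.mul_sum]
  refine Finset.sum_congr rfl fun v hv => ?_
  have k : v.degree + (N + 2) = (n + 2) * m := by rw [lam_deg hP hv, he]
  have k' : (v.degree + (N + 2)) / (n + 2) = m := by
    rw [k, Nat.mul_div_cancel_left _ (Nat.succ_pos _)]
  have k2 : monomial v (coeff v P) = coeff v P • monomial v (1 : ℂ) := by
    rw [smul_monomial, smul_eq_mul, mul_one]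
  rw [pv, if_pos ⟨m, k⟩, k', ← lamI_apply h, k2, map_smul, smul_eq_mul, RingHom.id_apply]
  ring

theorem pv_hom0 (hP : P.IsHomogeneous e) (he : ¬ (n + 2) ∣ e + (N + 2)) :
    sx (RingHom.id ℂ) (pv n G c) P = 0 := by
  refine Finset.sum_eq_zero fun v hv => ?_
  rw [pv, lam_deg hP hv, if_neg he, mul_zero]

theorem pv_kil (hG : G.IsHomogeneous (n + 2)) (h : Cyc {x | eval (o1 x) G ≠ 0} c) :
    Kil (RingHom.id ℂ) (pv n G c) fun i => pderiv i G := by
  intro i w
  have hP : (monomial w (1 : ℂ)).IsHomogeneous w.degree := isHomogeneous_monomial _ rfl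
  have h2 : (monomial w (1 : ℂ) * pderiv i G).IsHomogeneous (w.degree + (n + 1)) :=
    hP.mul hG.pderiv
  have h0 : w.degree = 0 → pderiv i (monomial w (1 : ℂ)) = 0 := fun k => by
    rw [(Finsupp.degree_eq_zero_iff w).1 k]
    exact pderiv_one
  rw [sx_add]
  by_cases hd : (n + 2) ∣ w.degree + (N + 1)
  · obtain ⟨m, hm⟩ := hd
    obtain ⟨m, rfl⟩ : ∃ k, m = k + 1 := by
      cases m with
      | zero => omega
      | succ k => exact ⟨k, rfl⟩
    have k := lamI_all hG h hP hm i
    have k1 : sx (RingHom.id ℂ) (pv n G c) (pderiv i (monomial w (1 : ℂ))) =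
        (-1) ^ (m + 1) * (m + 1 - 1).factorial * lamI h (m + 1) (pderiv i (monomial w 1)) := by
      by_cases k0 : w.degree = 0
      · rw [h0 k0, sx_zero, map_zero, mul_zero]
      · exact pv_hom h hP.pderiv (by omega)
    rw [k1, pv_hom h h2 (m := m + 1 + 1) (by rw [mul_add _ (m + 1), ← hm]; omega), ← lamI_apply h, k]
    simp only [Nat.add_sub_cancel, Nat.factorial_succ, Nat.cast_mul]
    ring
  · have k1 : sx (RingHom.id ℂ) (pv n G c) (pderiv i (monomial w (1 : ℂ))) = 0 := by
      by_cases k0 : w.degree = 0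
      · rw [h0 k0, sx_zero]
      · refine pv_hom0 hP.pderiv ?_
        rwa [show w.degree - 1 + (N + 2) = w.degree + (N + 1) by omega]
    rw [k1, zero_add]
    refine pv_hom0 h2 fun k => hd ?_
    rw [show w.degree + (n + 1) + (N + 2) = w.degree + (N + 1) + (n + 2) by omega] at k
    exact (Nat.dvd_add_iff_left (dvd_refl _)).2 k

end

end Pool.Agent.Lib.MP_5591bc_ag.Hy
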