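import Pool.Agent.Lib.MP_5591bc_ag.Hy.Ana
import Pool.Agent.Lib.MP_5591bc_ag.Hy.Lam

/-! The Taylor series of the periods of the monomials. -/

namespace Pool.Agent.Lib.MP_5591bc_ag.Hy

open MvPolynomial Set Filter Topology Matrix M Cu Cv

noncomputable section

variable {σ 𝓡 ι ν F : Type} [Fintype σ] [DecidableEq σ] [CommRing 𝓡] [Fintype ν] [DecidableEq ν]
  [Field F] {N n m : ℕ} {φ : (σ → ℂ) → 𝓡 →+* ℂ} {s : σ → ℂ} {c : Ch N}
  {o : (Fin (N + 1) → ℂ) → ι → ℂ} {f : MvPolynomial (Fin (N + 1)) 𝓡}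
  {A : ν → MvPolynomial (Fin (N + 1)) 𝓡} {a : ℂ} {Q : (σ → ℂ) → Matrix ν ν ℂ} {R : Subring ℂ}
  {D : σ → F →+ F} {j : F →+* MvPowerSeries σ ℂ} {ψ : 𝓡 →+* F} {G : MvPolynomial (Option (Fin (N + 1))) 𝓡}

theorem pvt_o1 (i : Option (Fin (N + 1))) : Continuous fun x : Fin (N + 1) → ℂ => o1 x i := by
  cases i with
  | none => exact continuous_const
  | some l => exact continuous_apply l

theorem pv_an (hφ : ∀ r, AnalyticAt ℂ (fun t => φ t r) s)
    (h : Cyc {x | eval (o1 x) (G.map (φ s)) ≠ 0} c) (v : Option (Fin (N + 1)) →₀ ℕ) :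
    AnalyticAt ℂ (fun t => pv n (G.map (φ t)) c v) s := by
  unfold pv
  split_ifs
  · refine analyticAt_const.fun_mul ?_
    have := ana_an pvt_o1 hφ h (monomial v 1) ((v.degree + (N + 2)) / (n + 2))
    simpa only [map_monomial, map_one] using this
  · exact analyticAt_const

theorem sx_tay (hφ : ∀ r, AnalyticAt ℂ (fun t => φ t r) s)
    (hψ : ∀ r, j (ψ r) = tayS (fun t => φ t r) s) {p : (σ → ℂ) → (ι →₀ ℕ) → ℂ}
    (hp : ∀ v, AnalyticAt ℂ (fun t => p t v) s) (P : MvPolynomial ι 𝓡) :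
    sx j (fun v => tayS (fun t => p t v) s) (P.map ψ) =
      tayS (fun t => sx (RingHom.id ℂ) (p t) (P.map (φ t))) s := by
  simp only [sx_map]
  unfold sx
  rw [tayS_sum _ fun v _ => by simpa using (hφ _).fun_mul (hp v)]
  refine Finset.sum_congr rfl fun v _ => ?_
  simp only [RingHom.comp_apply, RingHom.id_apply]
  rw [tayS_mul (hφ _) (hp v), hψ]

theorem pvt_der (hφ : ∀ r, AnalyticAt ℂ (fun t => φ t r) s) (hG : G.IsHomogeneous (n + 2))
    (h : Cyc {x | eval (o1 x) (G.map (φ s)) ≠ 0} c) (z : ℂ) (l : σ)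
    (v : Option (Fin (N + 1)) →₀ ℕ) :
    pd l (fun t => z * pv n (G.map (φ t)) c v) =ᶠ[𝓝 s] fun t => ∑ u ∈ G.support,
      pd l (fun t => φ t (coeff u G)) t * (z * pv n (G.map (φ t)) c (v + u)) := by
  have du : ∀ u ∈ G.support, (v + u).degree + (N + 2) = v.degree + (N + 2) + (n + 2) := by
    intro u hu
    have : u.degree = n + 2 := by
      rw [Finsupp.degree_eq_weight_one]; exact hG (mem_support_iff.1 hu)
    rw [map_add, this]; ring
  by_cases hd : (n + 2) ∣ v.degree + (N + 2)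
  · obtain ⟨m, hm⟩ := hd
    have e1 : (v.degree + (N + 2)) / (n + 2) = m := by
      rw [hm, Nat.mul_div_cancel_left _ (Nat.succ_pos _)]
    have e2 : ∀ u ∈ G.support, (v + u).degree + (N + 2) = (n + 2) * (m + 1) := fun u hu => by
      rw [du u hu, hm]; ring
    obtain ⟨k, rfl⟩ : ∃ k, m = k + 1 := by
      cases m with
      | zero => omega
      | succ k => exact ⟨k, rfl⟩
    have a1 := ana_an pvt_o1 hφ h (monomial v 1) (k + 1)
    simp only [map_monomial, map_one] at a1
    filter_upwards [ana_der pvt_o1 hφ h v (k + 1) l, a1.eventually_analyticAt] with t h1 h2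
    have e3 : (fun t => z * pv n (G.map (φ t)) c v) = fun t =>
        (z * ((-1) ^ (k + 1) * k.factorial)) * per (fun x => eval (o1 x) (monomial v 1) /
          eval (o1 x) (G.map (φ t)) ^ (k + 1)) c := by
      funext t
      rw [pv, if_pos ⟨_, hm⟩, e1, Nat.add_sub_cancel, mul_assoc z]
    rw [e3]
    unfold pd at h1 ⊢
    rw [fderiv_const_mul h2.differentiableAt, ContinuousLinearMap.smul_apply, smul_eq_mul, h1,
      Finset.mul_sum, Finset.mul_sum]
    refine Finset.sum_congr rfl fun u hu => ?_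
    rw [pv, if_pos ⟨_, e2 u hu⟩, e2 u hu, Nat.mul_div_cancel_left _ (Nat.succ_pos _),
      Nat.add_sub_cancel, Nat.factorial_succ]
    push_cast
    ring
  · refine Eventually.of_forall fun t => ?_
    have e3 : (fun t => z * pv n (G.map (φ t)) c v) = fun _ => 0 := by
      funext t
      rw [pv, if_neg hd, mul_zero]
    rw [e3]
    beta_reduce
    rw [Finset.sum_eq_zero fun u hu => ?_]
    · simp [pd]
    · rw [pv, if_neg, mul_zero, mul_zero]
      rw [du u hu]
      exact fun k => hd ((Nat.dvd_add_self_right).1 k)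

theorem pv_tay (hF : DF R D j) (hφ : ∀ r, AnalyticAt ℂ (fun t => φ t r) s)
    (hψ : ∀ r, j (ψ r) = tayS (fun t => φ t r) s) (hG : G.IsHomogeneous (n + 2))
    (h : Cyc {x | eval (o1 x) (G.map (φ s)) ≠ 0} c) (z : ℂ) :
    PV D j (G.map ψ) fun v => tayS (fun t => z * pv n (G.map (φ t)) c v) s := by
  have ha : ∀ v, AnalyticAt ℂ (fun t => z * pv n (G.map (φ t)) c v) s := fun v =>
    analyticAt_const.fun_mul (pv_an hφ h v)
  refine ⟨fun i w => ?_, fun l v => ?_⟩
  · have e : pderiv i (monomial w 1) + monomial w 1 * pderiv i (G.map ψ) =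
        (pderiv i (monomial w 1) + monomial w 1 * pderiv i G).map ψ := by
      simp only [map_add, map_mul, ← pderiv_map, map_monomial, map_one]
    rw [e, sx_tay hφ hψ (p := fun t v => z * pv n (G.map (φ t)) c v) ha, ← tayS_zero (p := s)]
    refine tayS_congr ?_
    filter_upwards [ana_ev pvt_o1 hφ h] with t ht
    simp only [map_add, map_mul, ← pderiv_map, map_monomial, map_one]
    rw [sx_mul, pv_kil (hG.map (φ t)) ht i w, mul_zero]
  · rw [← tayS_pd (ha v), tayS_congr (pvt_der hφ hG h z l v),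
      tayS_sum _ fun u _ => (pd_ana (hφ _) l).fun_mul (ha _)]
    have e : monomial v 1 * dm (D l) (G.map ψ) =
        ∑ u ∈ G.support, monomial (v + u) (D l (ψ (coeff u G))) := by
      conv_lhs => rw [G.as_sum]
      simp only [map_sum, map_monomial, dm_monomial, Finset.mul_sum, monomial_mul, one_mul]
    rw [e, sx_sum]
    refine Finset.sum_congr rfl fun u _ => ?_
    rw [sx_monomial, tayS_mul (pd_ana (hφ _) l) (ha _), tayS_pd (hφ _), hF.der, hψ]

end

end Pool.Agent.Lib.MP_5591bc_ag.Hy
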