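import Pool.Agent.Lib.MP_5591bc_ag.Hy.Alg
import Pool.Agent.Lib.MP_5591bc_ag.Hy.Pvt
import Pool.Agent.Lib.MP_5591bc_ag.Hy.Col

/-! The condition of Galochkin at a generic point. -/

namespace Pool.Agent.Lib.MP_5591bc_ag.Hy

open MvPolynomial Set Filter Topology Matrix M Cu Cv

noncomputable section

variable {σ 𝓡 ι ν F : Type} [Fintype σ] [DecidableEq σ] [CommRing 𝓡] [Fintype ν] [DecidableEq ν]
  [Field F] {N n m : ℕ} {φ : (σ → ℂ) → 𝓡 →+* ℂ} {s : σ → ℂ} {c : Ch N}
  {o : (Fin (N + 1) → ℂ) → ι → ℂ} {f : MvPolynomial (Fin (N + 1)) 𝓡}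
  {A : ν → MvPolynomial (Fin (N + 1)) 𝓡} {a : ℂ} {Q : (σ → ℂ) → Matrix ν ν ℂ} {R : Subring ℂ}
  {D : σ → F →+ F} {j : F →+* MvPowerSeries σ ℂ} {ψ : 𝓡 →+* F}

theorem galc_mul (z : ℂ) (p : (ι →₀ ℕ) → ℂ) (P : MvPolynomial ι ℂ) :
    sx (RingHom.id ℂ) (fun v => z * p v) P = z * sx (RingHom.id ℂ) p P := by
  rw [sx, sx, Finset.mul_sum]
  exact Finset.sum_congr rfl fun v _ => by ring

theorem galc_den {α : Type*} (T : Finset α) {x : α → ℂ} (hx : ∀ v, IsAlgebraic R (x v)) :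
    ∃ b ∈ R, b ≠ 0 ∧ ∀ v ∈ T, IsIntegral R (b * x v) := by
  classical
  induction T using Finset.induction_on with
  | empty => exact ⟨1, R.one_mem, one_ne_zero, fun _ h => absurd h (Finset.notMem_empty _)⟩
  | insert v T _ ih =>
    obtain ⟨b, hb, b0, h⟩ := ih
    obtain ⟨y, y0, hy⟩ := (hx v).exists_integral_multiple
    have hy' : IsIntegral R ((y : ℂ) * x v) := hy
    refine ⟨y * b, R.mul_mem y.2 hb, mul_ne_zero (fun e => y0 (Subtype.ext e)) b0, fun u hu => ?_⟩
    rcases Finset.mem_insert.1 hu with rfl | hu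
    · rw [mul_comm (y : ℂ), mul_assoc]
      exact (isIntegral_algebraMap (x := (⟨b, hb⟩ : R))).mul hy'
    · rw [mul_assoc]
      exact (isIntegral_algebraMap (x := y)).mul (h u hu)

theorem LH.galc0 (h : LH φ f m A a Q s) (hF : DF R D j) (hR : HP R)
    (hψ : ∀ r, j (ψ r) = tayS (fun t => φ t r) s) (hI : ∀ v, IsIntegral R (φ s (coeff v f)))
    {B : σ → Matrix ν ν F} (hB : ∀ l i k, MvPowerSeries.pderiv ℂ l (tayS (fun t => Q t i k) s) =
      ∑ x, j (B l i x) * tayS (fun t => Q t x k) s) (i k : ν) :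
    GP R (tayS (fun t => (Q t * (Q s)⁻¹) i k) s) := by
  obtain ⟨n, δ, m', G, A', hG, hA', hd, hc, hGf, hAf⟩ := hom_fam f m A
  obtain ⟨c, hc1, hc2⟩ := h.col
  have cyc : ∀ k, Cyc {x | eval (o1 x) (G.map (φ s)) ≠ 0} (c k) := fun k => by
    simpa only [hGf] using hc1 k
  have ho : ∀ i, Continuous fun x : Fin (N + 1) → ℂ => o1 x i := fun i => by
    cases i with
    | none => exact continuous_const
    | some i => exact continuous_apply i
  have hz : ((-1 : ℂ) ^ m' * ((m' - 1).factorial : ℂ)) ≠ 0 :=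
    mul_ne_zero (pow_ne_zero _ (by norm_num)) (Nat.cast_ne_zero.2 (Nat.factorial_ne_zero _))
  obtain ⟨z, hz'⟩ : ∃ z : ℂ, z * ((-1 : ℂ) ^ m' * ((m' - 1).factorial : ℂ)) = a :=
    ⟨a / _, div_mul_cancel₀ _ hz⟩
  have key : ∀ i k, sx j (fun v => tayS (fun t => z * pv n (G.map (φ t)) (c k) v) s)
      ((A' i).map ψ) = tayS (fun t => Q t i k) s := fun i k => by
    rw [sx_tay h.an hψ (p := fun t v => z * pv n (G.map (φ t)) (c k) v)
      fun v => analyticAt_const.mul (pv_an h.an (cyc k) v)]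
    refine tayS_congr ?_
    filter_upwards [hc2, ana_ev (o := o1) ho h.an (cyc k)] with t h1 h2
    rw [galc_mul, pv_hom h2 ((hA' i).map _) hd, ← mul_assoc, hz', h1]
    congr 1
    refine per_congr h2 fun x hx => ?_
    rw [hGf]
    exact hAf _ _ _ (by rw [← hGf]; exact hx)
  have e := alg hF hR (hG.map ψ) (fun v => by
      rw [coeff_map, RingHom.comp_apply, hψ, constantCoeff_tayS]
      rcases hc v with e | ⟨u, e⟩
      · rw [e, map_zero]
        exact isIntegral_zero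
      · rw [e]
        exact hI u)
    (A := fun i => (A' i).map ψ) (fun i => (hA' i).map ψ)
    (p := fun k v => tayS (fun t => z * pv n (G.map (φ t)) (c k) v) s)
    (fun k => pv_tay hF h.an hψ hG (cyc k) z) (B := B) (fun l i k => by
      simp only [key]
      exact hB l i k) (P := Q s) (fun i k => by rw [key, constantCoeff_tayS])
    h.ev.self_of_nhds.1 i k
  simp only [key] at e
  simp only [Matrix.mul_apply]
  rw [tayS_sum _ (G := fun x t => Q t i x * (Q s)⁻¹ x k)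
    fun x _ => (h.anQ i x).mul analyticAt_const]
  convert e using 2 with x
  rw [tayS_mul (h.anQ i x) analyticAt_const, tayS_const]

theorem LH.galc (h : LH φ f m A a Q s) (hF : DF R D j) (hR : HP R)
    (hψ : ∀ r, j (ψ r) = tayS (fun t => φ t r) s) (hs : ∀ b ∈ R, ∃ r, φ s r = b)
    {B : σ → Matrix ν ν F} (hB : ∀ l i k, MvPowerSeries.pderiv ℂ l (tayS (fun t => Q t i k) s) =
      ∑ x, j (B l i x) * tayS (fun t => Q t x k) s) (i k : ν) :
    GP R (tayS (fun t => (Q t * (Q s)⁻¹) i k) s) := by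
  obtain ⟨b, hb, b0, hi⟩ := galc_den (R := R) f.support (x := fun v => φ s (coeff v f)) fun v => by
    have := hF.alg (ψ (coeff v f))
    rwa [RingHom.comp_apply, hψ, constantCoeff_tayS] at this
  obtain ⟨β, rfl⟩ := hs b hb
  refine (h.scale b0).galc0 hF hR hψ (fun v => ?_) hB i k
  rw [coeff_C_mul, map_mul]
  by_cases hv : v ∈ f.support
  · exact hi v hv
  · rw [notMem_support_iff.1 hv, map_zero, mul_zero]
    exact isIntegral_zero

end

end Pool.Agent.Lib.MP_5591bc_ag.Hy
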