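import Pool.Agent.Lib.MP_5591bc_ag.Hy.Phi
import Pool.Agent.Lib.MP_5591bc_ag.Hy.Fer

/-! The fundamental matrix at the Fermat point. -/

namespace Pool.Agent.Lib.MP_5591bc_ag.Hy

open MvPolynomial Matrix

noncomputable section

variable {ι Λ : Type*} [CommRing Λ] [Fintype ι] [DecidableEq ι] {n : ℕ} {G : MvPolynomial ι Λ} [Algebra ℚ Λ]

theorem eq_zero_of_vecMul_eq_zero_unit {μ R : Type*} [CommRing R] [Fintype μ] [DecidableEq μ]
    {M : Matrix μ μ R} (h : IsUnit M.det) (v : μ → R) (e : v ᵥ* M = 0) : v = 0 := by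
  have := congrArg (· ᵥ* M⁻¹) e
  simpa [vecMul_vecMul, mul_nonsing_inv _ h] using this

theorem uu_unit (n : ℕ) (G : MvPolynomial ι Λ) : IsUnit (of fun a e : ι → Fin (n + 1) =>
    phv (RingHom.id Λ) (red Λ (fun _ => 1) e) G (ee a)).det := by
  rw [PowerSeries.isUnit_iff_constantCoeff, RingHom.map_det]
  refine (fun M : Matrix _ _ Λ => fun e : M = 1 => (by simp [e] : IsUnit M.det)) _ ?_
  ext a e
  rw [RingHom.mapMatrix_apply, map_apply, of_apply, phv,
    ← PowerSeries.coeff_zero_eq_constantCoeff_apply, PowerSeries.coeff_mk, pow_zero, mul_one,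
    sx_monomial, red_ee, one_apply]
  simp

theorem uu_rel {τ : Polynomial Λ} {v : ι →₀ ℕ} {ρ : (ι → Fin (n + 1)) → Polynomial Λ}
    (h : C τ * monomial v 1 - ∑ a, C (ρ a) * xe _ a ∈ Ex (gU n G)) (e : ι → Fin (n + 1)) :
    ∑ a, (ρ a : PowerSeries Λ) * phv (RingHom.id Λ) (red Λ (fun _ => 1) e) G (ee a) =
      (τ : PowerSeries Λ) * phv (RingHom.id Λ) (red Λ (fun _ => 1) e) G v := by
  have k : Kil (kp (RingHom.id Λ)) (phv (RingHom.id Λ) (red Λ (fun _ => 1) e) G) (gU n G) := by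
    refine (?_ : _ = gU n G) ▸
      phi_kil (G := G) (red_kil (Λ := Λ) (ε := fun _ : ι => 1) (fun _ => rfl) e)
    funext i
    simp [gS, gF]
  have e1 : ∀ x : Polynomial Λ, kp (RingHom.id Λ) x = (x : PowerSeries Λ) := fun x => by simp [kp]
  have := k.ex h
  rw [sx_sub, sx_sum, sub_eq_zero] at this
  simp only [sx_C_mul, sx_monomial, e1, Polynomial.coe_one, one_mul] at this
  exact this.symm

theorem ind {ρ : (ι → Fin (n + 1)) → Polynomial Λ}
    (h : ∑ a, C (ρ a) * xe _ a ∈ Ex (gU n G)) : ρ = 0 := by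
  have h' : C (0 : Polynomial Λ) * monomial (0 : ι →₀ ℕ) 1 - ∑ a, C ((-ρ) a) * xe _ a ∈
      Ex (gU n G) := by
    convert h using 1
    rw [map_zero, zero_mul, zero_sub, ← Finset.sum_neg_distrib]
    exact Finset.sum_congr rfl fun a _ => by rw [Pi.neg_apply, map_neg]; ring
  have := eq_zero_of_vecMul_eq_zero_unit (uu_unit n G) (fun a => ((-ρ) a : PowerSeries Λ))
    (funext fun e => by simpa [vecMul, dotProduct] using uu_rel h' e)
  funext a
  simpa using congrFun this a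

end

end Pool.Agent.Lib.MP_5591bc_ag.Hy
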