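import Pool.Agent.Lib.MP_5591bc_ag.Hy.Sx
import Pool.Agent.Lib.MP_5591bc_ag.Hy.Hs

/-! The connection. -/

namespace Pool.Agent.Lib.MP_5591bc_ag.Hy

open MvPolynomial Matrix

noncomputable section

variable {ι σ F Λ' : Type*} [Field F] [CommRing Λ'] [Fintype ι] [DecidableEq ι] {n : ℕ}
  {G : MvPolynomial ι F} {c : (ι →₀ ℕ) → (ι → Fin (n + 1)) → HahnSeries ℤ F}
  {A : MvPolynomial ι (HahnSeries ℤ F)} {D D' : F →+ F} {E : σ → F →+ F}

omit [Fintype ι] [DecidableEq ι] in
theorem nab_cl_add {μ Λ : Type*} [CommRing Λ] (c : (ι →₀ ℕ) → μ → Λ) (A B : MvPolynomial ι Λ) :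
    cl c (A + B) = cl c A + cl c B := by
  funext a
  exact sx_add A B

omit [Fintype ι] [DecidableEq ι] in
theorem nab_cl_C {μ Λ : Type*} [CommRing Λ] (c : (ι →₀ ℕ) → μ → Λ) (x : Λ)
    (A : MvPolynomial ι Λ) : cl c (C x * A) = x • cl c A := by
  funext a
  exact sx_C_mul x A

theorem nab_cl_bas (h : Cl n G c) (ρ : (ι → Fin (n + 1)) → HahnSeries ℤ F) :
    cl c (∑ a, C (ρ a) * xe _ a) = ρ := by
  funext b
  unfold cl
  rw [sx_sum]
  simp only [sx_C_mul, sx_monomial, RingHom.id_apply, h.bas, mul_ite, mul_one, mul_zero,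
    Finset.sum_ite_eq', Finset.mem_univ, if_true]

omit [Fintype ι] [DecidableEq ι] in
theorem nab_dm_map (E : F →+ F) (P : MvPolynomial ι F) :
    dm (dh E) (P.map HahnSeries.C : MvPolynomial ι (HahnSeries ℤ F)) =
      (dm E P).map HahnSeries.C :=
  dm_map (fun a => dh_C E a) P

omit [Fintype ι] [DecidableEq ι] in
theorem nab_si (hD : IsD D) (P : MvPolynomial ι (HahnSeries ℤ F)) :
    dm (dh D) (C (si F) * P) = C (si F) * dm (dh D) P := by
  rw [hD.dh.dm, dm_C, hD.dh_si, C_0, zero_mul, add_zero]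

omit [Fintype ι] [DecidableEq ι] in
theorem nab_dm_comm {Λ : Type*} [CommRing Λ] {D D' : Λ →+ Λ} (h : ∀ x, D (D' x) = D' (D x))
    (P : MvPolynomial ι Λ) : dm D (dm D' P) = dm D' (dm D P) := by
  ext v
  simp only [coeff_dm, h]

omit [Fintype ι] [DecidableEq ι] in
theorem nab_gen (hD : IsD D) (i : ι) (Q : MvPolynomial ι (HahnSeries ℤ F)) :
    nb D G (pderiv i Q + Q * gL n G i) = pderiv i (nb D G Q) + nb D G Q * gL n G i := by
  have h1 : dm (dh D) (gL n G i) = C (si F) * pderiv i ((dm D G).map HahnSeries.C) := by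
    unfold gL gF
    rw [map_add, hD.dh.dm.pow, hD.dh.dm_X, mul_zero, zero_add, nab_si hD, dm_pderiv, nab_dm_map]
  unfold nb
  rw [map_add, dm_pderiv, hD.dh.dm, h1, map_add, Derivation.leibniz, pderiv_C_mul]
  simp only [smul_eq_mul]
  ring

theorem Cl.ex (h : Cl n G c) (hA : A ∈ Ex (gL n G)) : cl c A = 0 := by
  funext a
  exact (h.kil a).ex hA

theorem Cl.rp (h : Cl n G c) (A : MvPolynomial ι (HahnSeries ℤ F)) :
    A - ∑ a, C (cl c A a) * xe _ a ∈ Ex (gL n G) := by
  induction A using MvPolynomial.induction_on' with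
  | monomial v x =>
    have e : (monomial v x : MvPolynomial ι (HahnSeries ℤ F)) -
        ∑ a, C (cl c (monomial v x) a) * xe _ a =
        C x * (monomial v 1 - ∑ a, C (c v a) * xe _ a) := by
      rw [mul_sub, C_mul_monomial, mul_one, Finset.mul_sum]
      congr 1
      refine Finset.sum_congr rfl fun a _ => ?_
      unfold cl
      rw [sx_monomial, RingHom.id_apply, C_mul, mul_assoc]
    rw [e]
    exact ex_C_mul x (h.rep v)
  | add P Q hP hQ =>
    have e : P + Q - ∑ a, C (cl c (P + Q) a) * xe _ a =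
        (P - ∑ a, C (cl c P a) * xe _ a) + (Q - ∑ a, C (cl c Q a) * xe _ a) := by
      simp only [nab_cl_add, Pi.add_apply, C_add, add_mul, Finset.sum_add_distrib]
      ring
    rw [e]
    exact add_mem hP hQ

theorem Cl.univ (h : Cl n G c) {κ : HahnSeries ℤ F →+* Λ'} {p : (ι →₀ ℕ) → Λ'}
    (hp : Kil κ p (gL n G)) (A : MvPolynomial ι (HahnSeries ℤ F)) :
    sx κ p A = ∑ a, κ (cl c A a) * p (ee a) := by
  have e := hp.ex (h.rp A)
  rw [sx_sub, sx_sum, sub_eq_zero] at e
  rw [e]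
  refine Finset.sum_congr rfl fun a _ => ?_
  rw [sx_C_mul, sx_monomial, map_one, one_mul]

omit [Fintype ι] [DecidableEq ι] in
theorem nb_add (A A' : MvPolynomial ι (HahnSeries ℤ F)) :
    nb D G (A + A') = nb D G A + nb D G A' := by
  unfold nb
  rw [map_add]
  ring

omit [Fintype ι] [DecidableEq ι] in
theorem nb_C_mul (hD : IsD D) (x : HahnSeries ℤ F) (A : MvPolynomial ι (HahnSeries ℤ F)) :
    nb D G (C x * A) = C (dh D x) * A + C x * nb D G A := by
  unfold nb
  rw [hD.dh.dm, dm_C]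
  ring

omit [Fintype ι] [DecidableEq ι] in
theorem nb_ex (hD : IsD D) (hA : A ∈ Ex (gL n G)) : nb D G A ∈ Ex (gL n G) := by
  induction hA using Submodule.span_induction with
  | mem P hP =>
    obtain ⟨i, w, rfl⟩ := hP
    rw [nab_gen hD]
    exact ex_gen i _
  | zero =>
    have e : nb D G 0 = 0 := by
      unfold nb
      rw [map_zero, zero_mul, add_zero]
    rw [e]
    exact zero_mem _
  | add P Q _ _ hP hQ =>
    rw [nb_add]
    exact add_mem hP hQ
  | smul x P h1 h2 =>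
    rw [smul_eq_C_mul, nb_C_mul hD]
    exact add_mem (ex_C_mul _ h1) (ex_C_mul _ h2)

omit [Fintype ι] [DecidableEq ι] in
theorem nb_comm (hD : IsD D) (hD' : IsD D') (h : ∀ x, D (D' x) = D' (D x))
    (A : MvPolynomial ι (HahnSeries ℤ F)) : nb D G (nb D' G A) = nb D' G (nb D G A) := by
  have h2 : ∀ x, dh D (dh D' x) = dh D' (dh D x) := fun x => by
    ext k
    simp only [coeff_dh, h]
  unfold nb
  rw [map_add, map_add, hD.dh.dm A, hD'.dh.dm A, nab_si hD, nab_si hD', nab_dm_map, nab_dm_map,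
    nab_dm_comm h2, nab_dm_comm h]
  ring

omit [Fintype ι] [DecidableEq ι] in
theorem nw_perm (hE : ∀ l, IsD (E l)) (h : ∀ l l' x, E l (E l' x) = E l' (E l x))
    {w w' : List σ} (hw : w.Perm w') (A : MvPolynomial ι (HahnSeries ℤ F)) :
    nw E G w A = nw E G w' A := by
  induction hw with
  | nil => rfl
  | cons l _ ih => exact congrArg (nb (E l) G) ih
  | swap l l' w => exact nb_comm (hE l') (hE l) (h l' l) _
  | trans _ _ h1 h2 => exact h1.trans h2

theorem Cl.con (h : Cl n G c) (hD : IsD D) :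
    ∃ N, IsN D N ∧ ∀ A, cl c (nb D G A) = N (cl c A) := by
  refine ⟨AddMonoidHom.mk' (fun ρ => cl c (nb D G (∑ a, C (ρ a) * xe _ a))) fun ρ ρ' => ?_,
    fun x ρ => ?_, fun A => ?_⟩
  · simp only [Pi.add_apply, C_add, add_mul, Finset.sum_add_distrib, nb_add, nab_cl_add]
  · have e : (∑ a, C ((x • ρ) a) * xe _ a : MvPolynomial ι (HahnSeries ℤ F)) =
        C x * ∑ a, C (ρ a) * xe _ a := by
      rw [Finset.mul_sum]
      refine Finset.sum_congr rfl fun a _ => ?_
      rw [Pi.smul_apply, smul_eq_mul, C_mul, mul_assoc]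
    simp only [AddMonoidHom.mk'_apply]
    rw [e, nb_C_mul hD, nab_cl_add, nab_cl_C, nab_cl_C, nab_cl_bas h]
  · simp only [AddMonoidHom.mk'_apply]
    have e := h.ex (nb_ex hD (h.rp A))
    conv_lhs => rw [← sub_add_cancel A (∑ a, C (cl c A a) * xe _ a)]
    rw [nb_add, nab_cl_add, e, zero_add]

end

end Pool.Agent.Lib.MP_5591bc_ag.Hy
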