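import Pool.Agent.Lib.MP_5591bc_ag.Hy.Nak1

/-! Division by the gradient in all degrees. -/

namespace Pool.Agent.Lib.MP_5591bc_ag.Hy

open MvPolynomial Matrix

noncomputable section

variable {ι Λ : Type*} [CommRing Λ] [Fintype ι] [DecidableEq ι] {n : ℕ} {G : MvPolynomial ι Λ}

omit [DecidableEq ι] in
theorem nak_deg (a : ι → Fin (n + 1)) : (ee a).degree ≠ Fintype.card ι * n + 1 := by
  have : (ee a).degree ≤ Fintype.card ι * n := by
    rw [Finsupp.degree_eq_sum]
    have := Finset.sum_le_card_nsmul Finset.univ (fun i => ee a i) n fun i _ =>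
      Nat.lt_succ_iff.1 (a i).2
    simpa using this
  omega

theorem nak_bd (Q : ι → MvPolynomial ι (Polynomial Λ)) (ρ : (ι → Fin (n + 1)) → Polynomial Λ) :
    ∃ c, (∀ i w, (coeff w (Q i)).natDegree ≤ c) ∧ ∀ a, (ρ a).natDegree ≤ c := by
  refine ⟨max (Finset.univ.sup fun i => (Q i).support.sup fun w => (coeff w (Q i)).natDegree)
    (Finset.univ.sup fun a => (ρ a).natDegree), fun i w => le_max_of_le_left ?_,
    fun a => le_max_of_le_right
      (Finset.le_sup (f := fun a => (ρ a).natDegree) (Finset.mem_univ a))⟩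
  by_cases hw : w ∈ (Q i).support
  · exact (Finset.le_sup (f := fun w => (coeff w (Q i)).natDegree) hw).trans (Finset.le_sup
      (f := fun i => (Q i).support.sup fun w => (coeff w (Q i)).natDegree) (Finset.mem_univ i))
  · rw [notMem_support_iff.1 hw]; simp

theorem nak_low (hG : G.IsHomogeneous (n + 2)) (d : ℕ) : ∃ τ : Polynomial Λ, τ.coeff 0 = 1 ∧
    ∀ v : ι →₀ ℕ, ∃ (Q : ι → MvPolynomial ι (Polynomial Λ))
      (ρ : (ι → Fin (n + 1)) → Polynomial Λ), v.degree ≤ d →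
      (∀ i w, coeff w (Q i) ≠ 0 → w.degree + (n + 1) = v.degree) ∧
      (∀ a, (ee a).degree ≠ v.degree → ρ a = 0) ∧
      C τ * monomial v 1 = ∑ i, Q i * gU n G i + ∑ a, C (ρ a) * xe _ a := by
  choose τ h1 h2 using nak1 hG
  refine ⟨∏ δ ∈ Finset.range (d + 1), τ δ, ?_, fun v => ?_⟩
  · rw [Polynomial.coeff_zero_prod, Finset.prod_eq_one fun δ _ => h1 δ]
  obtain ⟨Q, ρ, k1, k2, k3⟩ := h2 _ v rfl
  refine ⟨fun i => C (∏ δ ∈ (Finset.range (d + 1)).erase v.degree, τ δ) * Q i,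
    fun a => (∏ δ ∈ (Finset.range (d + 1)).erase v.degree, τ δ) * ρ a, fun hv =>
    ⟨fun i w hw => k1 i w fun h => hw ?_, fun a ha => by simp only [k2 a ha, mul_zero], ?_⟩⟩
  · rw [coeff_C_mul, h, mul_zero]
  · rw [← Finset.prod_erase_mul _ _ (Finset.mem_range.2 (Nat.lt_succ_of_le hv)), C_mul, mul_assoc,
      k3, mul_add, Finset.mul_sum, Finset.mul_sum]
    simp only [C_mul, mul_assoc]

theorem nak (hG : G.IsHomogeneous (n + 2)) : ∃ (τ : Polynomial Λ) (c : ℕ), τ.coeff 0 = 1 ∧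
    τ.natDegree ≤ c ∧ ∀ v : ι →₀ ℕ, ∃ (Q : ι → MvPolynomial ι (Polynomial Λ))
      (ρ : (ι → Fin (n + 1)) → Polynomial Λ),
      (∀ i w, coeff w (Q i) ≠ 0 → w.degree + (n + 1) = v.degree) ∧
      (∀ i w, (coeff w (Q i)).natDegree ≤ c) ∧ (∀ a, (ρ a).natDegree ≤ c) ∧
      C τ * monomial v 1 = ∑ i, Q i * gU n G i + ∑ a, C (ρ a) * xe _ a := by
  obtain ⟨τ, h1, h2⟩ := nak_low hG (Fintype.card ι * n + 1)
  choose Q ρ h2 using h2
  choose c hc using fun v => nak_bd (Q v) (ρ v)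
  obtain ⟨c0, h0⟩ :=
    ((Finsupp.finite_of_degree_le (σ := ι) (Fintype.card ι * n + 1)).image c).bddAbove
  have h3 : ∀ v : ι →₀ ℕ, v.degree ≤ Fintype.card ι * n + 1 → c v ≤ max τ.natDegree c0 :=
    fun v hv => le_max_of_le_right (h0 ⟨v, hv, rfl⟩)
  refine ⟨τ, max τ.natDegree c0, h1, le_max_left _ _, fun v => ?_⟩
  rcases le_total v.degree (Fintype.card ι * n + 1) with hv | hv
  · exact ⟨Q v, ρ v, (h2 v hv).1, fun i w => ((hc v).1 i w).trans (h3 v hv),
      fun a => ((hc v).2 a).trans (h3 v hv), (h2 v hv).2.2⟩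
  · obtain ⟨v0, k0, k1⟩ := Finsupp.exists_le_degree_eq v _ hv
    obtain ⟨u, rfl⟩ := le_iff_exists_add'.1 k0
    obtain ⟨a1, a2, a3⟩ := h2 v0 k1.le
    refine ⟨fun i => monomial u 1 * Q v0 i, 0, fun i w hw => ?_, fun i w => ?_, fun a => by simp, ?_⟩
    · rw [coeff_monomial_mul'] at hw
      split_ifs at hw with h
      · obtain ⟨w, rfl⟩ := le_iff_exists_add.1 h
        rw [add_tsub_cancel_left, one_mul] at hw
        rw [map_add, map_add, ← a1 i w hw, add_assoc]
      · exact absurd rfl hw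
    · rw [coeff_monomial_mul']
      split_ifs
      · rw [one_mul]; exact ((hc v0).1 i _).trans (h3 v0 k1.le)
      · simp
    · have e : (monomial (u + v0) 1 : MvPolynomial ι (Polynomial Λ)) =
          monomial u 1 * monomial v0 1 := by rw [monomial_mul, one_mul]
      have e2 : ∀ a, ρ v0 a = 0 := fun a => a2 a (k1 ▸ nak_deg a)
      rw [e, mul_left_comm, a3]
      simp only [e2, Pi.zero_apply, C_0, zero_mul, Finset.sum_const_zero, add_zero, Finset.mul_sum,
        mul_assoc]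

end

end Pool.Agent.Lib.MP_5591bc_ag.Hy
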