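import Pool.Agent.Lib.MP_5591bc_ag.Hy.Sx

/-! The lemma of Nakayama in one degree. -/

namespace Pool.Agent.Lib.MP_5591bc_ag.Hy

open MvPolynomial Matrix

noncomputable section

variable {ι Λ : Type*} [CommRing Λ] [Fintype ι] [DecidableEq ι] {n : ℕ} {G : MvPolynomial ι Λ}

/-- the reducible polynomials of degree `δ` -/
def nak1M (n δ : ℕ) (g : ι → MvPolynomial ι Λ) : Submodule Λ (MvPolynomial ι Λ) where
  carrier := {P | ∃ (Q : ι → MvPolynomial ι Λ) (ρ : (ι → Fin (n + 1)) → Λ),
    (∀ i w, coeff w (Q i) ≠ 0 → w.degree + (n + 1) = δ) ∧ (∀ a, (ee a).degree ≠ δ → ρ a = 0) ∧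
      P = ∑ i, Q i * g i + ∑ a, C (ρ a) * xe _ a}
  zero_mem' := ⟨0, 0, by simp, by simp, by simp⟩
  add_mem' := by
    rintro _ _ ⟨Q, ρ, h1, h2, rfl⟩ ⟨Q', ρ', h1', h2', rfl⟩
    refine ⟨Q + Q', ρ + ρ', fun i w h => ?_, fun a h => by simp [h2 a h, h2' a h], ?_⟩
    · by_cases h0 : coeff w (Q i) = 0
      · exact h1' i w (by simpa [h0] using h)
      · exact h1 i w h0
    · simp only [Pi.add_apply, add_mul, map_add, Finset.sum_add_distrib]
      ring
  smul_mem' := by
    rintro c _ ⟨Q, ρ, h1, h2, rfl⟩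
    refine ⟨fun i => C c * Q i, fun a => c * ρ a, fun i w h => ?_, fun a h => by simp [h2 a h], ?_⟩
    · refine h1 i w fun h0 => h ?_
      rw [coeff_C_mul, h0, mul_zero]
    · simp only [smul_eq_C_mul, mul_add, Finset.mul_sum, map_mul, mul_assoc]

theorem nak1_xe {δ : ℕ} (g : ι → MvPolynomial ι Λ) (a : ι → Fin (n + 1)) (h : (ee a).degree = δ) :
    xe Λ a ∈ nak1M n δ g := by
  refine ⟨0, Pi.single a 1, by simp, fun b hb => ?_, ?_⟩
  · exact Pi.single_eq_of_ne (fun e : b = a => hb (by rw [e, h])) _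
  · rw [Finset.sum_eq_single a (f := fun b => C ((Pi.single a 1 : _ → Λ) b) * xe Λ b)]
    · simp
    · intro b _ hb
      rw [Pi.single_eq_of_ne hb, map_zero, zero_mul]
    · simp

theorem nak1_gen {δ : ℕ} (g : ι → MvPolynomial ι Λ) (i : ι) (w : ι →₀ ℕ)
    (h : w.degree + (n + 1) = δ) : monomial w 1 * g i ∈ nak1M n δ g := by
  refine ⟨Pi.single i (monomial w 1), 0, fun j u hu => ?_, by simp, ?_⟩
  · by_cases e : j = i
    · subst e
      rw [Pi.single_eq_same, coeff_monomial] at hu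
      by_cases e' : w = u
      · exact e' ▸ h
      · exact absurd (if_neg e') hu
    · rw [Pi.single_eq_of_ne e] at hu
      exact absurd (coeff_zero u) hu
  · rw [Finset.sum_eq_single i
      (f := fun j => (Pi.single i (monomial w 1) : _ → MvPolynomial ι Λ) j * g j)]
    · simp
    · intro b _ hb
      rw [Pi.single_eq_of_ne hb, zero_mul]
    · simp

theorem nak1_le (hG : G.IsHomogeneous (n + 2)) (u : Λ) (δ : ℕ) :
    homogeneousSubmodule ι Λ δ ≤
      nak1M n δ (gF n u G) ⊔ Ideal.span {u} • homogeneousSubmodule ι Λ δ := by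
  intro P hP
  rw [P.as_sum]
  refine sum_mem fun v hv => ?_
  have hd : v.degree = δ := by
    by_contra h
    exact mem_support_iff.1 hv (IsHomogeneous.coeff_eq_zero hP h)
  have e : monomial v (coeff v P) = coeff v P • (monomial v 1 : MvPolynomial ι Λ) := by
    rw [smul_monomial, smul_eq_mul, mul_one]
  rw [e]
  refine Submodule.smul_mem _ _ ?_
  by_cases h : ∀ i, v i < n + 1
  · have e1 : v = ee fun i => (⟨v i, h i⟩ : Fin (n + 1)) := by
      ext i
      simp [ee]
    refine Submodule.mem_sup_left ?_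
    rw [e1] at hd ⊢
    exact nak1_xe _ _ hd
  · push Not at h
    obtain ⟨i, hi⟩ := h
    have e1 : v = (v - Finsupp.single i (n + 1)) + Finsupp.single i (n + 1) :=
      (tsub_add_cancel_of_le (Finsupp.single_le_iff.2 hi)).symm
    generalize v - Finsupp.single i (n + 1) = w at e1
    subst e1
    rw [map_add, Finsupp.degree_single] at hd
    have e2 : (monomial (w + Finsupp.single i (n + 1)) 1 : MvPolynomial ι Λ) =
        monomial w 1 * gF n u G i + u • (-(monomial w 1 * pderiv i G)) := by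
      rw [gF, X_pow_eq_monomial, smul_eq_C_mul, mul_add, monomial_mul, one_mul]
      ring
    rw [e2]
    refine Submodule.add_mem_sup (nak1_gen _ i w hd) ?_
    refine Submodule.smul_mem_smul (Ideal.mem_span_singleton_self u) (neg_mem ?_)
    have := (isHomogeneous_monomial (d := w) (1 : Λ) rfl).mul (hG.pderiv (i := i))
    rw [← hd]
    exact this

theorem nak1 (hG : G.IsHomogeneous (n + 2)) (δ : ℕ) : ∃ τ : Polynomial Λ, τ.coeff 0 = 1 ∧
    ∀ v : ι →₀ ℕ, v.degree = δ → ∃ (Q : ι → MvPolynomial ι (Polynomial Λ))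
      (ρ : (ι → Fin (n + 1)) → Polynomial Λ),
      (∀ i w, coeff w (Q i) ≠ 0 → w.degree + (n + 1) = δ) ∧ (∀ a, (ee a).degree ≠ δ → ρ a = 0) ∧
      C τ * monomial v 1 = ∑ i, Q i * gU n G i + ∑ a, C (ρ a) * xe _ a := by
  obtain ⟨τ, h1, h2⟩ := Submodule.exists_sub_one_mem_and_smul_le_of_fg_of_le_sup
    (homogeneousSubmodule_fg ι (Polynomial Λ) δ) le_rfl
    (nak1_le (hG.map Polynomial.C) Polynomial.X δ)
  refine ⟨τ, ?_, fun v hv => ?_⟩
  · have := Polynomial.X_dvd_iff.1 (Ideal.mem_span_singleton.1 h1)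
    rw [Polynomial.coeff_sub, Polynomial.coeff_one_zero] at this
    exact sub_eq_zero.1 this
  · have := h2 (Submodule.smul_mem_pointwise_smul _ τ _ (isHomogeneous_monomial (1 : Polynomial Λ) hv))
    rw [smul_eq_C_mul] at this
    exact this

end

end Pool.Agent.Lib.MP_5591bc_ag.Hy
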