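import Pool.Agent.Lib.MP_5591bc_ag.Hy.Set

/-! The period is a continuous linear form. -/

namespace Pool.Agent.Lib.MP_5591bc_ag.Hy

open MvPolynomial Set Filter Topology Matrix M Cu Cv

noncomputable section

variable {N n : ℕ} {S S' : Set (Fin (N + 1) → ℂ)} {c : Ch N} {a a' g : (Fin (N + 1) → ℂ) → ℂ}

theorem Cyc.mono (h : Cyc S c) (k : S ⊆ S') : Cyc S' c :=
  ⟨fun γ hγ => ⟨(h.1 γ hγ).1, (h.1 γ hγ).2.mono_right k⟩, h.2⟩

theorem per_congr (h : Cyc S c) (e : ∀ x ∈ S, a x = a' x) : per a c = per a' c := by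
  unfold per Finsupp.sum
  refine Finset.sum_congr rfl fun γ hγ => ?_
  beta_reduce
  rw [MeasureTheory.setIntegral_congr_fun (g := fun u => a' (γ u) *
    (of fun i j => fderiv ℝ γ u (Pi.single i 1) j).det) measurableSet_Icc fun u hu => ?_]
  simp only [e _ ((h.1 γ hγ).2 hu)]

theorem per_det {γ : (Fin (N + 1) → ℝ) → Fin (N + 1) → ℂ} (hγ : ContDiff ℝ 2 γ) :
    Continuous fun u => (of fun i j => fderiv ℝ γ u (Pi.single i 1) j).det := by
  have h1 : Continuous (fderiv ℝ γ) := hγ.continuous_fderiv (by norm_num)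
  refine Continuous.matrix_det (continuous_matrix fun i j => ?_)
  exact (continuous_apply j).comp (h1.clm_apply continuous_const)

theorem per_int (h : Cyc S c) (ha : ContinuousOn a S) {γ : (Fin (N + 1) → ℝ) → Fin (N + 1) → ℂ}
    (hγ : γ ∈ c.support) : MeasureTheory.IntegrableOn
      (fun u => a (γ u) * (of fun i j => fderiv ℝ γ u (Pi.single i 1) j).det)
      (Icc (0 : Fin (N + 1) → ℝ) 1) := by
  refine ContinuousOn.integrableOn_compact isCompact_Icc ?_
  exact (ha.comp (h.1 γ hγ).1.continuous.continuousOn (h.1 γ hγ).2).mul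
    (per_det (h.1 γ hγ).1).continuousOn

theorem per_mul (z : ℂ) (a : (Fin (N + 1) → ℂ) → ℂ) (c : Ch N) :
    per (fun x => z * a x) c = z * per a c := by
  unfold per Finsupp.sum
  rw [Finset.mul_sum]
  refine Finset.sum_congr rfl fun γ _ => ?_
  simp only [mul_assoc]
  rw [MeasureTheory.integral_const_mul]
  ring

theorem per_add (h : Cyc S c) (ha : ContinuousOn a S) (ha' : ContinuousOn a' S) :
    per (fun x => a x + a' x) c = per a c + per a' c := by
  unfold per Finsupp.sum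
  rw [← Finset.sum_add_distrib]
  refine Finset.sum_congr rfl fun γ hγ => ?_
  simp only [add_mul]
  rw [MeasureTheory.integral_add (per_int h ha hγ) (per_int h ha' hγ), mul_add]

theorem per_zero (c : Ch N) : per (fun _ => 0) c = 0 := by
  simp [per]

theorem per_sum (h : Cyc S c) {α : Type*} (s : Finset α) {b : α → (Fin (N + 1) → ℂ) → ℂ}
    (hb : ∀ i ∈ s, ContinuousOn (b i) S) :
    per (fun x => ∑ i ∈ s, b i x) c = ∑ i ∈ s, per (b i) c := by
  classical
  induction s using Finset.induction_on with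
  | empty => simpa using per_zero c
  | insert i s hi ih =>
    simp only [Finset.sum_insert hi]
    rw [per_add h (hb i (Finset.mem_insert_self _ _))
      (continuousOn_finsetSum _ fun j hj => hb j (Finset.mem_insert_of_mem hj)),
      ih fun j hj => hb j (Finset.mem_insert_of_mem hj)]

theorem per_bd (h : Cyc S c) : ∃ M : ℝ, ∀ (a : (Fin (N + 1) → ℂ) → ℂ) (r : ℝ),
    (∀ x ∈ S, ‖a x‖ ≤ r) → ‖per a c‖ ≤ M * r := by
  refine ⟨∑ γ ∈ c.support, ‖(c γ : ℂ)‖ * ∫ u in Icc (0 : Fin (N + 1) → ℝ) 1,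
    ‖(of fun i j => fderiv ℝ γ u (Pi.single i 1) j).det‖, fun a r hr => ?_⟩
  unfold per Finsupp.sum
  rw [Finset.sum_mul]
  refine (norm_sum_le _ _).trans (Finset.sum_le_sum fun γ hγ => ?_)
  rw [norm_mul, mul_assoc]
  refine mul_le_mul_of_nonneg_left ?_ (norm_nonneg _)
  rw [← MeasureTheory.integral_mul_const]
  refine MeasureTheory.norm_integral_le_of_norm_le ?_ ?_
  · exact (((per_det (h.1 γ hγ).1).norm.mul continuous_const).continuousOn).integrableOn_compact
      isCompact_Icc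
  · refine MeasureTheory.ae_restrict_of_forall_mem measurableSet_Icc fun u hu => ?_
    rw [norm_mul, mul_comm]
    exact mul_le_mul_of_nonneg_left (hr _ ((h.1 γ hγ).2 hu)) (norm_nonneg _)

theorem per_clm (h : Cyc S c) : ∃ (D : Set (Fin (N + 1) → ℂ)) (_ : CompactSpace D), D ⊆ S ∧
    Cyc D c ∧ ∃ l : C(D, ℂ) →L[ℂ] ℂ, ∀ (a : (Fin (N + 1) → ℂ) → ℂ) (E : C(D, ℂ)),
      (∀ x : D, E x = a x) → per a c = l E := by
  classical
  set D : Set (Fin (N + 1) → ℂ) := ⋃ γ ∈ c.support, γ '' Icc 0 1 with hD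
  have hc : IsCompact D := c.support.isCompact_biUnion fun γ hγ =>
    isCompact_Icc.image (h.1 γ hγ).1.continuous
  have hS : D ⊆ S := iUnion₂_subset fun γ hγ => (h.1 γ hγ).2.image_subset
  have hk : Cyc D c := ⟨fun γ hγ => ⟨(h.1 γ hγ).1, fun u hu =>
    mem_iUnion₂.2 ⟨γ, hγ, mem_image_of_mem _ hu⟩⟩, h.2⟩
  have : CompactSpace D := isCompact_iff_compactSpace.1 hc
  let e : C(D, ℂ) → (Fin (N + 1) → ℂ) → ℂ := fun E x => if hx : x ∈ D then E ⟨x, hx⟩ else 0
  have he : ∀ E (x : D), e E x = E x := fun E x => dif_pos x.2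
  have hce : ∀ E, ContinuousOn (e E) D := fun E => by
    rw [continuousOn_iff_continuous_domRestrict]
    exact E.continuous.congr fun x => (he E x).symm
  obtain ⟨M, hM⟩ := per_bd hk
  let l0 : C(D, ℂ) →ₗ[ℂ] ℂ :=
    { toFun := fun E => per (e E) c
      map_add' := fun E E' => by
        rw [← per_add hk (hce E) (hce E')]
        refine per_congr hk fun x hx => ?_
        rw [he (E + E') ⟨x, hx⟩, he E ⟨x, hx⟩, he E' ⟨x, hx⟩, ContinuousMap.add_apply]
      map_smul' := fun z E => by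
        rw [RingHom.id_apply, smul_eq_mul, ← per_mul]
        refine per_congr hk fun x hx => ?_
        rw [he (z • E) ⟨x, hx⟩, he E ⟨x, hx⟩, ContinuousMap.smul_apply, smul_eq_mul] }
  refine ⟨D, inferInstance, hS, hk, l0.mkContinuous M fun E => hM _ _ fun x hx => ?_,
    fun a E hE => per_congr hk fun x hx => ?_⟩
  · rw [he E ⟨x, hx⟩]
    exact E.norm_coe_le_norm _
  · rw [he E ⟨x, hx⟩, hE]

end

end Pool.Agent.Lib.MP_5591bc_ag.Hy
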