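import Pool.Agent.Lib.MP_5591bc_ag.Hy.Nak

/-! The reduction of the order of pole. -/

namespace Pool.Agent.Lib.MP_5591bc_ag.Hy

open MvPolynomial Matrix

noncomputable section

variable {ι Λ : Type*} [CommRing Λ] [Fintype ι] [DecidableEq ι] {n : ℕ} {G : MvPolynomial ι Λ}

theorem red_lin {g : ι → MvPolynomial ι (Polynomial Λ)} {t : Polynomial Λ} {c k : ℕ}
    (S : MvPolynomial ι (Polynomial Λ)) (hc : ∀ w, (coeff w S).natDegree ≤ c)
    (h : ∀ w ∈ S.support, ∃ ρ : (ι → Fin (n + 1)) → Polynomial Λ, (∀ a, (ρ a).natDegree ≤ k) ∧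
      C t * monomial w 1 - ∑ a, C (ρ a) * xe _ a ∈ Ex g) :
    ∃ ρ : (ι → Fin (n + 1)) → Polynomial Λ, (∀ a, (ρ a).natDegree ≤ c + k) ∧
      C t * S - ∑ a, C (ρ a) * xe _ a ∈ Ex g := by
  choose! r hr hr' using h
  refine ⟨fun a => ∑ w ∈ S.support, coeff w S * r w a, fun a => ?_, ?_⟩
  · exact Polynomial.natDegree_sum_le_of_forall_le _ _ fun w hw =>
      Polynomial.natDegree_mul_le.trans (Nat.add_le_add (hc w) (hr w hw a))
  · have e : C t * S - ∑ a, C (∑ w ∈ S.support, coeff w S * r w a) * xe (Polynomial Λ) a =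
        ∑ w ∈ S.support, C (coeff w S) * (C t * monomial w 1 - ∑ a, C (r w a) * xe _ a) := by
      simp only [mul_sub, Finset.sum_sub_distrib, map_sum, Finset.sum_mul, Finset.mul_sum, map_mul]
      congr 1
      · conv_lhs => rw [S.as_sum, Finset.mul_sum]
        refine Finset.sum_congr rfl fun w _ => ?_
        rw [mul_left_comm, C_mul_monomial (a := coeff w S), mul_one]
      · rw [Finset.sum_comm]
        exact Finset.sum_congr rfl fun w _ => Finset.sum_congr rfl fun a _ => mul_assoc _ _ _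
    rw [e]
    exact Submodule.sum_mem _ fun w hw => ex_C_mul _ (hr' w hw)

theorem red_ex (hG : G.IsHomogeneous (n + 2)) : ∃ (τ : Polynomial Λ) (c : ℕ), τ.coeff 0 = 1 ∧
    τ.natDegree ≤ c ∧ ∀ v : ι →₀ ℕ, ∃ ρ : (ι → Fin (n + 1)) → Polynomial Λ,
      (∀ a, (ρ a).natDegree ≤ c * (wJ n v + 1)) ∧
      C (τ ^ (wJ n v + 1)) * monomial v 1 - ∑ a, C (ρ a) * xe _ a ∈ Ex (gU n G) := by
  obtain ⟨τ, c, h0, hc, H⟩ := nak hG
  refine ⟨τ, c, h0, hc, fun v => ?_⟩
  have key : ∀ (J : ℕ) (v : ι →₀ ℕ), v.degree < (n + 2) * J →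
      ∃ ρ : (ι → Fin (n + 1)) → Polynomial Λ, (∀ a, (ρ a).natDegree ≤ c * J) ∧
        C (τ ^ J) * monomial v 1 - ∑ a, C (ρ a) * xe _ a ∈ Ex (gU n G) := by
    intro J
    induction J with
    | zero => intro v hv; simp at hv
    | succ J ih =>
      intro v hv
      obtain ⟨Q, ρ, hQ, hQc, hρ, e⟩ := H v
      have hd : ∀ i, ∃ r : (ι → Fin (n + 1)) → Polynomial Λ, (∀ a, (r a).natDegree ≤ c + c * J) ∧
          C (τ ^ J) * pderiv i (Q i) - ∑ a, C (r a) * xe _ a ∈ Ex (gU n G) := by
        intro i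
        refine red_lin _ (fun w => ?_) fun w hw => ih w ?_
        · rw [coeff_pderiv]
          refine Polynomial.natDegree_mul_le.trans ?_
          have : ((w i : Polynomial Λ) + 1).natDegree = 0 := by
            rw [← Nat.cast_succ, Polynomial.natDegree_natCast]
          rw [this]
          exact hQc i _
        · rw [mem_support_iff, coeff_pderiv] at hw
          have := hQ i _ (left_ne_zero_of_mul hw)
          rw [map_add, Finsupp.degree_single] at this
          rw [Nat.mul_succ] at hv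
          omega
      choose r hr hr' using hd
      refine ⟨fun a => τ ^ J * ρ a - ∑ i, r i a, fun a => ?_, ?_⟩
      · refine (Polynomial.natDegree_sub_le _ _).trans (max_le ?_ ?_)
        · refine Polynomial.natDegree_mul_le.trans ?_
          have h1 : (τ ^ J).natDegree ≤ J * c :=
            Polynomial.natDegree_pow_le.trans (Nat.mul_le_mul_left _ hc)
          have h2 := hρ a
          rw [Nat.mul_succ, Nat.mul_comm c J]
          omega
        · refine Polynomial.natDegree_sum_le_of_forall_le _ _ fun i _ => (hr i a).trans ?_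
          rw [Nat.mul_succ, Nat.add_comm]
      · have e2 : C (τ ^ (J + 1)) * monomial v 1 -
            ∑ a, C (τ ^ J * ρ a - ∑ i, r i a) * xe (Polynomial Λ) a =
            ∑ i, (C (τ ^ J) * (pderiv i (Q i) + Q i * gU n G i) -
              (C (τ ^ J) * pderiv i (Q i) - ∑ a, C (r i a) * xe _ a)) := by
          rw [pow_succ, map_mul, mul_assoc, e]
          simp only [map_sub, map_mul, map_sum, sub_mul, Finset.sum_sub_distrib, Finset.sum_mul,
            mul_add, Finset.mul_sum, Finset.sum_add_distrib, mul_assoc]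
          rw [Finset.sum_comm (s := Finset.univ (α := ι))]
          ring
        rw [e2]
        exact Submodule.sum_mem _ fun i _ => Submodule.sub_mem _ (ex_C_mul _ (ex_gen i _)) (hr' i)
  exact key _ v (Nat.lt_mul_div_succ _ (by omega))

theorem red_sub {O : Subring Λ} (hG : G.IsHomogeneous (n + 2)) (hO : ∀ v, coeff v G ∈ O) :
    ∃ (τ : Polynomial Λ) (c : ℕ), τ.coeff 0 = 1 ∧ τ.natDegree ≤ c ∧ (∀ k, τ.coeff k ∈ O) ∧
      ∀ v : ι →₀ ℕ, ∃ ρ : (ι → Fin (n + 1)) → Polynomial Λ,
        (∀ a, (ρ a).natDegree ≤ c * (wJ n v + 1)) ∧ (∀ a k, (ρ a).coeff k ∈ O) ∧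
        C (τ ^ (wJ n v + 1)) * monomial v 1 - ∑ a, C (ρ a) * xe _ a ∈ Ex (gU n G) := by
  obtain ⟨G', rfl⟩ : G ∈ Set.range (MvPolynomial.map O.subtype) := by
    rw [mem_range_map_iff_coeffs_subset]
    intro x hx
    obtain ⟨v, -, rfl⟩ := mem_coeffs_iff.1 hx
    exact ⟨⟨_, hO v⟩, rfl⟩
  obtain ⟨τ, c, h0, hc, H⟩ := red_ex (hG.of_map O.subtype_injective)
  refine ⟨τ.map O.subtype, c, ?_, Polynomial.natDegree_map_le.trans hc, fun k => ?_, fun v => ?_⟩
  · rw [Polynomial.coeff_map, h0, map_one]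
  · rw [Polynomial.coeff_map]
    exact (τ.coeff k).2
  · obtain ⟨ρ, hρ, h⟩ := H v
    refine ⟨fun a => (ρ a).map O.subtype, fun a => Polynomial.natDegree_map_le.trans (hρ a),
      fun a k => ?_, ?_⟩
    · rw [Polynomial.coeff_map]
      exact ((ρ a).coeff k).2
    · have h2 := ex_map (Polynomial.mapRingHom O.subtype) h
      have e : (fun i => (gU n G' i).map (Polynomial.mapRingHom O.subtype)) =
          gU n (G'.map O.subtype) := by
        funext i
        rw [gF_map, MvPolynomial.map_map, Polynomial.mapRingHom_comp_C, ← MvPolynomial.map_map,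
          Polynomial.coe_mapRingHom, Polynomial.map_X]
      rw [e] at h2
      simpa only [Polynomial.coe_mapRingHom, map_sub, map_mul, map_sum, map_C, map_monomial,
        map_one, Polynomial.map_pow, Polynomial.map_one] using h2

end

end Pool.Agent.Lib.MP_5591bc_ag.Hy
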