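import Pool.Agent.Lib.MP_5591bc_ag.Hy.Defs
import Pool.Agent.Lib.MP_5591bc_ag.Cv.SetP

/-! Shared definitions for the periods of hypersurface complements. -/

namespace Pool.Agent.Lib.MP_5591bc_ag.Hy

open MvPolynomial Filter Topology Matrix M Cu Cv

noncomputable section

section
variable {ι σ Λ Λ' : Type*} [CommRing Λ] [CommRing Λ'] {n : ℕ}

/-- the semilinear map with the values `p` on the monomials -/
def sx (κ : Λ →+* Λ') (p : (ι →₀ ℕ) → Λ') (P : MvPolynomial ι Λ) : Λ' :=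
  ∑ v ∈ P.support, κ (coeff v P) * p v

/-- the exact forms of the twisted complex of a function with gradient `g` -/
def Ex (g : ι → MvPolynomial ι Λ) : Submodule Λ (MvPolynomial ι Λ) :=
  Submodule.span Λ {P | ∃ i w, P = pderiv i (monomial w 1) + monomial w 1 * g i}

/-- the map kills the exact forms -/
def Kil (κ : Λ →+* Λ') (p : (ι →₀ ℕ) → Λ') (g : ι → MvPolynomial ι Λ) : Prop :=
  ∀ i w, sx κ p (pderiv i (monomial w 1) + monomial w 1 * g i) = 0

/-- the rule of Leibniz -/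
def IsD (D : Λ →+ Λ) : Prop := ∀ a b, D (a * b) = a * D b + D a * b

/-- an additive map applied to the coefficients of a polynomial -/
def dm (D : Λ →+ Λ') : MvPolynomial ι Λ →+ MvPolynomial ι Λ' :=
  AddMonoidHom.mk' (AddMonoidAlgebra.map D) (AddMonoidAlgebra.map_add D)

/-- an additive map applied to the coefficients of a Laurent series -/
def dh (D : Λ →+ Λ') : HahnSeries ℤ Λ →+ HahnSeries ℤ Λ' :=
  AddMonoidHom.mk' (fun x => x.map D) fun _ _ => HahnSeries.map_add D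

/-- a ring homomorphism applied to the coefficients of a Laurent series -/
def hm (κ : Λ →+* Λ') : HahnSeries ℤ Λ →+* HahnSeries ℤ Λ' where
  toFun x := x.map κ
  map_one' := HahnSeries.map_one κ.toMonoidWithZeroHom
  map_mul' _ _ := HahnSeries.map_mul κ.toNonUnitalRingHom
  map_zero' := by ext; simp
  map_add' _ _ := HahnSeries.map_add κ.toAddMonoidHom

/-- the Laurent series with coefficients in `W` -/
def hS (W : Subring Λ) : Subring (HahnSeries ℤ Λ) where
  carrier := {x | ∀ k, x.coeff k ∈ W}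
  zero_mem' := fun _ => W.zero_mem
  one_mem' := fun k => by
    rw [HahnSeries.coeff_one]
    split_ifs
    exacts [W.one_mem, W.zero_mem]
  add_mem' := fun ha hb k => W.add_mem (ha k) (hb k)
  neg_mem' := fun ha k => W.neg_mem (ha k)
  mul_mem' := fun ha hb k => by
    rw [HahnSeries.coeff_mul]
    exact sum_mem fun _ _ => W.mul_mem (ha _) (hb _)

/-- no terms of order less than `M` -/
def Od (M : ℤ) (x : HahnSeries ℤ Λ) : Prop := ∀ k < M, x.coeff k = 0

/-- the inverse of the variable -/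
def si (Λ : Type*) [CommRing Λ] : HahnSeries ℤ Λ := HahnSeries.single (-1) 1

/-- polynomials in the inverse of the variable -/
def ku (Λ : Type*) [CommRing Λ] : Polynomial Λ →+* HahnSeries ℤ Λ :=
  Polynomial.eval₂RingHom HahnSeries.C (si Λ)

/-- the exponents of the basis of the Milnor algebra of the Fermat polynomial -/
def ee [Finite ι] (e : ι → Fin (n + 1)) : ι →₀ ℕ :=
  Finsupp.equivFunOnFinite.symm fun i => (e i : ℕ)

/-- the monomials of this basis -/
abbrev xe (Λ : Type*) [CommRing Λ] [Finite ι] (e : ι → Fin (n + 1)) : MvPolynomial ι Λ :=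
  monomial (ee e) 1

/-- the integral part of the weight of a monomial -/
def wJ (n : ℕ) (v : ι →₀ ℕ) : ℕ := v.degree / (n + 2)

/-- the gradient of the Fermat polynomial with signs -/
def gS (Λ : Type*) [CommRing Λ] (n : ℕ) (ε : ι → ℤ) (i : ι) : MvPolynomial ι Λ :=
  C (ε i : Λ) * X i ^ (n + 1)

/-- the gradient of `F + u G`, where `F` is the Fermat polynomial -/
def gF (n : ℕ) (u : Λ) (G : MvPolynomial ι Λ) (i : ι) : MvPolynomial ι Λ :=
  X i ^ (n + 1) + C u * pderiv i G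

/-- the same over the polynomials in `u` -/
abbrev gU (n : ℕ) (G : MvPolynomial ι Λ) : ι → MvPolynomial ι (Polynomial Λ) :=
  gF n Polynomial.X (G.map Polynomial.C)

/-- the same over the Laurent series in the inverse of `u` -/
abbrev gL (n : ℕ) (G : MvPolynomial ι Λ) : ι → MvPolynomial ι (HahnSeries ℤ Λ) :=
  gF n (si Λ) (G.map HahnSeries.C)

/-- the reduction of `x ^ v` to `x ^ e` in one variable -/
def r1 (n : ℕ) (ε : ℤ) (e v : ℕ) : ℤ :=
  if v % (n + 2) = e then ∏ l ∈ Finset.range (v / (n + 2)), -(ε * (e + 1 + l * (n + 2) : ℕ)) else 0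

/-- the reduction for the Fermat polynomial -/
def red (Λ : Type*) [CommRing Λ] [Fintype ι] (ε : ι → ℤ) (e : ι → Fin (n + 1)) (v : ι →₀ ℕ) : Λ :=
  ((∏ i, r1 n (ε i) (e i) (v i) : ℤ) : Λ)

/-- the values of the deformed map: multiply by the exponential of `u G` -/
def phv [Algebra ℚ Λ'] (κ : Λ →+* Λ') (p : (ι →₀ ℕ) → Λ') (G : MvPolynomial ι Λ) (v : ι →₀ ℕ) :
    PowerSeries Λ' :=
  PowerSeries.mk fun j => algebraMap ℚ Λ' (j.factorial : ℚ)⁻¹ * sx κ p (monomial v 1 * G ^ j)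

/-- polynomials as power series -/
def kp (κ : Λ →+* Λ') : Polynomial Λ →+* PowerSeries Λ' :=
  Polynomial.coeToPowerSeries.ringHom.comp (Polynomial.mapRingHom κ)

/-- the denominators -/
def den (n c J : ℕ) : ℕ := Nat.lcmUpto (c * (J + 1)) ^ c * (n + 2) ^ (c * (J + 1))

/-- the Fermat polynomial divided by its degree -/
def fer (Λ : Type*) [CommRing Λ] [Algebra ℚ Λ] [Fintype ι] (n : ℕ) : MvPolynomial ι Λ :=
  ∑ i, C (algebraMap ℚ Λ ((n + 2 : ℕ) : ℚ)⁻¹) * X i ^ (n + 2)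

/-- the values of the map deformed from `G` towards the Fermat polynomial -/
def lv [Algebra ℚ Λ] [Algebra ℚ Λ'] [Fintype ι] (n : ℕ) (κ : Λ →+* Λ') (p : (ι →₀ ℕ) → Λ')
    (v : ι →₀ ℕ) : HahnSeries ℤ Λ' :=
  HahnSeries.single (wJ n v : ℤ) 1 * HahnSeries.ofPowerSeries ℤ Λ' (phv κ p (fer Λ n) v)

/-- the connection -/
def nb (D : Λ →+ Λ) (G : MvPolynomial ι Λ) (A : MvPolynomial ι (HahnSeries ℤ Λ)) :
    MvPolynomial ι (HahnSeries ℤ Λ) :=
  dm (dh D) A + A * (C (si Λ) * (dm D G).map HahnSeries.C)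

/-- its iterates -/
def nw (D : σ → Λ →+ Λ) (G : MvPolynomial ι Λ) (w : List σ)
    (A : MvPolynomial ι (HahnSeries ℤ Λ)) : MvPolynomial ι (HahnSeries ℤ Λ) :=
  w.foldr (fun l A => nb (D l) G A) A

/-- the coordinates of the classes of the monomials -/
structure Cl [Fintype ι] [DecidableEq ι] (n : ℕ) (G : MvPolynomial ι Λ)
    (c : (ι →₀ ℕ) → (ι → Fin (n + 1)) → HahnSeries ℤ Λ) : Prop where
  kil : ∀ a, Kil (RingHom.id _) (c · a) (gL n G)
  bas : ∀ a b, c (ee a) b = if a = b then 1 else 0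
  rep : ∀ v, monomial v 1 - ∑ a, C (c v a) * xe _ a ∈ Ex (gL n G)

/-- the class of a polynomial -/
def cl {μ : Type*} (c : (ι →₀ ℕ) → μ → Λ) (A : MvPolynomial ι Λ) (a : μ) : Λ :=
  sx (RingHom.id _) (c · a) A

/-- a connection on a space of vectors -/
def IsN {μ : Type*} (D : Λ →+ Λ) (N : (μ → HahnSeries ℤ Λ) →+ (μ → HahnSeries ℤ Λ)) : Prop :=
  ∀ (x : HahnSeries ℤ Λ) ρ, N (x • ρ) = dh D x • ρ + x • N ρ

/-- the coordinates of the derivatives of a cyclic vector -/
def cq (D : Λ →+ Λ) (r : ℕ) (a : ℕ → HahnSeries ℤ Λ) : ℕ → ℕ → HahnSeries ℤ Λ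
  | 0 => fun i => if i = 0 then 1 else 0
  | m + 1 => fun i => dh D (cq D r a m i) + (if i = 0 then 0 else cq D r a m (i - 1)) +
      cq D r a m (r - 1) * a i

/-- the factorial of a word -/
def wf [Fintype σ] [DecidableEq σ] (w : List σ) : ℕ := ∏ l, (w.count l).factorial

/-- the exponent of a word -/
def wk [DecidableEq σ] (w : List σ) : σ →₀ ℕ := Multiset.toFinsupp (w : Multiset σ)

/-- the integral closure -/
abbrev Rb (R : Subring ℂ) : Subring ℂ := (integralClosure R ℂ).toSubring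

/-- `W` is a valuation ring which contains `R` and the inverse of `b` -/
def Pl (R : Subring ℂ) (b : ℂ) (W : ValuationSubring ℂ) : Prop := R ≤ W.toSubring ∧ b⁻¹ ∈ W

/-- there are enough places of positive residue characteristic -/
def HP (R : Subring ℂ) : Prop :=
  ∀ b ∈ R, b ≠ 0 → ∃ p : ℕ, p.Prime ∧ ∃ W, Pl R b W ∧ (p : ℂ) ∈ W.nonunits

/-- integral at almost all places -/
def Eis (R : Subring ℂ) (x : HahnSeries ℤ ℂ) : Prop :=
  ∃ b ∈ R, b ≠ 0 ∧ ∀ W, Pl R b W → x ∈ hS W.toSubring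

/-- complex series with the denominators of a `G`-function -/
def GP (R : Subring ℂ) (S : MvPowerSeries σ ℂ) : Prop :=
  ∃ b ∈ R, b ≠ 0 ∧ ∃ c : ℕ, ∀ κ : σ →₀ ℕ, IsIntegral R
    ((Nat.lcmUpto (c * (κ.degree + 1)) : ℂ) ^ c * b ^ (κ.degree + 1) * MvPowerSeries.coeff κ S)

/-- a differential field of power series with the denominators of Eisenstein -/
structure DF {F : Type*} [Field F] (R : Subring ℂ) (D : σ → F →+ F)
    (j : F →+* MvPowerSeries σ ℂ) : Prop where
  der : ∀ l x, j (D l x) = MvPowerSeries.pderiv ℂ l (j x)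
  tame : ∀ x, Tame R (j x)

/-- the value at the base point -/
abbrev ep {F : Type*} [CommRing F] (j : F →+* MvPowerSeries σ ℂ) : F →+* ℂ :=
  MvPowerSeries.constantCoeff.comp j

/-- the values `p` are the Taylor series of the periods of the monomials -/
structure PV {F : Type*} [CommRing F] (D : σ → F →+ F) (j : F →+* MvPowerSeries σ ℂ)
    (G : MvPolynomial ι F) (p : (ι →₀ ℕ) → MvPowerSeries σ ℂ) : Prop where
  kil : Kil j p fun i => pderiv i G
  der : ∀ l v, MvPowerSeries.pderiv ℂ l (p v) = sx j p (monomial v 1 * dm (D l) G)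

end

section
variable {N : ℕ}

/-- chains -/
abbrev Ch (N : ℕ) := ((Fin (N + 1) → ℝ) → Fin (N + 1) → ℂ) →₀ ℤ

/-- the affine chart -/
def o1 {ι : Type*} (x : ι → ℂ) : Option ι → ℂ := fun o => o.elim 1 x

/-- the periods of the monomials for a form `G` of degree `n + 2` -/
def pv (n : ℕ) (G : MvPolynomial (Option (Fin (N + 1))) ℂ) (c : Ch N)
    (v : Option (Fin (N + 1)) →₀ ℕ) : ℂ :=
  if (n + 2) ∣ v.degree + (N + 2) then
    (-1) ^ ((v.degree + (N + 2)) / (n + 2)) * ((v.degree + (N + 2)) / (n + 2) - 1).factorial *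
      per (fun x => eval (o1 x) (monomial v 1) / eval (o1 x) G ^ ((v.degree + (N + 2)) / (n + 2))) c
  else 0

/-- a family of hypersurfaces near `s` with a branch `Q` of the period matrix -/
structure LH {σ 𝓡 ν : Type*} [Fintype σ] [CommRing 𝓡] [Fintype ν] [DecidableEq ν]
    (φ : (σ → ℂ) → 𝓡 →+* ℂ) (f : MvPolynomial (Fin (N + 1)) 𝓡) (m : ℕ)
    (A : ν → MvPolynomial (Fin (N + 1)) 𝓡) (a : ℂ) (Q : (σ → ℂ) → Matrix ν ν ℂ) (s : σ → ℂ) :
    Prop where
  an : ∀ r, AnalyticAt ℂ (fun t => φ t r) s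
  anQ : ∀ i j, AnalyticAt ℂ (fun t => Q t i j) s
  ev : ∀ᶠ t in 𝓝 s, Lat (f.map (φ t)) m (fun i => (A i).map (φ t)) a (Q t)

variable {σ K ν : Type} [Field K] [Algebra K ℂ] [Fintype σ] [DecidableEq σ] [Fintype ν]
  [DecidableEq ν]

/-- the hypotheses on the family -/
structure FamH (T : MvPolynomial σ K) (q : Polynomial (MvPolynomial σ K)) (r : ℕ)
    (B : σ → Matrix ν ν (Polynomial (MvPolynomial σ K)))
    (f : MvPolynomial (Fin (N + 1)) (Polynomial (MvPolynomial σ K))) (m : ℕ)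
    (A : ν → MvPolynomial (Fin (N + 1)) (Polynomial (MvPolynomial σ K))) (a : ℂ) : Prop where
  cv : Cov T q r
  cov : ∀ t z, aeval t T ≠ 0 → evz t z q = 0 →
    ∃ V ∈ 𝓝 t, ∃ P, P t none none = z ∧ PerH T q B f m A a V P

/-- all branches off `T = 0` are invertible, and two branches over the same point of the cover
differ by an integral matrix -/
structure Int2 (T : MvPolynomial σ K) (U : Set (σ → ℂ))
    (P : (σ → ℂ) → Matrix (Option ν) (Option ν) ℂ) : Prop where
  dt : ∀ U' P', ContM U P U' P' → ∀ t ∈ U', aeval t T ≠ 0 → (bl (P' t)).det ≠ 0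
  two : ∀ U₁ P₁ U₂ P₂, ContM U P U₁ P₁ → ContM U P U₂ P₂ → ∀ t ∈ U₁, t ∈ U₂ →
    (∀ᶠ z in 𝓝 t, P₂ z none none = P₁ z none none) → ∃ γ : Matrix ν ν ℤ, γ.det ≠ 0 ∧
      ∀ᶠ z in 𝓝 t, bl (P₂ z) = bl (P₁ z) * γ.map Int.cast

end

end

end Pool.Agent.Lib.MP_5591bc_ag.Hy
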