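import Mathlib

set_option autoImplicit false

namespace Pool.Agent.Lib.MP_5591bc_ag.St

open MeasureTheory Set Filter Topology

variable {E : Type} [NormedAddCommGroup E] [NormedSpace ℝ E] {n : ℕ}

theorem st_ins (j : Fin (n + 1)) (c : ℝ) (v : Fin n → ℝ) :
    HasFDerivAt (fun v : Fin n → ℝ => (j.insertNth c v : Fin (n + 1) → ℝ))
      (ContinuousLinearMap.pi fun a => j.insertNth (α := fun _ => (Fin n → ℝ) →L[ℝ] ℝ) 0
        (fun b => ContinuousLinearMap.proj b) a) v := by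
  refine hasFDerivAt_pi.2 fun a => ?_
  induction a using j.succAboveCases with
  | x => simpa using hasFDerivAt_const c v
  | p b => simpa using hasFDerivAt_apply (𝕜 := ℝ) b v

theorem st_face {σ : (Fin (n + 1) → ℝ) → E} (j : Fin (n + 1)) (c : ℝ) (v : Fin n → ℝ)
    (hσ : DifferentiableAt ℝ σ (j.insertNth c v)) (b : Fin n) :
    fderiv ℝ (fun v => σ (j.insertNth c v)) v (Pi.single b 1) =
      fderiv ℝ σ (j.insertNth c v) (Pi.single (j.succAbove b) 1) := by
  have h := (hσ.hasFDerivAt.comp v (st_ins j c v)).fderiv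
  rw [show (fun v => σ (j.insertNth c v)) = σ ∘ fun v => j.insertNth c v from rfl, h,
    ContinuousLinearMap.comp_apply]
  congr 1
  funext a
  induction a using j.succAboveCases with
  | x => simp
  | p a => simp [Pi.single_apply]

theorem st_mem (j : Fin (n + 1)) {c : ℝ} (hc : c ∈ Icc (0 : ℝ) 1) {v : Fin n → ℝ}
    (hv : v ∈ Icc (0 : Fin n → ℝ) 1) :
    (j.insertNth c v : Fin (n + 1) → ℝ) ∈ Icc (0 : Fin (n + 1) → ℝ) 1 := by
  constructor <;> intro a <;> induction a using j.succAboveCases with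
  | x => simp [hc.1, hc.2]
  | p b => simp [show v b ≤ 1 from hv.2 b, show 0 ≤ v b from hv.1 b]

/-- the theorem of Stokes on a cube for a function times a constant form -/
theorem st_form (μ : E [⋀^Fin n]→L[ℝ] ℂ) (h : E → ℂ)
    (σ : (Fin (n + 1) → ℝ) → E)
    (hσ : ∀ u ∈ Icc (0 : Fin (n + 1) → ℝ) 1, ContDiffAt ℝ 2 σ u)
    (hh : ∀ u ∈ Icc (0 : Fin (n + 1) → ℝ) 1, ContDiffAt ℝ 1 h (σ u)) :
    ∫ u in Icc (0 : Fin (n + 1) → ℝ) 1, ∑ j : Fin (n + 1), (-1 : ℝ) ^ (j : ℕ) •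
        fderiv ℝ h (σ u) (fderiv ℝ σ u (Pi.single j 1)) •
          μ (fun b => fderiv ℝ σ u (Pi.single (j.succAbove b) 1)) =
      ∑ j : Fin (n + 1), (-1 : ℝ) ^ (j : ℕ) •
        ((∫ v in Icc (0 : Fin n → ℝ) 1, h (σ (j.insertNth 1 v)) •
          μ fun b => fderiv ℝ (fun v => σ (j.insertNth 1 v)) v (Pi.single b 1)) -
        ∫ v in Icc (0 : Fin n → ℝ) 1, h (σ (j.insertNth 0 v)) •
          μ fun b => fderiv ℝ (fun v => σ (j.insertNth 0 v)) v (Pi.single b 1)) := by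
  set ω : E → E [⋀^Fin n]→L[ℝ] ℂ := fun x => h x • μ with hω
  set η : (Fin (n + 1) → ℝ) → (Fin (n + 1) → ℝ) [⋀^Fin n]→L[ℝ] ℂ :=
    fun u => (ω (σ u)).compContinuousLinearMap (fderiv ℝ σ u) with hη
  set e : Fin (n + 1) → Fin (n + 1) → ℝ := fun b => Pi.single b 1 with he
  set g : Fin (n + 1) → (Fin (n + 1) → ℝ) → ℂ := fun j u => η u (j.removeNth e) with hg
  have hg0 : ∀ j u, g j u = h (σ u) • μ fun b => fderiv ℝ σ u (Pi.single (j.succAbove b) 1) :=
    fun j u => rfl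
  have hg1 : ∀ j, ∀ u ∈ Icc (0 : Fin (n + 1) → ℝ) 1, ContDiffAt ℝ 1 (g j) u := by
    intro j u hu
    have h1 : ContDiffAt ℝ 1 (fun u => h (σ u)) u :=
      (hh u hu).comp u ((hσ u hu).of_le one_le_two)
    have h2 : ContDiffAt ℝ 1 (fun u b => fderiv ℝ σ u (Pi.single (j.succAbove b) 1)) u :=
      contDiffAt_pi.2 fun b => ((hσ u hu).fderiv_right (m := 1) (by norm_num)).clm_apply
        contDiffAt_const
    exact h1.smul (μ.toContinuousMultilinearMap.contDiffAt.comp u h2)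
  have hωd : ∀ u ∈ Icc (0 : Fin (n + 1) → ℝ) 1, DifferentiableAt ℝ ω (σ u) := fun u hu =>
    ((hh u hu).differentiableAt one_ne_zero).smul_const μ
  have hηd : ∀ u ∈ Icc (0 : Fin (n + 1) → ℝ) 1, DifferentiableAt ℝ η u := fun u hu =>
    ((hωd u hu).comp u ((hσ u hu).differentiableAt two_ne_zero)
      ).continuousAlternatingMapCompContinuousLinearMap
      (((hσ u hu).fderiv_right (m := 1) (by norm_num)).differentiableAt one_ne_zero)
  have key := integral_divergence_of_hasFDerivAt_off_countable' (0 : Fin (n + 1) → ℝ) 1 zero_le_one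
    (fun j u => (-1 : ℝ) ^ (j : ℕ) • g j u) (fun j u => (-1 : ℝ) ^ (j : ℕ) • fderiv ℝ (g j) u)
    ∅ countable_empty
    (fun j u hu => ((hg1 j u hu).continuousAt.const_smul ((-1 : ℝ) ^ (j : ℕ))).continuousWithinAt)
    (fun u hu j => (((hg1 j u ⟨fun a => (hu.1 a trivial).1.le, fun a => (hu.1 a trivial).2.le⟩
      ).differentiableAt one_ne_zero).hasFDerivAt.const_smul ((-1 : ℝ) ^ (j : ℕ))))
    (ContinuousOn.integrableOn_compact isCompact_Icc (continuousOn_finsetSum _ fun j _ u hu =>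
      ((((hg1 j u hu).continuousAt_fderiv (by simp)).clm_apply
        continuousAt_const).const_smul ((-1 : ℝ) ^ (j : ℕ))).continuousWithinAt))
  have hf : ∀ (j : Fin (n + 1)) (c : ℝ), c ∈ Icc (0 : ℝ) 1 →
      ∫ v in Icc (0 : Fin n → ℝ) 1, (-1 : ℝ) ^ (j : ℕ) • g j (j.insertNth c v) =
      (-1 : ℝ) ^ (j : ℕ) • ∫ v in Icc (0 : Fin n → ℝ) 1, h (σ (j.insertNth c v)) •
        μ fun b => fderiv ℝ (fun v => σ (j.insertNth c v)) v (Pi.single b 1) := by
    intro j c hc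
    rw [integral_smul]
    congr 1
    refine setIntegral_congr_fun measurableSet_Icc fun v hv => ?_
    simp only [hg0]
    congr 2
    funext b
    exact (st_face j c v ((hσ _ (st_mem j hc hv)).differentiableAt two_ne_zero) b).symm
  refine Eq.trans (setIntegral_congr_fun measurableSet_Icc fun u hu => ?_)
    (key.trans (Finset.sum_congr rfl fun j _ => ?_))
  · have h1 := congrArg (fun a => a e) (extDeriv_pullback (hωd u hu) (hσ u hu) (by simp))
    simp only [ContinuousAlternatingMap.compContinuousLinearMap_apply] at h1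
    rw [extDeriv_apply (hηd u hu), extDeriv_apply (hωd u hu)] at h1
    simp only [smul_apply, ← Int.cast_smul_eq_zsmul ℝ, Int.cast_pow,
      Int.cast_neg, Int.cast_one] at h1 ⊢
    refine Eq.trans (Finset.sum_congr rfl fun j _ => ?_) h1.symm
    congr 1
    have h2 := ((hh u hu).differentiableAt one_ne_zero).hasFDerivAt.smul_const
      (μ (j.removeNth (fderiv ℝ σ u ∘ e)))
    exact (congrArg (fun L => L (fderiv ℝ σ u (e j))) h2.fderiv).symm
  · rw [smul_sub, ← hf j 1 (by simp), ← hf j 0 (by simp)]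
    rfl

/-- the determinant as a continuous real alternating map -/
noncomputable def stDet (n : ℕ) : (Fin n → ℂ) [⋀^Fin n]→L[ℝ] ℂ :=
  ({ (Matrix.detRowAlternating : (Fin n → ℂ) [⋀^Fin n]→ₗ[ℂ] ℂ) with
    cont := Continuous.matrix_det (A := fun v : Fin n → Fin n → ℂ => Matrix.of v)
      continuous_id } : (Fin n → ℂ) [⋀^Fin n]→L[ℂ] ℂ).restrictScalars ℝ

theorem stDet_apply (v : Fin n → Fin n → ℂ) : stDet n v = (Matrix.of v).det := rfl

theorem st_cramer (φ : (Fin (n + 1) → ℂ) →ₗ[ℂ] ℂ) (w : Fin (n + 1) → ℂ)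
    (J : Fin (n + 1) → Fin (n + 1) → ℂ) :
    ∑ j : Fin (n + 1), (-1 : ℂ) ^ (j : ℕ) * (φ (J j) *
      (Matrix.of (Matrix.vecCons w fun b => J (j.succAbove b))).det) =
      φ w * (Matrix.of J).det := by
  have h1 : ∀ j : Fin (n + 1), (-1 : ℂ) ^ (j : ℕ) *
      (Matrix.of (Matrix.vecCons w fun b => J (j.succAbove b))).det =
      Matrix.cramer (Matrix.of J).transpose w j := by
    intro j
    have h2 := (Matrix.detRowAlternating : (Fin (n + 1) → ℂ) [⋀^Fin (n + 1)]→ₗ[ℂ] ℂ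
      ).map_insertNth j w fun b => J (j.succAbove b)
    rw [Matrix.cramer_transpose_apply]
    have h3 : (j.insertNth w fun b => J (j.succAbove b) : Fin (n + 1) → Fin (n + 1) → ℂ) =
        (Matrix.of J).updateRow j w := by
      funext a
      induction a using j.succAboveCases with
      | x => simp
      | p b => simp; rfl
    rw [h3] at h2
    refine Eq.trans ?_ h2.symm
    simp only [zsmul_eq_mul, Int.cast_pow, Int.cast_neg, Int.cast_one]
    rfl
  have h4 := congrArg φ (Matrix.mulVec_cramer (Matrix.of J).transpose w)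
  rw [map_smul, smul_eq_mul, Matrix.det_transpose, mul_comm] at h4
  rw [← h4, Matrix.mulVec_transpose, Matrix.vecMul_eq_sum, map_sum]
  refine Finset.sum_congr rfl fun j _ => ?_
  rw [map_smul, ← h1, smul_eq_mul]
  change _ = _ * φ (J j)
  ring

/-- the theorem of Stokes for a directional derivative times the volume form -/
theorem st_cube (h : (Fin (n + 1) → ℂ) → ℂ) (w : Fin (n + 1) → ℂ)
    (σ : (Fin (n + 1) → ℝ) → Fin (n + 1) → ℂ)
    (hσ : ∀ u ∈ Icc (0 : Fin (n + 1) → ℝ) 1, ContDiffAt ℝ 2 σ u)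
    (hh : ∀ u ∈ Icc (0 : Fin (n + 1) → ℝ) 1, ContDiffAt ℂ 1 h (σ u)) :
    ∫ u in Icc (0 : Fin (n + 1) → ℝ) 1, fderiv ℂ h (σ u) w *
        (Matrix.of fun b => fderiv ℝ σ u (Pi.single b 1)).det =
      ∑ j : Fin (n + 1), (-1 : ℂ) ^ (j : ℕ) *
        ((∫ v in Icc (0 : Fin n → ℝ) 1, h (σ (j.insertNth 1 v)) * (Matrix.of (Matrix.vecCons w
          fun b => fderiv ℝ (fun v => σ (j.insertNth 1 v)) v (Pi.single b 1))).det) -
        ∫ v in Icc (0 : Fin n → ℝ) 1, h (σ (j.insertNth 0 v)) * (Matrix.of (Matrix.vecCons w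
          fun b => fderiv ℝ (fun v => σ (j.insertNth 0 v)) v (Pi.single b 1))).det) := by
  have key := st_form ((stDet (n + 1)).curryLeft w) h σ hσ
    fun u hu => (hh u hu).restrict_scalars ℝ
  simp only [ContinuousAlternatingMap.curryLeft_apply_apply, stDet_apply, smul_eq_mul,
    Complex.real_smul, Complex.ofReal_pow, Complex.ofReal_neg, Complex.ofReal_one] at key
  rw [← key]
  refine setIntegral_congr_fun measurableSet_Icc fun u hu => ?_
  have h1 := ((hh u hu).differentiableAt one_ne_zero).fderiv_restrictScalars ℝ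
  simp only [h1, ContinuousLinearMap.coe_restrictScalars']
  exact (st_cramer (fderiv ℂ h (σ u)).toLinearMap w fun b => fderiv ℝ σ u (Pi.single b 1)).symm

/-- the integral over a face depends only on the values on the closed cube -/
theorem st_congr (h : (Fin (n + 1) → ℂ) → ℂ) (w : Fin (n + 1) → ℂ)
    {τ τ' : (Fin n → ℝ) → Fin (n + 1) → ℂ} (e : EqOn τ τ' (Icc 0 1)) :
    ∫ v in Icc (0 : Fin n → ℝ) 1, h (τ v) * (Matrix.of (Matrix.vecCons w
        fun b => fderiv ℝ τ v (Pi.single b 1))).det =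
      ∫ v in Icc (0 : Fin n → ℝ) 1, h (τ' v) * (Matrix.of (Matrix.vecCons w
        fun b => fderiv ℝ τ' v (Pi.single b 1))).det := by
  have h1 : Icc (0 : Fin n → ℝ) 1 =ᵐ[volume] univ.pi fun _ => Ioo (0 : ℝ) 1 :=
    (Measure.univ_pi_Ioo_ae_eq_Icc (f := (0 : Fin n → ℝ)) (g := 1)).symm
  have h2 : IsOpen (univ.pi fun _ : Fin n => Ioo (0 : ℝ) 1) :=
    isOpen_set_pi finite_univ fun _ _ => isOpen_Ioo
  have h3 : (univ.pi fun _ : Fin n => Ioo (0 : ℝ) 1) ⊆ Icc 0 1 := fun v hv =>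
    ⟨fun a => (hv a trivial).1.le, fun a => (hv a trivial).2.le⟩
  rw [setIntegral_congr_set h1, setIntegral_congr_set h1]
  refine setIntegral_congr_fun h2.measurableSet fun v hv => ?_
  have h4 : τ =ᶠ[𝓝 v] τ' := (e.mono h3).eventuallyEq_of_mem (h2.mem_nhds hv)
  simp only [h4.fderiv_eq, h4.self_of_nhds]

/-- exact forms have no periods: faces compared through any map `r` that sees the closed cube -/
theorem st_cycle {ι X : Type} (s : Finset ι) (a : ι → ℤ)
    (σ : ι → (Fin (n + 1) → ℝ) → Fin (n + 1) → ℂ) (r : ((Fin n → ℝ) → Fin (n + 1) → ℂ) → X)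
    (hr : ∀ τ τ', r τ = r τ' → EqOn τ τ' (Icc 0 1))
    (hz : ∑ c ∈ s, ∑ j : Fin (n + 1), (a c * (-1) ^ (j : ℕ)) •
      (Finsupp.single (r fun v => σ c (j.insertNth 1 v)) (1 : ℤ) -
        Finsupp.single (r fun v => σ c (j.insertNth 0 v)) (1 : ℤ)) = 0)
    (h : (Fin (n + 1) → ℂ) → ℂ) (w : Fin (n + 1) → ℂ)
    (hσ : ∀ c ∈ s, ∀ u ∈ Icc (0 : Fin (n + 1) → ℝ) 1, ContDiffAt ℝ 2 (σ c) u)
    (hh : ∀ c ∈ s, ∀ u ∈ Icc (0 : Fin (n + 1) → ℝ) 1, ContDiffAt ℂ 1 h (σ c u)) :
    ∑ c ∈ s, (a c : ℂ) * ∫ u in Icc (0 : Fin (n + 1) → ℝ) 1, fderiv ℂ h (σ c u) w *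
        (Matrix.of fun b => fderiv ℝ (σ c) u (Pi.single b 1)).det = 0 := by
  classical
  set Φ : ((Fin n → ℝ) → Fin (n + 1) → ℂ) → ℂ := fun τ => ∫ v in Icc (0 : Fin n → ℝ) 1,
    h (τ v) * (Matrix.of (Matrix.vecCons w fun b => fderiv ℝ τ v (Pi.single b 1))).det with hΦ
  have h1 : ∀ τ, Φ (Function.invFun r (r τ)) = Φ τ := fun τ =>
    st_congr h w (hr _ _ (Function.invFun_eq ⟨τ, rfl⟩))
  have h2 := congrArg (Finsupp.linearCombination ℤ fun x => Φ (Function.invFun r x)) hz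
  simp only [map_sum, map_smul, map_sub, Finsupp.linearCombination_single, one_smul, h1,
    map_zero, zsmul_eq_mul, Int.cast_mul, Int.cast_pow, Int.cast_neg, Int.cast_one] at h2
  rw [← h2]
  refine Finset.sum_congr rfl fun c hc => ?_
  rw [st_cube h w (σ c) (hσ c hc) (hh c hc), Finset.mul_sum]
  exact Finset.sum_congr rfl fun j _ => (mul_assoc _ _ _).symm

end Pool.Agent.Lib.MP_5591bc_ag.St
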