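import Pool.Agent.Lib.MP_5591bc_ag.Hy.St
import Pool.Agent.Lib.MP_5591bc_ag.Hy.Per

/-! The theorem of Stokes for cubes. -/

namespace Pool.Agent.Lib.MP_5591bc_ag.Hy

open MvPolynomial Set Filter Topology Matrix M Cu Cv

noncomputable section

variable {N n : ℕ} {S S' : Set (Fin (N + 1) → ℂ)} {c : Ch N} {a a' g : (Fin (N + 1) → ℂ) → ℂ}

theorem stokes (h : Cyc S c) (hg : ∀ x ∈ S, AnalyticAt ℂ g x) (i : Fin (N + 1)) :
    per (fun x => fderiv ℂ g x (Pi.single i 1)) c = 0 := by
  refine St.st_cycle c.support c (fun γ => γ) id (fun _ _ e v _ => congrFun e v)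
    ?_ g (Pi.single i 1) (fun γ hγ u _ => (h.1 γ hγ).1.contDiffAt)
    fun γ hγ u hu => (hg _ ((h.1 γ hγ).2 hu)).contDiffAt
  rw [← h.2, Finset.sum_comm]
  refine Finset.sum_congr rfl fun j _ => ?_
  simp only [Finsupp.mapDomain, Finsupp.sum, ← Finset.sum_sub_distrib, Finset.smul_sum]
  refine Finset.sum_congr rfl fun γ _ => ?_
  rw [mul_comm, mul_smul, smul_sub, Finsupp.smul_single_one, Finsupp.smul_single_one]
  rfl

theorem stk_an (Q : MvPolynomial (Fin (N + 1)) ℂ) (x : Fin (N + 1) → ℂ) :
    AnalyticAt ℂ (fun x => eval x Q) x := AnalyticOnNhd.eval_mvPolynomial Q x (mem_univ _)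

theorem stk_pd (Q : MvPolynomial (Fin (N + 1)) ℂ) (x : Fin (N + 1) → ℂ) (i : Fin (N + 1)) :
    fderiv ℂ (fun x => eval x Q) x (Pi.single i 1) = eval x (pderiv i Q) := by
  induction Q using MvPolynomial.induction_on with
  | C a => simp
  | add p q hp hq =>
    simp only [map_add]
    rw [fderiv_fun_add (stk_an p x).differentiableAt (stk_an q x).differentiableAt]
    simp [hp, hq]
  | mul_X p l hp =>
    simp only [map_mul, eval_X]
    rw [fderiv_fun_mul (stk_an p x).differentiableAt (differentiableAt_apply l x),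
      (hasFDerivAt_apply l x).fderiv]
    simp [hp, Pi.single_apply, pderiv_X, apply_ite (eval x), eq_comm]

theorem stk_rat {f : MvPolynomial (Fin (N + 1)) ℂ} (h : Cyc {x | eval x f ≠ 0} c)
    (Q : MvPolynomial (Fin (N + 1)) ℂ) (m : ℕ) (i : Fin (N + 1)) :
    per (fun x => eval x (pderiv i Q) / eval x f ^ m) c =
      m * per (fun x => eval x (Q * pderiv i f) / eval x f ^ (m + 1)) c := by
  have h0 : ∀ (P : MvPolynomial (Fin (N + 1)) ℂ) (k : ℕ), ∀ x ∈ {x | eval x f ≠ 0},
      AnalyticAt ℂ (fun x => eval x P / eval x f ^ k) x := fun P k x hx =>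
    (stk_an P x).div ((stk_an f x).pow k) (pow_ne_zero k hx)
  have h1 := stokes h (h0 Q m) i
  rw [← per_mul, ← zero_add (per (fun x => (m : ℂ) * _) c), ← h1, ← per_add h]
  · refine per_congr h fun x hx => ?_
    have hx' : eval x f ≠ 0 := hx
    have h2 : (fun x => eval x Q) =ᶠ[𝓝 x] fun x => eval x Q / eval x f ^ m * eval x f ^ m := by
      filter_upwards [(stk_an f x).continuousAt.eventually_ne hx'] with y hy
      rw [div_mul_cancel₀ _ (pow_ne_zero m hy)]
    have h3 := stk_pd Q x i
    rw [h2.fderiv_eq, fderiv_fun_mul (h0 Q m x hx).differentiableAt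
      ((stk_an f x).differentiableAt.fun_pow m), fderiv_fun_pow m (stk_an f x).differentiableAt] at h3
    simp only [_root_.add_apply, _root_.smul_apply, stk_pd, smul_eq_mul, nsmul_eq_mul] at h3
    rw [← h3, map_mul]
    rcases m with _ | m
    · simp
    · simp only [Nat.add_sub_cancel]
      generalize fderiv ℂ (fun x => eval x Q / eval x f ^ (m + 1)) x (Pi.single i 1) = z
      field_simp
      ring
  · exact fun x hx => (((h0 Q m x hx).fderiv.continuousAt).clm_apply
      continuousAt_const).continuousWithinAt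
  · exact fun x hx => (continuousAt_const.mul (h0 _ _ x hx).continuousAt).continuousWithinAt

end

end Pool.Agent.Lib.MP_5591bc_ag.Hy
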