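import Pool.Agent.Lib.MP_5591bc_ag.Hy.Nab
import Pool.Agent.Lib.MP_5591bc_ag.Cv.Tame

/-! The Taylor coefficients of a form. -/

namespace Pool.Agent.Lib.MP_5591bc_ag.Hy

open MvPolynomial Matrix Cu Cv

noncomputable section

variable {ι σ ν F : Type} [Field F] [Fintype ι] [DecidableEq ι] [Fintype σ] [DecidableEq σ]
  [Fintype ν] [DecidableEq ν] {n δ : ℕ} {G A : MvPolynomial ι F} {R : Subring ℂ}
  {D : σ → F →+ F} {j : F →+* MvPowerSeries σ ℂ} {p : (ι →₀ ℕ) → MvPowerSeries σ ℂ}
  {c : (ι →₀ ℕ) → (ι → Fin (n + 1)) → HahnSeries ℤ F}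

omit [Fintype σ] [DecidableEq σ] in
theorem DF.isD (h : DF R D j) (l : σ) : IsD (D l) := by
  intro a b
  apply j.injective
  rw [h.der, map_mul, Derivation.leibniz, map_add, map_mul, map_mul, h.der, h.der, smul_eq_mul,
    smul_eq_mul, mul_comm (j b)]

omit [Fintype σ] [DecidableEq σ] in
theorem DF.comm (h : DF R D j) (l l' : σ) (x : F) : D l (D l' x) = D l' (D l x) := by
  apply j.injective
  rw [h.der, h.der, h.der, h.der]
  ext κ
  by_cases e : l = l'
  · rw [e]
  · rw [MvPowerSeries.coeff_pderiv, MvPowerSeries.coeff_pderiv, MvPowerSeries.coeff_pderiv,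
      MvPowerSeries.coeff_pderiv, add_right_comm κ, Finsupp.add_apply, Finsupp.add_apply,
      Finsupp.single_eq_of_ne e, Finsupp.single_eq_of_ne' e, add_zero, add_zero]
    ring

omit [Fintype σ] [DecidableEq σ] in
theorem DF.alg (h : DF R D j) (x : F) : IsAlgebraic R (ep j x) := by
  exact tm_alg (h.tame x)

omit [Fintype σ] in
theorem tay_wk_app (w : List σ) (l : σ) : wk (w ++ [l]) = wk w + Finsupp.single l 1 := by
  rw [wk, wk, ← Multiset.coe_add, map_add, Multiset.coe_singleton, Multiset.toFinsupp_singleton]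

omit [Fintype σ] in
theorem tay_wk_apply (w : List σ) (l : σ) : wk w l = w.count l := by
  rw [wk, Multiset.toFinsupp_apply, Multiset.coe_count]

omit [Fintype σ] in
theorem wk_degree (w : List σ) : (wk w).degree = w.length := by
  induction w using List.reverseRecOn with
  | nil => simp [wk]
  | append_singleton w l ih => rw [tay_wk_app, map_add, ih, Finsupp.degree_single]; simp

omit [Fintype σ] in
theorem wk_surj (κ : σ →₀ ℕ) : ∃ w, wk w = κ := by
  exact ⟨κ.toMultiset.toList, by rw [wk, Multiset.coe_toList, Finsupp.toMultiset_toFinsupp]⟩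

theorem wf_pos (w : List σ) : 0 < wf w := by
  exact Finset.prod_pos fun _ _ => Nat.factorial_pos _

theorem wf_dvd (k : ℕ) (l : σ) (w : List σ) : k.factorial ∣ wf (List.replicate k l ++ w) := by
  refine (Nat.factorial_dvd_factorial ?_).trans
    (Finset.dvd_prod_of_mem (fun l' => ((List.replicate k l ++ w).count l').factorial)
      (Finset.mem_univ l))
  rw [List.count_append, List.count_replicate_self]
  omega

theorem tay_wf_app (w : List σ) (l : σ) : wf (w ++ [l]) = wf w * (w.count l + 1) := by
  have e : ∀ l', ((w ++ [l]).count l').factorial =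
      (w.count l').factorial * if l' = l then w.count l + 1 else 1 := fun l' => by
    rw [List.count_append]
    split_ifs with h
    · rw [h, List.count_singleton_self, Nat.factorial_succ, mul_comm]
    · rw [List.count_eq_zero_of_not_mem (l := [l]) (by simpa using h), add_zero, mul_one]
  rw [wf, wf, Finset.prod_congr rfl fun l' _ => e l', Finset.prod_mul_distrib, Finset.prod_ite_eq',
    if_pos (Finset.mem_univ l)]

theorem dw_coeff (w : List σ) (g : MvPowerSeries σ ℂ) :
    MvPowerSeries.constantCoeff (w.foldr (fun l g => MvPowerSeries.pderiv ℂ l g) g) =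
      wf w * MvPowerSeries.coeff (wk w) g := by
  induction w using List.reverseRecOn generalizing g with
  | nil => simp [wf, wk]
  | append_singleton w l ih =>
    rw [List.foldr_append, List.foldr_cons, List.foldr_nil, ih, MvPowerSeries.coeff_pderiv,
      tay_wk_app, tay_wf_app, tay_wk_apply]
    push_cast
    ring

/-- the coefficients of the iterated connection -/
def tayA (D : σ → F →+ F) (G A : MvPolynomial ι F) : List σ → ℕ → MvPolynomial ι F
  | [], 0 => A
  | [], _ + 1 => 0
  | l :: w, 0 => dm (D l) (tayA D G A w 0)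
  | l :: w, i + 1 => dm (D l) (tayA D G A w (i + 1)) + tayA D G A w i * dm (D l) G

omit [Fintype ι] [DecidableEq ι] [Fintype σ] [DecidableEq σ] in
theorem tayA_zero (w : List σ) : ∀ i, w.length < i → tayA D G A w i = 0 := by
  induction w with
  | nil =>
    intro i hi
    obtain ⟨k, rfl⟩ := Nat.exists_eq_succ_of_ne_zero (Nat.ne_of_gt hi)
    rfl
  | cons l w ih =>
    intro i hi
    rw [List.length_cons] at hi
    obtain ⟨k, rfl⟩ : ∃ k, i = k + 1 := ⟨i - 1, by omega⟩
    rw [tayA, ih (k + 1) (by omega), ih k (by omega), map_zero, zero_mul, add_zero]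

omit [Fintype ι] [DecidableEq ι] [Fintype σ] [DecidableEq σ] in
theorem tayA_hom (hG : G.IsHomogeneous (n + 2)) (hA : A.IsHomogeneous δ) (w : List σ) :
    ∀ i, (tayA D G A w i).IsHomogeneous (δ + (n + 2) * i) := by
  induction w with
  | nil =>
    rintro (_ | i)
    · exact hA
    · exact isHomogeneous_zero _ _ _
  | cons l w ih =>
    rintro (_ | i)
    · exact dm_hom _ (ih 0)
    · refine (dm_hom _ (ih (i + 1))).add ?_
      rw [Nat.mul_succ, ← add_assoc]
      exact (ih i).mul (dm_hom _ hG)

omit [Fintype ι] [DecidableEq ι] [Fintype σ] [DecidableEq σ] in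
theorem tayA_sum {S : Type*} [CommRing S] (φ : MvPolynomial ι F →+* S) (N : σ → S →+ S)
    (T : ℕ → S)
    (hN : ∀ l P k, N l (T k * φ P) = T k * φ (dm (D l) P) + T (k + 1) * φ (P * dm (D l) G))
    (w : List σ) : w.foldr (fun l x => N l x) (T 0 * φ A) =
      ∑ k ∈ Finset.range (w.length + 1), T k * φ (tayA D G A w k) := by
  induction w with
  | nil => simp [tayA]
  | cons l w ih =>
    rw [List.foldr_cons, ih, map_sum, Finset.sum_congr rfl fun k _ => hN l _ k,
      Finset.sum_add_distrib, List.length_cons, Finset.sum_range_succ' _ (w.length + 1)]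
    simp only [tayA, map_add, mul_add]
    rw [Finset.sum_add_distrib, Finset.sum_range_succ (fun k => T (k + 1) *
      φ (dm (D l) (tayA D G A w (k + 1)))), tayA_zero w _ (Nat.lt_succ_self _), map_zero, map_zero,
      mul_zero, add_zero, Finset.sum_range_succ' _ w.length]
    ring

/-- the derivative in one variable as an additive map -/
def tayP (l : σ) : MvPowerSeries σ ℂ →+ MvPowerSeries σ ℂ :=
  (MvPowerSeries.pderiv ℂ l).toLinearMap.toAddMonoidHom

omit [Fintype σ] [DecidableEq σ] in
theorem tayP_isD (l : σ) : IsD (tayP l) := fun a b => by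
  change MvPowerSeries.pderiv ℂ l (a * b) =
    a * MvPowerSeries.pderiv ℂ l b + MvPowerSeries.pderiv ℂ l a * b
  rw [Derivation.leibniz, smul_eq_mul, smul_eq_mul, mul_comm b]

omit [Fintype ι] [DecidableEq ι] [Fintype σ] [DecidableEq σ] in
theorem tayP_fold (w : List σ) (v : ι →₀ ℕ) (P : MvPolynomial ι (MvPowerSeries σ ℂ)) :
    coeff v (w.foldr (fun l x => dm (tayP l) x) P) =
      w.foldr (fun l g => MvPowerSeries.pderiv ℂ l g) (coeff v P) := by
  induction w with
  | nil => rfl
  | cons l w ih => rw [List.foldr_cons, List.foldr_cons, coeff_dm, ih]; rfl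

theorem tay_step {S : Type*} [CommRing S] {E : S →+ S} (hE : IsD E) (H x : S) (i k : ℕ) :
    E (i.descFactorial k * H ^ (i - k) * x) = i.descFactorial k * H ^ (i - k) * E x +
      i.descFactorial (k + 1) * H ^ (i - (k + 1)) * (x * E H) := by
  rw [hE, hE, hE.nat, zero_mul, add_zero, Nat.descFactorial_succ]
  congr 1
  rcases e : i - k with _ | m
  · rw [pow_zero, hE.one]
    simp
  · rw [hE.pow, show i - (k + 1) = m by omega]
    push_cast
    ring

omit [Fintype ι] [DecidableEq ι] in
theorem tay_ex (h : DF R D j) (hG : G.IsHomogeneous (n + 2)) (w : List σ) {δ : ℕ}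
    {A : MvPolynomial ι F} (hA : A.IsHomogeneous δ) : ∃ a : ℕ → MvPolynomial ι F,
      (∀ i, (a i).IsHomogeneous (δ + (n + 2) * i)) ∧
      nw D G w (A.map HahnSeries.C) =
        ∑ i ∈ Finset.range (w.length + 1), C (si F ^ i) * (a i).map HahnSeries.C ∧
      ∀ i v, (i.factorial : ℂ) * ep j (coeff v (a i)) = wf w * MvPowerSeries.coeff (wk w)
        (coeff v (A.map j * (G.map j - G.map (MvPowerSeries.C.comp (ep j))) ^ i)) := by
  refine ⟨tayA D G A w, tayA_hom hG hA w, ?_, fun i v => ?_⟩
  · have hs : ∀ l k, dh (D l) (si F ^ k) = 0 := fun l k => by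
      rcases k with _ | k
      · rw [pow_zero, (h.isD l).dh.one]
      · rw [(h.isD l).dh.pow, (h.isD l).dh_si, mul_zero]
    let N : σ → MvPolynomial ι (HahnSeries ℤ F) →+ MvPolynomial ι (HahnSeries ℤ F) :=
      fun l => AddMonoidHom.mk' (nb (D l) G) fun x y => by rw [nb, nb, nb, map_add]; ring
    have := tayA_sum (D := D) (G := G) (A := A) (MvPolynomial.map HahnSeries.C) N (fun k => C (si F ^ k))
      (fun l P k => by
        change nb (D l) G _ = _
        rw [nb, (h.isD l).dh.dm, dm_C, hs, map_zero, zero_mul, add_zero,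
          dm_map (D := D l) (fun a => dh_C (D l) a), pow_succ, map_mul, map_mul]
        ring) w
    rw [pow_zero, map_one, one_mul] at this
    exact this
  · set H := G.map j - G.map (MvPowerSeries.C.comp (ep j)) with hH
    have hd : ∀ l (P : MvPolynomial ι F), dm (tayP l) (P.map j) = (dm (D l) P).map j :=
      fun l P => dm_map (fun a => (h.der l a).symm) P
    have hH1 : ∀ l, dm (tayP l) H = (dm (D l) G).map j := fun l => by
      rw [hH, map_sub, hd, sub_eq_self]
      ext1 u
      rw [coeff_dm, coeff_map, coeff_zero]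
      exact MvPowerSeries.pderiv_C
    have hH0 : H.map MvPowerSeries.constantCoeff = 0 := by
      rw [hH, map_sub, MvPolynomial.map_map, MvPolynomial.map_map, sub_eq_zero]
      congr 1
    have := tayA_sum (D := D) (G := G) (A := A) (MvPolynomial.map j) (fun l => dm (tayP l))
      (fun k => (i.descFactorial k : MvPolynomial ι (MvPowerSeries σ ℂ)) * H ^ (i - k))
      (fun l P k => by
        rw [map_mul (MvPolynomial.map j), ← hd l P, ← hH1]
        exact tay_step (IsD.dm (tayP_isD l)) H _ i k) w
    have hc : ∀ P : MvPolynomial ι (MvPowerSeries σ ℂ), MvPowerSeries.constantCoeff (coeff v P) =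
        coeff v (P.map MvPowerSeries.constantCoeff) := fun P => (coeff_map _ _ _).symm
    rw [Nat.descFactorial_zero, Nat.cast_one, one_mul, Nat.sub_zero, mul_comm] at this
    rw [← dw_coeff, ← tayP_fold, this, hc, map_sum, Finset.sum_eq_single i]
    · rw [Nat.sub_self, pow_zero, mul_one, Nat.descFactorial_self, map_mul, map_natCast,
        MvPolynomial.map_map,
        ← nsmul_eq_mul, ← nsmul_eq_mul, coeff_smul, coeff_map]
    · intro k _ hk
      rcases Nat.lt_or_gt_of_ne hk with e | e
      · rw [map_mul, map_mul, map_pow, hH0, zero_pow (by omega), mul_zero, zero_mul]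
      · rw [Nat.descFactorial_of_lt e, Nat.cast_zero, zero_mul, zero_mul, map_zero]
    · intro hi
      rw [tayA_zero w i (by simpa using hi), map_zero, mul_zero, map_zero]

end

end Pool.Agent.Lib.MP_5591bc_ag.Hy
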