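import Pool.Agent.Lib.MP_5591bc_ag.Hy.Tay

/-! Denominators of the Taylor coefficients. -/

namespace Pool.Agent.Lib.MP_5591bc_ag.Hy

open MvPolynomial Matrix Cu Cv

noncomputable section

variable {ι σ ν F : Type} [Field F] [Fintype ι] [DecidableEq ι] [Fintype σ] [DecidableEq σ]
  [Fintype ν] [DecidableEq ν] {n δ : ℕ} {G A : MvPolynomial ι F} {R : Subring ℂ}
  {D : σ → F →+ F} {j : F →+* MvPowerSeries σ ℂ} {p : (ι →₀ ℕ) → MvPowerSeries σ ℂ}
  {c : (ι →₀ ℕ) → (ι → Fin (n + 1)) → HahnSeries ℤ F}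

/-- the series which are integral after the scaling of the variables by `b` -/
def tayI_S (σ : Type) [DecidableEq σ] (R : Subring ℂ) (b : ℂ) : Subring (MvPowerSeries σ ℂ) where
  carrier := {g | ∀ κ : σ →₀ ℕ, IsIntegral R (b ^ κ.degree * MvPowerSeries.coeff κ g)}
  zero_mem' := fun κ => by simpa using isIntegral_zero
  one_mem' := fun κ => by
    rw [MvPowerSeries.coeff_one]
    split_ifs with h
    · subst h
      simpa using isIntegral_one
    · simpa using isIntegral_zero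
  add_mem' := fun ha hb κ => by
    rw [map_add, mul_add]
    exact (ha κ).add (hb κ)
  neg_mem' := fun ha κ => by
    rw [map_neg, mul_neg]
    exact (ha κ).neg
  mul_mem' := fun {x y} ha hb κ => by
    rw [MvPowerSeries.coeff_mul, Finset.mul_sum]
    refine IsIntegral.sum _ fun q hq => ?_
    rw [← Finset.HasAntidiagonal.mem_antidiagonal.1 hq, map_add, pow_add, mul_mul_mul_comm]
    exact (ha q.1).mul (hb q.2)

omit [Fintype ι] in
theorem tayI_mul {Λ : Type*} [CommRing Λ] {S : Subring Λ} {P Q : MvPolynomial ι Λ}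
    (hP : ∀ v, coeff v P ∈ S) (hQ : ∀ v, coeff v Q ∈ S) (v : ι →₀ ℕ) : coeff v (P * Q) ∈ S := by
  rw [coeff_mul]
  exact sum_mem fun q _ => S.mul_mem (hP _) (hQ _)

omit [Fintype ι] in
theorem tayI_pow {Λ : Type*} [CommRing Λ] {S : Subring Λ} {P : MvPolynomial ι Λ}
    (hP : ∀ v, coeff v P ∈ S) (i : ℕ) : ∀ v, coeff v (P ^ i) ∈ S := by
  induction i with
  | zero =>
    intro v
    rw [pow_zero, coeff_one]
    split_ifs
    exacts [S.one_mem, S.zero_mem]
  | succ i ih =>
    rw [pow_succ]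
    exact tayI_mul ih hP

omit [Fintype σ] [DecidableEq σ] in
theorem tayI_com (h : ∀ x, Tame R (j x)) (s : Finset F) : ∃ b ∈ R, b ≠ 0 ∧ ∀ x ∈ s,
    ∀ κ : σ →₀ ℕ, IsIntegral R (b ^ (κ.degree + 1) * MvPowerSeries.coeff κ (j x)) := by
  classical
  choose b hb b0 hi using h
  refine ⟨∏ x ∈ s, b x, prod_mem fun x _ => hb x, Finset.prod_ne_zero_iff.2 fun x _ => b0 x,
    fun x hx κ => ?_⟩
  rw [← Finset.mul_prod_erase _ _ hx, mul_comm (b x), mul_pow, mul_assoc]
  exact ((isIntegral_algebraMap (x := (⟨_, prod_mem fun y _ => hb y⟩ : R))).pow _).mul (hi x κ)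

omit [Fintype ι] [Fintype σ] in
theorem tay_int (h : DF R D j) (A G : MvPolynomial ι F) : ∃ b ∈ R, b ≠ 0 ∧
    ∀ (i : ℕ) (v : ι →₀ ℕ) (κ : σ →₀ ℕ), IsIntegral R (b ^ (κ.degree + 1) * MvPowerSeries.coeff κ
      (coeff v (A.map j * (G.map j - G.map (MvPowerSeries.C.comp (ep j))) ^ i))) := by
  classical
  obtain ⟨b, hb, b0, hi⟩ := tayI_com h.tame (insert 0 (A.coeffs ∪ G.coeffs))
  have ib : IsIntegral R b := isIntegral_algebraMap (x := (⟨b, hb⟩ : R))
  have mA : ∀ v, coeff v A ∈ insert 0 (A.coeffs ∪ G.coeffs) := fun v => by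
    by_cases e : coeff v A = 0
    · rw [e]
      exact Finset.mem_insert_self _ _
    · exact Finset.mem_insert_of_mem (Finset.mem_union_left _ (coeff_mem_coeffs v e))
  have mG : ∀ v, coeff v G ∈ insert 0 (A.coeffs ∪ G.coeffs) := fun v => by
    by_cases e : coeff v G = 0
    · rw [e]
      exact Finset.mem_insert_self _ _
    · exact Finset.mem_insert_of_mem (Finset.mem_union_right _ (coeff_mem_coeffs v e))
  have hA : ∀ v, coeff v (C (MvPowerSeries.C b) * A.map j) ∈ tayI_S σ R (b ^ 2) := fun v κ => by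
    rw [coeff_C_mul, coeff_map, MvPowerSeries.coeff_C_mul]
    have := (ib.pow κ.degree).mul (hi _ (mA v) κ)
    rwa [← mul_assoc, pow_succ, ← mul_assoc, ← mul_pow, ← pow_two, mul_assoc] at this
  have hG : ∀ v, coeff v (G.map j - G.map (MvPowerSeries.C.comp (ep j))) ∈ tayI_S σ R (b ^ 2) :=
    fun v κ => by
    rw [coeff_sub, coeff_map, coeff_map, map_sub, RingHom.comp_apply, MvPowerSeries.coeff_C]
    split_ifs with e
    · subst e
      simpa using isIntegral_zero
    · obtain ⟨k, hk⟩ : ∃ k, κ.degree = k + 1 :=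
        Nat.exists_eq_succ_of_ne_zero fun e' => e ((Finsupp.degree_eq_zero_iff κ).1 e')
      have := (ib.pow k).mul (hi _ (mG v) κ)
      rw [hk] at this ⊢
      rwa [sub_zero, ← pow_mul, show 2 * (k + 1) = k + (k + 1 + 1) by ring, pow_add, mul_assoc]
  refine ⟨b ^ 2, pow_mem hb 2, pow_ne_zero 2 b0, fun i v κ => ?_⟩
  have := tayI_mul hA (tayI_pow hG i) v κ
  rw [mul_assoc, coeff_C_mul, MvPowerSeries.coeff_C_mul] at this
  rw [pow_succ, pow_two b, mul_assoc, mul_assoc, mul_left_comm, ← pow_two b]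
  exact ib.mul this

end

end Pool.Agent.Lib.MP_5591bc_ag.Hy
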