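import Pool.Agent.Lib.MP_5591bc_ag.Hy.UniA
import Pool.Agent.Lib.MP_5591bc_ag.Hy.Red

/-! The condition of Galochkin for the deformation of the Fermat polynomial. -/

namespace Pool.Agent.Lib.MP_5591bc_ag.Hy

open MvPolynomial Matrix

noncomputable section

variable {ι Λ : Type*} [CommRing Λ] [Fintype ι] [DecidableEq ι] {n : ℕ} {G : MvPolynomial ι Λ} [Algebra ℚ Λ]

theorem uni_lcm {a b : ℕ} (h : a ≤ b) : Nat.lcmUpto a ∣ Nat.lcmUpto b :=
  Finset.lcm_mono (Finset.Icc_subset_Icc_right h)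

omit [Algebra ℚ Λ] in
theorem uni_dvd {O : Subring Λ} {M M' : ℕ} (h : M ∣ M') {x m : Λ}
    (hx : ∃ y ∈ O, (M : Λ) * x = m * y) : ∃ y ∈ O, (M' : Λ) * x = m * y := by
  obtain ⟨t, rfl⟩ := h
  obtain ⟨y, hy, e⟩ := hx
  refine ⟨t * y, O.mul_mem (natCast_mem O t) hy, ?_⟩
  push_cast
  linear_combination (t : Λ) * e

omit [Algebra ℚ Λ] in
theorem uni_sum {O : Subring Λ} {α : Type*} (s : Finset α) {m : Λ} {f : α → Λ}
    (h : ∀ i ∈ s, ∃ y ∈ O, f i = m * y) : ∃ y ∈ O, ∑ i ∈ s, f i = m * y := by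
  refine Finset.sum_induction _ (fun x => ∃ y ∈ O, x = m * y) ?_ ⟨0, O.zero_mem, by simp⟩ h
  rintro _ _ ⟨y, hy, rfl⟩ ⟨z, hz, rfl⟩
  exact ⟨y + z, O.add_mem hy hz, by ring⟩

omit [Algebra ℚ Λ] in
theorem uni_mul {O : Subring Λ} {M M' m : Λ} {k : ℕ} {f g : PowerSeries Λ}
    (hf : ∀ j ≤ k, ∃ y ∈ O, M * PowerSeries.coeff j f = m * y)
    (hg : ∀ j ≤ k, M' * PowerSeries.coeff j g ∈ O) :
    ∀ j ≤ k, ∃ y ∈ O, M * M' * PowerSeries.coeff j (f * g) = m * y := by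
  intro j hj
  rw [PowerSeries.coeff_mul, Finset.mul_sum]
  refine uni_sum _ fun p hp => ?_
  have hp' : p.1 + p.2 = j := by simpa using hp
  obtain ⟨y, hy, e⟩ := hf p.1 (by omega)
  exact ⟨y * (M' * PowerSeries.coeff p.2 g), O.mul_mem hy (hg p.2 (by omega)), by
    linear_combination (M' * PowerSeries.coeff p.2 g) * e⟩

omit [Algebra ℚ Λ] in
theorem uni_pow {O : Subring Λ} {τ : Polynomial Λ} (hτ : ∀ k, τ.coeff k ∈ O) (d : ℕ) :
    ∀ k, (τ ^ d).coeff k ∈ O := by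
  induction d with
  | zero =>
    intro k
    rw [pow_zero, Polynomial.coeff_one]
    split_ifs
    exacts [O.one_mem, O.zero_mem]
  | succ d ih =>
    intro k
    rw [pow_succ, Polynomial.coeff_mul]
    exact sum_mem fun p _ => O.mul_mem (ih _) (hτ _)

theorem uni {O : Subring Λ} (hG : G.IsHomogeneous (n + 2)) (hO : ∀ v, coeff v G ∈ O) :
    ∃ (τ : Polynomial Λ) (c : ℕ), τ.coeff 0 = 1 ∧ (∀ k, τ.coeff k ∈ O) ∧
      ∀ v : ι →₀ ℕ, ∃ ρ : (ι → Fin (n + 1)) → Polynomial Λ,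
        C (τ ^ (wJ n v + c)) * monomial v 1 - ∑ a, C (ρ a) * xe _ a ∈ Ex (gU n G) ∧
        ∀ a k, ∃ y ∈ O, (den n c (wJ n v) : Λ) * (ρ a).coeff k = (wJ n v).factorial * y := by
  obtain ⟨τ, c0, h0, hd, hτ, h⟩ := red_sub hG hO
  obtain ⟨c1, V, hUV, hV⟩ := uni_inv hG hO hτ fun v => by
    obtain ⟨ρ, -, h1, h2⟩ := h v
    exact ⟨ρ, h1, h2⟩
  obtain ⟨d, hdd⟩ : ∃ d, d = 2 * (c0 * c1 + c0) + 2 * Fintype.card ι := ⟨_, rfl⟩
  refine ⟨τ, d + c1 + 1, h0, hτ, fun v => ?_⟩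
  obtain ⟨ρ, hρd, -, hρ⟩ := h v
  refine ⟨fun a => τ ^ c1 * ρ a * τ ^ d, ?_, fun b k => ?_⟩
  · have e1 : τ ^ (wJ n v + (d + c1 + 1)) = τ ^ (d + c1) * τ ^ (wJ n v + 1) := by ring
    have e2 : ∀ a, τ ^ c1 * ρ a * τ ^ d = τ ^ (d + c1) * ρ a := fun a => by ring
    have := ex_C_mul (τ ^ (d + c1)) hρ
    simp only [mul_sub, Finset.mul_sum, ← mul_assoc, ← C_mul] at this
    simp only [e1, e2]
    exact this
  have hp := fun e j => phint hG hO (fun _ => 1) e v j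
  have hr := uu_rel hρ
  generalize wJ n v = J at *
  obtain ⟨k1, hk1⟩ : ∃ k1, k1 = c0 * c1 + c0 * (J + 1) := ⟨_, rfl⟩
  have key : ((τ ^ c1 * ρ b : Polynomial Λ) : PowerSeries Λ) =
      (∑ e, phv (RingHom.id Λ) (red Λ (fun _ => 1) e) G v * V b e) *
        ((τ ^ (J + 1) : Polynomial Λ) : PowerSeries Λ) := by
    have e1 : ∀ e, phv (RingHom.id Λ) (red Λ (fun _ => 1) e) G v * V b e *
        ((τ ^ (J + 1) : Polynomial Λ) : PowerSeries Λ) = ∑ a, (ρ a : PowerSeries Λ) *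
          (phv (RingHom.id Λ) (red Λ (fun _ => 1) e) G (ee a) * V b e) := by
      intro e
      rw [mul_right_comm, mul_comm (phv _ _ _ v), ← hr e, Finset.sum_mul]
      exact Finset.sum_congr rfl fun a _ => mul_assoc _ _ _
    rw [Finset.sum_mul, Finset.sum_congr rfl fun e _ => e1 e, Finset.sum_comm]
    simp only [← Finset.mul_sum, hUV, mul_ite, mul_zero, Finset.sum_ite_eq', Finset.mem_univ,
      if_true, Polynomial.coe_mul, Polynomial.coe_pow]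
    ring
  obtain ⟨M, hM⟩ : ∃ M : ℕ, M = Nat.lcmUpto (J + k1 + Fintype.card ι) ^ (2 * Fintype.card ι) *
    (n + 2) ^ (J + k1) := ⟨_, rfl⟩
  obtain ⟨M', hM'⟩ : ∃ M' : ℕ, M' = Nat.lcmUpto (k1 + c1) ^ c1 * (n + 2) ^ (k1 + c1) := ⟨_, rfl⟩
  have h1 : ∀ j ≤ k1, ∃ y ∈ O, (M : Λ) * M' * PowerSeries.coeff j
      (∑ e, phv (RingHom.id Λ) (red Λ (fun _ => 1) e) G v * V b e) = J.factorial * y := by
    intro j hj
    rw [map_sum, Finset.mul_sum]
    refine uni_sum _ fun e _ => uni_mul (k := k1) (fun i hi => uni_dvd ?_ (hp e i))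
      (fun i hi => hM' ▸ hV b e k1 i hi) j hj
    rw [hM]
    exact mul_dvd_mul (pow_dvd_pow_of_dvd (uni_lcm (by omega)) _) (pow_dvd_pow _ (by omega))
  have hc : ∀ (s j : ℕ), (1 : Λ) * PowerSeries.coeff j ((τ ^ s : Polynomial Λ) : PowerSeries Λ) ∈ O := by
    intro s j
    rw [one_mul, Polynomial.coeff_coe]
    exact uni_pow hτ s j
  have h2 : ∀ j, ∃ y ∈ O, (M : Λ) * M' * 1 * PowerSeries.coeff j
      ((τ ^ c1 * ρ b : Polynomial Λ) : PowerSeries Λ) = J.factorial * y := by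
    intro j
    by_cases hj : j ≤ k1
    · rw [key]
      exact uni_mul h1 (fun i _ => hc _ i) j hj
    · refine ⟨0, O.zero_mem, ?_⟩
      rw [Polynomial.coeff_coe, Polynomial.coeff_eq_zero_of_natDegree_lt, mul_zero, mul_zero]
      have a1 := Polynomial.natDegree_mul_le (p := τ ^ c1) (q := ρ b)
      have a2 := Polynomial.natDegree_pow_le_of_le c1 hd
      have a3 := hρd b
      rw [mul_comm c1] at a2
      omega
  have h3 := uni_mul (k := k) (fun i _ => h2 i) (fun i _ => hc d i) k le_rfl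
  rw [← Polynomial.coe_mul, Polynomial.coeff_coe, mul_one, mul_one, ← Nat.cast_mul] at h3
  refine uni_dvd ?_ h3
  have b1 : J + 2 * k1 + c1 + Fintype.card ι ≤ (d + c1 + 1) * (J + 1) := by
    rw [hk1, hdd]
    nlinarith [Nat.zero_le (c0 * c1 * J), Nat.zero_le (Fintype.card ι * J), Nat.zero_le (c1 * J)]
  rw [hM, hM', den, mul_mul_mul_comm, ← pow_add]
  refine mul_dvd_mul ?_ (pow_dvd_pow _ (by omega))
  refine (mul_dvd_mul (pow_dvd_pow_of_dvd (uni_lcm (b := (d + c1 + 1) * (J + 1)) (by omega)) _)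
    (pow_dvd_pow_of_dvd (uni_lcm (b := (d + c1 + 1) * (J + 1)) (by omega)) _)).trans ?_
  rw [← pow_add]
  exact pow_dvd_pow _ (by omega)

end

end Pool.Agent.Lib.MP_5591bc_ag.Hy
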