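import Pool.Agent.Lib.MP_5591bc_ag.Hy.Dual
import Pool.Agent.Lib.MP_5591bc_ag.Hy.Ind
import Pool.Agent.Lib.MP_5591bc_ag.Hy.Fac

/-! The inverse of the fundamental matrix. -/

namespace Pool.Agent.Lib.MP_5591bc_ag.Hy

open MvPolynomial Matrix

noncomputable section

variable {ι Λ : Type*} [CommRing Λ] [Fintype ι] [DecidableEq ι] {n : ℕ} {G : MvPolynomial ι Λ} [Algebra ℚ Λ]

omit [Algebra ℚ Λ] in
theorem UniA_mul {O : Subring Λ} {p q : Polynomial Λ} (hp : ∀ k, p.coeff k ∈ O)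
    (hq : ∀ k, q.coeff k ∈ O) (k : ℕ) : (p * q).coeff k ∈ O := by
  rw [Polynomial.coeff_mul]
  exact sum_mem fun _ _ => O.mul_mem (hp _) (hq _)

omit [Algebra ℚ Λ] in
theorem UniA_pow {O : Subring Λ} {p : Polynomial Λ} (hp : ∀ k, p.coeff k ∈ O) (m : ℕ) :
    ∀ k, (p ^ m).coeff k ∈ O := by
  induction m with
  | zero =>
    intro k
    rw [pow_zero, Polynomial.coeff_one]
    split_ifs
    exacts [O.one_mem, O.zero_mem]
  | succ m ih => rw [pow_succ]; exact UniA_mul ih hp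

theorem UniA_swap {μ R : Type*} [Fintype μ] [DecidableEq μ] [CommRing R] {U V : Matrix μ μ R}
    (hU : IsUnit U.det) {t : R} (h : Vᵀ * U = t • (1 : Matrix μ μ R)) :
    U * Vᵀ = t • (1 : Matrix μ μ R) := by
  have h1 : U * Vᵀ * (U * U⁻¹) = t • (U * U⁻¹) := by
    rw [← Matrix.mul_assoc, Matrix.mul_assoc U, h, Matrix.mul_smul, Matrix.mul_one, Matrix.smul_mul]
  rwa [Matrix.mul_nonsing_inv U hU, Matrix.mul_one] at h1

theorem UniA_dvd {J i N k c : ℕ} (n : ℕ) (hi : i ≤ k) (h1 : J + N ≤ c) (h2 : 2 * N ≤ c) :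
    Nat.lcmUpto (J + i + N) ^ (2 * N) * (n + 2) ^ (J + i) ∣
      Nat.lcmUpto (k + c) ^ c * (n + 2) ^ (k + c) := by
  refine mul_dvd_mul ((pow_dvd_pow_of_dvd ?_ _).trans (pow_dvd_pow _ h2)) (pow_dvd_pow _ (by omega))
  exact Finset.lcm_mono (Finset.Icc_subset_Icc_right (by omega))

theorem uni_inv {O : Subring Λ} (hG : G.IsHomogeneous (n + 2)) (hO : ∀ v, coeff v G ∈ O)
    {τ : Polynomial Λ} (hτ : ∀ k, τ.coeff k ∈ O)
    (h : ∀ v : ι →₀ ℕ, ∃ ρ : (ι → Fin (n + 1)) → Polynomial Λ, (∀ a k, (ρ a).coeff k ∈ O) ∧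
      C (τ ^ (wJ n v + 1)) * monomial v 1 - ∑ a, C (ρ a) * xe _ a ∈ Ex (gU n G)) :
    ∃ (c : ℕ) (V : (ι → Fin (n + 1)) → (ι → Fin (n + 1)) → PowerSeries Λ),
      (∀ a b, ∑ e, phv (RingHom.id Λ) (red Λ (fun _ => 1) e) G (ee a) * V b e =
        if a = b then (τ : PowerSeries Λ) ^ c else 0) ∧
      ∀ b e k, ∀ j ≤ k, ((Nat.lcmUpto (k + c) ^ c * (n + 2) ^ (k + c) : ℕ) : Λ) *
        PowerSeries.coeff j (V b e) ∈ O := by
  obtain ⟨s, cx, hc, hd⟩ := dual hO n
  choose ρ hρ hx using h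
  obtain ⟨c, hc1, hc2, hc3⟩ : ∃ c : ℕ, (∀ x ∈ s, wJ n x.1 + 1 ≤ c) ∧
      (∀ x ∈ s, wJ n x.2 + Fintype.card ι ≤ c) ∧ 2 * Fintype.card ι ≤ c := by
    refine ⟨s.sup (fun x => wJ n x.1 + 1) + s.sup (fun x => wJ n x.2) + 2 * Fintype.card ι,
      fun x hx => ?_, fun x hx => ?_, by omega⟩
    · have := Finset.le_sup (f := fun x : (ι →₀ ℕ) × (ι →₀ ℕ) => wJ n x.1 + 1) hx
      omega
    · have := Finset.le_sup (f := fun x : (ι →₀ ℕ) × (ι →₀ ℕ) => wJ n x.2) hx
      omega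
  refine ⟨c, fun b e => ∑ x ∈ s,
    ((cx x * τ ^ (c - (wJ n x.1 + 1)) * ρ x.1 b : Polynomial Λ) : PowerSeries Λ) *
      phv (RingHom.id Λ) (red Λ (fun _ => -1) fun i => (e i).rev) (-G) x.2, ?_, ?_⟩
  · intro a b
    have key := UniA_swap (uu_unit n G) (t := (τ : PowerSeries Λ) ^ c)
      (V := of fun b e : ι → Fin (n + 1) => ∑ x ∈ s,
        ((cx x * τ ^ (c - (wJ n x.1 + 1)) * ρ x.1 b : Polynomial Λ) : PowerSeries Λ) *
          phv (RingHom.id Λ) (red Λ (fun _ => -1) fun i => (e i).rev) (-G) x.2) (by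
      ext1 e e'
      have hi : (∀ i, (e' i : ℕ) + ((e i).rev : ℕ) = n) ↔ e = e' := by
        constructor
        · intro h
          funext i
          have h1 := h i
          have h2 := (e i).isLt
          rw [Fin.val_rev] at h1
          exact Fin.ext (by omega)
        · rintro rfl i
          have h2 := (e i).isLt
          rw [Fin.val_rev]
          omega
      have h0 := hd e' fun i => (e i).rev
      simp only [hi] at h0
      rw [Matrix.mul_apply, Matrix.smul_apply, Matrix.one_apply, ← h0, smul_eq_mul, Finset.mul_sum]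
      simp only [transpose_apply, of_apply, Finset.sum_mul]
      rw [Finset.sum_comm]
      refine Finset.sum_congr rfl fun x hs => ?_
      have h1 := uu_rel (hx x.1) e'
      have h2 : (τ : PowerSeries Λ) ^ c =
          (τ : PowerSeries Λ) ^ (c - (wJ n x.1 + 1)) * (τ : PowerSeries Λ) ^ (wJ n x.1 + 1) := by
        rw [← pow_add, Nat.sub_add_cancel (hc1 x hs)]
      rw [Polynomial.coe_pow] at h1
      rw [h2]
      calc _ = ∑ b, (cx x : PowerSeries Λ) * (τ : PowerSeries Λ) ^ (c - (wJ n x.1 + 1)) *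
            phv (RingHom.id Λ) (red Λ (fun _ => -1) fun i => (e i).rev) (-G) x.2 *
            ((ρ x.1 b : PowerSeries Λ) *
              phv (RingHom.id Λ) (red Λ (fun _ => 1) e') G (ee b)) := by
            refine Finset.sum_congr rfl fun b _ => ?_
            rw [Polynomial.coe_mul, Polynomial.coe_mul, Polynomial.coe_pow]
            ring
        _ = _ := by
            rw [← Finset.mul_sum, h1]
            ring)
    have h3 := congrFun (congrFun key a) b
    rw [Matrix.mul_apply, Matrix.smul_apply, Matrix.one_apply, smul_eq_mul, mul_ite, mul_one,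
      mul_zero] at h3
    simpa only [transpose_apply, of_apply] using h3
  · intro b e k j hj
    rw [map_sum, Finset.mul_sum]
    refine sum_mem fun x hs => ?_
    rw [PowerSeries.coeff_mul, Finset.mul_sum]
    refine sum_mem fun i hi => ?_
    have hi2 : i.2 ≤ k := by
      have := Finset.HasAntidiagonal.mem_antidiagonal.mp hi
      omega
    obtain ⟨y, hy, hz⟩ := phint hG.neg (O := O) (fun v => by
      rw [coeff_neg]; exact O.neg_mem (hO v)) (fun _ => -1) (fun i => (e i).rev) x.2 i.2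
    obtain ⟨u, hu⟩ := UniA_dvd n hi2 (hc2 x hs) hc3
    rw [hu, Polynomial.coeff_coe, Nat.cast_mul _ u, mul_left_comm, mul_right_comm _ (u : Λ), hz]
    exact O.mul_mem (UniA_mul (UniA_mul (hc x) (UniA_pow hτ _)) (hρ _ b) _)
      (O.mul_mem (O.mul_mem (natCast_mem O _) hy) (natCast_mem O _))

end

end Pool.Agent.Lib.MP_5591bc_ag.Hy
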